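import Pool.Agent.Lib.MP_a8d7f7_al.Chain

/-!
# MP_a8d7f7_al: the definitions for the statement on three letters (helper24)
-/

set_option autoImplicit false
set_option linter.unusedSectionVars false
set_option linter.unusedVariables false

namespace ThreeLetter

open Finset Equiv FinSym

/-- the two-sided ideals of `K[FSym(Ω)]` -/
abbrev Ideals (K : Type*) [Field K] (Ω : Type*) : Type _ :=
  TwoSidedIdeal (MonoidAlgebra K (FSym Ω))

section

variable {K : Type*} [Field K] {Ω : Type*} [DecidableEq Ω]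

/-- `y` moves only letters of `X` -/
def Moves (X : Finset Ω) (y : MonoidAlgebra K (FSym Ω)) : Prop :=
  ∀ σ ∈ y.coeff.support, ∀ z, z ∉ X → (σ : Perm Ω) z = z

/-- the sum of the coefficients of `y` at the permutations which map `A` onto `B` -/
noncomputable def coeffSum (y : MonoidAlgebra K (FSym Ω)) (A B : Finset Ω) : K :=
  ∑ σ ∈ y.coeff.support.filter (fun σ : FSym Ω => A.image (σ : Perm Ω) = B), y.coeff σ

/-- `s` is a Steinberg element on the letters `R` -/
def IsSteinberg (R : Finset Ω) (s : MonoidAlgebra K (FSym Ω)) : Prop :=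
  Moves R s ∧ ∀ A ⊆ R, ∀ B ⊆ R, A.card = B.card → coeffSum s A B = (-1) ^ A.card

/-- the transposition of `a` and `b` -/
def tr (a b : Ω) : FSym Ω := ⟨swap a b, by
  change {x | swap a b x ≠ x}.Finite
  refine Set.Finite.subset (Set.toFinite {a, b}) ?_
  intro x hx
  by_contra h
  simp only [Set.mem_insert_iff, Set.mem_singleton_iff, not_or] at h
  exact hx (swap_apply_of_ne_of_ne h.1 h.2)⟩

/-- the difference `1 - (a b)` -/
noncomputable def diff (K : Type*) [Field K] {Ω : Type*} [DecidableEq Ω] (a b : Ω) :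
    MonoidAlgebra K (FSym Ω) := 1 - MonoidAlgebra.of K (FSym Ω) (tr a b)

/-- `u` is a product of `c` differences `1 - (a b)` of disjoint transpositions, and `S` is the set
of their `2 c` letters -/
inductive IsDiff (K : Type*) [Field K] {Ω : Type*} [DecidableEq Ω] :
    ℕ → Finset Ω → MonoidAlgebra K (FSym Ω) → Prop
  | zero : IsDiff K 0 ∅ 1
  | succ (c : ℕ) (S : Finset Ω) (u : MonoidAlgebra K (FSym Ω)) (a b : Ω) (hab : a ≠ b)
      (ha : a ∉ S) (hb : b ∉ S) (h : IsDiff K c S u) :
      IsDiff K (c + 1) (insert a (insert b S)) (diff K a b * u)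

/-- **The ideal `I(k, c)`**, generated by the antisymmetrizers of three letters and the products
`u * s`, where `s` is a Steinberg element on `p ^ k - 1` letters and `u` a product of `c` differences
of disjoint transpositions of other letters. -/
noncomputable def ideal (K : Type*) [Field K] (Ω : Type*) [DecidableEq Ω] (p k c : ℕ) :
    Ideals K Ω :=
  TwoSidedIdeal.span ({y | ∃ Δ : Finset Ω, Δ.card = 3 ∧ y = antisymmetrizer K Δ} ∪
    {y | ∃ (R S : Finset Ω) (u s : MonoidAlgebra K (FSym Ω)),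
      R.card = p ^ k - 1 ∧ Disjoint R S ∧ IsDiff K c S u ∧ IsSteinberg R s ∧ y = u * s})

/-- `I` is `Ann 2` or one of the ideals `I(k, c)` -/
def Listed (p : ℕ) (I : Ideals K Ω) : Prop :=
  I = Ann K Ω 2 ∨ ∃ k c, I = ideal K Ω p k c

/-- `σ` is an even permutation of a finite set of letters -/
def IsEven (σ : FSym Ω) : Prop :=
  ∃ (D : Finset Ω) (τ : Perm D), Perm.sign τ = 1 ∧ ext D τ = σ

/-- `z` is the image of `y` under the sign twist `g ↦ sgn(g) g` -/
def IsTwist (y z : MonoidAlgebra K (FSym Ω)) : Prop :=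
  ∀ σ, (IsEven σ → z.coeff σ = y.coeff σ) ∧ (¬ IsEven σ → z.coeff σ = -y.coeff σ)

/-- the sign twist of an ideal -/
noncomputable def twist (I : Ideals K Ω) : Ideals K Ω :=
  TwoSidedIdeal.span {z | ∃ y ∈ I, IsTwist y z}

/-- the kernel of `K[FSym(Ω)] → K[{1, -1}]`, `g ↦ sgn(g)`: the elements whose coefficients at the
even permutations sum to `0`, as do those at the odd permutations; it is given here by its
generators `g - 1`, `g` even -/
noncomputable def evenIdeal (K : Type*) [Field K] (Ω : Type*) [DecidableEq Ω] : Ideals K Ω :=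
  TwoSidedIdeal.span {y | ∃ σ : FSym Ω, IsEven σ ∧ y = MonoidAlgebra.of K (FSym Ω) σ - 1}

/-- the action of the group algebra on the vector space with basis the finite sets of letters -/
noncomputable def act (y : MonoidAlgebra K (FSym Ω)) (w : Finset Ω →₀ K) : Finset Ω →₀ K :=
  ∑ σ ∈ y.coeff.support, y.coeff σ • w.mapDomain (fun S => S.image (σ : Perm Ω))

/-- the lowering operator: a set is sent to the sum of its subsets with `i` letters less -/
noncomputable def low (i : ℕ) (w : Finset Ω →₀ K) : Finset Ω →₀ K :=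
  w.sum fun S a => ∑ T ∈ S.powerset.filter (fun T => T.card + i = S.card), Finsupp.single T a

/-- `w` is a combination of subsets of `D` -/
def Inside (D : Finset Ω) (w : Finset Ω →₀ K) : Prop := ∀ S ∈ w.support, S ⊆ D

/-- on the subsets of `D`, `y` maps the vectors killed by `low 1, …, low m` into the image of
`low m` -/
def Test (m : ℕ) (D : Finset Ω) (y : MonoidAlgebra K (FSym Ω)) : Prop :=
  ∀ w : Finset Ω →₀ K, Inside D w → (∀ i, 1 ≤ i → i ≤ m → low i w = 0) →
    ∃ v, Inside D v ∧ act y w = low m v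

end

/-- the inclusions between `Ann 2` and the ideals `I(k, c)` -/
def Inclusions (K : Type*) [Field K] (p : ℕ) (Ω : Type*) [DecidableEq Ω] : Prop :=
  (∀ k c, Ann K Ω 2 < ideal K Ω p k c) ∧
  (∀ k c k' c', (p = 2 → 1 ≤ k) →
    (ideal K Ω p k c ≤ ideal K Ω p k' c' ↔ k' ≤ k ∧ c' ≤ c)) ∧
  (p = 2 → ∀ c, ideal K Ω p 0 c = ideal K Ω p 1 c)

/-- the inclusions between the listed ideals and their sign twists -/
def TwistInclusions (K : Type*) [Field K] (p : ℕ) (Ω : Type*) [DecidableEq Ω] : Prop :=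
  (5 ≤ p → ∀ k c, twist (Ann K Ω 2) ≤ ideal K Ω p k c ↔ k = 0 ∧ c = 0) ∧
  (p = 3 → (∀ k c, twist (Ann K Ω 2) ≤ ideal K Ω p k c ↔ k ≤ 1 ∧ c ≤ 1) ∧
    twist (ideal K Ω p 0 1) = ideal K Ω p 1 0) ∧
  (p = 2 → ∀ I : Ideals K Ω, twist I = I)

/-- the inclusions between the listed ideals and the kernel of `K[FSym(Ω)] → K[{1, -1}]` -/
def EvenInclusions (K : Type*) [Field K] (p : ℕ) (Ω : Type*) [DecidableEq Ω] : Prop :=
  (p = 3 → evenIdeal K Ω = ideal K Ω p 1 1) ∧
  (p ≠ 3 → ¬ Ann K Ω 2 ≤ evenIdeal K Ω ∧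
    ∀ k c, evenIdeal K Ω ≤ ideal K Ω p k c ↔ ideal K Ω p 0 1 ≤ ideal K Ω p k c)

end ThreeLetter
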