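import Pool.Agent.Lib.MP_a8d7f7_al.R2.X6
import Pool.Agent.Lib.MP_a8d7f7_al.R2.Stmt

/-!
# MP_a8d7f7_al: the definitions of the statement and the ones of the proof (helper24)
-/

set_option autoImplicit false
set_option linter.unusedSectionVars false
set_option linter.unusedVariables false

namespace ThreeLetter

open Finset Equiv FinSym

variable {K : Type*} [Field K] {Ω : Type*} [DecidableEq Ω]

theorem moves_iff {X : Finset Ω} {y : MonoidAlgebra K (FSym Ω)} : Moves X y ↔ Rank2.On X y :=
  Iff.rfl

theorem isSteinberg_iff {R : Finset Ω} {s : MonoidAlgebra K (FSym Ω)} :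
    IsSteinberg R s ↔ Rank2.IsSteinberg R s := Iff.rfl

theorem diff_eq (a b : Ω) : diff K a b = Rank2.e K a b := rfl

theorem isDiff_iff {c : ℕ} {S : Finset Ω} {u : MonoidAlgebra K (FSym Ω)} :
    IsDiff K c S u ↔ Rank2.IsDiff K c S u := by
  constructor
  · intro h
    induction h with
    | zero => exact Rank2.IsDiff.zero
    | succ c S u a b hab ha hb _ ih =>
      rw [diff_eq]
      exact Rank2.IsDiff.succ c S u a b hab ha hb ih
  · intro h
    induction h with
    | zero => exact IsDiff.zero
    | succ c S u a b hab ha hb _ ih =>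
      rw [← diff_eq]
      exact IsDiff.succ c S u a b hab ha hb ih

theorem ideal_eq (p k c : ℕ) : ideal K Ω p k c = Rank2.ideal K Ω p k c := by
  unfold ideal Rank2.ideal
  simp only [isDiff_iff]
  rfl

theorem isEven_iff {σ : FSym Ω} : IsEven σ ↔ sgn σ = 1 := by
  constructor
  · rintro ⟨D, τ, h, rfl⟩
    rw [sgn_ext, h]
  · intro h
    obtain ⟨D, τ, rfl⟩ := exists_ext' σ
    rw [sgn_ext] at h
    exact ⟨D, τ, h, rfl⟩

theorem coeff_theta (y : MonoidAlgebra K (FSym Ω)) (σ : FSym Ω) :
    (theta K Ω y).coeff σ = sgK K σ * y.coeff σ := by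
  classical
  conv_lhs => rw [expand y (subset_refl _)]
  conv_rhs => rw [expand y (subset_refl _)]
  rw [map_sum, MonoidAlgebra.coeff_sum, MonoidAlgebra.coeff_sum, Finsupp.finsetSum_apply,
    Finsupp.finsetSum_apply, mul_sum]
  apply sum_congr rfl
  intro τ _
  rw [map_smul, theta_of, MonoidAlgebra.coeff_smul, MonoidAlgebra.coeff_smul,
    MonoidAlgebra.coeff_smul, Finsupp.smul_apply, Finsupp.smul_apply, Finsupp.smul_apply,
    MonoidAlgebra.of_apply, MonoidAlgebra.coeff_single, Finsupp.single_apply]
  by_cases h : τ = σ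
  · rw [if_pos h, h]
    simp only [smul_eq_mul, mul_one]
    ring
  · rw [if_neg h]
    simp

theorem isTwist_iff {y z : MonoidAlgebra K (FSym Ω)} : IsTwist y z ↔ z = theta K Ω y := by
  have hs : ∀ σ : FSym Ω, (IsEven σ → sgK K σ = 1) ∧ (¬ IsEven σ → sgK K σ = -1) := by
    intro σ
    unfold sgK
    constructor
    · intro h
      rw [isEven_iff.mp h]
      simp
    · intro h
      rw [isEven_iff] at h
      rw [(Int.units_eq_one_or (sgn σ)).resolve_left h]
      simp
  constructor
  · intro h
    apply MonoidAlgebra.ext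
    apply Finsupp.ext
    intro σ
    change z.coeff σ = (theta K Ω y).coeff σ
    rw [coeff_theta]
    by_cases he : IsEven σ
    · rw [(h σ).1 he, (hs σ).1 he, one_mul]
    · rw [(h σ).2 he, (hs σ).2 he, neg_one_mul]
  · rintro rfl σ
    constructor
    · intro he
      rw [coeff_theta, (hs σ).1 he, one_mul]
    · intro he
      rw [coeff_theta, (hs σ).2 he, neg_one_mul]

theorem twist_eq (I : Ideals K Ω) : twist I = tw I := by
  unfold twist
  apply le_antisymm
  · rw [TwoSidedIdeal.span_le]
    rintro z ⟨y, hy, hz⟩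
    rw [isTwist_iff] at hz
    rw [hz]
    change theta K Ω y ∈ tw I
    rw [mem_tw, theta_theta]
    exact hy
  · intro z hz
    rw [mem_tw] at hz
    apply TwoSidedIdeal.subset_span
    exact ⟨theta K Ω z, hz, isTwist_iff.mpr (theta_theta z).symm⟩

theorem evenIdeal_eq [Infinite Ω] : evenIdeal K Ω = KZ K Ω := by
  apply le_antisymm
  · unfold evenIdeal
    rw [TwoSidedIdeal.span_le]
    rintro y ⟨σ, hσ, rfl⟩
    exact even_mem_KZ σ (isEven_iff.mp hσ)
  · obtain ⟨a, b, hab⟩ := exists_pair_ne Ω
    have key : ∀ y : MonoidAlgebra K (FSym Ω), y - ((par K Ω y).coeff 1 •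
        (1 : MonoidAlgebra K (FSym Ω)) + (par K Ω y).coeff (-1) •
        MonoidAlgebra.of K (FSym Ω) (Rank2.sw a b)) ∈ evenIdeal K Ω := by
      intro y
      have h1 : y - ((par K Ω y).coeff 1 • (1 : MonoidAlgebra K (FSym Ω)) +
          (par K Ω y).coeff (-1) • MonoidAlgebra.of K (FSym Ω) (Rank2.sw a b)) =
          ∑ σ ∈ y.coeff.support, y.coeff σ • (MonoidAlgebra.of K (FSym Ω) σ -
            ((par K Ω (MonoidAlgebra.of K (FSym Ω) σ)).coeff 1 • (1 : MonoidAlgebra K (FSym Ω)) +
            (par K Ω (MonoidAlgebra.of K (FSym Ω) σ)).coeff (-1) •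
            MonoidAlgebra.of K (FSym Ω) (Rank2.sw a b))) := by
        have h2 : ∀ z : ℤˣ, (par K Ω y).coeff z = ∑ σ ∈ y.coeff.support, y.coeff σ *
            (par K Ω (MonoidAlgebra.of K (FSym Ω) σ)).coeff z := by
          intro z
          conv_lhs => rw [expand y (subset_refl _)]
          rw [map_sum, MonoidAlgebra.coeff_sum, Finsupp.finsetSum_apply]
          apply sum_congr rfl
          intro σ _
          rw [map_smul, MonoidAlgebra.coeff_smul, Finsupp.smul_apply, smul_eq_mul]
        have h5 : y = ∑ σ ∈ y.coeff.support, y.coeff σ • MonoidAlgebra.of K (FSym Ω) σ :=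
          expand y (subset_refl _)
        rw [h2, h2, sum_smul, sum_smul, ← sum_add_distrib]
        conv_lhs => lhs; rw [h5]
        rw [← sum_sub_distrib]
        apply sum_congr rfl
        intro σ _
        rw [smul_sub, smul_add, smul_smul, smul_smul]
      rw [h1]
      apply TwoSidedIdeal.finsetSum_mem
      intro σ _
      have h3 : MonoidAlgebra.of K (FSym Ω) σ -
            ((par K Ω (MonoidAlgebra.of K (FSym Ω) σ)).coeff 1 • (1 : MonoidAlgebra K (FSym Ω)) +
            (par K Ω (MonoidAlgebra.of K (FSym Ω) σ)).coeff (-1) •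
            MonoidAlgebra.of K (FSym Ω) (Rank2.sw a b)) ∈ evenIdeal K Ω := by
        have hof : (MonoidAlgebra.of K ℤˣ) (sgn σ) = MonoidAlgebra.single (sgn σ) 1 := rfl
        rw [par_of, hof, MonoidAlgebra.coeff_single]
        rcases Int.units_eq_one_or (sgn σ) with h | h
        · rw [h, Finsupp.single_eq_same, Finsupp.single_eq_of_ne (by decide), one_smul, zero_smul,
            add_zero]
          exact TwoSidedIdeal.subset_span ⟨σ, isEven_iff.mpr h, rfl⟩
        · rw [h, Finsupp.single_eq_same, Finsupp.single_eq_of_ne (by decide), one_smul, zero_smul,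
            zero_add]
          have h4 : MonoidAlgebra.of K (FSym Ω) σ - MonoidAlgebra.of K (FSym Ω) (Rank2.sw a b) =
              (MonoidAlgebra.of K (FSym Ω) (σ * (Rank2.sw a b)⁻¹) - 1) *
                MonoidAlgebra.of K (FSym Ω) (Rank2.sw a b) := by
            rw [sub_mul, one_mul, ← map_mul, inv_mul_cancel_right]
          rw [h4]
          apply TwoSidedIdeal.mul_mem_right
          apply TwoSidedIdeal.subset_span
          refine ⟨_, isEven_iff.mpr ?_, rfl⟩
          have h5 : sgn (σ * (Rank2.sw a b)⁻¹) * sgn (Rank2.sw a b) = sgn σ := by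
            rw [← sgn_mul, inv_mul_cancel_right]
          rw [h, Rank2.sgn_sw hab] at h5
          have h6 := congrArg (fun z => z * (-1 : ℤˣ)) h5
          simpa using h6
      rw [Algebra.smul_def]
      exact TwoSidedIdeal.mul_mem_left _ _ _ h3
    intro y hy
    have h := key y
    rw [mem_KZ.mp hy] at h
    simpa using h

theorem act_eq (y : MonoidAlgebra K (FSym Ω)) (w : Finset Ω →₀ K) : act y w = TR.act K Ω y w := by
  rw [TR.act_expand]
  unfold act
  apply sum_congr rfl
  intro σ _
  rw [TR.act_g_apply]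
  congr 2
  funext S
  unfold TR.mv
  ext z
  rw [mem_map, mem_image]
  rfl

theorem low_eq (i : ℕ) (w : Finset Ω →₀ K) : low i w = TR.ee K Ω i w := by
  unfold low TR.ee
  rw [Finsupp.linearCombination_apply]
  apply Finsupp.sum_congr
  intro S _
  rw [smul_sum]
  apply sum_congr rfl
  intro T _
  rw [Finsupp.smul_single, smul_eq_mul, mul_one]

theorem inside_iff {D : Finset Ω} {w : Finset Ω →₀ K} : Inside D w ↔ w ∈ TR.Wd K D := by
  unfold Inside TR.Wd
  rw [Finsupp.mem_supported]
  constructor
  · intro h S hS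
    exact h S hS
  · intro h S hS
    exact h hS

theorem test_iff {m : ℕ} {D : Finset Ω} {y : MonoidAlgebra K (FSym Ω)} :
    Test m D y ↔ TR.Test m D y := by
  unfold Test TR.Test TR.Kil
  simp only [inside_iff, low_eq, act_eq]

end ThreeLetter
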