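import Pool.Agent.Lib.MP_a8d7f7_al.R2.X5

/-!
# MP_a8d7f7_al: the ideals of the list which contain `KZ` (helper24)
-/

set_option autoImplicit false
set_option linter.unusedSectionVars false
set_option linter.unusedVariables false

namespace Rank2

open Finset Equiv FinSym

variable {K : Type*} [Field K] {Ω : Type*} [DecidableEq Ω]

theorem sgn_sw {a b : Ω} (hab : a ≠ b) : sgn (sw a b : FSym Ω) = -1 := by
  have h2 := ext_swap (⟨a, by simp⟩ : ({a, b} : Finset Ω)) (⟨b, by simp⟩ : ({a, b} : Finset Ω))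
  rw [← h2, sgn_ext, Perm.sign_swap]
  intro h3
  exact hab (congrArg Subtype.val h3)

theorem sum_sign {Δ : Finset Ω} (hΔ : Δ.card = 3) {M : Type*} [AddCommGroup M] (f : ℤˣ → M) :
    ∑ τ : Perm Δ, f (Perm.sign τ) = 3 • f 1 + 3 • f (-1) := by
  have : Nontrivial Δ := by
    rw [← Fintype.one_lt_card_iff_nontrivial, Fintype.card_coe]
    omega
  have h5 : (univ.filter (fun τ : Perm Δ => Perm.sign τ = 1)).card = 3 := by
    have h6 := two_mul_card_alternatingGroup (α := Δ)
    rw [Fintype.card_perm, Fintype.card_coe, hΔ] at h6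
    have h7 : Fintype.card (alternatingGroup Δ) =
        (univ.filter (fun τ : Perm Δ => Perm.sign τ = 1)).card := by
      rw [← Fintype.card_subtype]
      exact Fintype.card_congr (Equiv.refl _)
    rw [h7] at h6
    have h8 : Nat.factorial 3 = 6 := rfl
    omega
  have h6 : (univ.filter (fun τ : Perm Δ => ¬ Perm.sign τ = 1)).card = 3 := by
    have h7 := card_filter_add_card_filter_not (s := (univ : Finset (Perm Δ)))
      (fun τ : Perm Δ => Perm.sign τ = 1)
    rw [h5, card_univ, Fintype.card_perm, Fintype.card_coe, hΔ] at h7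
    have h8 : Nat.factorial 3 = 6 := rfl
    omega
  rw [← sum_filter_add_sum_filter_not univ (fun τ : Perm Δ => Perm.sign τ = 1)]
  congr 1
  · rw [sum_congr rfl (g := fun _ => f 1), sum_const, h5]
    intro τ hτ
    rw [(mem_filter.mp hτ).2]
  · rw [sum_congr rfl (g := fun _ => f (-1)), sum_const, h6]
    intro τ hτ
    rw [(Int.units_eq_one_or (Perm.sign τ)).resolve_left (mem_filter.mp hτ).2]

theorem par_antisymmetrizer {Δ : Finset Ω} (hΔ : Δ.card = 3) :
    par K Ω (antisymmetrizer K Δ) = (3 : K) • (1 - MonoidAlgebra.of K ℤˣ (-1)) := by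
  unfold antisymmetrizer
  rw [map_sum]
  have h1 : ∀ τ : Perm Δ, par K Ω (((Perm.sign τ : ℤ) : K) • MonoidAlgebra.of K (FSym Ω)
      (ext Δ τ)) = (fun z : ℤˣ => ((z : ℤ) : K) • MonoidAlgebra.of K ℤˣ z) (Perm.sign τ) := by
    intro τ
    rw [map_smul, par_of, sgn_ext]
  rw [sum_congr rfl (fun τ _ => h1 τ),
    sum_sign hΔ (fun z : ℤˣ => ((z : ℤ) : K) • MonoidAlgebra.of K ℤˣ z)]
  have h3 : ∀ m : MonoidAlgebra K ℤˣ, (3 : ℕ) • m = (3 : K) • m := by
    intro m
    rw [← Nat.cast_smul_eq_nsmul K]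
    norm_num
  rw [h3, h3, map_one]
  simp only [Units.val_neg, Units.val_one, Int.cast_neg, Int.cast_one, one_smul, neg_smul]
  rw [smul_sub, smul_neg, sub_eq_add_neg]

theorem aug_of_mem_KZ {y : MonoidAlgebra K (FSym Ω)} (hy : y ∈ KZ K Ω) : aug K Ω y = 0 := by
  have h1 : aug K Ω y = (par K Ω y).coeff 1 + (par K Ω y).coeff (-1) := by
    rw [expand y (subset_refl _), map_sum, map_sum, MonoidAlgebra.coeff_sum,
      Finsupp.finsetSum_apply, Finsupp.finsetSum_apply, ← sum_add_distrib]
    apply sum_congr rfl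
    intro σ _
    rw [map_smul, map_smul, aug_of, par_of, MonoidAlgebra.coeff_smul, Finsupp.smul_apply,
      Finsupp.smul_apply]
    have hof : (MonoidAlgebra.of K ℤˣ) (sgn σ) = MonoidAlgebra.single (sgn σ) 1 := rfl
    rw [hof, MonoidAlgebra.coeff_single]
    rcases Int.units_eq_one_or (sgn σ) with h | h
    · rw [h, Finsupp.single_eq_same, Finsupp.single_eq_of_ne (by decide)]
      simp
    · rw [h, Finsupp.single_eq_same, Finsupp.single_eq_of_ne (by decide)]
      simp
  rw [h1, mem_KZ.mp hy]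
  simp

/-- `p ≠ 3`: `KZ` is below an ideal `Id k c` if and only if the augmentation ideal is -/
theorem KZ_le_iff {p : ℕ} (hp : p.Prime) [CharP K p] [Infinite Ω] (h3 : p ≠ 3) (k c : ℕ) :
    KZ K Ω ≤ Id K Ω p k c ↔ Id K Ω p 0 1 ≤ Id K Ω p k c := by
  constructor
  · intro h
    obtain ⟨Δ, hΔ⟩ := Infinite.exists_subset_card_eq Ω 3
    obtain ⟨S, u, hu, hRS⟩ := exists_IsDiff (K := K) (∅ : Finset Ω) 1
    have hR : (∅ : Finset Ω).card = p ^ 0 - 1 := by simp
    obtain ⟨s, hs⟩ := exists_StEl (K := K) hp 0 hR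
    rw [← one_gen hp hΔ hR hRS hu hs, TwoSidedIdeal.span_le]
    have h1 : antisymmetrizer K Δ ∈ Id K Ω p k c :=
      Ann_le_Id p k c (antisymmetrizer_mem_Ann (by rw [hΔ]; norm_num))
    rintro y (rfl | rfl)
    · exact h1
    · apply TwoSidedIdeal.mul_mem_right
      cases hu with
      | succ c S u a b hab ha hb hu =>
        cases hu
        rw [mul_one]
        have h4 : antisymmetrizer K Δ - (3 : K) • e K a b ∈ Id K Ω p k c := by
          apply h
          rw [mem_KZ, map_sub, par_antisymmetrizer hΔ, map_smul]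
          have h5 : par K Ω (e K a b) = 1 - MonoidAlgebra.of K ℤˣ (-1) := by
            unfold e
            rw [map_sub, map_one, par_of, sgn_sw hab]
          rw [h5, sub_self]
        have h5 : (3 : K) • e K a b ∈ Id K Ω p k c := by
          have := TwoSidedIdeal.sub_mem _ h1 h4
          rwa [sub_sub_cancel] at this
        have h6 : (3 : K) ≠ 0 := by
          intro h6
          have h7 : ((3 : ℕ) : K) = 0 := by exact_mod_cast h6
          rw [CharP.cast_eq_zero_iff K p] at h7
          exact h3 ((Nat.prime_dvd_prime_iff_eq hp Nat.prime_three).mp h7)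
        have h7 : e K a b = (algebraMap K (MonoidAlgebra K (FSym Ω)) (3 : K)⁻¹) * ((3 : K) • e K a b) := by
          rw [← Algebra.smul_def, smul_smul, inv_mul_cancel₀ h6, one_smul]
        rw [h7]
        exact TwoSidedIdeal.mul_mem_left _ _ _ h5
  · intro h
    apply le_trans _ h
    intro y hy
    exact (mem_Id_one hp).mpr (aug_of_mem_KZ hy)

end Rank2
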