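import Pool.Agent.Lib.MP_a8d7f7_al.R2.I3

/-!
# MP_a8d7f7_al: the classification of the ideals above `Ann 2` (helper24)
-/

set_option autoImplicit false
set_option linter.unusedSectionVars false
set_option linter.unusedVariables false

namespace Rank2

open Finset Equiv FinSym

variable {K : Type*} [Field K] {Ω : Type*} [DecidableEq Ω]


/-- the products of `c` differences `1 - (a b)` of disjoint transpositions; `S` is the set of the
`2 c` letters -/
inductive IsDiff (K : Type*) [Field K] {Ω : Type*} [DecidableEq Ω] :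
    ℕ → Finset Ω → MonoidAlgebra K (FSym Ω) → Prop
  | zero : IsDiff K 0 ∅ 1
  | succ (c : ℕ) (S : Finset Ω) (u : MonoidAlgebra K (FSym Ω)) (a b : Ω) (hab : a ≠ b)
      (ha : a ∉ S) (hb : b ∉ S) (h : IsDiff K c S u) :
      IsDiff K (c + 1) (insert a (insert b S)) (e K a b * u)

theorem IsDiff.on {c : ℕ} {S : Finset Ω} {u : MonoidAlgebra K (FSym Ω)} (h : IsDiff K c S u) :
    On S u := by
  induction h with
  | zero => exact On.one _
  | succ c S u a b hab ha hb h ih =>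
    exact (e_On (mem_insert_self _ _) (mem_insert_of_mem (mem_insert_self _ _))).mul
      (ih.mono ((subset_insert _ _).trans (subset_insert _ _)))

/-- the ideals of the classification -/
noncomputable def Id (K : Type*) [Field K] (Ω : Type*) [DecidableEq Ω] (p k c : ℕ) :
    TwoSidedIdeal (MonoidAlgebra K (FSym Ω)) :=
  TwoSidedIdeal.span ({y | y ∈ Ann K Ω 2} ∪ {y | ∃ (R S : Finset Ω) (u s : MonoidAlgebra K (FSym Ω)),
    R.card = p ^ k - 1 ∧ Disjoint R S ∧ IsDiff K c S u ∧ IsStEl R s ∧ y = u * s})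

theorem Ann_le_Id (p k c : ℕ) : Ann K Ω 2 ≤ Id K Ω p k c := by
  intro y hy
  exact TwoSidedIdeal.subset_span (Or.inl hy)

theorem mem_Id {p k c : ℕ} {R S : Finset Ω} {u s : MonoidAlgebra K (FSym Ω)}
    (hR : R.card = p ^ k - 1) (hRS : Disjoint R S) (hu : IsDiff K c S u) (hs : IsStEl R s) :
    u * s ∈ Id K Ω p k c :=
  TwoSidedIdeal.subset_span (Or.inr ⟨R, S, u, s, hR, hRS, hu, hs, rfl⟩)

theorem Id_le {p k c : ℕ} {Y : TwoSidedIdeal (MonoidAlgebra K (FSym Ω))} (hA : Ann K Ω 2 ≤ Y)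
    (h : ∀ (R S : Finset Ω) (u s : MonoidAlgebra K (FSym Ω)), R.card = p ^ k - 1 → Disjoint R S →
      IsDiff K c S u → IsStEl R s → u * s ∈ Y) : Id K Ω p k c ≤ Y := by
  unfold Id
  rw [TwoSidedIdeal.span_le]
  rintro y (hy | ⟨R, S, u, s, hR, hRS, hu, hs, rfl⟩)
  · exact hA hy
  · exact h R S u s hR hRS hu hs

theorem mem_Pid {p k : ℕ} {R : Finset Ω} {s : MonoidAlgebra K (FSym Ω)} (hR : R.card = p ^ k - 1)
    (hs : IsStEl R s) : s ∈ Id K Ω p k 0 := by
  have := mem_Id (c := 0) (S := ∅) hR (disjoint_empty_right R) IsDiff.zero hs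
  rwa [one_mul] at this

theorem Pid_le {p k : ℕ} {Y : TwoSidedIdeal (MonoidAlgebra K (FSym Ω))} (hA : Ann K Ω 2 ≤ Y)
    (h : ∀ (R : Finset Ω) (s : MonoidAlgebra K (FSym Ω)), R.card = p ^ k - 1 → IsStEl R s → s ∈ Y) :
    Id K Ω p k 0 ≤ Y := by
  apply Id_le hA
  intro R S u s hR hRS hu hs
  cases hu
  rw [one_mul]
  exact h R s hR hs

/-! ## the functions of the elements of a torsion free ideal -/

/-- the functions of the elements of an ideal -/
noncomputable def UU (Y : TwoSidedIdeal (MonoidAlgebra K (FSym Ω))) (D : Finset Ω) :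
    Submodule K (Fn (Ω ⊕ Ω) K) where
  carrier := {f | ∃ y ∈ Y, On D y ∧ poly D y = f}
  zero_mem' := ⟨0, Y.zero_mem, On.zero D, by
    have h := poly_smul (K := K) D 0 0
    rwa [zero_smul, zero_smul] at h⟩
  add_mem' := by
    rintro f g ⟨y, hy, hD, rfl⟩ ⟨z, hz, hD', rfl⟩
    exact ⟨y + z, Y.add_mem hy hz, hD.add hD', poly_add D y z⟩
  smul_mem' := by
    rintro a f ⟨y, hy, hD, rfl⟩
    exact ⟨a • y, smul_mem' Y a hy, hD.smul a, poly_smul D a y⟩

theorem mem_of_UU {Y : TwoSidedIdeal (MonoidAlgebra K (FSym Ω))} (hA : Ann K Ω 2 ≤ Y)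
    {D : Finset Ω} {y : MonoidAlgebra K (FSym Ω)} (hy : On D y) (h : poly D y ∈ UU Y D) : y ∈ Y := by
  obtain ⟨z, hz, hD, h1⟩ := h
  exact mem_of_sub (hA (sub_mem_Ann hy hD h1.symm)) hz

theorem UU_stab [Infinite Ω] {Y : TwoSidedIdeal (MonoidAlgebra K (FSym Ω))} (hA : Ann K Ω 2 ≤ Y)
    (hY : plus Y ≤ Y) (D : Finset Ω) : Stab (D.disjSum D) (UU Y D) := by
  have hlr : ∀ i ∈ D, ∀ j ∈ D, ∀ f ∈ UU Y D, act (swap (Sum.inl i) (Sum.inr j)) f ∈ UU Y D := by
    rintro i hi j hj f ⟨y, hy, hD, rfl⟩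
    have hS : act (swap (Sum.inl i) (Sum.inr j)) (poly D y) ∈ Sp K (D.disjSum D) :=
      Sp.stab _ _ (inl_mem_disjSum.mpr hi) _ (inr_mem_disjSum.mpr hj) _ (poly_mem hD)
    obtain ⟨y', hy', hp'⟩ := poly_surj hS
    obtain ⟨a, b, hab, ha, hb⟩ := exists_two D
    have hb' := bend hD hy' hi hj hab ha hb hp'
    have hXY : (MonoidAlgebra.of K (FSym Ω)) (sw i b) * (e K i a * (y * e K j b)) * (MonoidAlgebra.of K (FSym Ω)) (sw j a) ∈ Y :=
      Y.mul_mem_right _ _ (Y.mul_mem_left _ _ (Y.mul_mem_left _ _ (Y.mul_mem_right _ _ hy)))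
    have hey : e K a b * y' ∈ Y := by
      have := Y.sub_mem hXY (hA hb')
      rwa [sub_sub_cancel] at this
    exact ⟨y', hY (plus_of_one hy' hab ha hb hey), hy', hp'⟩
  rintro (i | i) hi (j | j) hj f hf
  · rw [inl_mem_disjSum] at hi hj
    obtain ⟨y, hy, hD, rfl⟩ := hf
    exact ⟨(MonoidAlgebra.of K (FSym Ω)) (sw i j) * y, Y.mul_mem_left _ _ hy, (On.of (sw_fix hi hj)).mul hD,
      poly_sw_left D i j y⟩
  · rw [inl_mem_disjSum] at hi
    rw [inr_mem_disjSum] at hj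
    exact hlr i hi j hj f hf
  · rw [inr_mem_disjSum] at hi
    rw [inl_mem_disjSum] at hj
    rw [swap_comm]
    exact hlr j hj i hi f hf
  · rw [inr_mem_disjSum] at hi hj
    obtain ⟨y, hy, hD, rfl⟩ := hf
    exact ⟨y * (MonoidAlgebra.of K (FSym Ω)) (sw i j), Y.mul_mem_right _ _ hy, hD.mul (On.of (sw_fix hi hj)),
      poly_sw_right hi hj y⟩

/-- the matching of the letters of `D` with their copies -/
theorem M_mat (D : Finset Ω) : Mat K (D.disjSum D) (M K D) := by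
  induction D using Finset.induction_on with
  | empty =>
    rw [Finset.disjSum_empty, map_empty]
    exact Mat.nil
  | insert a D ha ih =>
    unfold M at ih ⊢
    rw [prod_insert ha]
    refine Mat.cons (Sum.inl a) (Sum.inr a) (D.disjSum D) _ _ (by simp) (by simp [ha]) (by simp [ha])
      ?_ ih
    ext z
    rcases z with z | z <;> simp

/-- the function of a Steinberg element -/
theorem poly_StEl {R D : Finset Ω} (hRD : R ⊆ D) {s : MonoidAlgebra K (FSym Ω)} (hs : IsStEl R s) :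
    ∃ h, Mat K (D.disjSum D \ R.disjSum R) h ∧ poly D s = E K (R.disjSum R) * h := by
  refine ⟨M K (D \ R), ?_, ?_⟩
  · have h1 : D.disjSum D \ R.disjSum R = (D \ R).disjSum (D \ R) := by
      ext z
      rcases z with z | z <;> simp
    rw [h1]
    exact M_mat _
  · have h2 := poly_union (disjoint_sdiff (s := R) (t := D)) hs.1
    rw [union_sdiff_of_subset hRD] at h2
    rw [h2, hs.2, mul_comm]

/-- one Steinberg element in a torsion free ideal gives `P n T` -/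
theorem P_le_UU [Infinite Ω] {Y : TwoSidedIdeal (MonoidAlgebra K (FSym Ω))}
    (hA : Ann K Ω 2 ≤ Y) (hY : plus Y ≤ Y) {R D : Finset Ω} (hRD : R ⊆ D)
    {s : MonoidAlgebra K (FSym Ω)} (hs : IsStEl R s) (hsY : s ∈ Y) :
    P K R.card (D.disjSum D) ≤ UU Y D := by
  obtain ⟨h, h1, h2⟩ := poly_StEl hRD hs
  refine P.le_of_mem (UU_stab hA hY D) (X := R.disjSum R) ?_ ?_ h1 ?_
  · exact disjSum_mono hRD hRD
  · rw [card_disjSum]; omega
  · rw [← h2]
    exact ⟨s, hsY, hs.1.mono hRD, rfl⟩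

theorem poly_StEl_mem {R D : Finset Ω} (hRD : R ⊆ D) {s : MonoidAlgebra K (FSym Ω)}
    (hs : IsStEl R s) : poly D s ∈ P K R.card (D.disjSum D) := by
  obtain ⟨h, h1, h2⟩ := poly_StEl hRD hs
  apply Submodule.subset_span
  exact ⟨R.disjSum R, disjSum_mono hRD hRD, by rw [card_disjSum]; omega, h, h1, h2⟩

/-- (T0) -/
theorem Pid_le_of_mem [Infinite Ω] {p k : ℕ} {Y : TwoSidedIdeal (MonoidAlgebra K (FSym Ω))}
    (hA : Ann K Ω 2 ≤ Y) (hY : plus Y ≤ Y) {R : Finset Ω} (hR : R.card = p ^ k - 1)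
    {s : MonoidAlgebra K (FSym Ω)} (hs : IsStEl R s) (hsY : s ∈ Y) : Id K Ω p k 0 ≤ Y := by
  apply Pid_le hA
  intro R' s' hR' hs'
  apply mem_of_UU hA (D := R ∪ R') (hs'.1.mono subset_union_right)
  apply P_le_UU hA hY subset_union_left hs hsY
  rw [hR, ← hR']
  exact poly_StEl_mem subset_union_right hs'

theorem plus_Pid {p : ℕ} (hp : p.Prime) [CharP K p] [Infinite Ω] (k : ℕ) :
    plus (Id K Ω p k 0) = Id K Ω p k 0 := by
  obtain ⟨R, hR⟩ := Infinite.exists_subset_card_eq Ω (p ^ k - 1)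
  obtain ⟨s, hs⟩ := exists_StEl (K := K) hp k hR
  apply plus_eq
  exact ⟨s, mem_Pid hR hs, by rw [hs.aug_eq]; exact one_ne_zero⟩

/-- (T1) -/
theorem torsion_free_mem {p : ℕ} (hp : p.Prime) [CharP K p] [Infinite Ω]
    {Y : TwoSidedIdeal (MonoidAlgebra K (FSym Ω))} (hA : Ann K Ω 2 ≤ Y) (hY : plus Y ≤ Y)
    {y : MonoidAlgebra K (FSym Ω)} (hy : y ∈ Y) (hyA : y ∉ Ann K Ω 2) :
    ∃ k, y ∈ Id K Ω p k 0 ∧ Id K Ω p k 0 ≤ Y := by
  obtain ⟨D, hD⟩ := exists_On y
  have hF0 : poly D y ≠ 0 := fun h => hyA (mem_Ann_of_poly hD h)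
  obtain ⟨k, hk, h1, h2⟩ := uniserial hp (poly_mem hD) hF0
  rw [card_disjSum] at hk
  obtain ⟨R, hRD, hR⟩ := exists_subset_card_eq (s := D) (n := p ^ k - 1) (by omega)
  obtain ⟨s, hs⟩ := exists_StEl (K := K) hp k hR
  refine ⟨k, ?_, ?_⟩
  · apply mem_of_UU (Ann_le_Id p k 0) hD
    apply P_le_UU (Ann_le_Id p k 0) (plus_Pid hp k).le hRD hs (mem_Pid hR hs)
    rw [hR]
    exact h1
  · apply Pid_le_of_mem hA hY hR hs
    apply mem_of_UU hA (hs.1.mono hRD)
    apply h2 _ (UU_stab hA hY D) ⟨y, hy, hD, rfl⟩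
    rw [← hR]
    exact poly_StEl_mem hRD hs

theorem Pid_anti {p : ℕ} (hp : p.Prime) [CharP K p] [Infinite Ω] {k k' : ℕ} (h : k ≤ k') (c : ℕ) :
    Id K Ω p k' c ≤ Id K Ω p k c := by
  apply Id_le (Ann_le_Id p k c)
  intro R' S u s' hR' hRS hu hs'
  have hcard : p ^ k - 1 ≤ R'.card := by
    rw [hR']
    exact Nat.sub_le_sub_right (Nat.pow_le_pow_right hp.pos h) 1
  obtain ⟨R, hRR, hR⟩ := exists_subset_card_eq hcard
  obtain ⟨s, hs⟩ := exists_StEl (K := K) hp k hR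
  have h1 := hs'.mul_right (hs.1.mono hRR)
  rw [hs.aug_eq, one_smul] at h1
  have h2 : u * s' = s' * (u * s) - u * (s' * s - s') := by
    have h3 : s' * u = u * s' := On.commute hRS hs'.1 hu.on
    rw [mul_sub, ← mul_assoc, h3, ← mul_assoc]; abel
  rw [h2]
  exact (Id K Ω p k c).sub_mem ((Id K Ω p k c).mul_mem_left _ _
    (mem_Id hR (Disjoint.mono_left hRR hRS) hu hs))
    ((Id K Ω p k c).mul_mem_left _ _ (Ann_le_Id p k c h1))

/-- **Theorem A**: the ideals above `Ann 2` which are not contained in the augmentation ideal -/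
theorem eq_Pid {p : ℕ} (hp : p.Prime) [CharP K p] [Infinite Ω]
    {Y : TwoSidedIdeal (MonoidAlgebra K (FSym Ω))} (hA : Ann K Ω 2 ≤ Y)
    (hY : ∃ w ∈ Y, aug K Ω w ≠ 0) : ∃ k, Y = Id K Ω p k 0 := by
  classical
  have hpl : plus Y ≤ Y := (plus_eq hY).le
  have hex : ∃ k, Id K Ω p k 0 ≤ Y := by
    obtain ⟨w, hw, hw0⟩ := hY
    obtain ⟨D, hD⟩ := exists_On w
    obtain ⟨k, hk⟩ := exists_big hp D.card
    obtain ⟨R, hDR, hR⟩ := Infinite.exists_superset_card_eq D (p ^ k - 1) hk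
    obtain ⟨s, hs⟩ := exists_StEl (K := K) hp k hR
    refine ⟨k, Pid_le_of_mem hA hpl hR hs ?_⟩
    have h1 := hA (hs.mul_left (hD.mono hDR))
    have h2 : w * s ∈ Y := Y.mul_mem_right _ _ hw
    have h3 : aug K Ω w • s ∈ Y := by
      have := Y.sub_mem h2 h1
      rwa [sub_sub_cancel] at this
    have h4 := smul_mem' Y (aug K Ω w)⁻¹ h3
    rwa [smul_smul, inv_mul_cancel₀ hw0, one_smul] at h4
  refine ⟨Nat.find hex, le_antisymm ?_ (Nat.find_spec hex)⟩
  intro y hy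
  by_cases hyA : y ∈ Ann K Ω 2
  · exact Ann_le_Id _ _ _ hyA
  · obtain ⟨k, h1, h2⟩ := torsion_free_mem hp hA hpl hy hyA
    exact Pid_anti hp (Nat.find_min' hex h2) 0 h1

/-! ## the torsion closure -/

/-- the union of the iterated `plus` -/
noncomputable def sat (Y : TwoSidedIdeal (MonoidAlgebra K (FSym Ω))) :
    TwoSidedIdeal (MonoidAlgebra K (FSym Ω)) :=
  TwoSidedIdeal.mk' {y | ∃ c : ℕ, y ∈ plus^[c] Y} ⟨0, TwoSidedIdeal.zero_mem _⟩
    (by
      rintro y z ⟨c, hc⟩ ⟨c', hc'⟩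
      have hmono : Monotone (fun c => plus^[c] Y) := by
        apply monotone_nat_of_le_succ
        intro n
        rw [Function.iterate_succ_apply']
        exact le_plus _
      exact ⟨max c c', TwoSidedIdeal.add_mem _ (hmono (le_max_left c c') hc)
        (hmono (le_max_right c c') hc')⟩)
    (by
      rintro y ⟨c, hc⟩
      exact ⟨c, TwoSidedIdeal.neg_mem _ hc⟩)
    (by
      rintro y z ⟨c, hc⟩
      exact ⟨c, TwoSidedIdeal.mul_mem_left _ _ _ hc⟩)
    (by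
      rintro y z ⟨c, hc⟩
      exact ⟨c, TwoSidedIdeal.mul_mem_right _ _ _ hc⟩)

theorem mem_sat {Y : TwoSidedIdeal (MonoidAlgebra K (FSym Ω))} {y : MonoidAlgebra K (FSym Ω)} :
    y ∈ sat Y ↔ ∃ c : ℕ, y ∈ plus^[c] Y := by
  unfold sat
  rw [TwoSidedIdeal.mem_mk']
  rfl

theorem le_sat (Y : TwoSidedIdeal (MonoidAlgebra K (FSym Ω))) : Y ≤ sat Y :=
  fun _ hy => mem_sat.mpr ⟨0, hy⟩

theorem plus_sat [Infinite Ω] (Y : TwoSidedIdeal (MonoidAlgebra K (FSym Ω))) :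
    plus (sat Y) ≤ sat Y := by
  intro y hy
  obtain ⟨D, hD, h⟩ := mem_plus.mp hy
  obtain ⟨a, b, hab, ha, hb⟩ := exists_two D
  obtain ⟨c, hc⟩ := mem_sat.mp (h a b hab ha hb)
  refine mem_sat.mpr ⟨c + 1, ?_⟩
  rw [Function.iterate_succ_apply']
  exact plus_of_one hD hab ha hb hc

/-- the inductive step -/
theorem eq_Id_succ {p : ℕ} (hp : p.Prime) [CharP K p] [Infinite Ω]
    {Y : TwoSidedIdeal (MonoidAlgebra K (FSym Ω))} (hA : Ann K Ω 2 ≤ Y)
    (hY : ∀ y ∈ Y, aug K Ω y = 0) {k c : ℕ} (h : plus Y = Id K Ω p k c) :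
    Y = Id K Ω p k (c + 1) := by
  apply le_antisymm
  · apply le_of_plus hp hY hA (Ann_le_Id p k (c + 1))
    rw [h]
    apply Id_le ((Ann_le_Id p k (c + 1)).trans (le_plus _))
    intro R S u s hR hRS hu hs
    obtain ⟨a, b, hab, ha, hb⟩ := exists_two (R ∪ S)
    have hus : On (R ∪ S) (u * s) :=
      (hu.on.mono subset_union_right).mul (hs.1.mono subset_union_left)
    apply plus_of_one hus hab ha hb
    rw [mem_union, not_or] at ha hb
    rw [← mul_assoc]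
    refine mem_Id hR ?_ (IsDiff.succ c S u a b hab ha.2 hb.2 hu) hs
    rw [disjoint_insert_right, disjoint_insert_right]
    exact ⟨ha.1, hb.1, hRS⟩
  · apply Id_le hA
    intro R S u s hR hRS hu hs
    cases hu with
    | succ _ S u a b hab ha hb hu =>
      rw [disjoint_insert_right, disjoint_insert_right] at hRS
      have hus : On (R ∪ S) (u * s) :=
        (hu.on.mono subset_union_right).mul (hs.1.mono subset_union_left)
      rw [mul_assoc]
      refine of_plus ?_ hus hab ?_ ?_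
      · rw [h]
        exact mem_Id hR hRS.2.2 hu hs
      · rw [mem_union, not_or]; exact ⟨hRS.1, ha⟩
      · rw [mem_union, not_or]; exact ⟨hRS.2.1, hb⟩

theorem classification_aux {p : ℕ} (hp : p.Prime) [CharP K p] [Infinite Ω] : ∀ (c : ℕ)
    (Y : TwoSidedIdeal (MonoidAlgebra K (FSym Ω))), Ann K Ω 2 ≤ Y →
    (∃ w ∈ plus^[c] Y, aug K Ω w ≠ 0) → ∃ k c', Y = Id K Ω p k c' := by
  intro c
  induction c with
  | zero =>
    intro Y hA h
    obtain ⟨k, hk⟩ := eq_Pid hp hA h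
    exact ⟨k, 0, hk⟩
  | succ c ih =>
    intro Y hA h
    by_cases hY : ∃ w ∈ Y, aug K Ω w ≠ 0
    · obtain ⟨k, hk⟩ := eq_Pid hp hA hY
      exact ⟨k, 0, hk⟩
    · push Not at hY
      rw [Function.iterate_succ_apply] at h
      obtain ⟨k, c', hk⟩ := ih (plus Y) (hA.trans (le_plus Y)) h
      exact ⟨k, c' + 1, eq_Id_succ hp hA hY hk⟩

/-- **The classification.** -/
theorem classification {p : ℕ} (hp : p.Prime) [CharP K p] [Infinite Ω]
    {Y : TwoSidedIdeal (MonoidAlgebra K (FSym Ω))} (hA : Ann K Ω 2 ≤ Y) (hne : Y ≠ Ann K Ω 2) :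
    ∃ k c, Y = Id K Ω p k c := by
  obtain ⟨y, hy, hyA⟩ : ∃ y ∈ Y, y ∉ Ann K Ω 2 := by
    by_contra hcon
    push Not at hcon
    exact hne (le_antisymm hcon hA)
  obtain ⟨k, -, hk⟩ := torsion_free_mem hp (hA.trans (le_sat Y)) (plus_sat Y) (le_sat Y hy) hyA
  obtain ⟨R, hR⟩ := Infinite.exists_subset_card_eq Ω (p ^ k - 1)
  obtain ⟨s, hs⟩ := exists_StEl (K := K) hp k hR
  obtain ⟨c, hc⟩ := mem_sat.mp (hk (mem_Pid hR hs))
  exact classification_aux hp c Y hA ⟨s, hc, by rw [hs.aug_eq]; exact one_ne_zero⟩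

end Rank2
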