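import Pool.Agent.Lib.MP_a8d7f7_al.Chain

/-!
# MP_a8d7f7_al: the sign of a finitary permutation, the sign twist (helper5)
-/

set_option autoImplicit false
set_option linter.unusedSectionVars false
set_option linter.unusedVariables false

namespace FinSym

open Finset Equiv

variable {K : Type*} [Field K] {Ω : Type*}

/-- every finitary permutation is the extension of a permutation of a finite set -/
theorem exists_ext' [DecidableEq Ω] (σ : FSym Ω) : ∃ D : Finset Ω, ∃ τ : Perm D, ext D τ = σ := by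
  obtain ⟨D, hD⟩ : ∃ D : Finset Ω, ∀ z, z ∉ D → (σ : Perm Ω) z = z := by
    refine ⟨(mem_FSym.mp σ.2).toFinset, fun z hz => ?_⟩
    rw [Set.Finite.mem_toFinset] at hz
    by_contra hcon
    exact hz hcon
  exact ⟨D, exists_ext D σ hD⟩

variable [DecidableEq Ω]

/-- the sign does not depend on the finite set -/
theorem sign_ext_congr {D D' : Finset Ω} {τ : Perm D} {τ' : Perm D'} (h : ext D τ = ext D' τ') :
    Perm.sign τ = Perm.sign τ' := by
  have hv : ∀ x : D, ((τ x : D) : Ω) = ((ext D τ : FSym Ω) : Perm Ω) x := fun x =>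
    (ext_mem D τ x.2).symm
  have hv' : ∀ x : D', ((τ' x : D') : Ω) = ((ext D' τ' : FSym Ω) : Perm Ω) x := fun x =>
    (ext_mem D' τ' x.2).symm
  have hmem : ∀ x : D, τ x ≠ x → (x : Ω) ∈ D' := by
    intro x hx
    by_contra hcon
    apply hx
    apply Subtype.ext
    rw [hv x, h, ext_notMem D' τ' hcon]
  refine Perm.sign_bij (fun x hx => ⟨x, hmem x hx⟩) ?_ ?_ ?_
  · intro x hx hx'
    apply Subtype.ext
    rw [hv', ← h]
    exact hv x
  · intro x₁ x₂ _ _ h12
    exact Subtype.ext (Subtype.mk_eq_mk.mp h12)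
  · intro y hy
    have hyD : (y : Ω) ∈ D := by
      by_contra hcon
      apply hy
      apply Subtype.ext
      rw [hv' y, ← h, ext_notMem D τ hcon]
    refine ⟨⟨y, hyD⟩, ?_, rfl⟩
    intro hcon
    apply hy
    apply Subtype.ext
    rw [hv' y, ← h]
    have := hv ⟨y, hyD⟩
    rw [hcon] at this
    exact this.symm

/-- the sign of a finitary permutation: the sign of its restriction to any finite set carrying
it -/
noncomputable def sgn (σ : FSym Ω) : ℤˣ :=
  Perm.sign (Classical.choose (Classical.choose_spec (exists_ext' σ)))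

theorem sgn_ext (D : Finset Ω) (τ : Perm D) : sgn (ext D τ) = Perm.sign τ :=
  sign_ext_congr (Classical.choose_spec (Classical.choose_spec (exists_ext' (ext D τ))))

theorem exists_common (σ σ' : FSym Ω) : ∃ D : Finset Ω, ∃ τ τ' : Perm D, ext D τ = σ ∧
    ext D τ' = σ' := by
  have : ∀ σ : FSym Ω, ∃ D : Finset Ω, ∀ z, z ∉ D → (σ : Perm Ω) z = z := by
    intro σ
    refine ⟨(mem_FSym.mp σ.2).toFinset, fun z hz => ?_⟩
    rw [Set.Finite.mem_toFinset] at hz
    by_contra hcon
    exact hz hcon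
  obtain ⟨D, hD⟩ := this σ
  obtain ⟨D', hD'⟩ := this σ'
  obtain ⟨τ, hτ⟩ := exists_ext (D ∪ D') σ (fun x hx => hD x (fun h => hx (mem_union_left _ h)))
  obtain ⟨τ', hτ'⟩ := exists_ext (D ∪ D') σ' (fun x hx => hD' x (fun h => hx (mem_union_right _ h)))
  exact ⟨D ∪ D', τ, τ', hτ, hτ'⟩

/-- the sign homomorphism of the finitary symmetric group -/
noncomputable def sgnHom (Ω : Type*) [DecidableEq Ω] : FSym Ω →* ℤˣ where
  toFun := sgn
  map_one' := by
    have h := sgn_ext (∅ : Finset Ω) 1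
    rw [map_one, Perm.sign_one] at h
    exact h
  map_mul' := by
    intro σ σ'
    obtain ⟨D, τ, τ', rfl, rfl⟩ := exists_common σ σ'
    rw [← map_mul, sgn_ext, sgn_ext, sgn_ext, Perm.sign_mul]

theorem sgnHom_apply (σ : FSym Ω) : sgnHom Ω σ = sgn σ := rfl

theorem sgn_mul (σ τ : FSym Ω) : sgn (σ * τ) = sgn σ * sgn τ := (sgnHom Ω).map_mul σ τ

theorem sgn_one : sgn (1 : FSym Ω) = 1 := (sgnHom Ω).map_one

/-- the sign with values in `K` -/
noncomputable def sgK (K : Type*) [Field K] {Ω : Type*} [DecidableEq Ω] (σ : FSym Ω) : K :=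
  ((sgn σ : ℤ) : K)

theorem sgK_mul (σ τ : FSym Ω) : sgK K (σ * τ) = sgK K σ * sgK K τ := by
  unfold sgK
  rw [sgn_mul, Units.val_mul, Int.cast_mul]

theorem sgK_one : sgK K (1 : FSym Ω) = 1 := by
  unfold sgK
  rw [sgn_one, Units.val_one, Int.cast_one]

theorem sgK_sq (σ : FSym Ω) : sgK K σ * sgK K σ = 1 := by
  unfold sgK
  rw [← Int.cast_mul, ← Units.val_mul, Int.units_mul_self, Units.val_one, Int.cast_one]

/-- the sign twist of the group algebra: `σ ↦ sgn σ • σ` -/
noncomputable def theta (K : Type*) [Field K] (Ω : Type*) [DecidableEq Ω] :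
    MonoidAlgebra K (FSym Ω) →ₐ[K] MonoidAlgebra K (FSym Ω) :=
  MonoidAlgebra.lift K _ _
    { toFun := fun σ => sgK K σ • MonoidAlgebra.of K (FSym Ω) σ
      map_one' := by rw [sgK_one, one_smul, map_one]
      map_mul' := by
        intro σ τ
        rw [sgK_mul, map_mul, smul_mul_smul_comm] }

theorem theta_of (σ : FSym Ω) : theta K Ω (MonoidAlgebra.of K (FSym Ω) σ) =
    sgK K σ • MonoidAlgebra.of K (FSym Ω) σ := by
  unfold theta
  rw [MonoidAlgebra.lift_of]
  rfl

theorem theta_theta (y : MonoidAlgebra K (FSym Ω)) : theta K Ω (theta K Ω y) = y := by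
  rw [expand y (subset_refl _)]
  simp only [map_sum, map_smul, theta_of]
  apply sum_congr rfl
  intro σ _
  rw [smul_smul (sgK K σ), sgK_sq, one_smul]

theorem theta_symmetrizer (D : Finset Ω) : theta K Ω (symmetrizer K D) = antisymmetrizer K D := by
  unfold symmetrizer antisymmetrizer
  rw [map_sum]
  apply sum_congr rfl
  intro τ _
  rw [theta_of]
  unfold sgK
  rw [sgn_ext]

theorem theta_antisymmetrizer (D : Finset Ω) :
    theta K Ω (antisymmetrizer K D) = symmetrizer K D := by
  rw [← theta_symmetrizer, theta_theta]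

/-- the image of an ideal under the sign twist -/
noncomputable def tw {K : Type*} [Field K] {Ω : Type*} [DecidableEq Ω]
    (I : TwoSidedIdeal (MonoidAlgebra K (FSym Ω))) : TwoSidedIdeal (MonoidAlgebra K (FSym Ω)) :=
  I.comap (theta K Ω)

theorem mem_tw {I : TwoSidedIdeal (MonoidAlgebra K (FSym Ω))} {y : MonoidAlgebra K (FSym Ω)} :
    y ∈ tw I ↔ theta K Ω y ∈ I := TwoSidedIdeal.mem_comap _

theorem tw_tw (I : TwoSidedIdeal (MonoidAlgebra K (FSym Ω))) : tw (tw I) = I := by
  ext y
  rw [mem_tw, mem_tw, theta_theta]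

theorem tw_mono {I J : TwoSidedIdeal (MonoidAlgebra K (FSym Ω))} (h : I ≤ J) : tw I ≤ tw J := by
  intro y hy
  exact h hy

theorem tw_le_tw {I J : TwoSidedIdeal (MonoidAlgebra K (FSym Ω))} : tw I ≤ tw J ↔ I ≤ J := by
  refine ⟨fun h => ?_, tw_mono⟩
  have := tw_mono h
  rwa [tw_tw, tw_tw] at this

theorem support_theta (y : MonoidAlgebra K (FSym Ω)) :
    (theta K Ω y).coeff.support ⊆ y.coeff.support := by
  classical
  intro σ hσ
  rw [Finsupp.mem_support_iff] at hσ
  by_contra h
  apply hσ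
  rw [expand y (subset_refl _), map_sum, MonoidAlgebra.coeff_sum, Finsupp.finsetSum_apply]
  apply sum_eq_zero
  intro τ hτ
  rw [map_smul, theta_of, MonoidAlgebra.coeff_smul, MonoidAlgebra.coeff_smul, Finsupp.smul_apply,
    Finsupp.smul_apply, MonoidAlgebra.of_apply, MonoidAlgebra.coeff_single,
    Finsupp.single_eq_of_ne, smul_zero, smul_zero]
  rintro rfl
  exact h hτ

end FinSym
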