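import Pool.Agent.Lib.MP_a8d7f7_al.Chain

/-!
# MP_a8d7f7_al: functions on 0-1 points, matchings, contractions (definitions)
-/

set_option autoImplicit false
set_option linter.unusedSectionVars false
set_option linter.unusedVariables false

namespace Rank2

open Finset Equiv

/-- functions of `0-1` points, with the pointwise ring structure -/
abbrev Fn (α K : Type*) := (α → Bool) → K

variable {α K : Type*} [Field K]

/-- the coordinate function -/
def x (i : α) : Fn α K := fun C => if C i then 1 else 0

/-- the action of the permutations of the letters -/
def act (g : Perm α) : Fn α K →ₐ[K] Fn α K where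
  toFun f := fun C => f (C ∘ g)
  map_one' := rfl
  map_mul' _ _ := rfl
  map_zero' := rfl
  map_add' _ _ := rfl
  commutes' _ := rfl

theorem act_apply (g : Perm α) (f : Fn α K) (C : α → Bool) : act g f C = f (C ∘ g) := rfl

theorem act_one (f : Fn α K) : act 1 f = f := rfl

theorem act_mul (g h : Perm α) (f : Fn α K) : act (g * h) f = act g (act h f) := rfl

theorem act_x (g : Perm α) (i : α) : act g (x i : Fn α K) = x (g i) := rfl

variable [DecidableEq α]

/-- the contraction of the letters `i`, `j` -/
def pd (i j : α) : Fn α K →ₗ[K] Fn α K where
  toFun f := fun C => f (Function.update (Function.update C i true) j false) -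
    f (Function.update (Function.update C i false) j true)
  map_add' f g := by
    funext C
    simp only [Pi.add_apply]
    ring
  map_smul' a f := by
    funext C
    simp only [Pi.smul_apply, smul_eq_mul, RingHom.id_apply]
    ring

/-- the products of differences over the perfect matchings of `T` -/
inductive Mat (K : Type*) [Field K] : Finset α → Fn α K → Prop
  | nil : Mat K ∅ 1
  | cons (i j : α) (T T' : Finset α) (f : Fn α K) (hij : i ≠ j) (hi : i ∉ T) (hj : j ∉ T)
      (hT : T' = insert i (insert j T)) (h : Mat K T f) : Mat K T' ((x i - x j) * f)

/-- the span of the products over perfect matchings -/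
def Sp (K : Type*) [Field K] (T : Finset α) : Submodule K (Fn α K) := Submodule.span K {f | Mat K T f}

/-- the indicator of the points with exactly half of the letters of `X` -/
def E (K : Type*) [Field K] (X : Finset α) : Fn α K :=
  fun C => if 2 * (X.filter (fun i => C i = true)).card = X.card then 1 else 0

/-- the span of the products of `E X`, `#X = 2 n`, and a matching of the other letters of `T` -/
def P (K : Type*) [Field K] (n : ℕ) (T : Finset α) : Submodule K (Fn α K) :=
  Submodule.span K {f | ∃ X ⊆ T, X.card = 2 * n ∧ ∃ h, Mat K (T \ X) h ∧ f = E K X * h}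

/-- `f` depends only on the letters of `T` -/
def Dep (T : Finset α) (f : Fn α K) : Prop :=
  ∀ C C' : α → Bool, (∀ i ∈ T, C i = C' i) → f C = f C'

/-- stable under the permutations of `T` -/
def Stab (T : Finset α) (U : Submodule K (Fn α K)) : Prop :=
  ∀ i ∈ T, ∀ j ∈ T, ∀ f ∈ U, act (swap i j) f ∈ U

/-- Steinberg coefficients on the letters `R` -/
def IsSt (R : Finset α) (c : Perm R → K) : Prop :=
  ∀ a b : R → Bool, (univ.filter (fun i => a i = true)).card =
    (univ.filter (fun i => b i = true)).card →
    ∑ g : Perm R, (if b ∘ g = a then c g else 0) =
      (-1) ^ (R.card - (univ.filter (fun i => a i = true)).card)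

/-- the operator of a combination of permutations of `R` -/
def op (R : Finset α) (c : Perm R → K) : Fn α K →ₗ[K] Fn α K :=
  ∑ g : Perm R, c g • (act (Perm.ofSubtype g)).toLinearMap

end Rank2
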