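import Pool.Agent.Lib.MP_a8d7f7_al.R2.Bridge

/-!
# MP_a8d7f7_al: the statement on three letters, assembled (helper24)
-/

set_option autoImplicit false
set_option linter.unusedSectionVars false
set_option linter.unusedVariables false

namespace ThreeLetter

open Finset Equiv FinSym Rank2

variable {K : Type*} [Field K] {p : ℕ} [CharP K p] {Ω : Type*} [Infinite Ω] [DecidableEq Ω]

theorem ideal_eq_Id (hp : p.Prime) (k c : ℕ) : ThreeLetter.ideal K Ω p k c = Id K Ω p k c := by
  rw [ThreeLetter.ideal_eq, Rank2.ideal_eq hp]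

theorem listed_iff (hp : p.Prime) (I : Ideals K Ω) : Ann K Ω 2 ≤ I ↔ Listed p I := by
  unfold Listed
  constructor
  · intro h
    by_cases hne : I = Ann K Ω 2
    · exact Or.inl hne
    · obtain ⟨k, c, h3⟩ := classification hp h hne
      exact Or.inr ⟨k, c, by rw [ideal_eq_Id hp, h3]⟩
  · rintro (rfl | ⟨k, c, rfl⟩)
    · exact le_refl _
    · rw [ideal_eq_Id hp]; exact Ann_le_Id p k c

theorem anti_iff (I : Ideals K Ω) :
    (∃ Δ : Finset Ω, Δ.card = 3 ∧ antisymmetrizer K Δ ∈ I) ↔ Ann K Ω 2 ≤ I := by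
  constructor
  · rintro ⟨Δ, hΔ, h⟩
    apply Ann_le _ inferInstance
    intro Δ' hΔ'
    exact antisymmetrizer_mem_of_card (hΔ.trans hΔ'.symm) h
  · intro h
    obtain ⟨Δ, hΔ⟩ := Infinite.exists_subset_card_eq Ω 3
    exact ⟨Δ, hΔ, h (antisymmetrizer_mem_Ann (by rw [hΔ]; norm_num))⟩

theorem small_iff (hp : p.Prime) (I : Ideals K Ω) :
    (∃ f ∈ I, f ≠ 0 ∧ ∃ X : Finset Ω, X.card ≤ 3 ∧ Moves X f) ↔
      (Listed p I ∨ Listed p (twist I) ∨ I = evenIdeal K Ω) := by
  rw [← listed_iff hp, ← listed_iff hp, twist_eq, evenIdeal_eq]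
  haveI : Fact p.Prime := ⟨hp⟩
  constructor
  · rintro ⟨f, hf, hf0, X, hX, hfX⟩
    rcases FinSym.list hf hf0 hX hfX with h | h | h
    · exact Or.inl h
    · exact Or.inr (Or.inl h)
    · exact Or.inr (Or.inr h)
  · rintro (h | h | rfl)
    · obtain ⟨Δ, hΔ, h3⟩ := (anti_iff I).mpr h
      exact ⟨_, h3, antisymmetrizer_ne_zero Δ, Δ, hΔ.le, support_antisymmetrizer Δ⟩
    · obtain ⟨Δ, hΔ, h3⟩ := (anti_iff (tw I)).mpr h
      rw [mem_tw, theta_antisymmetrizer] at h3
      refine ⟨_, h3, ?_, Δ, hΔ.le, ?_⟩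
      · intro h0
        apply antisymmetrizer_ne_zero (K := K) Δ
        rw [← theta_symmetrizer, h0, map_zero]
      · intro σ hσ
        apply support_antisymmetrizer (K := K) Δ σ
        have h4 := support_theta (antisymmetrizer K Δ)
        rw [theta_antisymmetrizer] at h4
        exact h4 hσ
    · obtain ⟨Δ, hΔ⟩ := Infinite.exists_subset_card_eq Ω 3
      have h3 : 2 < Fintype.card Δ := by
        rw [Fintype.card_coe, hΔ]; norm_num
      obtain ⟨a, b, c, hab, hac, hbc⟩ := Fintype.two_lt_card_iff.mp h3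
      have hτ : Equiv.Perm.sign (Equiv.swap a b * Equiv.swap b c) = 1 := by
        rw [Equiv.Perm.sign_mul, Equiv.Perm.sign_swap hab, Equiv.Perm.sign_swap hbc]
        decide
      have hne : Equiv.swap a b * Equiv.swap b c ≠ 1 := by
        intro h
        have h4 := congrArg (fun g : Equiv.Perm Δ => g c) h
        simp only [Equiv.Perm.mul_apply, Equiv.swap_apply_right, Equiv.Perm.one_apply] at h4
        exact hac h4
      refine ⟨MonoidAlgebra.of K (FSym Ω) (ext Δ (Equiv.swap a b * Equiv.swap b c)) - 1, ?_, ?_,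
        Δ, hΔ.le, ?_⟩
      · apply even_mem_KZ
        rw [sgn_ext, hτ]
      · intro h
        rw [sub_eq_zero, ← map_one (MonoidAlgebra.of K (FSym Ω))] at h
        have h4 := MonoidAlgebra.of_injective h
        rw [← map_one (ext Δ)] at h4
        exact hne (ext_injective Δ h4)
      · exact (On.of (fun z hz => ext_notMem Δ _ hz)).sub (On.one Δ)

theorem inclusions (hp : p.Prime) : Inclusions K p Ω := by
  unfold Inclusions
  refine ⟨?_, ?_, ?_⟩
  · intro k c
    rw [ideal_eq_Id hp]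
    exact lt_of_le_of_ne (Ann_le_Id p k c) (Ne.symm (Id_ne_Ann hp k c))
  · intro k c k' c' hk
    rw [ideal_eq_Id hp, ideal_eq_Id hp]
    exact Id_le_Id_iff hp hk
  · intro hp2 c
    subst hp2
    rw [ideal_eq_Id hp, ideal_eq_Id hp]
    exact Id_two c

theorem twistInclusions (hp : p.Prime) : TwistInclusions K p Ω := by
  unfold TwistInclusions
  refine ⟨?_, ?_, ?_⟩
  · intro h5 k c
    rw [ideal_eq_Id hp, twist_eq]
    constructor
    · exact tw_Ann_le_Id hp h5
    · rintro ⟨rfl, rfl⟩ y _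
      have h := TwoSidedIdeal.mul_mem_left (Id K Ω p 0 0) y 1 (one_mem_zero hp)
      rwa [mul_one] at h
  · intro hp3
    subst hp3
    refine ⟨?_, ?_⟩
    · intro k c
      rw [ideal_eq_Id hp, twist_eq]
      exact tw_Ann_le_three
    · rw [ideal_eq_Id hp, ideal_eq_Id hp, twist_eq]
      exact tw_three
  · intro hp2 I
    subst hp2
    rw [twist_eq]
    exact tw_two I

theorem evenInclusions (hp : p.Prime) : EvenInclusions K p Ω := by
  unfold EvenInclusions
  rw [evenIdeal_eq]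
  constructor
  · intro hp3
    subst hp3
    rw [ideal_eq_Id hp]
    exact KZ_three
  · intro hp3
    refine ⟨fun h => hp3 ((Ann_le_KZ_iff hp).mp h), ?_⟩
    intro k c
    rw [ideal_eq_Id hp, ideal_eq_Id hp]
    exact KZ_le_iff hp hp3 k c

theorem generators (hp : p.Prime) (k c : ℕ) (Δ R S : Finset Ω) (u s : MonoidAlgebra K (FSym Ω))
    (hΔ : Δ.card = 3) (hR : R.card = p ^ k - 1) (hRS : Disjoint R S)
    (hu : ThreeLetter.IsDiff K c S u) (hs : ThreeLetter.IsSteinberg R s) :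
    TwoSidedIdeal.span {antisymmetrizer K Δ, u * s} = ThreeLetter.ideal K Ω p k c := by
  rw [ideal_eq_Id hp]
  exact one_gen hp hΔ hR hRS (isDiff_iff.mp hu) ((Rank2.isSteinberg_iff hp hR).mp
    (ThreeLetter.isSteinberg_iff.mp hs))

theorem exists_steinberg (hp : p.Prime) (k : ℕ) (R : Finset Ω) (hR : R.card = p ^ k - 1) :
    ∃ s : MonoidAlgebra K (FSym Ω), ThreeLetter.IsSteinberg R s := by
  obtain ⟨s, hs⟩ := exists_StEl (K := K) hp k hR
  exact ⟨s, ThreeLetter.isSteinberg_iff.mpr ((Rank2.isSteinberg_iff hp hR).mpr hs)⟩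

theorem members (hp : p.Prime) (k c : ℕ) (y : MonoidAlgebra K (FSym Ω)) :
    y ∈ ThreeLetter.ideal K Ω p k c ↔
      (∀ A B : Finset Ω, A.card < c → coeffSum y A B = 0) ∧
      ∃ D₀ : Finset Ω, ∀ D, D₀ ⊆ D → Test (p ^ k - 1) D y := by
  rw [ideal_eq_Id hp, Id_eq_inf hp k c, TwoSidedIdeal.mem_inf, ← TI_eq hp k, ← lowIdeal_eq hp,
    mem_lowIdeal, TR.mem_TI]
  simp only [test_iff]
  exact and_comm

end ThreeLetter
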