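import Pool.Agent.Lib.MP_a8d7f7_al.R2.L2

/-!
# MP_a8d7f7_al: generation by one matching, Steinberg coefficients (helper7)
-/

set_option autoImplicit false
set_option linter.unusedSectionVars false
set_option linter.unusedVariables false

namespace Rank2

open Finset Equiv

variable {α K : Type*} [Field K] [DecidableEq α]

/-- multiplication by a fixed function -/
noncomputable def mulL (u : Fn α K) : Fn α K →ₗ[K] Fn α K := LinearMap.mulLeft K u

omit [DecidableEq α] in
theorem mulL_apply (u f : Fn α K) : mulL u f = u * f := rfl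

omit [DecidableEq α] in
theorem act_x_sub (g : Perm α) (i j : α) : act g (x i - x j : Fn α K) = x (g i) - x (g j) := by
  rw [map_sub, act_x, act_x]

theorem act_swap_of_dep {T : Finset α} {f : Fn α K} (hf : Dep T f) {i j : α} (hi : i ∉ T)
    (hj : j ∉ T) : act (swap i j) f = f := by
  funext C
  rw [act_apply]
  apply hf
  intro z hz
  simp only [Function.comp]
  rw [swap_apply_of_ne_of_ne]
  · exact fun h => hi (h ▸ hz)
  · exact fun h => hj (h ▸ hz)

theorem act_swap_swap (i j : α) (f : Fn α K) : act (swap i j) (act (swap i j) f) = f := by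
  rw [← act_mul, swap_mul_self, act_one]

theorem act_swap_self (i : α) (f : Fn α K) : act (swap i i) f = f := by
  have h1 : (swap i i : Perm α) = 1 := swap_self i
  rw [h1, act_one]

theorem Stab.comap {R : Finset α} {U : Submodule K (Fn α K)} (hU : Stab R U) {R' : Finset α}
    (hR : R' ⊆ R) {a b : α} (ha : a ∉ R') (hb : b ∉ R') : Stab R' (U.comap (mulL (x a - x b))) := by
  intro i hi j hj f hf
  rw [Submodule.mem_comap, mulL_apply] at hf ⊢
  have h1 := hU i (hR hi) j (hR hj) _ hf
  rw [map_mul, act_x_sub, swap_apply_of_ne_of_ne, swap_apply_of_ne_of_ne] at h1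
  · exact h1
  · exact fun h => hb (h ▸ hi)
  · exact fun h => hb (h ▸ hj)
  · exact fun h => ha (h ▸ hi)
  · exact fun h => ha (h ▸ hj)

/-- **Generation**: a subspace stable under the permutations of `R` which contains the product of
the differences `x i - x (τ i)`, `i ∈ R`, contains all matchings of `R ∪ τ R`. -/
theorem Sp_le_of_stab_aux : ∀ (n : ℕ) (R : Finset α) (τ : α → α) (U : Submodule K (Fn α K)),
    R.card = n → Set.InjOn τ R → (∀ i ∈ R, τ i ∉ R) → Stab R U →
    (∏ i ∈ R, (x i - x (τ i))) ∈ U → ∀ f, Mat K (R ∪ R.image τ) f → f ∈ U := by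
  intro n
  induction n with
  | zero =>
    intro R τ U hn hτ hR hU hm f hf
    rw [card_eq_zero] at hn
    subst hn
    rw [image_empty, union_empty] at hf
    rw [hf.empty]
    rwa [prod_empty] at hm
  | succ n ih =>
    intro R τ U hn hτ hR hU hm
    -- the first case: a pair `l, τ l`
    have case1 : ∀ l ∈ R, ∀ h', Mat K (((R ∪ R.image τ).erase l).erase (τ l)) h' →
        (x l - x (τ l)) * h' ∈ U := by
      intro l hl h' hh'
      have h1 : ((R ∪ R.image τ).erase l).erase (τ l) = (R.erase l) ∪ (R.erase l).image τ := by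
        ext z
        simp only [mem_erase, mem_union, mem_image]
        constructor
        · rintro ⟨h1, h2, h3 | ⟨i, hi, rfl⟩⟩
          · exact Or.inl ⟨h2, h3⟩
          · exact Or.inr ⟨i, ⟨fun he => h1 (by rw [he]), hi⟩, rfl⟩
        · rintro (⟨h1, h2⟩ | ⟨i, ⟨h1, h2⟩, rfl⟩)
          · exact ⟨fun he => hR l hl (he ▸ h2), h1, Or.inl h2⟩
          · exact ⟨fun he => h1 (hτ h2 hl he), fun he => hR i h2 (he ▸ hl), Or.inr ⟨i, h2, rfl⟩⟩
      rw [h1] at hh'
      have h2 := ih (R.erase l) τ (U.comap (mulL (x l - x (τ l)))) (by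
        rw [card_erase_of_mem hl, hn, Nat.add_sub_cancel]) (hτ.mono (by simp))
        (fun i hi h => hR i (mem_of_mem_erase hi) (mem_of_mem_erase h))
        (hU.comap (erase_subset _ _) (notMem_erase _ _) (fun h => hR l hl (mem_of_mem_erase h))) (by
          rw [Submodule.mem_comap, mulL_apply]
          rwa [mul_prod_erase R (fun i => (x i - x (τ i) : Fn α K)) hl]) h' hh'
      rwa [Submodule.mem_comap, mulL_apply] at h2
    intro f hf
    obtain ⟨i, hi⟩ : R.Nonempty := by
      rw [← card_pos, hn]; exact Nat.succ_pos n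
    have hiT : i ∈ R ∪ R.image τ := mem_union_left _ hi
    have hτiT : τ i ∈ R ∪ R.image τ := mem_union_right _ (mem_image_of_mem _ hi)
    obtain ⟨j, hj, hji, h', hh', hf'⟩ := hf.pick hiT
    suffices hs : (x i - x j) * h' ∈ U by
      rcases hf' with rfl | rfl
      · exact hs
      · exact U.neg_mem hs
    by_cases hjτ : j = τ i
    · subst hjτ
      exact case1 i hi h' hh'
    rw [mem_union] at hj
    rcases hj with hj | hj
    · -- `j ∈ R`
      have hneτi : τ i ≠ i := fun he => hR i hi (by rw [he]; exact hi)
      obtain ⟨b, hb, hbτ, h'', hh'', hf''⟩ := hh'.pick (i := τ i)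
        (mem_erase.mpr ⟨Ne.symm hjτ, mem_erase.mpr ⟨hneτi, hτiT⟩⟩)
      rw [mem_erase, mem_erase] at hb
      suffices hs : (x i - x j) * ((x (τ i) - x b) * h'') ∈ U by
        rcases hf'' with rfl | rfl
        · exact hs
        · rw [mul_neg]; exact U.neg_mem hs
      set g : Fn α K := (x i - x (τ i)) * ((x j - x b) * h'') with hg
      have hgU : g ∈ U := by
        apply case1 i hi
        have h1 : ((R ∪ R.image τ).erase i).erase (τ i) = insert j (insert b
            (((((R ∪ R.image τ).erase i).erase j).erase (τ i)).erase b)) := by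
          ext z
          simp only [mem_erase, mem_insert]
          constructor
          · rintro ⟨h1, h2, h3⟩
            by_cases h4 : z = j
            · exact Or.inl h4
            · by_cases h5 : z = b
              · exact Or.inr (Or.inl h5)
              · exact Or.inr (Or.inr ⟨h5, h1, h4, h2, h3⟩)
          · rintro (rfl | rfl | ⟨h1, h2, h3, h4, h5⟩)
            · exact ⟨hjτ, hji, mem_union_left _ hj⟩
            · exact ⟨hbτ, hb.2.1, hb.2.2⟩
            · exact ⟨h2, h4, h5⟩
        rw [h1]
        exact hh''.cons' (Ne.symm hb.1) (by simp) (by simp)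
      have hact : act (swap i j) g = (x j - x (τ i)) * ((x i - x b) * h'') := by
        rw [hg, map_mul, map_mul, act_x_sub, act_x_sub, swap_apply_left, swap_apply_right,
          swap_apply_of_ne_of_ne hneτi (Ne.symm hjτ), swap_apply_of_ne_of_ne hb.2.1 hb.1,
          act_swap_of_dep hh''.dep (by simp) (by simp)]
      have h2 : (x i - x j) * ((x (τ i) - x b) * h'') = g - act (swap i j) g := by
        rw [hact, hg]
        ring
      rw [h2]
      exact U.sub_mem hgU (hU i hi j hj g hgU)
    · -- `j = τ l`
      obtain ⟨l, hl, rfl⟩ := mem_image.mp hj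
      have hli : l ≠ i := fun he => hjτ (by rw [he])
      have hneτ : ∀ a ∈ R, ∀ b ∈ R, τ a ≠ b := fun a ha b hb he => hR a ha (by rw [he]; exact hb)
      have h1 : act (swap i l) ((x i - x (τ l)) * h') ∈ U := by
        rw [map_mul, act_x_sub, swap_apply_left,
          swap_apply_of_ne_of_ne (hneτ l hl i hi) (hneτ l hl l hl)]
        apply case1 l hl
        have h2 := hh'.act_mem (swap i l)
        have h3 : (((R ∪ R.image τ).erase i).erase (τ l)).map (swap i l).toEmbedding =
            ((R ∪ R.image τ).erase l).erase (τ l) := by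
          ext z
          rw [mem_map_equiv, symm_swap]
          simp only [mem_erase]
          by_cases hz1 : z = i
          · subst hz1
            rw [swap_apply_left]
            constructor
            · rintro ⟨-, -, h⟩
              exact ⟨(hneτ l hl z hi).symm, Ne.symm hli, hiT⟩
            · rintro ⟨-, -, h⟩
              exact ⟨(hneτ l hl l hl).symm, hli, mem_union_left _ hl⟩
          · by_cases hz2 : z = l
            · subst hz2
              rw [swap_apply_right]
              constructor
              · rintro ⟨-, h, -⟩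
                exact absurd rfl h
              · rintro ⟨-, h, -⟩
                exact absurd rfl h
            · rw [swap_apply_of_ne_of_ne hz1 hz2]
              constructor
              · rintro ⟨h1, -, h2⟩
                exact ⟨h1, hz2, h2⟩
              · rintro ⟨h1, -, h2⟩
                exact ⟨h1, hz1, h2⟩
        rwa [h3] at h2
      have h2 := hU i hi l hl _ h1
      rwa [act_swap_swap] at h2

theorem Sp_le_of_stab {R : Finset α} {τ : α → α} (hτ : Set.InjOn τ R) (hR : ∀ i ∈ R, τ i ∉ R)
    {U : Submodule K (Fn α K)} (hU : Stab R U) (hm : (∏ i ∈ R, (x i - x (τ i))) ∈ U) :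
    Sp K (R ∪ R.image τ) ≤ U := by
  unfold Sp
  rw [Submodule.span_le]
  exact fun f hf => Sp_le_of_stab_aux _ R τ U rfl hτ hR hU hm f hf

/-! ### Steinberg coefficients -/

/-- the number of letters of `R` with value `true` -/
def nt (R : Finset α) (a : R → Bool) : ℕ := (univ.filter (fun i => a i = true)).card

omit [DecidableEq α] in
theorem nt_comp {R : Finset α} (a : R → Bool) (g : Perm R) : nt R (a ∘ g) = nt R a := by
  unfold nt
  refine card_bij' (fun i _ => g i) (fun i _ => g.symm i) ?_ ?_ ?_ ?_
  · intro i hi
    rw [mem_filter] at hi ⊢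
    exact ⟨mem_univ _, hi.2⟩
  · intro i hi
    rw [mem_filter] at hi ⊢
    refine ⟨mem_univ _, ?_⟩
    simp only [Function.comp, apply_symm_apply]
    exact hi.2
  · intro i _; simp
  · intro i _; simp

theorem nt_not {R : Finset α} (a : R → Bool) : nt R (fun i => !a i) = R.card - nt R a := by
  unfold nt
  have h1 : (univ.filter (fun i : R => (!a i) = true)) =
      univ \ (univ.filter (fun i : R => a i = true)) := by
    ext i
    simp
  rw [h1, card_sdiff_of_subset (filter_subset _ _), card_univ, Fintype.card_coe]

omit [DecidableEq α] in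
theorem nt_le {R : Finset α} (a : R → Bool) : nt R a ≤ R.card := by
  unfold nt
  calc _ ≤ (univ : Finset R).card := card_filter_le _ _
    _ = R.card := by rw [card_univ, Fintype.card_coe]

theorem exists_St {p : ℕ} (hp : p.Prime) [CharP K p] (k : ℕ) {R : Finset α}
    (hR : R.card = p ^ k - 1) : ∃ c : Perm R → K, IsSt R c := by
  classical
  set M : Fn (R ⊕ R) K := ∏ i : R, (x (Sum.inl i) - x (Sum.inr i)) with hM
  let U : Submodule K (Fn (R ⊕ R) K) :=
    { carrier := {f | ∃ c : Perm R → K, f = ∑ g : Perm R, c g • act (Equiv.sumCongr g 1) M}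
      add_mem' := by
        rintro f g ⟨c, rfl⟩ ⟨c', rfl⟩
        refine ⟨fun g => c g + c' g, ?_⟩
        rw [← sum_add_distrib]
        exact sum_congr rfl (fun g _ => by rw [add_smul])
      zero_mem' := ⟨fun _ => 0, by simp⟩
      smul_mem' := by
        rintro a f ⟨c, rfl⟩
        refine ⟨fun g => a * c g, ?_⟩
        rw [smul_sum]
        exact sum_congr rfl (fun g _ => by rw [smul_smul]) }
  let R0 : Finset (R ⊕ R) := univ.map Function.Embedding.inl
  let τ : R ⊕ R → R ⊕ R := Sum.elim (fun i => Sum.inr i) (fun i => Sum.inr i)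
  have hτ : Set.InjOn τ R0 := by
    intro a ha b hb hab
    rw [mem_coe, mem_map] at ha hb
    obtain ⟨i, -, rfl⟩ := ha
    obtain ⟨j, -, rfl⟩ := hb
    have : i = j := Sum.inr_injective hab
    rw [this]
  have hR0 : ∀ i ∈ R0, τ i ∉ R0 := by
    intro a ha h
    rw [mem_map] at ha h
    obtain ⟨i, -, rfl⟩ := ha
    obtain ⟨j, -, hj⟩ := h
    cases hj
  have hstab : Stab R0 U := by
    intro a ha b hb f hf
    obtain ⟨c, rfl⟩ := hf
    obtain ⟨i, -, rfl⟩ := mem_map.mp ha
    obtain ⟨j, -, rfl⟩ := mem_map.mp hb
    refine ⟨fun g => c (swap i j * g), ?_⟩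
    rw [map_sum]
    refine sum_bij' (fun g _ => swap i j * g) (fun g _ => swap i j * g) (fun _ _ => mem_univ _)
      (fun _ _ => mem_univ _) ?_ ?_ ?_
    · intro g _
      rw [← mul_assoc, swap_mul_self, one_mul]
    · intro g _
      rw [← mul_assoc, swap_mul_self, one_mul]
    · intro g _
      change _ = c (swap i j * (swap i j * g)) • act (Equiv.sumCongr (swap i j * g) 1) M
      rw [map_smul, ← mul_assoc, swap_mul_self, one_mul, ← act_mul]
      congr 2
      have h1 : swap (Function.Embedding.inl i : R ⊕ R) (Function.Embedding.inl j) =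
          Equiv.sumCongr (swap i j) (1 : Perm R) := by
        have := Equiv.Perm.sumCongr_swap_one (β := R) i j
        exact this.symm
      rw [h1]
      have h2 := Equiv.Perm.sumCongr_mul (swap i j) (1 : Perm R) g (1 : Perm R)
      rw [mul_one] at h2
      exact congrArg _ h2
  have hMU : (∏ a ∈ R0, (x a - x (τ a)) : Fn (R ⊕ R) K) ∈ U := by
    refine ⟨fun g => if g = 1 then 1 else 0, ?_⟩
    have h1 : (∏ a ∈ R0, (x a - x (τ a)) : Fn (R ⊕ R) K) = M := by
      rw [prod_map]
      rfl
    rw [h1, sum_eq_single_of_mem (1 : Perm R) (mem_univ _)]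
    · have h2 : Equiv.sumCongr (1 : Perm R) (1 : Perm R) = (1 : Perm (R ⊕ R)) :=
        Equiv.Perm.sumCongr_one
      change M = (if (1 : Perm R) = 1 then (1 : K) else 0) • act (Equiv.sumCongr 1 1) M
      rw [h2, act_one, if_pos rfl, one_smul]
    · intro g _ hg
      change (if g = 1 then (1 : K) else 0) • act (Equiv.sumCongr g 1) M = 0
      rw [if_neg hg, zero_smul]
  have huniv : R0 ∪ R0.image τ = univ := by
    ext a
    simp only [mem_union, mem_univ, iff_true]
    rcases a with i | i
    · left; exact mem_map.mpr ⟨i, mem_univ _, rfl⟩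
    · right; exact mem_image.mpr ⟨Sum.inl i, mem_map.mpr ⟨i, mem_univ _, rfl⟩, rfl⟩
  have hcard : (univ : Finset (R ⊕ R)).card = 2 * (p ^ k - 1) := by
    rw [card_univ, Fintype.card_sum, Fintype.card_coe, hR]
    ring
  have hE := Sp_le_of_stab hτ hR0 hstab hMU (by rw [huniv]; exact E_mem hp k hcard)
  obtain ⟨c, hc⟩ := hE
  refine ⟨c, fun a b hab => ?_⟩
  have hab' : nt R a = nt R b := hab
  -- evaluate
  have h1 := congrFun hc (Sum.elim b (fun i => !a i))
  have hMv : ∀ g : Perm R, act (Equiv.sumCongr g 1) M (Sum.elim b (fun i => !a i)) =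
      if b ∘ g = a then (-1 : K) ^ (R.card - nt R a) else 0 := by
    intro g
    rw [act_apply, hM, Finset.prod_apply]
    split_ifs with h
    · have h2 : ∀ i ∈ (univ : Finset R), (x (Sum.inl i) - x (Sum.inr i) : Fn (R ⊕ R) K)
          (Sum.elim b (fun i => !a i) ∘ (Equiv.sumCongr g 1)) =
          if (!a i) = true then (-1 : K) else 1 := by
        intro i _
        rw [Pi.sub_apply, x_apply, x_apply]
        have h3 : b (g i) = a i := congrFun h i
        simp only [Function.comp, Equiv.sumCongr_apply, Sum.map_inl, Sum.map_inr, Sum.elim_inl,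
          Sum.elim_inr, Perm.one_apply, h3]
        cases a i <;> simp
      rw [prod_congr rfl h2, prod_ite, prod_const, prod_const, one_pow, mul_one]
      congr 1
      exact nt_not a
    · obtain ⟨i, hi⟩ : ∃ i, b (g i) ≠ a i := by
        by_contra hcon
        push Not at hcon
        exact h (funext hcon)
      apply prod_eq_zero (mem_univ i)
      rw [Pi.sub_apply, x_apply, x_apply]
      simp only [Function.comp, Equiv.sumCongr_apply, Sum.map_inl, Sum.map_inr, Sum.elim_inl,
        Sum.elim_inr, Perm.one_apply]
      cases h3 : b (g i) <;> cases h4 : a i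
      · exact absurd (h3.trans h4.symm) hi
      · simp
      · simp
      · exact absurd (h3.trans h4.symm) hi
  have hEv : E K (univ : Finset (R ⊕ R)) (Sum.elim b (fun i => !a i)) = 1 := by
    unfold E
    rw [if_pos]
    have h2 : (univ.filter (fun z : R ⊕ R => Sum.elim b (fun i => !a i) z = true)).card =
        nt R b + nt R (fun i => !a i) := by
      unfold nt
      rw [card_filter, card_filter, card_filter, Fintype.sum_sum_type]
      rfl
    rw [h2, nt_not, card_univ, Fintype.card_sum, Fintype.card_coe, hab']
    have := nt_le b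
    omega
  rw [hEv, Finset.sum_apply] at h1
  simp only [Pi.smul_apply, hMv, smul_eq_mul, mul_ite, mul_zero] at h1
  have h2 : (1 : K) = (∑ g : Perm R, if b ∘ g = a then c g else 0) *
      (-1 : K) ^ (R.card - nt R a) := by
    rw [sum_mul]
    conv_lhs => rw [h1]
    apply sum_congr rfl
    intro g _
    split_ifs <;> simp
  have h3 : (-1 : K) ^ (R.card - nt R a) * (-1 : K) ^ (R.card - nt R a) = 1 := by
    rw [← pow_add, ← two_mul, pow_mul, neg_one_sq, one_pow]
  change _ = (-1 : K) ^ (R.card - nt R a)
  calc _ = (∑ g : Perm R, if b ∘ g = a then c g else 0) *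
      ((-1 : K) ^ (R.card - nt R a) * (-1 : K) ^ (R.card - nt R a)) := by rw [h3, mul_one]
    _ = _ := by rw [← mul_assoc, ← h2, one_mul]

theorem IsSt.sum {R : Finset α} {c : Perm R → K} (hc : IsSt R c) : ∑ g, c g = 1 := by
  have h1 := hc (fun _ => true) (fun _ => true) rfl
  have h2 : ∀ g : Perm R, ((fun _ => true : R → Bool) ∘ g = fun _ => true) := fun g => rfl
  simp only [h2, if_true] at h1
  rw [h1]
  simp

/-- replace the values on `R` -/
def mix (R : Finset α) (a : R → Bool) (C : α → Bool) : α → Bool :=
  fun i => if h : i ∈ R then a ⟨i, h⟩ else C i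

theorem mix_mem {R : Finset α} (a : R → Bool) (C : α → Bool) {i : α} (h : i ∈ R) :
    mix R a C i = a ⟨i, h⟩ := by
  unfold mix; rw [dif_pos h]

theorem mix_notMem {R : Finset α} (a : R → Bool) (C : α → Bool) {i : α} (h : i ∉ R) :
    mix R a C i = C i := by
  unfold mix; rw [dif_neg h]

/-- restriction -/
def res (R : Finset α) (C : α → Bool) : R → Bool := fun i => C i

theorem comp_ofSubtype {R : Finset α} (g : Perm R) (C : α → Bool) :
    C ∘ (Perm.ofSubtype g : Perm α) = mix R (res R C ∘ g) C := by
  funext i
  by_cases h : i ∈ R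
  · rw [mix_mem _ _ h]
    simp only [Function.comp, res]
    rw [Perm.ofSubtype_apply_of_mem g h]
  · rw [mix_notMem _ _ h]
    simp only [Function.comp]
    rw [Perm.ofSubtype_apply_of_not_mem g h]

theorem op_apply {R : Finset α} (c : Perm R → K) (f : Fn α K) (C : α → Bool) :
    op R c f C = ∑ g : Perm R, c g * f (mix R (res R C ∘ g) C) := by
  unfold op
  rw [LinearMap.sum_apply, Finset.sum_apply]
  apply sum_congr rfl
  intro g _
  rw [LinearMap.smul_apply, Pi.smul_apply, AlgHom.toLinearMap_apply, act_apply, comp_ofSubtype,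
    smul_eq_mul]

theorem IsSt.formula {R : Finset α} {c : Perm R → K} (hc : IsSt R c) (f : Fn α K)
    (C : α → Bool) : op R c f C = ∑ a : R → Bool, if nt R a = nt R (res R C) then
      (-1) ^ (R.card - nt R a) * f (mix R a C) else 0 := by
  rw [op_apply]
  have h1 : ∀ g : Perm R, c g * f (mix R (res R C ∘ g) C) =
      ∑ a : R → Bool, (if res R C ∘ g = a then c g else 0) * f (mix R a C) := by
    intro g
    rw [sum_eq_single_of_mem (res R C ∘ g) (mem_univ _)]
    · rw [if_pos rfl]
    · intro a _ ha
      rw [if_neg (Ne.symm ha), zero_mul]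
  rw [sum_congr rfl (fun g _ => h1 g), sum_comm]
  apply sum_congr rfl
  intro a _
  rw [← sum_mul]
  split_ifs with h
  · rw [hc a (res R C) h]
    rfl
  · rw [sum_eq_zero, zero_mul]
    intro g _
    rw [if_neg]
    intro he
    apply h
    rw [← he, nt_comp]

theorem IsSt.op_act {R : Finset α} {c : Perm R → K} (hc : IsSt R c) {i j : α} (hi : i ∈ R)
    (hj : j ∈ R) (f : Fn α K) : op R c (act (swap i j) f) = op R c f := by
  funext C
  rw [hc.formula, hc.formula]
  set s : Perm R := swap ⟨i, hi⟩ ⟨j, hj⟩ with hs
  have h1 : ∀ a : R → Bool, mix R a C ∘ (swap i j) = mix R (a ∘ s) C := by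
    intro a
    funext z
    simp only [Function.comp]
    by_cases hz : z ∈ R
    · have h2 : (swap i j z) = ((s ⟨z, hz⟩ : R) : α) := by
        rw [hs, swap_apply_def, swap_apply_def]
        by_cases h3 : z = i
        · rw [if_pos h3, if_pos (Subtype.ext h3)]
        · rw [if_neg h3, if_neg (fun h => h3 (congrArg Subtype.val h))]
          by_cases h4 : z = j
          · rw [if_pos h4, if_pos (Subtype.ext h4)]
          · rw [if_neg h4, if_neg (fun h => h4 (congrArg Subtype.val h))]
      rw [h2, mix_mem _ _ (s ⟨z, hz⟩).2, mix_mem _ _ hz]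
      rfl
    · have hzi : z ≠ i := fun h => hz (h ▸ hi)
      have hzj : z ≠ j := fun h => hz (h ▸ hj)
      rw [swap_apply_of_ne_of_ne hzi hzj, mix_notMem _ _ hz, mix_notMem _ _ hz]
  refine sum_bij' (fun a _ => a ∘ s) (fun a _ => a ∘ s) (fun _ _ => mem_univ _)
    (fun _ _ => mem_univ _) ?_ ?_ ?_
  · intro a _
    funext z
    simp [Function.comp, hs]
  · intro a _
    funext z
    simp [Function.comp, hs]
  · intro a _
    rw [nt_comp, act_apply, h1]

theorem IsSt.op_prod {R : Finset α} {c : Perm R → K} (hc : IsSt R c) {τ : α → α}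
    (hτ : Set.InjOn τ R) (hR : ∀ i ∈ R, τ i ∉ R) :
    op R c (∏ i ∈ R, (x i - x (τ i))) = E K (R ∪ R.image τ) := by
  funext C
  rw [hc.formula]
  set a₀ : R → Bool := fun i => !C (τ i) with ha₀
  have h1 : ∀ a : R → Bool, (∏ i ∈ R, (x i - x (τ i)) : Fn α K) (mix R a C) =
      if a = a₀ then (-1) ^ (R.card - nt R a₀) else 0 := by
    intro a
    rw [Finset.prod_apply, ← prod_coe_sort R]
    have h2 : ∀ i : R, (x (i : α) - x (τ i) : Fn α K) (mix R a C) =
        (if a i = true then 1 else 0) - (if C (τ i) = true then 1 else 0) := by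
      intro i
      rw [Pi.sub_apply, x_apply, x_apply, mix_mem _ _ i.2, mix_notMem _ _ (hR i i.2)]
    simp only [h2]
    split_ifs with h
    · subst h
      have h3 : ∀ i ∈ (univ : Finset R), ((if a₀ i = true then 1 else 0) -
          (if C (τ i) = true then 1 else 0) : K) = if (!a₀ i) = true then (-1 : K) else 1 := by
        intro i _
        simp only [ha₀]
        cases C (τ i) <;> simp
      rw [prod_congr rfl h3, prod_ite, prod_const, prod_const, one_pow, mul_one]
      congr 1
      exact nt_not a₀
    · obtain ⟨i, hi⟩ : ∃ i, a i ≠ a₀ i := by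
        by_contra hcon
        push Not at hcon
        exact h (funext hcon)
      apply prod_eq_zero (mem_univ i)
      simp only [ha₀] at hi
      cases h3 : a i <;> cases h4 : C (τ i)
      · simp
      · rw [h3, h4] at hi; exact absurd rfl hi
      · rw [h3, h4] at hi; exact absurd rfl hi
      · simp
  simp only [h1]
  rw [sum_eq_single_of_mem a₀ (mem_univ _)]
  · rw [if_pos rfl]
    have h3 : (-1 : K) ^ (R.card - nt R a₀) * (-1 : K) ^ (R.card - nt R a₀) = 1 := by
      rw [← pow_add, ← two_mul, pow_mul, neg_one_sq, one_pow]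
    rw [h3]
    have hdis : Disjoint R (R.image τ) := by
      rw [disjoint_left]
      intro z hz hz'
      obtain ⟨i, hi, rfl⟩ := mem_image.mp hz'
      exact hR i hi hz
    have h4 : ((R ∪ R.image τ).filter (fun i => C i = true)).card =
        nt R (res R C) + (R.card - nt R a₀) := by
      rw [filter_union, card_union_of_disjoint
        (disjoint_of_subset_left (filter_subset _ _)
          (disjoint_of_subset_right (filter_subset _ _) hdis))]
      congr 1
      · unfold nt res
        rw [← card_map (Function.Embedding.subtype (· ∈ R))]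
        congr 1
        ext z
        simp only [mem_filter, mem_map, mem_univ, true_and, Function.Embedding.coe_subtype]
        constructor
        · rintro ⟨h1, h2⟩
          exact ⟨⟨z, h1⟩, h2, rfl⟩
        · rintro ⟨i, h1, rfl⟩
          exact ⟨i.2, h1⟩
      · rw [← nt_not]
        unfold nt
        symm
        refine card_bij (fun i _ => τ i) ?_ ?_ ?_
        · intro i hi
          rw [mem_filter] at hi
          rw [mem_filter]
          refine ⟨mem_image_of_mem _ i.2, ?_⟩
          simpa [ha₀] using hi.2
        · intro i _ j _ h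
          exact Subtype.ext (hτ i.2 j.2 h)
        · intro z hz
          rw [mem_filter] at hz
          obtain ⟨i, hi, rfl⟩ := mem_image.mp hz.1
          exact ⟨⟨i, hi⟩, by rw [mem_filter]; exact ⟨mem_univ _, by simpa [ha₀] using hz.2⟩, rfl⟩
    have h5 : (R ∪ R.image τ).card = 2 * R.card := by
      rw [card_union_of_disjoint hdis, card_image_of_injOn hτ]
      ring
    unfold E
    rw [h4, h5]
    have := nt_le a₀
    have : (nt R a₀ = nt R (res R C)) ↔
        2 * (nt R (res R C) + (R.card - nt R a₀)) = 2 * R.card := by omega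
    rw [if_congr this rfl rfl]
  · intro a _ ha
    rw [if_neg ha, mul_zero, ite_self]

theorem op_mul {R S : Finset α} (c : Perm R → K) {f h : Fn α K} (hh : Dep S h)
    (hS : Disjoint S R) : op R c (f * h) = op R c f * h := by
  funext C
  rw [Pi.mul_apply, op_apply, op_apply, sum_mul]
  apply sum_congr rfl
  intro g _
  rw [Pi.mul_apply]
  have : h (mix R (res R C ∘ g) C) = h C := by
    apply hh
    intro i hi
    exact mix_notMem _ _ (disjoint_left.mp hS hi)
  rw [this, mul_assoc]

/-- an antisymmetric element is killed -/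
theorem IsSt.op_anti {R : Finset α} {c : Perm R → K} (hc : IsSt R c) {i j : α} (hi : i ∈ R)
    (hj : j ∈ R) {g : Fn α K} (hg : act (swap i j) g = g) : op R c ((x i - x j) * g) = 0 := by
  have h1 : (x i - x j) * g = x i * g - act (swap i j) (x i * g) := by
    rw [map_mul, act_x, swap_apply_left, hg]
    ring
  rw [h1, map_sub, hc.op_act hi hj, sub_self]

/-- either there is a pair inside `R`, or all letters of `R` are matched to outside letters -/
theorem Mat.split {T : Finset α} {f : Fn α K} (hf : Mat K T f) {R : Finset α} (hRT : R ⊆ T) :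
    ∀ R' : Finset α, R' ⊆ R →
    (∃ i ∈ R, ∃ j ∈ R, ∃ g, act (swap i j) g = g ∧ (f = (x i - x j) * g ∨
      f = -((x i - x j) * g))) ∨
    (∃ τ : α → α, ∃ h, Set.InjOn τ R' ∧ (∀ i ∈ R', τ i ∈ T \ R) ∧
      Mat K (T \ (R' ∪ R'.image τ)) h ∧ (f = (∏ i ∈ R', (x i - x (τ i))) * h ∨
      f = -((∏ i ∈ R', (x i - x (τ i))) * h))) := by
  intro R'
  induction R' using Finset.induction_on with
  | empty =>
    intro _
    right
    refine ⟨id, f, by simp, by simp, by simpa using hf, Or.inl (by simp)⟩
  | insert a R' ha ih =>
    intro hR'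
    rcases ih ((subset_insert _ _).trans hR') with h1 | ⟨τ, h, hτ, hR, hh, hf'⟩
    · exact Or.inl h1
    have haR : a ∈ R := hR' (mem_insert_self _ _)
    have haim : a ∉ R'.image τ := by
      intro h1
      obtain ⟨i, hi, he⟩ := mem_image.mp h1
      exact (mem_sdiff.mp (hR i hi)).2 (he ▸ haR)
    have haT : a ∈ T \ (R' ∪ R'.image τ) := by
      rw [mem_sdiff, mem_union, not_or]
      exact ⟨hRT haR, ha, haim⟩
    obtain ⟨j, hj, hja, h', hh', hp⟩ := hh.pick haT
    have hjU := (mem_sdiff.mp hj).2
    rw [mem_union, not_or] at hjU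
    by_cases hjR : j ∈ R
    · left
      refine ⟨a, haR, j, hjR, (∏ i ∈ R', (x i - x (τ i))) * h', ?_, ?_⟩
      · rw [map_mul, act_swap_of_dep hh'.dep (by simp) (by simp)]
        congr 1
        rw [map_prod]
        apply prod_congr rfl
        intro i hi
        rw [act_x_sub, swap_apply_of_ne_of_ne, swap_apply_of_ne_of_ne]
        · exact fun he => haim (he ▸ mem_image_of_mem _ hi)
        · exact fun he => hjU.2 (he ▸ mem_image_of_mem _ hi)
        · exact fun he => ha (he ▸ hi)
        · exact fun he => hjU.1 (he ▸ hi)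
      · rcases hp with rfl | rfl <;> rcases hf' with rfl | rfl
        · left; ring
        · right; ring
        · right; ring
        · left; ring
    · right
      have hup : ∀ i ∈ R', Function.update τ a j i = τ i := by
        intro i hi
        have hia : i ≠ a := fun he => ha (he ▸ hi)
        exact Function.update_of_ne hia _ _
      have him : R'.image (Function.update τ a j) = R'.image τ :=
        image_congr (fun i hi => hup i hi)
      refine ⟨Function.update τ a j, h', ?_, ?_, ?_, ?_⟩
      · intro u hu v hv he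
        rw [mem_coe, mem_insert] at hu hv
        rcases hu with rfl | hu <;> rcases hv with rfl | hv
        · rfl
        · rw [Function.update_self, hup v hv] at he
          exact absurd (mem_image.mpr ⟨v, hv, he.symm⟩) hjU.2
        · rw [Function.update_self, hup u hu] at he
          exact absurd (mem_image.mpr ⟨u, hu, he⟩) hjU.2
        · rw [hup u hu, hup v hv] at he
          exact hτ hu hv he
      · intro i hi
        rw [mem_insert] at hi
        rcases hi with rfl | hi
        · rw [Function.update_self, mem_sdiff]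
          exact ⟨(mem_sdiff.mp hj).1, hjR⟩
        · rw [hup i hi]
          exact hR i hi
      · rw [image_insert, Function.update_self, him]
        have h1 : T \ (insert a R' ∪ insert j (R'.image τ)) =
            ((T \ (R' ∪ R'.image τ)).erase a).erase j := by
          ext z
          simp only [mem_sdiff, mem_union, mem_insert, mem_erase]
          tauto
        rw [h1]
        exact hh'
      · rw [prod_insert ha, Function.update_self,
          prod_congr rfl (fun i hi => by rw [hup i hi])]
        rcases hp with rfl | rfl <;> rcases hf' with rfl | rfl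
        · left; ring
        · right; ring
        · right; ring
        · left; ring

theorem IsSt.op_mem {p : ℕ} (hp : p.Prime) [CharP K p] {k : ℕ} {R : Finset α} {c : Perm R → K}
    (hc : IsSt R c) (hR : R.card = p ^ k - 1) {T : Finset α} (hRT : R ⊆ T) {f : Fn α K}
    (hf : f ∈ Sp K T) : op R c f ∈ P K (p ^ k - 1) T := by
  refine Sp.induction (q := fun f => op R c f ∈ P K (p ^ k - 1) T) ?_ ?_ ?_ ?_ hf
  · intro f hf
    rcases hf.split hRT R (subset_refl _) with ⟨i, hi, j, hj, g, hg, h1⟩ | ⟨τ, h, hτ, hR', hh, h1⟩
    · have h2 : op R c f = 0 := by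
        rcases h1 with rfl | rfl
        · exact hc.op_anti hi hj hg
        · rw [map_neg, hc.op_anti hi hj hg, neg_zero]
      rw [h2]
      exact Submodule.zero_mem _
    · have hτR : ∀ i ∈ R, τ i ∉ R := fun i hi => (mem_sdiff.mp (hR' i hi)).2
      have hdis : Disjoint (T \ (R ∪ R.image τ)) R := by
        rw [disjoint_left]
        intro z hz hz'
        exact (mem_sdiff.mp hz).2 (mem_union_left _ hz')
      have h2 : op R c ((∏ i ∈ R, (x i - x (τ i))) * h) ∈ P K (p ^ k - 1) T := by
        rw [op_mul c hh.dep hdis, hc.op_prod hτ hτR]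
        apply Submodule.subset_span
        refine ⟨R ∪ R.image τ, ?_, ?_, h, hh, rfl⟩
        · apply union_subset hRT
          intro z hz
          obtain ⟨i, hi, rfl⟩ := mem_image.mp hz
          exact (mem_sdiff.mp (hR' i hi)).1
        · rw [card_union_of_disjoint, card_image_of_injOn hτ, hR]
          · ring
          · rw [disjoint_left]
            intro z hz hz'
            obtain ⟨i, hi, rfl⟩ := mem_image.mp hz'
            exact hτR i hi hz
      rcases h1 with rfl | rfl
      · exact h2
      · rw [map_neg]; exact Submodule.neg_mem _ h2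
  · rw [map_zero]; exact Submodule.zero_mem _
  · intro f g hf hg
    rw [map_add]; exact Submodule.add_mem _ hf hg
  · intro a f hf
    rw [map_smul]; exact Submodule.smul_mem _ _ hf

end Rank2
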