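import Pool.Agent.Lib.MP_a8d7f7_al.R2.Q1
import Pool.Agent.Lib.MP_a8d7f7_al.R2.L3

/-!
# MP_a8d7f7_al: the function of an element of the group algebra (helper62)
-/

set_option autoImplicit false
set_option linter.unusedSectionVars false
set_option linter.unusedVariables false

namespace Rank2

open Finset Equiv FinSym

variable {K : Type*} [Field K] {Ω : Type*} [DecidableEq Ω]

theorem poly_add (D : Finset Ω) (y z : MonoidAlgebra K (FSym Ω)) :
    poly D (y + z) = poly D y + poly D z := by
  unfold poly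
  rw [map_add, LinearMap.add_apply]

theorem poly_sub (D : Finset Ω) (y z : MonoidAlgebra K (FSym Ω)) :
    poly D (y - z) = poly D y - poly D z := by
  unfold poly
  rw [map_sub, LinearMap.sub_apply]

theorem poly_smul (D : Finset Ω) (a : K) (y : MonoidAlgebra K (FSym Ω)) :
    poly D (a • y) = a • poly D y := by
  unfold poly
  rw [map_smul, LinearMap.smul_apply]

theorem poly_zero (D : Finset Ω) : poly D (0 : MonoidAlgebra K (FSym Ω)) = 0 := by
  unfold poly
  rw [map_zero, LinearMap.zero_apply]

theorem poly_one (D : Finset Ω) : poly D (1 : MonoidAlgebra K (FSym Ω)) = M K D := by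
  unfold poly
  rw [map_one, Module.End.one_apply]

theorem poly_of (D : Finset Ω) (g : FSym Ω) : poly D (MonoidAlgebra.of K (FSym Ω) g) =
    act (Equiv.sumCongr (g : Perm Ω) (1 : Perm Ω)) (M K D) := by
  unfold poly
  rw [actz_of]

theorem poly_mul_left (D : Finset Ω) (g : FSym Ω) (y : MonoidAlgebra K (FSym Ω)) :
    poly D (MonoidAlgebra.of K (FSym Ω) g * y) =
      act (Equiv.sumCongr (g : Perm Ω) (1 : Perm Ω)) (poly D y) := by
  unfold poly
  rw [map_mul, Module.End.mul_apply, actz_of]

theorem actz_comm (h : Perm Ω) (y : MonoidAlgebra K (FSym Ω)) (f : Fn (Ω ⊕ Ω) K) :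
    actz K Ω y (act (Equiv.sumCongr (1 : Perm Ω) h) f) =
      act (Equiv.sumCongr (1 : Perm Ω) h) (actz K Ω y f) := by
  obtain ⟨D, hD⟩ := exists_On y
  refine On.induction (D := D) (q := fun y => actz K Ω y (act (Equiv.sumCongr (1 : Perm Ω) h) f) =
      act (Equiv.sumCongr (1 : Perm Ω) h) (actz K Ω y f)) ?_ ?_ ?_ ?_ hD
  · rw [map_zero, LinearMap.zero_apply, LinearMap.zero_apply, map_zero]
  · intro y z hy hz
    rw [map_add, LinearMap.add_apply, LinearMap.add_apply, map_add, hy, hz]
  · intro a y hy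
    rw [map_smul, LinearMap.smul_apply, LinearMap.smul_apply, map_smul, hy]
  · intro g _
    rw [actz_of, actz_of, ← act_mul, ← act_mul]
    congr 2
    apply Equiv.ext
    intro z
    rcases z with z | z <;> rfl

theorem act_M_left {D : Finset Ω} {g : Perm Ω} (hg : ∀ z, z ∉ D → g z = z) :
    act (Equiv.sumCongr g (1 : Perm Ω)) (M K D) = act (Equiv.sumCongr (1 : Perm Ω) g⁻¹) (M K D) := by
  unfold M
  rw [map_prod, map_prod]
  have hgD : ∀ z, z ∈ D → g z ∈ D := by
    intro z hz
    by_contra hcon
    have h1 := hg _ hcon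
    have h2 := g.injective h1
    rw [h2] at hcon
    exact hcon hz
  refine Finset.prod_bij (fun i _ => g i) (fun i hi => hgD i hi)
    (fun i _ j _ h => g.injective h) ?_ ?_
  · intro j hj
    have hfin : Set.MapsTo g D D := fun i hi => hgD i hi
    have hs : Set.SurjOn g D D :=
      Finset.surjOn_of_injOn_of_card_le g hfin g.injective.injOn (le_refl _)
    obtain ⟨i, hi, hij⟩ := hs hj
    exact ⟨i, hi, hij⟩
  · intro i hi
    rw [map_sub, map_sub, act_x, act_x, act_x, act_x]
    change (x (Sum.inl (g i)) : Fn (Ω ⊕ Ω) K) - x (Sum.inr i) =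
      x (Sum.inl (g i)) - x (Sum.inr (g.symm (g i)))
    rw [symm_apply_apply]

theorem poly_mul_right {D : Finset Ω} {g : FSym Ω} (hg : ∀ z, z ∉ D → (g : Perm Ω) z = z)
    (y : MonoidAlgebra K (FSym Ω)) :
    poly D (y * MonoidAlgebra.of K (FSym Ω) g) =
      act (Equiv.sumCongr (1 : Perm Ω) (g : Perm Ω)⁻¹) (poly D y) := by
  unfold poly
  rw [map_mul, Module.End.mul_apply, actz_of, act_M_left hg, actz_comm]

theorem M_insert {D : Finset Ω} {a : Ω} (ha : a ∉ D) :
    M K (insert a D) = (x (Sum.inl a) - x (Sum.inr a)) * M K D := by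
  unfold M
  rw [prod_insert ha]

theorem M_union {D D' : Finset Ω} (h : Disjoint D D') : M K (D ∪ D') = M K D' * M K D := by
  unfold M
  rw [prod_union h, mul_comm]

theorem poly_union {D D' : Finset Ω} (h : Disjoint D D') {y : MonoidAlgebra K (FSym Ω)}
    (hy : On D y) : poly (D ∪ D') y = M K D' * poly D y := by
  refine On.induction (D := D) (q := fun y => poly (D ∪ D') y = M K D' * poly D y) ?_ ?_ ?_ ?_ hy
  · rw [poly_zero, poly_zero, mul_zero]
  · intro y z hy hz
    rw [poly_add, poly_add, mul_add, hy, hz]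
  · intro a y hy
    rw [poly_smul, poly_smul, hy, mul_smul_comm]
  · intro g hg
    rw [poly_of, poly_of, M_union h, map_mul]
    congr 1
    unfold M
    rw [map_prod]
    apply prod_congr rfl
    intro i hi
    rw [map_sub, act_x, act_x]
    change (x (Sum.inl ((g : Perm Ω) i)) : Fn (Ω ⊕ Ω) K) - x (Sum.inr i) = _
    rw [hg i (disjoint_right.mp h hi)]

theorem poly_insert {D : Finset Ω} {a : Ω} (ha : a ∉ D) {y : MonoidAlgebra K (FSym Ω)}
    (hy : On D y) : poly (insert a D) y = (x (Sum.inl a) - x (Sum.inr a)) * poly D y := by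
  have h1 := poly_union (D' := {a}) (disjoint_singleton_right.mpr ha) hy
  rw [union_singleton] at h1
  rw [h1]
  unfold M
  rw [prod_singleton]

theorem M_Mat (D : Finset Ω) : Mat K (D.disjSum D) (M K D) := by
  induction D using Finset.induction_on with
  | empty =>
    unfold M
    rw [prod_empty, empty_disjSum, map_empty]
    exact Mat.nil
  | insert a D ha ih =>
    rw [M_insert ha]
    refine Mat.cons (Sum.inl a) (Sum.inr a) (D.disjSum D) _ _ Sum.inl_ne_inr ?_ ?_ ?_ ih
    · rw [inl_mem_disjSum]
      exact ha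
    · rw [inr_mem_disjSum]
      exact ha
    · ext z
      rcases z with z | z
      · rw [inl_mem_disjSum, mem_insert, mem_insert, mem_insert, inl_mem_disjSum]
        simp
      · rw [inr_mem_disjSum, mem_insert, mem_insert, mem_insert, inr_mem_disjSum]
        simp

theorem poly_mem {D : Finset Ω} {y : MonoidAlgebra K (FSym Ω)} (hy : On D y) :
    poly D y ∈ Sp K (D.disjSum D) := by
  refine On.induction (D := D) (q := fun y => poly D y ∈ Sp K (D.disjSum D)) ?_ ?_ ?_ ?_ hy
  · rw [poly_zero]
    exact zero_mem _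
  · intro y z hy hz
    rw [poly_add]
    exact add_mem hy hz
  · intro a y hy
    rw [poly_smul]
    exact Submodule.smul_mem _ _ hy
  · intro g hg
    rw [poly_of]
    have h1 := Sp.act_mem (Submodule.subset_span (M_Mat (K := K) D) : M K D ∈ Sp K (D.disjSum D))
      (Equiv.sumCongr (g : Perm Ω) (1 : Perm Ω))
    have h2 : (D.disjSum D).map (Equiv.sumCongr (g : Perm Ω) (1 : Perm Ω)).toEmbedding =
        D.disjSum D := by
      ext z
      rw [mem_map_equiv]
      rcases z with z | z
      · change Sum.inl ((g : Perm Ω).symm z) ∈ D.disjSum D ↔ _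
        rw [inl_mem_disjSum, inl_mem_disjSum]
        constructor
        · intro h
          by_contra hcon
          apply hcon
          have h3 := hg z hcon
          have h4 : (g : Perm Ω).symm z = z := by
            rw [Equiv.symm_apply_eq]
            exact h3.symm
          rwa [h4] at h
        · intro h
          by_contra hcon
          have h3 := hg _ hcon
          rw [apply_symm_apply] at h3
          rw [← h3] at hcon
          exact hcon h
      · change Sum.inr z ∈ D.disjSum D ↔ _
        rfl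
    rwa [h2] at h1

/-- the space of the functions of the elements on `D` -/
noncomputable def polyRange (K : Type*) [Field K] {Ω : Type*} [DecidableEq Ω] (D : Finset Ω) :
    Submodule K (Fn (Ω ⊕ Ω) K) where
  carrier := {f | ∃ y : MonoidAlgebra K (FSym Ω), On D y ∧ poly D y = f}
  add_mem' := by
    rintro f f' ⟨y, hy, rfl⟩ ⟨z, hz, rfl⟩
    exact ⟨y + z, hy.add hz, poly_add D y z⟩
  zero_mem' := ⟨0, On.zero D, poly_zero D⟩
  smul_mem' := by
    rintro a f ⟨y, hy, rfl⟩
    exact ⟨a • y, hy.smul a, poly_smul D a y⟩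

theorem sw_fix {D : Finset Ω} {a b : Ω} (ha : a ∈ D) (hb : b ∈ D) :
    ∀ z, z ∉ D → ((sw a b : FSym Ω) : Perm Ω) z = z := by
  intro z hz
  change swap a b z = z
  exact swap_apply_of_ne_of_ne (fun h => hz (h ▸ ha)) (fun h => hz (h ▸ hb))

theorem poly_surj {D : Finset Ω} {f : Fn (Ω ⊕ Ω) K} (hf : f ∈ Sp K (D.disjSum D)) :
    ∃ y, On D y ∧ poly D y = f := by
  classical
  set R : Finset (Ω ⊕ Ω) := D.map Function.Embedding.inl with hR
  set t : Ω ⊕ Ω → Ω ⊕ Ω := Sum.elim Sum.inr Sum.inr with ht
  have hmem : ∀ z ∈ R, ∃ i ∈ D, z = Sum.inl i := by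
    intro z hz
    rw [hR, mem_map] at hz
    obtain ⟨i, hi, rfl⟩ := hz
    exact ⟨i, hi, rfl⟩
  have h1 : Set.InjOn t R := by
    intro a ha b hb hab
    obtain ⟨i, -, rfl⟩ := hmem a ha
    obtain ⟨j, -, rfl⟩ := hmem b hb
    change (Sum.inr i : Ω ⊕ Ω) = Sum.inr j at hab
    rw [Sum.inr_injective hab]
  have h2 : ∀ z ∈ R, t z ∉ R := by
    intro a ha hta
    obtain ⟨i, -, rfl⟩ := hmem a ha
    obtain ⟨j, -, hj⟩ := hmem _ hta
    exact absurd hj Sum.inr_ne_inl
  have h3 : Stab R (polyRange K D) := by
    intro a ha b hb f hf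
    obtain ⟨i, hi, rfl⟩ := hmem a ha
    obtain ⟨j, hj, rfl⟩ := hmem b hb
    obtain ⟨y, hy, rfl⟩ := hf
    refine ⟨MonoidAlgebra.of K (FSym Ω) (sw i j) * y, (On.of (sw_fix hi hj)).mul hy, ?_⟩
    rw [poly_mul_left]
    congr 2
    apply Equiv.ext
    intro z
    rcases z with z | z
    · change (Sum.inl (swap i j z) : Ω ⊕ Ω) = swap (Sum.inl i : Ω ⊕ Ω) (Sum.inl j) (Sum.inl z)
      exact ((Sum.inl_injective (β := Ω)).map_swap i j z)
    · change (Sum.inr z : Ω ⊕ Ω) = swap (Sum.inl i : Ω ⊕ Ω) (Sum.inl j) (Sum.inr z)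
      rw [swap_apply_of_ne_of_ne Sum.inr_ne_inl Sum.inr_ne_inl]
  have h4 : ∏ z ∈ R, (x z - x (t z)) ∈ polyRange K D := by
    refine ⟨1, On.one D, ?_⟩
    rw [poly_one, hR, prod_map]
    rfl
  have h5 : R ∪ R.image t = D.disjSum D := by
    ext z
    rw [mem_union, mem_image]
    rcases z with z | z
    · rw [inl_mem_disjSum]
      constructor
      · rintro (h | ⟨w, hw, h⟩)
        · obtain ⟨i, hi, h'⟩ := hmem _ h
          rwa [Sum.inl_injective h']
        · obtain ⟨i, hi, rfl⟩ := hmem _ hw
          exact absurd h Sum.inr_ne_inl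
      · intro h
        left
        rw [hR, mem_map]
        exact ⟨z, h, rfl⟩
    · rw [inr_mem_disjSum]
      constructor
      · rintro (h | ⟨w, hw, h⟩)
        · obtain ⟨i, hi, h'⟩ := hmem _ h
          exact absurd h' Sum.inr_ne_inl
        · obtain ⟨i, hi, rfl⟩ := hmem _ hw
          change (Sum.inr i : Ω ⊕ Ω) = Sum.inr z at h
          rwa [← Sum.inr_injective h]
      · intro h
        right
        exact ⟨Sum.inl z, by rw [hR, mem_map]; exact ⟨z, h, rfl⟩, rfl⟩
  rw [← h5] at hf
  exact Sp_le_of_stab h1 h2 h3 h4 hf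

/-! ### values -/

theorem poly_apply (D : Finset Ω) (y : MonoidAlgebra K (FSym Ω)) (C : Ω ⊕ Ω → Bool) :
    poly D y C = ∑ σ ∈ y.coeff.support, y.coeff σ *
      ∏ i ∈ D, ((if C (Sum.inl ((σ : Perm Ω) i)) then 1 else 0) - (if C (Sum.inr i) then 1 else 0)) := by
  unfold poly
  conv_lhs => rw [expand_on y]
  rw [map_sum, LinearMap.sum_apply, Finset.sum_apply]
  apply sum_congr rfl
  intro σ _
  rw [map_smul, LinearMap.smul_apply, actz_of, Pi.smul_apply, smul_eq_mul]
  congr 1
  unfold M
  rw [map_prod, prod_apply]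
  apply prod_congr rfl
  intro i _
  rw [map_sub, act_x, act_x]
  rfl

/-- the value at the point `1` on the left, `0` on the right is the augmentation -/
theorem poly_aug (D : Finset Ω) (y : MonoidAlgebra K (FSym Ω)) :
    poly D y (Sum.elim (fun _ => true) (fun _ => false)) = ∑ σ ∈ y.coeff.support, y.coeff σ := by
  rw [poly_apply]
  apply sum_congr rfl
  intro σ _
  simp

/-- the coefficients of the colouring module -/
theorem col_apply (n : ℕ) (y : MonoidAlgebra K (FSym Ω)) (C C' : Ω → Fin n) :
    col K Ω n y (Finsupp.single C 1) C' =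
      ∑ σ ∈ y.coeff.support, (open scoped Classical in if C' ∘ (σ : Perm Ω) = C then y.coeff σ else 0) := by
  classical
  conv_lhs => rw [expand_on y]
  rw [map_sum, LinearMap.sum_apply, Finsupp.finsetSum_apply]
  apply sum_congr rfl
  intro σ _
  rw [map_smul, LinearMap.smul_apply, col_of, Finsupp.smul_single, smul_eq_mul, mul_one,
    Finsupp.single_apply]
  have h : (C ∘ ((σ⁻¹ : FSym Ω) : Perm Ω) = C') ↔ (C' ∘ (σ : Perm Ω) = C) := by
    constructor
    · intro h
      rw [← h]
      funext z
      change C ((σ : Perm Ω).symm ((σ : Perm Ω) z)) = C z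
      rw [symm_apply_apply]
    · intro h
      rw [← h]
      funext z
      change C' ((σ : Perm Ω) ((σ : Perm Ω).symm z)) = C' z
      rw [apply_symm_apply]
  simp only [h]

/-- the colour of a truth value -/
def cc (b : Bool) : Fin 2 := if b then 1 else 0

theorem prod_diff (D : Finset Ω) (a b : Ω → Bool) :
    (∏ i ∈ D, ((if a i then 1 else 0) - (if b i then 1 else 0)) : K) =
      if ∀ i ∈ D, a i = !(b i) then ∏ i ∈ D, (if b i then -1 else 1) else 0 := by
  split_ifs with h
  · apply prod_congr rfl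
    intro i hi
    rw [h i hi]
    cases b i <;> simp
  · push Not at h
    obtain ⟨i, hi, hne⟩ := h
    apply prod_eq_zero hi
    cases ha : a i <;> cases hb : b i <;> rw [ha, hb] at hne <;> simp at hne ⊢

theorem prod_sign_ne_zero (D : Finset Ω) (b : Ω → Bool) :
    (∏ i ∈ D, (if b i then -1 else 1) : K) ≠ 0 := by
  rw [prod_ne_zero_iff]
  intro i _
  split_ifs <;> simp

theorem poly_val (D : Finset Ω) (y : MonoidAlgebra K (FSym Ω)) (a b : Ω → Bool) :
    poly D y (Sum.elim a (fun z => !(b z))) = (∏ i ∈ D, (if (!(b i)) then -1 else 1)) *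
      ∑ σ ∈ y.coeff.support, (if ∀ i ∈ D, a ((σ : Perm Ω) i) = b i then y.coeff σ else 0) := by
  rw [poly_apply, mul_sum]
  apply sum_congr rfl
  intro σ _
  have h1 := prod_diff (K := K) D (fun i => a ((σ : Perm Ω) i)) (fun i => !(b i))
  simp only [Bool.not_not] at h1
  refine Eq.trans (congrArg (fun t => y.coeff σ * t) h1) ?_
  split_ifs with h5
  · exact mul_comm _ _
  · rw [mul_zero, mul_zero]

/-- the kernel -/
theorem mem_Ann_of_poly {D : Finset Ω} {y : MonoidAlgebra K (FSym Ω)} (hy : On D y)
    (h : poly D y = 0) : y ∈ Ann K Ω 2 := by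
  classical
  rw [mem_Ann]
  apply Finsupp.lhom_ext
  intro C a
  rw [LinearMap.zero_apply]
  have h1 : col K Ω 2 y (Finsupp.single C 1) = 0 := by
    apply Finsupp.ext
    intro C'
    rw [col_apply, Finsupp.zero_apply]
    by_cases hout : ∀ z, z ∉ D → C' z = C z
    · have h2 := poly_val D y (fun z => decide (C' z = 1)) (fun z => decide (C z = 1))
      rw [h, Pi.zero_apply] at h2
      have h3 := (mul_eq_zero.mp h2.symm).resolve_left (prod_sign_ne_zero D _)
      refine Eq.trans ?_ h3
      apply sum_congr rfl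
      intro σ hσ
      have h4 : (∀ i ∈ D, decide (C' ((σ : Perm Ω) i) = 1) = decide (C i = 1)) ↔
          C' ∘ (σ : Perm Ω) = C := by
        constructor
        · intro h5
          funext z
          by_cases hz : z ∈ D
          · have h6 := h5 z hz
            rw [decide_eq_decide] at h6
            change C' ((σ : Perm Ω) z) = C z
            generalize C' ((σ : Perm Ω) z) = u at h6
            generalize C z = v at h6
            revert h6
            revert u v
            decide
          · change C' ((σ : Perm Ω) z) = C z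
            rw [hy σ hσ z hz]
            exact hout z hz
        · intro h5 i _
          rw [← h5]
          rfl
      simp only [h4]
    · push Not at hout
      obtain ⟨z, hz, hne⟩ := hout
      apply sum_eq_zero
      intro σ hσ
      rw [if_neg]
      intro h2
      apply hne
      have h3 := congrFun h2 z
      change C' ((σ : Perm Ω) z) = C z at h3
      rwa [hy σ hσ z hz] at h3
  have h2 : (Finsupp.single C a : (Ω → Fin 2) →₀ K) = a • Finsupp.single C 1 := by
    rw [Finsupp.smul_single, smul_eq_mul, mul_one]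
  rw [h2, map_smul, h1, smul_zero]

theorem poly_of_mem_Ann (D : Finset Ω) {y : MonoidAlgebra K (FSym Ω)} (h : y ∈ Ann K Ω 2) :
    poly D y = 0 := by
  classical
  funext C
  rw [poly_apply, Pi.zero_apply]
  set c : Ω → Bool := fun z => C (Sum.inl z) with hc
  set c' : Ω → Bool := fun z => C (Sum.inr z) with hc'
  set F : (Ω → Bool) → K := fun d => ∏ i ∈ D, ((if d i then 1 else 0) - (if c' i then 1 else 0))
    with hF
  have h1 : ∀ d : Ω → Bool, ∑ σ ∈ y.coeff.support,
      (if c ∘ (σ : Perm Ω) = d then y.coeff σ else 0) = 0 := by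
    intro d
    have h2 := col_apply (K := K) 2 y (cc ∘ d) (cc ∘ c)
    rw [mem_Ann.mp h, LinearMap.zero_apply, Finsupp.zero_apply] at h2
    refine Eq.trans ?_ h2.symm
    apply sum_congr rfl
    intro σ _
    have h3 : (cc ∘ c) ∘ (σ : Perm Ω) = cc ∘ d ↔ c ∘ (σ : Perm Ω) = d := by
      constructor
      · intro h4
        funext z
        have h5 := congrFun h4 z
        change cc (c ((σ : Perm Ω) z)) = cc (d z) at h5
        change c ((σ : Perm Ω) z) = d z
        generalize c ((σ : Perm Ω) z) = u at h5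
        generalize d z = v at h5
        revert h5
        revert u v
        decide
      · intro h4
        rw [← h4]
        rfl
    simp only [h3]
  have h2 : ∀ σ ∈ y.coeff.support, y.coeff σ * ∏ i ∈ D,
      ((if C (Sum.inl ((σ : Perm Ω) i)) then (1 : K) else 0) - (if C (Sum.inr i) then 1 else 0)) =
      ∑ d ∈ y.coeff.support.image (fun σ : FSym Ω => c ∘ (σ : Perm Ω)),
        F d * (if c ∘ (σ : Perm Ω) = d then y.coeff σ else 0) := by
    intro σ hσ
    rw [sum_eq_single_of_mem (c ∘ (σ : Perm Ω))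
      (mem_image_of_mem (fun σ : FSym Ω => c ∘ (σ : Perm Ω)) hσ)]
    · rw [if_pos rfl, mul_comm]
      rfl
    · intro d _ hd
      rw [if_neg (fun h => hd h.symm), mul_zero]
  rw [sum_congr rfl h2, sum_comm]
  apply sum_eq_zero
  intro d _
  rw [← mul_sum, h1 d, mul_zero]

end Rank2
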