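import Pool.Agent.Lib.MP_a8d7f7_al.R2.L5
import Pool.Agent.Lib.MP_a8d7f7_al.R2.Q2

/-!
# MP_a8d7f7_al: augmentation, permutations of finite sets, bending (helper24)
-/

set_option autoImplicit false
set_option linter.unusedSectionVars false
set_option linter.unusedVariables false

namespace Rank2

open Finset Equiv FinSym

variable {K : Type*} [Field K] {Ω : Type*} [DecidableEq Ω]


/-! ## transpositions -/

theorem sw_val (a b : Ω) : ((sw a b : FSym Ω) : Perm Ω) = swap a b := rfl

theorem sw_inv (a b : Ω) : (sw a b)⁻¹ = (sw a b : FSym Ω) := by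
  apply Subtype.ext
  change (swap a b)⁻¹ = swap a b
  exact swap_inv a b

theorem sw_mul_self (a b : Ω) : sw a b * sw a b = (1 : FSym Ω) := by
  apply Subtype.ext
  change swap a b * swap a b = 1
  exact swap_mul_self a b

theorem sw_comm (a b : Ω) : (sw a b : FSym Ω) = sw b a := Subtype.ext (swap_comm a b)

theorem sw_self (a : Ω) : (sw a a : FSym Ω) = 1 := Subtype.ext (swap_self a)

theorem conj_sw (g : FSym Ω) (a b : Ω) :
    g * sw a b * g⁻¹ = sw ((g : Perm Ω) a) ((g : Perm Ω) b) := by
  apply Subtype.ext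
  change (g : Perm Ω) * swap a b * (g : Perm Ω)⁻¹ = swap _ _
  rw [Equiv.mul_swap_eq_swap_mul, mul_inv_cancel_right]

theorem conj_e (g : FSym Ω) (a b : Ω) :
    (MonoidAlgebra.of K (FSym Ω)) g * e K a b * (MonoidAlgebra.of K (FSym Ω)) g⁻¹ = e K ((g : Perm Ω) a) ((g : Perm Ω) b) := by
  unfold e
  rw [← conj_sw, mul_sub, sub_mul, mul_one, ← map_mul, ← map_mul, ← map_mul, mul_inv_cancel, map_one]

theorem e_comm (a b : Ω) : e K a b = e K b a := by
  unfold e; rw [sw_comm]

theorem e_self (a : Ω) : e K a a = 0 := by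
  unfold e; rw [sw_self, map_one, sub_self]

theorem e_On {D : Finset Ω} {a b : Ω} (ha : a ∈ D) (hb : b ∈ D) : On D (e K a b) :=
  On.sub (On.one D) (On.of (sw_fix ha hb))

theorem e_On' (a b : Ω) : On {a, b} (e K a b) := e_On (by simp) (by simp)

/-- a difference commutes with an element which moves other letters -/
theorem e_mul_comm {D : Finset Ω} {y : MonoidAlgebra K (FSym Ω)} (hy : On D y) {a b : Ω}
    (ha : a ∉ D) (hb : b ∉ D) : e K a b * y = y * e K a b := by
  refine (On.commute (D := D) (D' := {a, b}) ?_ hy (e_On' a b)).symm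
  rw [disjoint_right]
  intro z hz
  simp only [mem_insert, mem_singleton] at hz
  rcases hz with rfl | rfl <;> assumption

theorem of_mul_comm {D : Finset Ω} {y : MonoidAlgebra K (FSym Ω)} (hy : On D y) {D' : Finset Ω}
    (hD : Disjoint D D') {g : FSym Ω} (hg : ∀ z, z ∉ D' → (g : Perm Ω) z = z) :
    (MonoidAlgebra.of K (FSym Ω)) g * y = y * (MonoidAlgebra.of K (FSym Ω)) g := (On.commute hD hy (On.of hg)).symm

/-- induction over the permutations of a finite set -/
theorem fsym_induction {D : Finset Ω} {q : FSym Ω → Prop} (h1 : q 1)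
    (h : ∀ a ∈ D, ∀ b ∈ D, a ≠ b → ∀ g : FSym Ω, (∀ z, z ∉ D → (g : Perm Ω) z = z) → q g →
      q (sw a b * g)) {g : FSym Ω} (hg : ∀ z, z ∉ D → (g : Perm Ω) z = z) : q g := by
  obtain ⟨τ, rfl⟩ := exists_ext D g hg
  induction τ using Equiv.Perm.swap_induction_on with
  | one => rw [map_one]; exact h1
  | swap_mul τ a b hab ih =>
    rw [map_mul]
    have h2 : ext D (swap a b) = sw (a : Ω) (b : Ω) := by
      apply Subtype.ext
      apply Equiv.ext
      intro z
      by_cases hz : z ∈ D
      · rw [ext_mem D _ hz, sw_val]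
        by_cases hza : z = a
        · subst hza
          rw [swap_apply_left, swap_apply_left]
        · by_cases hzb : z = b
          · subst hzb
            rw [swap_apply_right, swap_apply_right]
          · rw [swap_apply_of_ne_of_ne hza hzb, swap_apply_of_ne_of_ne]
            · exact fun h => hza (congrArg Subtype.val h)
            · exact fun h => hzb (congrArg Subtype.val h)
      · rw [ext_notMem D _ hz, sw_val, swap_apply_of_ne_of_ne]
        · exact fun h => hz (h ▸ a.2)
        · exact fun h => hz (h ▸ b.2)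
    rw [h2]
    exact h a a.2 b b.2 (fun h => hab (Subtype.ext h)) _ (fun z hz => ext_notMem D τ hz)
      (ih (fun z hz => ext_notMem D τ hz))

/-! ## the augmentation -/

/-- the augmentation -/
noncomputable def aug (K : Type*) [Field K] (Ω : Type*) : MonoidAlgebra K (FSym Ω) →ₐ[K] K :=
  MonoidAlgebra.lift K K (FSym Ω) 1

theorem aug_of (g : FSym Ω) : aug K Ω ((MonoidAlgebra.of K (FSym Ω)) g) = 1 := by
  unfold aug
  rw [MonoidAlgebra.lift_of]
  rfl

theorem aug_e (a b : Ω) : aug K Ω (e K a b) = 0 := by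
  unfold e
  rw [map_sub, map_one, aug_of, sub_self]

/-- the value of the function at the point `1` on the left, `0` on the right -/
theorem poly_eval (D : Finset Ω) (y : MonoidAlgebra K (FSym Ω)) :
    poly D y (Sum.elim (fun _ => true) (fun _ => false)) = aug K Ω y := by
  obtain ⟨D', hy⟩ := exists_On y
  refine On.induction (D := D')
    (q := fun y => poly D y (Sum.elim (fun _ => true) (fun _ => false)) = aug K Ω y)
    ?_ ?_ ?_ ?_ hy
  · have h := poly_smul (K := K) (Ω := Ω) D 0 0
    rw [zero_smul, zero_smul] at h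
    rw [h, map_zero]; rfl
  · intro y z h1 h2
    rw [poly_add, map_add, Pi.add_apply, h1, h2]
  · intro a y h1
    rw [poly_smul, map_smul, Pi.smul_apply, h1]
  · intro g _
    rw [aug_of]
    have h1 : ((MonoidAlgebra.of K (FSym Ω)) g) = (MonoidAlgebra.of K (FSym Ω)) g * 1 := (mul_one _).symm
    rw [h1, poly_mul_left, poly_one, act_apply]
    unfold M
    rw [Finset.prod_apply]
    apply prod_eq_one
    intro i _
    simp [x]

/-! ## equality modulo the annihilator -/

theorem sub_mem_Ann {D : Finset Ω} {y z : MonoidAlgebra K (FSym Ω)} (hy : On D y) (hz : On D z)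
    (h : poly D y = poly D z) : y - z ∈ Ann K Ω 2 := by
  apply mem_Ann_of_poly (On.sub hy hz)
  rw [poly_sub, h, sub_self]

/-- the Steinberg elements -/
def IsStEl (R : Finset Ω) (s : MonoidAlgebra K (FSym Ω)) : Prop :=
  On R s ∧ poly R s = E K (R.disjSum R)

theorem exists_StEl {p : ℕ} (hp : p.Prime) [CharP K p] (k : ℕ) {R : Finset Ω}
    (hR : R.card = p ^ k - 1) : ∃ s : MonoidAlgebra K (FSym Ω), IsStEl R s := by
  have h : E K (R.disjSum R) ∈ Sp K (R.disjSum R) := by
    apply E_mem hp k
    rw [card_disjSum, hR]; omega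
  obtain ⟨s, h1, h2⟩ := poly_surj h
  exact ⟨s, h1, h2⟩

theorem map_disjSum {R : Finset Ω} {g h : Perm Ω} (hg : ∀ z, z ∉ R → g z = z)
    (hh : ∀ z, z ∉ R → h z = z) :
    (R.disjSum R).map (Equiv.sumCongr g h).toEmbedding = R.disjSum R := by
  have key : ∀ g : Perm Ω, (∀ z, z ∉ R → g z = z) → ∀ z, g z ∈ R ↔ z ∈ R := by
    intro g hg z
    constructor
    · intro h
      by_contra hz
      rw [hg z hz] at h
      exact hz h
    · intro h
      by_contra hz
      have := g.injective (hg _ hz)
      rw [this] at hz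
      exact hz h
  ext z
  rw [mem_map_equiv]
  rcases z with z | z
  · rw [Equiv.sumCongr_symm, Equiv.sumCongr_apply, Sum.map_inl, inl_mem_disjSum, inl_mem_disjSum,
      ← key g hg, Equiv.apply_symm_apply]
  · rw [Equiv.sumCongr_symm, Equiv.sumCongr_apply, Sum.map_inr, inr_mem_disjSum, inr_mem_disjSum,
      ← key h hh, Equiv.apply_symm_apply]

theorem IsStEl.aug_eq {R : Finset Ω} {s : MonoidAlgebra K (FSym Ω)} (hs : IsStEl R s) :
    aug K Ω s = 1 := by
  rw [← poly_eval R s, hs.2]
  unfold E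
  rw [if_pos]
  have h : (R.disjSum R).filter (fun i => Sum.elim (fun _ => true) (fun _ => false) i = true) =
      R.map ⟨Sum.inl, Sum.inl_injective⟩ := by
    ext z
    rcases z with z | z <;> simp
  rw [h, card_map, card_disjSum]
  omega

theorem IsStEl.left {R : Finset Ω} {s : MonoidAlgebra K (FSym Ω)} (hs : IsStEl R s) {g : FSym Ω}
    (hg : ∀ z, z ∉ R → (g : Perm Ω) z = z) : (MonoidAlgebra.of K (FSym Ω)) g * s - s ∈ Ann K Ω 2 := by
  apply sub_mem_Ann (On.mul (On.of hg) hs.1) hs.1
  rw [poly_mul_left, hs.2, E_act, map_disjSum hg (fun _ _ => rfl)]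

theorem IsStEl.right {R : Finset Ω} {s : MonoidAlgebra K (FSym Ω)} (hs : IsStEl R s) {g : FSym Ω}
    (hg : ∀ z, z ∉ R → (g : Perm Ω) z = z) : s * (MonoidAlgebra.of K (FSym Ω)) g - s ∈ Ann K Ω 2 := by
  apply sub_mem_Ann (On.mul hs.1 (On.of hg)) hs.1
  rw [poly_mul_right hg, hs.2, E_act, map_disjSum (fun _ _ => rfl)]
  intro z hz
  have h := hg z hz
  rw [Perm.inv_eq_iff_eq]
  exact h.symm

theorem IsStEl.mul_left {R : Finset Ω} {s : MonoidAlgebra K (FSym Ω)} (hs : IsStEl R s)
    {y : MonoidAlgebra K (FSym Ω)} (hy : On R y) : y * s - aug K Ω y • s ∈ Ann K Ω 2 := by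
  refine On.induction (D := R) (q := fun y => y * s - aug K Ω y • s ∈ Ann K Ω 2) ?_ ?_ ?_ ?_ hy
  · simp only [map_zero, zero_smul, zero_mul, sub_zero]
    exact (Ann K Ω 2).zero_mem
  · intro y z h1 h2
    have h3 : (y + z) * s - aug K Ω (y + z) • s =
        (y * s - aug K Ω y • s) + (z * s - aug K Ω z • s) := by
      rw [map_add, add_smul, add_mul]; abel
    rw [h3]
    exact (Ann K Ω 2).add_mem h1 h2
  · intro a y h1
    have h3 : (a • y) * s - aug K Ω (a • y) • s = (a • (1 : MonoidAlgebra K (FSym Ω))) *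
        (y * s - aug K Ω y • s) := by
      rw [smul_one_mul, map_smul, smul_mul_assoc, smul_sub, smul_smul, smul_eq_mul]
    rw [h3]
    exact (Ann K Ω 2).mul_mem_left _ _ h1
  · intro g hg
    rw [aug_of, one_smul]
    exact hs.left hg

theorem IsStEl.mul_right {R : Finset Ω} {s : MonoidAlgebra K (FSym Ω)} (hs : IsStEl R s)
    {y : MonoidAlgebra K (FSym Ω)} (hy : On R y) : s * y - aug K Ω y • s ∈ Ann K Ω 2 := by
  refine On.induction (D := R) (q := fun y => s * y - aug K Ω y • s ∈ Ann K Ω 2) ?_ ?_ ?_ ?_ hy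
  · simp only [map_zero, zero_smul, mul_zero, sub_zero]
    exact (Ann K Ω 2).zero_mem
  · intro y z h1 h2
    have h3 : s * (y + z) - aug K Ω (y + z) • s =
        (s * y - aug K Ω y • s) + (s * z - aug K Ω z • s) := by
      rw [map_add, add_smul, mul_add]; abel
    rw [h3]
    exact (Ann K Ω 2).add_mem h1 h2
  · intro a y h1
    have h3 : s * (a • y) - aug K Ω (a • y) • s = (a • (1 : MonoidAlgebra K (FSym Ω))) *
        (s * y - aug K Ω y • s) := by
      rw [smul_one_mul, map_smul, mul_smul_comm, smul_sub, smul_smul, smul_eq_mul]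
    rw [h3]
    exact (Ann K Ω 2).mul_mem_left _ _ h1
  · intro g hg
    rw [aug_of, one_smul]
    exact hs.right hg

/-- an ideal contains the scalar multiples -/
theorem smul_mem' (Y : TwoSidedIdeal (MonoidAlgebra K (FSym Ω))) (a : K)
    {y : MonoidAlgebra K (FSym Ω)} (hy : y ∈ Y) : a • y ∈ Y := by
  have h : a • y = (a • (1 : MonoidAlgebra K (FSym Ω))) * y := by
    rw [smul_mul_assoc, one_mul]
  rw [h]
  exact Y.mul_mem_left _ _ hy

theorem sum_mem' {ι : Type*} (Y : TwoSidedIdeal (MonoidAlgebra K (FSym Ω))) {s : Finset ι}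
    {f : ι → MonoidAlgebra K (FSym Ω)} (h : ∀ i ∈ s, f i ∈ Y) : ∑ i ∈ s, f i ∈ Y := by
  classical
  induction s using Finset.induction_on with
  | empty => rw [sum_empty]; exact Y.zero_mem
  | insert a s ha ih =>
    rw [sum_insert ha]
    exact Y.add_mem (h a (mem_insert_self _ _)) (ih (fun i hi => h i (mem_insert_of_mem hi)))

/-- membership modulo the annihilator -/
theorem mem_of_sub {Y : TwoSidedIdeal (MonoidAlgebra K (FSym Ω))} {y z : MonoidAlgebra K (FSym Ω)}
    (h : y - z ∈ Y) (hz : z ∈ Y) : y ∈ Y := by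
  have := Y.add_mem h hz
  rwa [sub_add_cancel] at this

end Rank2
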