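import Pool.Agent.Lib.MP_a8d7f7_al.R2.I1

/-!
# MP_a8d7f7_al: bending (helper24)
-/

set_option autoImplicit false
set_option linter.unusedSectionVars false
set_option linter.unusedVariables false

namespace Rank2

open Finset Equiv FinSym

section letters

variable {α K : Type*} [Field K] [DecidableEq α]

theorem Dep.act_mem {T T' : Finset α} {f : Fn α K} (hf : Dep T f) (g : Perm α)
    (hg : ∀ i ∈ T, g i ∈ T') : Dep T' (act g f) := by
  intro C C' hC
  rw [act_apply, act_apply]
  exact hf _ _ (fun i hi => hC (g i) (hg i hi))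

/-- permutations which agree on the letters of `f` -/
theorem Dep.act_congr {T : Finset α} {f : Fn α K} (hf : Dep T f) {g g' : Perm α}
    (hg : ∀ i ∈ T, g i = g' i) : act g f = act g' f := by
  funext C
  rw [act_apply, act_apply]
  apply hf
  intro i hi
  simp only [Function.comp, hg i hi]

theorem Dep.act_eq {T : Finset α} {f : Fn α K} (hf : Dep T f) {g : Perm α}
    (hg : ∀ i ∈ T, g i = i) : act g f = f := by
  rw [hf.act_congr (g' := 1) (fun i hi => by rw [hg i hi]; rfl), act_one]

theorem Dep.swap_apply {T : Finset α} {f : Fn α K} (hf : Dep T f) {u v : α} (hv : v ∉ T)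
    (C : α → Bool) : act (swap u v) f C = f (Function.update C u (C v)) := by
  rw [act_apply]
  apply hf
  intro i hi
  have hiv : i ≠ v := fun h => hv (h ▸ hi)
  by_cases hiu : i = u
  · subst hiu
    simp only [Function.comp, swap_apply_left, Function.update_self]
  · simp only [Function.comp, swap_apply_of_ne_of_ne hiu hiv, Function.update_of_ne hiu]

/-- the basic identity -/
theorem bend_one {T : Finset α} {f : Fn α K} (hf : Dep T f) {u v c : α} (hv : v ∉ T) (hc : c ∉ T)
    (huv : u ≠ v) (huc : u ≠ c) (hcv : c ≠ v) :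
    (x c - x v) * f - act (swap u v) ((x c - x v) * f) = (x u - x v) * act (swap u c) f := by
  funext C
  have h1 : act (swap u v) ((x c - x v : Fn α K) * f) C =
      (x c C - x u C) * f (Function.update C u (C v)) := by
    rw [map_mul, Pi.mul_apply, hf.swap_apply hv, map_sub, act_x, act_x, Pi.sub_apply,
      swap_apply_of_ne_of_ne huc.symm hcv, swap_apply_right]
  rw [Pi.sub_apply, h1, Pi.mul_apply, Pi.mul_apply, hf.swap_apply hc, Pi.sub_apply, Pi.sub_apply]
  have h2 : f C = f (Function.update C u (C u)) := by rw [Function.update_eq_self]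
  rw [h2]
  unfold x
  cases C u <;> cases C v <;> cases C c <;> simp

end letters

variable {K : Type*} [Field K] {Ω : Type*} [DecidableEq Ω]


theorem poly_dep {D : Finset Ω} {y : MonoidAlgebra K (FSym Ω)} (hy : On D y) :
    Dep (D.disjSum D) (poly D y) := Sp.dep (poly_mem hy)

theorem act_left (a b : Ω) (f : Fn (Ω ⊕ Ω) K) :
    act (Equiv.sumCongr ((sw a b : FSym Ω) : Perm Ω) (1 : Perm Ω)) f =
      act (swap (Sum.inl a) (Sum.inl b)) f := by
  rw [sw_val]
  congr 1
  congr 1
  exact Perm.sumCongr_swap_one a b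

theorem act_right (a b : Ω) (f : Fn (Ω ⊕ Ω) K) :
    act (Equiv.sumCongr (1 : Perm Ω) ((sw a b : FSym Ω) : Perm Ω)⁻¹) f =
      act (swap (Sum.inr a) (Sum.inr b)) f := by
  rw [sw_val, swap_inv]
  congr 1
  congr 1
  exact Perm.sumCongr_one_swap a b

theorem poly_sw_left (D : Finset Ω) (a b : Ω) (y : MonoidAlgebra K (FSym Ω)) :
    poly D ((MonoidAlgebra.of K (FSym Ω)) (sw a b) * y) = act (swap (Sum.inl a) (Sum.inl b)) (poly D y) := by
  rw [poly_mul_left, act_left]

theorem poly_sw_right {D : Finset Ω} {a b : Ω} (ha : a ∈ D) (hb : b ∈ D)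
    (y : MonoidAlgebra K (FSym Ω)) :
    poly D (y * (MonoidAlgebra.of K (FSym Ω)) (sw a b)) = act (swap (Sum.inr a) (Sum.inr b)) (poly D y) := by
  rw [poly_mul_right (sw_fix ha hb), act_right]

theorem poly_e_left (D : Finset Ω) (a b : Ω) (y : MonoidAlgebra K (FSym Ω)) :
    poly D (e K a b * y) = poly D y - act (swap (Sum.inl a) (Sum.inl b)) (poly D y) := by
  unfold e
  rw [sub_mul, one_mul, poly_sub, poly_sw_left]

theorem poly_e_right {D : Finset Ω} {a b : Ω} (ha : a ∈ D) (hb : b ∈ D)
    (y : MonoidAlgebra K (FSym Ω)) :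
    poly D (y * e K a b) = poly D y - act (swap (Sum.inr a) (Sum.inr b)) (poly D y) := by
  unfold e
  rw [mul_sub, mul_one, poly_sub, poly_sw_right ha hb]

/-- `e a b * y` for fresh letters -/
theorem poly_e_fresh {D : Finset Ω} {y : MonoidAlgebra K (FSym Ω)} (hy : On D y) {a b : Ω}
    (hab : a ≠ b) (ha : a ∉ D) (hb : b ∉ D) :
    poly (insert a (insert b D)) (e K a b * y) =
      (x (Sum.inl a) - x (Sum.inl b)) * ((x (Sum.inr a) - x (Sum.inr b)) * poly D y) := by
  have ha' : a ∉ insert b D := by simp [hab, ha]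
  rw [poly_e_left, poly_insert ha' (hy.mono (subset_insert _ _)), poly_insert hb hy]
  have h1 : act (swap (Sum.inl a) (Sum.inl b)) (poly D y) = poly D y := by
    apply (poly_dep hy).act_eq
    intro i hi
    apply swap_apply_of_ne_of_ne
    · rintro rfl
      rw [inl_mem_disjSum] at hi
      exact ha hi
    · rintro rfl
      rw [inl_mem_disjSum] at hi
      exact hb hi
  rw [map_mul, map_mul, h1, map_sub, map_sub, act_x, act_x, act_x, act_x, swap_apply_left,
    swap_apply_right, swap_apply_of_ne_of_ne (by simp) (by simp),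
    swap_apply_of_ne_of_ne (by simp) (by simp)]
  ring

/-- **Bending.** -/
theorem bend {D : Finset Ω} {y y' : MonoidAlgebra K (FSym Ω)} (hy : On D y) (hy' : On D y')
    {i j a b : Ω} (hi : i ∈ D) (hj : j ∈ D) (hab : a ≠ b) (ha : a ∉ D) (hb : b ∉ D)
    (hp : poly D y' = act (swap (Sum.inl i) (Sum.inr j)) (poly D y)) :
    (MonoidAlgebra.of K (FSym Ω)) (sw i b) * (e K i a * (y * e K j b)) * (MonoidAlgebra.of K (FSym Ω)) (sw j a) - e K a b * y' ∈ Ann K Ω 2 := by
  set D2 : Finset Ω := insert a (insert b D) with hD2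
  have haD : a ∈ D2 := mem_insert_self _ _
  have hbD : b ∈ D2 := mem_insert_of_mem (mem_insert_self _ _)
  have hDD : D ⊆ D2 := (subset_insert _ _).trans (subset_insert _ _)
  have hiD : i ∈ D2 := hDD hi
  have hjD : j ∈ D2 := hDD hj
  have ha' : a ∉ insert b D := by simp [hab, ha]
  have hia : i ≠ a := fun h => ha (h ▸ hi)
  have hib : i ≠ b := fun h => hb (h ▸ hi)
  have hja : j ≠ a := fun h => ha (h ▸ hj)
  have hjb : j ≠ b := fun h => hb (h ▸ hj)
  apply sub_mem_Ann (D := D2)
  · exact ((On.of (sw_fix hiD hbD)).mul ((e_On hiD haD).mul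
      ((hy.mono hDD).mul (e_On hjD hbD)))).mul (On.of (sw_fix hjD haD))
  · exact (e_On haD hbD).mul (hy'.mono hDD)
  rw [poly_e_fresh hy' hab ha hb, hp, poly_sw_right hjD haD, poly_sw_left, poly_e_left,
    poly_e_right hjD hbD, poly_insert ha' (hy.mono (subset_insert _ _)), poly_insert hb hy]
  have hF := poly_dep hy
  set F : Fn (Ω ⊕ Ω) K := poly D y with hFdef
  set T : Finset (Ω ⊕ Ω) := D.disjSum D with hT
  have hlT : ∀ z, (Sum.inl z : Ω ⊕ Ω) ∈ T ↔ z ∈ D := fun z => inl_mem_disjSum
  have hrT : ∀ z, (Sum.inr z : Ω ⊕ Ω) ∈ T ↔ z ∈ D := fun z => inr_mem_disjSum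
  -- step 1
  have hF1 : Dep (insert (Sum.inl a) (insert (Sum.inr a) T)) ((x (Sum.inl a) - x (Sum.inr a)) * F) :=
    Dep.mul (Dep.sub (Dep.x (by simp)) (Dep.x (by simp)))
      (hF.mono ((subset_insert _ _).trans (subset_insert _ _)))
  have hs1 : (x (Sum.inl a) - x (Sum.inr a)) * ((x (Sum.inl b) - x (Sum.inr b)) * F) -
      act (swap (Sum.inr j) (Sum.inr b)) ((x (Sum.inl a) - x (Sum.inr a)) *
        ((x (Sum.inl b) - x (Sum.inr b)) * F)) =
      (x (Sum.inr j) - x (Sum.inr b)) * ((x (Sum.inl a) - x (Sum.inr a)) *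
        act (swap (Sum.inr j) (Sum.inl b)) F) := by
    have h := bend_one hF1 (u := Sum.inr j) (v := Sum.inr b) (c := Sum.inl b)
      (by simp [hrT, hb, hab.symm]) (by simp [hlT, hb, hab.symm]) (by simp [hjb]) (by simp) (by simp)
    rw [mul_left_comm] at h
    rw [h, map_mul, map_sub, act_x, act_x, swap_apply_of_ne_of_ne (by simp) (by simp [hab]),
      swap_apply_of_ne_of_ne (by simp [hja.symm]) (by simp)]
  rw [hs1]
  -- step 2
  set F1 : Fn (Ω ⊕ Ω) K := act (swap (Sum.inr j) (Sum.inl b)) F with hF1def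
  have hF1T : Dep (insert (Sum.inl b) (insert (Sum.inr b) T)) F1 := by
    apply hF.act_mem
    intro z hz
    by_cases h1 : z = Sum.inr j
    · rw [h1, swap_apply_left]; simp
    · by_cases h2 : z = Sum.inl b
      · rw [h2, hlT] at hz
        exact absurd hz hb
      · rw [swap_apply_of_ne_of_ne h1 h2]
        simp [hz]
  have hF2 : Dep (insert (Sum.inl b) (insert (Sum.inr b) T))
      ((x (Sum.inr j) - x (Sum.inr b)) * F1) :=
    Dep.mul (Dep.sub (Dep.x (by simp [hrT, hj])) (Dep.x (by simp))) hF1T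
  have hs2 : (x (Sum.inr j) - x (Sum.inr b)) * ((x (Sum.inl a) - x (Sum.inr a)) * F1) -
      act (swap (Sum.inl i) (Sum.inl a)) ((x (Sum.inr j) - x (Sum.inr b)) *
        ((x (Sum.inl a) - x (Sum.inr a)) * F1)) =
      - ((x (Sum.inl i) - x (Sum.inl a)) * ((x (Sum.inr j) - x (Sum.inr b)) *
        act (swap (Sum.inl i) (Sum.inr a)) F1)) := by
    have h := bend_one hF2 (u := Sum.inl i) (v := Sum.inl a) (c := Sum.inr a)
      (by simp [hlT, ha, hab]) (by simp [hrT, ha, hab]) (by simp [hia]) (by simp) (by simp)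
    have h3 : (x (Sum.inr j) - x (Sum.inr b)) * ((x (Sum.inl a) - x (Sum.inr a)) * F1) =
        - ((x (Sum.inr a) - x (Sum.inl a)) * ((x (Sum.inr j) - x (Sum.inr b)) * F1)) := by ring
    rw [h3, map_neg, neg_sub_neg, ← neg_sub, h, map_mul, map_sub, act_x, act_x,
      swap_apply_of_ne_of_ne (by simp) (by simp [hja]),
      swap_apply_of_ne_of_ne (by simp) (by simp [hab.symm])]
  rw [hs2]
  -- steps 3 and 4
  rw [map_neg, map_neg, map_mul, map_mul, map_mul, map_mul, map_sub, map_sub, map_sub, map_sub]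
  simp only [act_x]
  rw [swap_apply_left (Sum.inl i) (Sum.inl b),
    swap_apply_of_ne_of_ne (a := Sum.inl i) (b := Sum.inl b) (x := Sum.inl a) (by simp [hia.symm]) (by simp [hab]),
    swap_apply_of_ne_of_ne (a := Sum.inl i) (b := Sum.inl b) (x := Sum.inr j) (by simp) (by simp),
    swap_apply_of_ne_of_ne (a := Sum.inl i) (b := Sum.inl b) (x := Sum.inr b) (by simp) (by simp),
    swap_apply_left (Sum.inr j) (Sum.inr a),
    swap_apply_of_ne_of_ne (a := Sum.inr j) (b := Sum.inr a) (x := Sum.inl b) (by simp) (by simp),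
    swap_apply_of_ne_of_ne (a := Sum.inr j) (b := Sum.inr a) (x := Sum.inl a) (by simp) (by simp),
    swap_apply_of_ne_of_ne (a := Sum.inr j) (b := Sum.inr a) (x := Sum.inr b) (by simp [hjb.symm]) (by simp [hab.symm])]
  have hcomp : act (swap (Sum.inr j) (Sum.inr a)) (act (swap (Sum.inl i) (Sum.inl b))
      (act (swap (Sum.inl i) (Sum.inr a)) F1)) = act (swap (Sum.inl i) (Sum.inr j)) F := by
    rw [hF1def, ← act_mul, ← act_mul, ← act_mul]
    apply hF.act_congr
    intro z hz
    simp only [Perm.mul_apply]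
    by_cases h1 : z = Sum.inl i
    · subst h1
      rw [swap_apply_of_ne_of_ne (a := Sum.inr j) (b := Sum.inl b) (by simp) (by simp [hib]),
        swap_apply_left, swap_apply_of_ne_of_ne (a := Sum.inl i) (b := Sum.inl b) (by simp) (by simp),
        swap_apply_right, swap_apply_left]
    · by_cases h2 : z = Sum.inr j
      · subst h2
        rw [swap_apply_left, swap_apply_of_ne_of_ne (a := Sum.inl i) (b := Sum.inr a)
          (by simp [hib.symm]) (by simp), swap_apply_right,
          swap_apply_of_ne_of_ne (a := Sum.inr j) (b := Sum.inr a) (by simp) (by simp),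
          swap_apply_right]
      · have h3 : z ≠ Sum.inl b := by rintro rfl; exact hb ((hlT _).mp hz)
        have h4 : z ≠ Sum.inr a := by rintro rfl; exact ha ((hrT _).mp hz)
        rw [swap_apply_of_ne_of_ne h2 h3, swap_apply_of_ne_of_ne h1 h4,
          swap_apply_of_ne_of_ne h1 h3, swap_apply_of_ne_of_ne h2 h4, swap_apply_of_ne_of_ne h1 h2]
  rw [hcomp]
  ring

end Rank2
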