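import Pool.Agent.Lib.MP_a8d7f7_al.R2.I2

/-!
# MP_a8d7f7_al: the ideal `plus Y` (helper24)
-/

set_option autoImplicit false
set_option linter.unusedSectionVars false
set_option linter.unusedVariables false

namespace Rank2

open Finset Equiv FinSym

variable {K : Type*} [Field K] {Ω : Type*} [DecidableEq Ω]


/-- the elements `y` such that `(1 - t) y ∈ Y` for the transpositions `t` disjoint from `y` -/
noncomputable def plus (Y : TwoSidedIdeal (MonoidAlgebra K (FSym Ω))) :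
    TwoSidedIdeal (MonoidAlgebra K (FSym Ω)) :=
  TwoSidedIdeal.mk' {y | ∃ D : Finset Ω, On D y ∧ ∀ a b, a ≠ b → a ∉ D → b ∉ D → e K a b * y ∈ Y}
    ⟨∅, On.zero _, fun a b _ _ _ => by rw [mul_zero]; exact Y.zero_mem⟩
    (by
      rintro y z ⟨D, hD, h⟩ ⟨D', hD', h'⟩
      refine ⟨D ∪ D', (hD.mono subset_union_left).add (hD'.mono subset_union_right), ?_⟩
      intro a b hab ha hb
      rw [mem_union, not_or] at ha hb
      rw [mul_add]
      exact Y.add_mem (h a b hab ha.1 hb.1) (h' a b hab ha.2 hb.2))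
    (by
      rintro y ⟨D, hD, h⟩
      refine ⟨D, ?_, ?_⟩
      · have := (On.zero D).sub hD
        rwa [zero_sub] at this
      · intro a b hab ha hb
        rw [mul_neg]
        exact Y.neg_mem (h a b hab ha hb))
    (by
      rintro z y ⟨D, hD, h⟩
      obtain ⟨D', hD'⟩ := exists_On z
      refine ⟨D ∪ D', (hD'.mono subset_union_right).mul (hD.mono subset_union_left), ?_⟩
      intro a b hab ha hb
      rw [mem_union, not_or] at ha hb
      rw [← mul_assoc, e_mul_comm hD' ha.2 hb.2, mul_assoc]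
      exact Y.mul_mem_left _ _ (h a b hab ha.1 hb.1))
    (by
      rintro y z ⟨D, hD, h⟩
      obtain ⟨D', hD'⟩ := exists_On z
      refine ⟨D ∪ D', (hD.mono subset_union_left).mul (hD'.mono subset_union_right), ?_⟩
      intro a b hab ha hb
      rw [mem_union, not_or] at ha hb
      rw [← mul_assoc]
      exact Y.mul_mem_right _ _ (h a b hab ha.1 hb.1))

theorem mem_plus {Y : TwoSidedIdeal (MonoidAlgebra K (FSym Ω))} {y : MonoidAlgebra K (FSym Ω)} :
    y ∈ plus Y ↔ ∃ D : Finset Ω, On D y ∧ ∀ a b, a ≠ b → a ∉ D → b ∉ D → e K a b * y ∈ Y := by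
  unfold plus
  rw [TwoSidedIdeal.mem_mk']
  rfl

theorem le_plus (Y : TwoSidedIdeal (MonoidAlgebra K (FSym Ω))) : Y ≤ plus Y := by
  intro y hy
  obtain ⟨D, hD⟩ := exists_On y
  exact mem_plus.mpr ⟨D, hD, fun a b _ _ _ => Y.mul_mem_left _ _ hy⟩

theorem plus_mono {Y Y' : TwoSidedIdeal (MonoidAlgebra K (FSym Ω))} (h : Y ≤ Y') :
    plus Y ≤ plus Y' := by
  intro y hy
  obtain ⟨D, hD, h1⟩ := mem_plus.mp hy
  exact mem_plus.mpr ⟨D, hD, fun a b hab ha hb => h (h1 a b hab ha hb)⟩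

/-- a permutation moving a pair to another one -/
theorem exists_pair {D : Finset Ω} {a b a' b' : Ω} (hab : a ≠ b) (hab' : a' ≠ b') (ha : a ∉ D)
    (hb : b ∉ D) (ha' : a' ∉ D) (hb' : b' ∉ D) :
    ∃ g : FSym Ω, (g : Perm Ω) a = a' ∧ (g : Perm Ω) b = b' ∧ ∃ D', Disjoint D D' ∧
      ∀ z, z ∉ D' → (g : Perm Ω) z = z := by
  set b1 := swap a a' b with hb1
  have h1 : b1 ≠ a' := by
    intro h
    have : swap a a' b = swap a a' a := by rw [swap_apply_left]; exact h
    exact hab ((swap a a').injective this).symm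
  have h2 : b1 ∉ D := by
    rw [hb1]
    by_cases h3 : b = a
    · exact absurd h3.symm hab
    · by_cases h4 : b = a'
      · rw [h4, swap_apply_right]; exact ha
      · rw [swap_apply_of_ne_of_ne h3 h4]; exact hb
  refine ⟨sw b1 b' * sw a a', ?_, ?_, {a, a', b1, b'}, ?_, ?_⟩
  · change swap b1 b' (swap a a' a) = a'
    rw [swap_apply_left, swap_apply_of_ne_of_ne h1.symm hab']
  · change swap b1 b' (swap a a' b) = b'
    rw [← hb1, swap_apply_left]
  · rw [disjoint_right]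
    intro z hz
    simp only [mem_insert, mem_singleton] at hz
    rcases hz with rfl | rfl | rfl | rfl <;> assumption
  · intro z hz
    simp only [mem_insert, mem_singleton, not_or] at hz
    change swap b1 b' (swap a a' z) = z
    rw [swap_apply_of_ne_of_ne hz.1 hz.2.1, swap_apply_of_ne_of_ne hz.2.2.1 hz.2.2.2]

theorem move {Y : TwoSidedIdeal (MonoidAlgebra K (FSym Ω))} {y : MonoidAlgebra K (FSym Ω)}
    {D : Finset Ω} (hy : On D y) {a b a' b' : Ω} (hab : a ≠ b) (hab' : a' ≠ b') (ha : a ∉ D)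
    (hb : b ∉ D) (ha' : a' ∉ D) (hb' : b' ∉ D) (h : e K a b * y ∈ Y) : e K a' b' * y ∈ Y := by
  obtain ⟨g, hga, hgb, D', hD, hg⟩ := exists_pair hab hab' ha hb ha' hb'
  have h1 : (MonoidAlgebra.of K (FSym Ω)) g * (e K a b * y) * (MonoidAlgebra.of K (FSym Ω)) g⁻¹ ∈ Y := Y.mul_mem_right _ _ (Y.mul_mem_left _ _ h)
  have h2 : (MonoidAlgebra.of K (FSym Ω)) g * y = y * (MonoidAlgebra.of K (FSym Ω)) g := of_mul_comm hy hD hg
  have h3 : (MonoidAlgebra.of K (FSym Ω)) g * (e K a b * y) * (MonoidAlgebra.of K (FSym Ω)) g⁻¹ = e K a' b' * y := by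
    rw [← hga, ← hgb, ← conj_e]
    have h4 : (MonoidAlgebra.of K (FSym Ω)) g⁻¹ * y = y * (MonoidAlgebra.of K (FSym Ω)) g⁻¹ := by
      have h5 : (MonoidAlgebra.of K (FSym Ω)) g⁻¹ * ((MonoidAlgebra.of K (FSym Ω)) g * y) * (MonoidAlgebra.of K (FSym Ω)) g⁻¹ = (MonoidAlgebra.of K (FSym Ω)) g⁻¹ * (y * (MonoidAlgebra.of K (FSym Ω)) g) * (MonoidAlgebra.of K (FSym Ω)) g⁻¹ := by rw [h2]
      rw [← mul_assoc, ← map_mul, inv_mul_cancel, map_one, one_mul, mul_assoc, mul_assoc y,
        ← map_mul, mul_inv_cancel, map_one, mul_one] at h5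
      exact h5.symm
    rw [mul_assoc, mul_assoc, mul_assoc, mul_assoc, h4]
  rwa [h3] at h1

theorem plus_of_one {Y : TwoSidedIdeal (MonoidAlgebra K (FSym Ω))} {y : MonoidAlgebra K (FSym Ω)}
    {D : Finset Ω} (hy : On D y) {a b : Ω} (hab : a ≠ b) (ha : a ∉ D) (hb : b ∉ D)
    (h : e K a b * y ∈ Y) : y ∈ plus Y :=
  mem_plus.mpr ⟨D, hy, fun _ _ hab' ha' hb' => move hy hab hab' ha hb ha' hb' h⟩

theorem exists_two [Infinite Ω] (D : Finset Ω) : ∃ a b : Ω, a ≠ b ∧ a ∉ D ∧ b ∉ D := by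
  obtain ⟨a, ha⟩ := Infinite.exists_notMem_finset D
  obtain ⟨b, hb⟩ := Infinite.exists_notMem_finset (insert a D)
  rw [mem_insert, not_or] at hb
  exact ⟨a, b, fun h => hb.1 h.symm, ha, hb.2⟩

theorem of_plus [Infinite Ω] {Y : TwoSidedIdeal (MonoidAlgebra K (FSym Ω))}
    {y : MonoidAlgebra K (FSym Ω)} (h : y ∈ plus Y) {D : Finset Ω} (hy : On D y) {a b : Ω}
    (hab : a ≠ b) (ha : a ∉ D) (hb : b ∉ D) : e K a b * y ∈ Y := by
  obtain ⟨D', hD', h1⟩ := mem_plus.mp h
  obtain ⟨a', b', hab', ha', hb'⟩ := exists_two (D ∪ D')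
  rw [mem_union, not_or] at ha' hb'
  exact move hy hab' hab ha'.1 hb'.1 ha hb (h1 a' b' hab' ha'.2 hb'.2)

/-- `z ↦ (z - aug z) y` -/
theorem aug_mul_mem {Y : TwoSidedIdeal (MonoidAlgebra K (FSym Ω))} {y : MonoidAlgebra K (FSym Ω)}
    {D : Finset Ω} (h : ∀ a ∈ D, ∀ b ∈ D, a ≠ b → e K a b * y ∈ Y) {z : MonoidAlgebra K (FSym Ω)}
    (hz : On D z) : z * y - aug K Ω z • y ∈ Y := by
  refine On.induction (D := D) (q := fun z => z * y - aug K Ω z • y ∈ Y) ?_ ?_ ?_ ?_ hz
  · simp only [map_zero, zero_smul, zero_mul, sub_zero]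
    exact Y.zero_mem
  · intro u v h1 h2
    have h3 : (u + v) * y - aug K Ω (u + v) • y =
        (u * y - aug K Ω u • y) + (v * y - aug K Ω v • y) := by
      rw [map_add, add_smul, add_mul]; abel
    rw [h3]
    exact Y.add_mem h1 h2
  · intro a u h1
    have h3 : (a • u) * y - aug K Ω (a • u) • y = a • (u * y - aug K Ω u • y) := by
      rw [map_smul, smul_mul_assoc, smul_sub, smul_smul, smul_eq_mul]
    rw [h3]
    exact smul_mem' Y a h1
  · intro g hg
    rw [aug_of, one_smul]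
    refine fsym_induction (D := D) (q := fun g => (MonoidAlgebra.of K (FSym Ω)) g * y - y ∈ Y) ?_ ?_ hg
    · rw [map_one, one_mul, sub_self]; exact Y.zero_mem
    · intro a ha b hb hab g _ h1
      have h2 : (MonoidAlgebra.of K (FSym Ω)) (sw a b * g) * y - y = (MonoidAlgebra.of K (FSym Ω)) (sw a b) * ((MonoidAlgebra.of K (FSym Ω)) g * y - y) - e K a b * y := by
        unfold e
        rw [map_mul, mul_sub, sub_mul, one_mul, mul_assoc]; abel
      rw [h2]
      exact Y.sub_mem (Y.mul_mem_left _ _ h1) (h a ha b hb hab)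

theorem mul_aug_mem {Y : TwoSidedIdeal (MonoidAlgebra K (FSym Ω))} {y : MonoidAlgebra K (FSym Ω)}
    {D : Finset Ω} (h : ∀ a ∈ D, ∀ b ∈ D, a ≠ b → y * e K a b ∈ Y) {z : MonoidAlgebra K (FSym Ω)}
    (hz : On D z) : y * z - aug K Ω z • y ∈ Y := by
  refine On.induction (D := D) (q := fun z => y * z - aug K Ω z • y ∈ Y) ?_ ?_ ?_ ?_ hz
  · simp only [map_zero, zero_smul, mul_zero, sub_zero]
    exact Y.zero_mem
  · intro u v h1 h2
    have h3 : y * (u + v) - aug K Ω (u + v) • y =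
        (y * u - aug K Ω u • y) + (y * v - aug K Ω v • y) := by
      rw [map_add, add_smul, mul_add]; abel
    rw [h3]
    exact Y.add_mem h1 h2
  · intro a u h1
    have h3 : y * (a • u) - aug K Ω (a • u) • y = a • (y * u - aug K Ω u • y) := by
      rw [map_smul, mul_smul_comm, smul_sub, smul_smul, smul_eq_mul]
    rw [h3]
    exact smul_mem' Y a h1
  · intro g hg
    rw [aug_of, one_smul]
    refine fsym_induction (D := D) (q := fun g => y * (MonoidAlgebra.of K (FSym Ω)) g - y ∈ Y) ?_ ?_ hg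
    · rw [map_one, mul_one, sub_self]; exact Y.zero_mem
    · intro a ha b hb hab g _ h1
      have h2 : y * (MonoidAlgebra.of K (FSym Ω)) (sw a b * g) - y = (y * (MonoidAlgebra.of K (FSym Ω)) g - y) - (y * e K a b) * (MonoidAlgebra.of K (FSym Ω)) g := by
        unfold e
        rw [map_mul, mul_sub, sub_mul, mul_one, ← mul_assoc]; abel
      rw [h2]
      exact Y.sub_mem h1 (Y.mul_mem_right _ _ (h a ha b hb hab))

/-- star transpositions are enough -/
theorem star_left {Y : TwoSidedIdeal (MonoidAlgebra K (FSym Ω))} {y : MonoidAlgebra K (FSym Ω)}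
    {D : Finset Ω} {c : Ω} (h : ∀ a ∈ D, e K a c * y ∈ Y) :
    ∀ a ∈ D, ∀ b ∈ D, a ≠ b → e K a b * y ∈ Y := by
  intro a ha b hb hab
  by_cases hac : a = c
  · rw [hac, e_comm]; exact h b hb
  by_cases hbc : b = c
  · rw [hbc]; exact h a ha
  -- `swap a c * swap b a..`
  have h1 : sw a b = sw a c * sw b c * sw a c := by
    apply Subtype.ext
    change swap a b = swap a c * swap b c * swap a c
    have := swap_mul_swap_mul_swap (x := b) (y := c) (z := a) hbc hab.symm
    rw [swap_comm c a] at this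
    rw [this]
  have h2 : e K a b * y = e K a c * y + (MonoidAlgebra.of K (FSym Ω)) (sw a c) * (e K b c * y) +
      (MonoidAlgebra.of K (FSym Ω)) (sw a c) * ((MonoidAlgebra.of K (FSym Ω)) (sw b c) * (e K a c * y)) := by
    unfold e
    rw [h1, map_mul, map_mul]
    noncomm_ring
  rw [h2]
  exact Y.add_mem (Y.add_mem (h a ha) (Y.mul_mem_left _ _ (h b hb)))
    (Y.mul_mem_left _ _ (Y.mul_mem_left _ _ (h a ha)))

theorem star_right {Y : TwoSidedIdeal (MonoidAlgebra K (FSym Ω))} {y : MonoidAlgebra K (FSym Ω)}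
    {D : Finset Ω} {c : Ω} (h : ∀ a ∈ D, y * e K a c ∈ Y) :
    ∀ a ∈ D, ∀ b ∈ D, a ≠ b → y * e K a b ∈ Y := by
  intro a ha b hb hab
  by_cases hac : a = c
  · rw [hac, e_comm]; exact h b hb
  by_cases hbc : b = c
  · rw [hbc]; exact h a ha
  have h1 : sw a b = sw a c * sw b c * sw a c := by
    apply Subtype.ext
    change swap a b = swap a c * swap b c * swap a c
    have := swap_mul_swap_mul_swap (x := b) (y := c) (z := a) hbc hab.symm
    rw [swap_comm c a] at this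
    rw [this]
  have h2 : y * e K a b = y * e K a c + (y * e K b c) * (MonoidAlgebra.of K (FSym Ω)) (sw a c) +
      (y * e K a c) * ((MonoidAlgebra.of K (FSym Ω)) (sw b c) * (MonoidAlgebra.of K (FSym Ω)) (sw a c)) := by
    unfold e
    rw [h1, map_mul, map_mul]
    noncomm_ring
  rw [h2]
  exact Y.add_mem (Y.add_mem (h a ha) (Y.mul_mem_right _ _ (h b hb)))
    (Y.mul_mem_right _ _ (h a ha))

/-- **(S)** an ideal not contained in the augmentation ideal is torsion free -/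
theorem plus_eq [Infinite Ω] {Y : TwoSidedIdeal (MonoidAlgebra K (FSym Ω))}
    (hY : ∃ w ∈ Y, aug K Ω w ≠ 0) : plus Y = Y := by
  apply le_antisymm _ (le_plus Y)
  intro y hy
  obtain ⟨D, hD⟩ := exists_On y
  obtain ⟨w, hw, hw0⟩ := hY
  obtain ⟨D0, hD0⟩ := exists_On w
  obtain ⟨Δ', hΔ', hc⟩ := Infinite.exists_superset_card_eq D (D.card + D0.card) (Nat.le_add_right _ _)
  set Δ := Δ' \ D with hΔ
  have hΔc : Δ.card = D0.card := by
    rw [hΔ, card_sdiff_of_subset hΔ', hc]; omega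
  obtain ⟨g, hg⟩ := exists_move D0 Δ hΔc.ge
  have hwΔ : On Δ ((MonoidAlgebra.of K (FSym Ω)) g * w * (MonoidAlgebra.of K (FSym Ω)) g⁻¹) := by
    refine (hD0.conj g).mono ?_
    intro z hz
    rw [mem_map] at hz
    obtain ⟨t, ht, rfl⟩ := hz
    exact hg t ht
  have h1 : ((MonoidAlgebra.of K (FSym Ω)) g * w * (MonoidAlgebra.of K (FSym Ω)) g⁻¹) * y - aug K Ω ((MonoidAlgebra.of K (FSym Ω)) g * w * (MonoidAlgebra.of K (FSym Ω)) g⁻¹) • y ∈ Y := by
    apply aug_mul_mem _ hwΔ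
    intro a ha b hb hab
    rw [hΔ, mem_sdiff] at ha hb
    exact of_plus hy hD hab ha.2 hb.2
  have h2 : ((MonoidAlgebra.of K (FSym Ω)) g * w * (MonoidAlgebra.of K (FSym Ω)) g⁻¹) * y ∈ Y :=
    Y.mul_mem_right _ _ (Y.mul_mem_right _ _ (Y.mul_mem_left _ _ hw))
  have h3 : aug K Ω ((MonoidAlgebra.of K (FSym Ω)) g * w * (MonoidAlgebra.of K (FSym Ω)) g⁻¹) = aug K Ω w := by
    rw [map_mul, map_mul, aug_of, aug_of, one_mul, mul_one]
  rw [h3] at h1
  have h4 : aug K Ω w • y ∈ Y := by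
    have := Y.sub_mem h2 h1
    rwa [sub_sub_cancel] at this
  have h5 := smul_mem' Y (aug K Ω w)⁻¹ h4
  rwa [smul_smul, inv_mul_cancel₀ hw0, one_smul] at h5

theorem exists_big {p : ℕ} (hp : p.Prime) (n : ℕ) : ∃ k, n ≤ p ^ k - 1 := by
  refine ⟨n + 1, ?_⟩
  have := Nat.lt_pow_self hp.one_lt (n := n + 1)
  omega

/-- **(R)** -/
theorem le_of_plus {p : ℕ} (hp : p.Prime) [CharP K p] [Infinite Ω]
    {Y Y' : TwoSidedIdeal (MonoidAlgebra K (FSym Ω))} (hY : ∀ y ∈ Y, aug K Ω y = 0)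
    (hA : Ann K Ω 2 ≤ Y) (hA' : Ann K Ω 2 ≤ Y') (h : plus Y ≤ plus Y') : Y ≤ Y' := by
  intro y hy
  obtain ⟨D, hD⟩ := exists_On y
  obtain ⟨k, hk⟩ := exists_big hp (D.card + 2)
  obtain ⟨D2, hDD, hc⟩ := Infinite.exists_superset_card_eq D (p ^ k - 1) (by omega)
  have h2 : 1 < (D2 \ D).card := by
    rw [card_sdiff_of_subset hDD]; omega
  obtain ⟨a, ha, b, hb, hab⟩ := one_lt_card.mp h2
  rw [mem_sdiff] at ha hb
  obtain ⟨s, hs⟩ := exists_StEl (K := K) hp k hc
  have hyplus : y ∈ plus Y' := h (le_plus Y hy)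
  -- the star property
  have hstar : ∀ i ∈ D2, ∀ j ∈ D2, e K i a * (y * e K j b) ∈ Y' := by
    intro i hi j hj
    by_cases hia : i = a
    · rw [hia, e_self, zero_mul]; exact Y'.zero_mem
    by_cases hjb : j = b
    · rw [hjb, e_self, mul_zero, mul_zero]; exact Y'.zero_mem
    by_cases hiD : i ∈ D
    · by_cases hjD : j ∈ D
      · -- bending
        have hS : act (swap (Sum.inl i) (Sum.inr j)) (poly D y) ∈ Sp K (D.disjSum D) :=
          Sp.stab _ _ (inl_mem_disjSum.mpr hiD) _ (inr_mem_disjSum.mpr hjD) _ (poly_mem hD)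
        obtain ⟨y', hy', hp'⟩ := poly_surj hS
        have hb' := bend hD hy' hiD hjD hab ha.2 hb.2 hp'
        set X := (MonoidAlgebra.of K (FSym Ω)) (sw i b) * (e K i a * (y * e K j b)) * (MonoidAlgebra.of K (FSym Ω)) (sw j a) with hX
        have hXY : X ∈ Y := Y.mul_mem_right _ _ (Y.mul_mem_left _ _ (Y.mul_mem_left _ _
          (Y.mul_mem_right _ _ hy)))
        have hey : e K a b * y' ∈ Y := by
          have := Y.sub_mem hXY (hA hb')
          rwa [sub_sub_cancel] at this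
        have hey' : e K a b * y' ∈ Y' :=
          of_plus (h (plus_of_one hy' hab ha.2 hb.2 hey)) hy' hab ha.2 hb.2
        have hXY' : X ∈ Y' := mem_of_sub (hA' hb') hey'
        have hfin : e K i a * (y * e K j b) = (MonoidAlgebra.of K (FSym Ω)) (sw i b) * X * (MonoidAlgebra.of K (FSym Ω)) (sw j a) := by
          rw [hX]
          have h1 : (MonoidAlgebra.of K (FSym Ω)) (sw i b) * (MonoidAlgebra.of K (FSym Ω)) (sw i b) = 1 := by rw [← map_mul, sw_mul_self, map_one]
          have h3 : (MonoidAlgebra.of K (FSym Ω)) (sw j a) * (MonoidAlgebra.of K (FSym Ω)) (sw j a) = 1 := by rw [← map_mul, sw_mul_self, map_one]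
          calc e K i a * (y * e K j b) = ((MonoidAlgebra.of K (FSym Ω)) (sw i b) * (MonoidAlgebra.of K (FSym Ω)) (sw i b)) * (e K i a * (y * e K j b)) *
                ((MonoidAlgebra.of K (FSym Ω)) (sw j a) * (MonoidAlgebra.of K (FSym Ω)) (sw j a)) := by rw [h1, h3, one_mul, mul_one]
            _ = _ := by simp only [mul_assoc]
        rw [hfin]
        exact Y'.mul_mem_right _ _ (Y'.mul_mem_left _ _ hXY')
      · rw [← e_mul_comm hD hjD hb.2]
        exact Y'.mul_mem_left _ _ (of_plus hyplus hD hjb hjD hb.2)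
    · rw [← mul_assoc]
      exact Y'.mul_mem_right _ _ (of_plus hyplus hD hia hiD ha.2)
  -- all differences on the left
  have h3 : ∀ j ∈ D2, (s - (1 : K) • (1 : MonoidAlgebra K (FSym Ω))) * y * e K j b ∈ Y' := by
    intro j hj
    have h4 := aug_mul_mem (star_left (c := a) (fun i hi => hstar i hi j hj)) hs.1
    rw [hs.aug_eq] at h4
    have h5 : (s - (1 : K) • (1 : MonoidAlgebra K (FSym Ω))) * y * e K j b =
        s * (y * e K j b) - (1 : K) • (y * e K j b) := by
      rw [one_smul, one_smul, sub_mul, sub_mul, one_mul, mul_assoc]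
    rw [h5]
    exact h4
  have h6 := mul_aug_mem (star_right (c := b) h3) hs.1
  rw [hs.aug_eq, one_smul, one_smul] at h6
  -- `y = (1 - s) y (1 - s)` modulo the annihilator
  have h7 := hs.mul_left (hD.mono hDD)
  have h8 := hs.mul_right (hD.mono hDD)
  rw [hY y hy, zero_smul, sub_zero] at h7 h8
  have h9 : y = ((s - 1) * y * s - (s - 1) * y) - (s * (y * s)) + y * s + s * y := by
    noncomm_ring
  rw [h9]
  exact Y'.add_mem (Y'.add_mem (Y'.sub_mem h6 (Y'.mul_mem_left _ _ (hA' h7))) (hA' h7)) (hA' h8)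

end Rank2
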