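import Pool.Agent.Lib.MP_a8d7f7_al.R2.I4

/-!
# MP_a8d7f7_al: the order of the ideals (helper24)
-/

set_option autoImplicit false
set_option linter.unusedSectionVars false
set_option linter.unusedVariables false

namespace Rank2

open Finset Equiv FinSym

variable {K : Type*} [Field K] {Ω : Type*} [DecidableEq Ω]


/-! ## families of functions which define ideals -/

/-- an ideal from a family of subspaces of functions -/
noncomputable def famIdeal (V : Finset Ω → Submodule K (Fn (Ω ⊕ Ω) K))
    (hins : ∀ (D : Finset Ω) (a : Ω), a ∉ D → ∀ f ∈ V D, Dep (D.disjSum D) f →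
      (x (Sum.inl a) - x (Sum.inr a)) * f ∈ V (insert a D))
    (hst : ∀ D : Finset Ω, ∀ a ∈ D, ∀ b ∈ D, ∀ f ∈ V D,
      act (swap (Sum.inl a) (Sum.inl b)) f ∈ V D ∧ act (swap (Sum.inr a) (Sum.inr b)) f ∈ V D) :
    TwoSidedIdeal (MonoidAlgebra K (FSym Ω)) :=
  TwoSidedIdeal.mk' {y | ∃ D : Finset Ω, ∀ D', D ⊆ D' → On D' y ∧ poly D' y ∈ V D'}
    ⟨∅, fun D' _ => ⟨On.zero D', by
      have h := poly_smul (K := K) D' 0 0
      rw [zero_smul, zero_smul] at h
      rw [h]; exact (V D').zero_mem⟩⟩
    (by
      rintro y z ⟨D, h⟩ ⟨D0, h0⟩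
      refine ⟨D ∪ D0, fun D' hD' => ?_⟩
      obtain ⟨h1, h2⟩ := h D' (subset_union_left.trans hD')
      obtain ⟨h3, h4⟩ := h0 D' (subset_union_right.trans hD')
      exact ⟨h1.add h3, by rw [poly_add]; exact (V D').add_mem h2 h4⟩)
    (by
      rintro y ⟨D, h⟩
      refine ⟨D, fun D' hD' => ?_⟩
      obtain ⟨h1, h2⟩ := h D' hD'
      refine ⟨by have := (On.zero D').sub h1; rwa [zero_sub] at this, ?_⟩
      have h3 := poly_smul (K := K) D' (-1) y
      rw [neg_smul, one_smul] at h3
      rw [h3]; exact (V D').smul_mem _ h2)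
    (by
      rintro z y ⟨D, h⟩
      obtain ⟨D0, hz⟩ := exists_On z
      refine ⟨D ∪ D0, fun D' hD' => ?_⟩
      obtain ⟨h1, h2⟩ := h D' (subset_union_left.trans hD')
      have hz' := hz.mono (subset_union_right.trans hD')
      refine ⟨hz'.mul h1, ?_⟩
      refine On.induction (D := D') (q := fun z => poly D' (z * y) ∈ V D') ?_ ?_ ?_ ?_ hz'
      · have h := poly_smul (K := K) D' 0 0
        rw [zero_smul, zero_smul] at h
        rw [zero_mul, h]; exact (V D').zero_mem
      · intro u v hu hv
        rw [add_mul, poly_add]; exact (V D').add_mem hu hv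
      · intro a u hu
        rw [smul_mul_assoc, poly_smul]; exact (V D').smul_mem _ hu
      · intro g hg
        refine fsym_induction (D := D') (q := fun g => poly D' ((MonoidAlgebra.of K (FSym Ω)) g * y) ∈ V D') ?_ ?_ hg
        · rw [map_one, one_mul]; exact h2
        · intro a ha b hb hab g _ hq
          rw [map_mul, mul_assoc, poly_sw_left]
          exact (hst D' a ha b hb _ hq).1)
    (by
      rintro y z ⟨D, h⟩
      obtain ⟨D0, hz⟩ := exists_On z
      refine ⟨D ∪ D0, fun D' hD' => ?_⟩
      obtain ⟨h1, h2⟩ := h D' (subset_union_left.trans hD')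
      have hz' := hz.mono (subset_union_right.trans hD')
      refine ⟨h1.mul hz', ?_⟩
      refine On.induction (D := D') (q := fun z => poly D' (y * z) ∈ V D') ?_ ?_ ?_ ?_ hz'
      · have h := poly_smul (K := K) D' 0 0
        rw [zero_smul, zero_smul] at h
        rw [mul_zero, h]; exact (V D').zero_mem
      · intro u v hu hv
        rw [mul_add, poly_add]; exact (V D').add_mem hu hv
      · intro a u hu
        rw [mul_smul_comm, poly_smul]; exact (V D').smul_mem _ hu
      · intro g hg
        have hq : ∀ g : FSym Ω, (∀ z, z ∉ D' → (g : Perm Ω) z = z) →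
            poly D' (y * (MonoidAlgebra.of K (FSym Ω)) g⁻¹) ∈ V D' := by
          intro g hg
          refine fsym_induction (D := D') (q := fun g => poly D' (y * (MonoidAlgebra.of K (FSym Ω)) g⁻¹) ∈ V D') ?_ ?_ hg
          · rw [inv_one, map_one, mul_one]; exact h2
          · intro a ha b hb hab g _ hq
            rw [mul_inv_rev, sw_inv, map_mul, ← mul_assoc, poly_sw_right ha hb]
            exact (hst D' a ha b hb _ hq).2
        have h5 := hq g⁻¹ (by
          intro z hz
          change (g : Perm Ω)⁻¹ z = z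
          rw [Perm.inv_eq_iff_eq]
          exact (hg z hz).symm)
        rwa [inv_inv] at h5)

theorem mem_famIdeal {V : Finset Ω → Submodule K (Fn (Ω ⊕ Ω) K)} {hins} {hst}
    {y : MonoidAlgebra K (FSym Ω)} : y ∈ famIdeal V hins hst ↔
      ∃ D : Finset Ω, ∀ D', D ⊆ D' → On D' y ∧ poly D' y ∈ V D' := by
  unfold famIdeal
  rw [TwoSidedIdeal.mem_mk']
  rfl

theorem famIdeal_of_one {V : Finset Ω → Submodule K (Fn (Ω ⊕ Ω) K)} {hins} {hst}
    {y : MonoidAlgebra K (FSym Ω)} {D : Finset Ω} (hD : On D y) (h : poly D y ∈ V D) :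
    y ∈ famIdeal V hins hst := by
  refine mem_famIdeal.mpr ⟨D, ?_⟩
  have h1 : ∀ D0 : Finset Ω, Disjoint D D0 → poly (D ∪ D0) y ∈ V (D ∪ D0) := by
    intro D0
    induction D0 using Finset.induction_on with
    | empty => intro _; rw [union_empty]; exact h
    | insert a D0 ha ih =>
      intro hdis
      rw [disjoint_insert_right] at hdis
      have ha' : a ∉ D ∪ D0 := by
        rw [mem_union, not_or]; exact ⟨hdis.1, ha⟩
      have hon : On (D ∪ D0) y := hD.mono subset_union_left
      rw [union_insert, poly_insert ha' hon]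
      exact hins _ a ha' _ (ih hdis.2) (poly_dep hon)
  intro D' hD'
  have h2 := h1 (D' \ D) disjoint_sdiff
  rw [union_sdiff_of_subset hD'] at h2
  exact ⟨hD.mono hD', h2⟩

theorem Ann_le_famIdeal {V : Finset Ω → Submodule K (Fn (Ω ⊕ Ω) K)} {hins} {hst} :
    Ann K Ω 2 ≤ famIdeal V hins hst := by
  intro y hy
  obtain ⟨D, hD⟩ := exists_On y
  apply famIdeal_of_one hD
  rw [poly_of_mem_Ann D hy]
  exact (V D).zero_mem

/-! ## the first invariant -/

theorem ds_insert (a : Ω) (D : Finset Ω) : (insert a D).disjSum (insert a D) =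
    insert (Sum.inl a) (insert (Sum.inr a) (D.disjSum D)) := by
  ext z
  rcases z with z | z <;> simp

/-- the functions which vanish at the points with less than `c` left letters -/
def low (K : Type*) [Field K] {Ω : Type*} [DecidableEq Ω] (c : ℕ) (D : Finset Ω) :
    Submodule K (Fn (Ω ⊕ Ω) K) where
  carrier := {f | ∀ C : Ω ⊕ Ω → Bool,
    (D.filter (fun i => C (Sum.inl i) = true)).card < c → f C = 0}
  zero_mem' := fun _ _ => rfl
  add_mem' := by
    intro f g h1 h2 C hC
    rw [Pi.add_apply, h1 C hC, h2 C hC, add_zero]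
  smul_mem' := by
    intro a f h1 C hC
    rw [Pi.smul_apply, h1 C hC, smul_zero]

/-- the ideal of the elements of order at least `c` -/
noncomputable def lowIdeal (K : Type*) [Field K] (Ω : Type*) [DecidableEq Ω] (c : ℕ) :
    TwoSidedIdeal (MonoidAlgebra K (FSym Ω)) :=
  famIdeal (low K c)
    (by
      intro D a ha f hf _ C hC
      rw [Pi.mul_apply, hf C, mul_zero]
      refine lt_of_le_of_lt (card_le_card ?_) hC
      exact filter_subset_filter _ (subset_insert _ _))
    (by
      intro D a ha b hb f hf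
      constructor
      · intro C hC
        rw [act_apply]
        apply hf
        refine lt_of_le_of_lt (le_of_eq ?_) hC
        refine card_bij (fun i _ => swap a b i) ?_ ?_ ?_
        · intro i hi
          rw [mem_filter] at hi ⊢
          have h1 : swap (Sum.inl a : Ω ⊕ Ω) (Sum.inl b) (Sum.inl i) = Sum.inl (swap a b i) := by
            by_cases h : i = a
            · rw [h, swap_apply_left, swap_apply_left]
            · by_cases h' : i = b
              · rw [h', swap_apply_right, swap_apply_right]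
              · rw [swap_apply_of_ne_of_ne (by simpa using h) (by simpa using h'),
                  swap_apply_of_ne_of_ne h h']
          have h2 := hi.2
          simp only [Function.comp, h1] at h2
          refine ⟨?_, h2⟩
          by_cases h : i = a
          · rw [h, swap_apply_left]; exact hb
          · by_cases h' : i = b
            · rw [h', swap_apply_right]; exact ha
            · rw [swap_apply_of_ne_of_ne h h']; exact hi.1
        · intro i _ j _ h
          exact (swap a b).injective h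
        · intro i hi
          refine ⟨swap a b i, ?_, swap_apply_self a b i⟩
          rw [mem_filter] at hi ⊢
          have h1 : swap (Sum.inl a : Ω ⊕ Ω) (Sum.inl b) (Sum.inl (swap a b i)) = Sum.inl i := by
            by_cases h : i = a
            · rw [h, swap_apply_left, swap_apply_right]
            · by_cases h' : i = b
              · rw [h', swap_apply_right, swap_apply_left]
              · rw [swap_apply_of_ne_of_ne h h', swap_apply_of_ne_of_ne (by simpa using h)
                  (by simpa using h')]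
          simp only [Function.comp, h1]
          refine ⟨?_, hi.2⟩
          by_cases h : i = a
          · rw [h, swap_apply_left]; exact hb
          · by_cases h' : i = b
            · rw [h', swap_apply_right]; exact ha
            · rw [swap_apply_of_ne_of_ne h h']; exact hi.1
      · intro C hC
        rw [act_apply]
        apply hf
        refine lt_of_le_of_lt (le_of_eq ?_) hC
        congr 1)

theorem low_e {c : ℕ} {D : Finset Ω} {f g : Fn (Ω ⊕ Ω) K} (hf : f ∈ low K c D) {a b : Ω}
    (hab : a ≠ b) (ha : a ∉ D) (hb : b ∉ D) :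
    (x (Sum.inl a) - x (Sum.inl b)) * (g * f) ∈ low K (c + 1) (insert a (insert b D)) := by
  intro C hC
  rw [Pi.mul_apply, Pi.mul_apply, Pi.sub_apply]
  by_cases h : (D.filter (fun i => C (Sum.inl i) = true)).card < c
  · rw [hf C h, mul_zero, mul_zero]
  · have h1 : C (Sum.inl a) = C (Sum.inl b) := by
      by_contra hne
      apply h
      have ha' : a ∉ insert b D := by simp [hab, ha]
      rw [filter_insert, filter_insert] at hC
      cases h2 : C (Sum.inl a) <;> cases h3 : C (Sum.inl b)
      · exact absurd (h2.trans h3.symm) hne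
      · rw [h2, h3, if_neg (by simp), if_pos rfl, card_insert_of_notMem (by simp [hb])] at hC
        omega
      · rw [h2, h3, if_pos rfl, if_neg (by simp), card_insert_of_notMem (by simp [ha])] at hC
        omega
      · exact absurd (h2.trans h3.symm) hne
    have h2 : (x (Sum.inl a) : Fn (Ω ⊕ Ω) K) C = x (Sum.inl b) C := by
      unfold x; rw [h1]
    rw [h2, sub_self, zero_mul]

theorem IsDiff.poly_low {c : ℕ} {S : Finset Ω} {u : MonoidAlgebra K (FSym Ω)} (hu : IsDiff K c S u)
    {R : Finset Ω} {s : MonoidAlgebra K (FSym Ω)} (hs : On R s) (hRS : Disjoint R S) :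
    poly (S ∪ R) (u * s) ∈ low K c (S ∪ R) := by
  induction hu with
  | zero =>
    intro C hC
    exact absurd hC (Nat.not_lt_zero _)
  | succ c S u a b hab ha hb hu ih =>
    rw [disjoint_insert_right, disjoint_insert_right] at hRS
    have hon : On (S ∪ R) (u * s) := (hu.on.mono subset_union_left).mul (hs.mono subset_union_right)
    have ha' : a ∉ S ∪ R := by rw [mem_union, not_or]; exact ⟨ha, hRS.1⟩
    have hb' : b ∉ S ∪ R := by rw [mem_union, not_or]; exact ⟨hb, hRS.2.1⟩
    rw [insert_union, insert_union, mul_assoc, poly_e_fresh hon hab ha' hb']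
    exact low_e (ih hRS.2.2) hab ha' hb'

theorem Id_le_low (p k c : ℕ) : Id K Ω p k c ≤ lowIdeal K Ω c := by
  apply Id_le Ann_le_famIdeal
  intro R S u s hR hRS hu hs
  exact famIdeal_of_one (D := S ∪ R)
    ((hu.on.mono subset_union_left).mul (hs.1.mono subset_union_right)) (hu.poly_low hs.1 hRS)

/-- the lowest point of a generator -/
theorem IsDiff.exists_point {c : ℕ} {S : Finset Ω} {u : MonoidAlgebra K (FSym Ω)}
    (hu : IsDiff K c S u) {R : Finset Ω} {s : MonoidAlgebra K (FSym Ω)} (hs : IsStEl R s)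
    (hRS : Disjoint R S) : ∃ C : Ω ⊕ Ω → Bool,
      ((S ∪ R).filter (fun i => C (Sum.inl i) = true)).card = c ∧ poly (S ∪ R) (u * s) C ≠ 0 := by
  induction hu with
  | zero =>
    refine ⟨Sum.elim (fun _ => false) (fun _ => true), ?_, ?_⟩
    · simp
    · rw [empty_union, one_mul, hs.2]
      unfold E
      rw [if_pos]
      · exact one_ne_zero
      · have h : (R.disjSum R).filter
            (fun i => Sum.elim (fun _ => false) (fun _ => true) i = true) =
            R.map ⟨Sum.inr, Sum.inr_injective⟩ := by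
          ext z
          rcases z with z | z <;> simp
        rw [h, card_map, card_disjSum]
        omega
  | succ c S u a b hab ha hb hu ih =>
    rw [disjoint_insert_right, disjoint_insert_right] at hRS
    have hon : On (S ∪ R) (u * s) :=
      (hu.on.mono subset_union_left).mul (hs.1.mono subset_union_right)
    have ha' : a ∉ S ∪ R := by rw [mem_union, not_or]; exact ⟨ha, hRS.1⟩
    have hb' : b ∉ S ∪ R := by rw [mem_union, not_or]; exact ⟨hb, hRS.2.1⟩
    obtain ⟨C, h1, h2⟩ := ih hRS.2.2
    refine ⟨fun z => if z = Sum.inl a then true else if z = Sum.inl b then false else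
      if z = Sum.inr a then true else if z = Sum.inr b then false else C z, ?_, ?_⟩
    · have hne : ∀ i ∈ S ∪ R, i ≠ a ∧ i ≠ b := fun i hi =>
        ⟨fun h => ha' (h ▸ hi), fun h => hb' (h ▸ hi)⟩
      rw [insert_union, insert_union, filter_insert, if_pos (by simp), filter_insert,
        if_neg (by simp [hab.symm]), card_insert_of_notMem, ← h1]
      · congr 2
        apply filter_congr
        intro i hi
        simp [(hne i hi).1, (hne i hi).2]
      · intro h
        exact ha' (mem_filter.mp h).1
    · rw [insert_union, insert_union, mul_assoc, poly_e_fresh hon hab ha' hb']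
      rw [Pi.mul_apply, Pi.mul_apply, Pi.sub_apply, Pi.sub_apply]
      have h3 : poly (S ∪ R) (u * s) (fun z => if z = Sum.inl a then true else
          if z = Sum.inl b then false else if z = Sum.inr a then true else
          if z = Sum.inr b then false else C z) = poly (S ∪ R) (u * s) C := by
        apply poly_dep hon
        rintro (i | i) hi
        · rw [inl_mem_disjSum] at hi
          have h4 : i ≠ a := fun h => ha' (h ▸ hi)
          have h5 : i ≠ b := fun h => hb' (h ▸ hi)
          simp [h4, h5]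
        · rw [inr_mem_disjSum] at hi
          have h4 : i ≠ a := fun h => ha' (h ▸ hi)
          have h5 : i ≠ b := fun h => hb' (h ▸ hi)
          simp [h4, h5]
      rw [h3]
      simp [x, hab.symm, h2]

theorem exists_IsDiff [Infinite Ω] (R : Finset Ω) (c : ℕ) :
    ∃ (S : Finset Ω) (u : MonoidAlgebra K (FSym Ω)), IsDiff K c S u ∧ Disjoint R S := by
  induction c with
  | zero => exact ⟨∅, 1, IsDiff.zero, disjoint_empty_right R⟩
  | succ c ih =>
    obtain ⟨S, u, hu, hRS⟩ := ih
    obtain ⟨a, b, hab, ha, hb⟩ := exists_two (R ∪ S)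
    rw [mem_union, not_or] at ha hb
    refine ⟨_, _, IsDiff.succ c S u a b hab ha.2 hb.2 hu, ?_⟩
    rw [disjoint_insert_right, disjoint_insert_right]
    exact ⟨ha.1, hb.1, hRS⟩

theorem IsDiff.le_of_mem {c c' : ℕ} {S : Finset Ω} {u : MonoidAlgebra K (FSym Ω)}
    (hu : IsDiff K c S u) {R : Finset Ω} {s : MonoidAlgebra K (FSym Ω)} (hs : IsStEl R s)
    (hRS : Disjoint R S) (h : u * s ∈ lowIdeal K Ω c') : c' ≤ c := by
  obtain ⟨D, hD⟩ := mem_famIdeal.mp h
  obtain ⟨C, h1, h2⟩ := hu.exists_point hs hRS
  by_contra hcon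
  push Not at hcon
  have hsub : S ∪ R ⊆ D ∪ (S ∪ R) := subset_union_right
  obtain ⟨-, h3⟩ := hD (D ∪ (S ∪ R)) subset_union_left
  have hon : On (S ∪ R) (u * s) :=
    (hu.on.mono subset_union_left).mul (hs.1.mono subset_union_right)
  have h4 := poly_union (disjoint_sdiff (s := S ∪ R) (t := D ∪ (S ∪ R))) hon
  rw [union_sdiff_of_subset hsub] at h4
  rw [h4] at h3
  set C' : Ω ⊕ Ω → Bool := fun z => if z ∈ (S ∪ R).disjSum (S ∪ R) then C z else
    Sum.elim (fun _ => false) (fun _ => true) z with hC'
  have h5 := h3 C' (by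
    refine lt_of_le_of_lt (card_le_card ?_) (h1.trans_lt hcon)
    intro i hi
    rw [mem_filter] at hi ⊢
    have h6 := hi.2
    by_cases h7 : i ∈ S ∪ R
    · refine ⟨h7, ?_⟩
      rw [hC'] at h6
      simp only [inl_mem_disjSum, h7, if_true] at h6
      exact h6
    · rw [hC'] at h6
      simp only [inl_mem_disjSum, h7, if_false] at h6
      exact absurd h6 (by simp))
  rw [Pi.mul_apply, mul_eq_zero] at h5
  rcases h5 with h5 | h5
  · unfold M at h5
    rw [Finset.prod_apply, prod_eq_zero_iff] at h5
    obtain ⟨i, hi, h6⟩ := h5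
    rw [mem_sdiff] at hi
    rw [Pi.sub_apply] at h6
    unfold x at h6
    rw [hC'] at h6
    simp only [inl_mem_disjSum, inr_mem_disjSum, hi.2, if_false] at h6
    simp at h6
  · apply h2
    rw [← h5]
    apply poly_dep hon
    intro z hz
    rw [hC']
    simp only [hz, if_true]

theorem le_of_Id_le {p : ℕ} (hp : p.Prime) [CharP K p] [Infinite Ω] {k k' c c' : ℕ}
    (h : Id K Ω p k c ≤ Id K Ω p k' c') : c' ≤ c := by
  obtain ⟨R, hR⟩ := Infinite.exists_subset_card_eq Ω (p ^ k - 1)
  obtain ⟨s, hs⟩ := exists_StEl (K := K) hp k hR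
  obtain ⟨S, u, hu, hRS⟩ := exists_IsDiff (K := K) R c
  exact hu.le_of_mem hs hRS (Id_le_low p k' c' (h (mem_Id hR hRS hu hs)))

/-! ## the second invariant -/

/-- the ideal of the elements with function in `P n T` -/
noncomputable def PIdeal (K : Type*) [Field K] (Ω : Type*) [DecidableEq Ω] (n : ℕ) :
    TwoSidedIdeal (MonoidAlgebra K (FSym Ω)) :=
  famIdeal (fun D => P K n (D.disjSum D))
    (by
      intro D a ha f hf _
      rw [ds_insert]
      exact P.cons hf (by simp) (by simp [ha]) (by simp [ha]))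
    (by
      intro D a ha b hb f hf
      exact ⟨P.stab n _ _ (inl_mem_disjSum.mpr ha) _ (inl_mem_disjSum.mpr hb) _ hf,
        P.stab n _ _ (inr_mem_disjSum.mpr ha) _ (inr_mem_disjSum.mpr hb) _ hf⟩)

theorem Pid_le_PIdeal (p k : ℕ) : Id K Ω p k 0 ≤ PIdeal K Ω (p ^ k - 1) := by
  apply Pid_le Ann_le_famIdeal
  intro R s hR hs
  apply famIdeal_of_one (D := R) hs.1
  have h := poly_StEl_mem (subset_refl R) hs
  rwa [hR] at h

theorem StEl_notMem {p : ℕ} (hp : p.Prime) [CharP K p] [Infinite Ω] {k k' : ℕ} (hkk : k < k')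
    (hk : 1 ≤ p ^ k - 1 ∨ 2 ≤ p ^ k' - 1) {R : Finset Ω} {s : MonoidAlgebra K (FSym Ω)}
    (hR : R.card = p ^ k - 1) (hs : IsStEl R s) : s ∉ Id K Ω p k' 0 := by
  intro hmem
  obtain ⟨D, hD⟩ := mem_famIdeal.mp (Pid_le_PIdeal p k' hmem)
  have hlt : p ^ k - 1 < p ^ k' - 1 := by
    have h1 : p ^ k < p ^ k' := Nat.pow_lt_pow_right hp.one_lt hkk
    have h2 : 0 < p ^ k := Nat.pow_pos hp.pos
    omega
  obtain ⟨R1, hRR, hne, hcard⟩ : ∃ R1 : Finset Ω, R ⊆ R1 ∧ R1.Nonempty ∧
      R1.card < p ^ k' - 1 := by
    by_cases hRe : R.Nonempty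
    · exact ⟨R, subset_refl R, hRe, by omega⟩
    · rw [not_nonempty_iff_eq_empty] at hRe
      obtain ⟨a, -⟩ := exists_two (∅ : Finset Ω)
      refine ⟨{a}, by rw [hRe]; exact empty_subset _, singleton_nonempty a, ?_⟩
      rw [hRe, card_empty] at hR
      rw [card_singleton]
      omega
  have hon : On R1 s := hs.1.mono hRR
  have key : ∀ D0 : Finset Ω, Disjoint R1 D0 →
      poly (R1 ∪ D0) s ∈ P K (p ^ k' - 1) ((R1 ∪ D0).disjSum (R1 ∪ D0)) →
      poly R1 s ∈ P K (p ^ k' - 1) (R1.disjSum R1) := by
    intro D0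
    induction D0 using Finset.induction_on with
    | empty => intro _ h; rwa [union_empty] at h
    | insert a D0 ha ih =>
      intro hdis h
      rw [disjoint_insert_right] at hdis
      have ha' : a ∉ R1 ∪ D0 := by
        rw [mem_union, not_or]; exact ⟨hdis.1, ha⟩
      have hon' : On (R1 ∪ D0) s := hon.mono subset_union_left
      apply ih hdis.2
      rw [union_insert, poly_insert ha' hon', ds_insert] at h
      refine P.torsion (poly_dep hon') ?_ (by simp) (by simp [ha']) (by simp [ha']) h
      obtain ⟨r, hr⟩ := hne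
      exact ⟨Sum.inl r, inl_mem_disjSum.mpr (mem_union_left _ hr)⟩
  obtain ⟨-, h1⟩ := hD (R1 ∪ (D \ R1)) (by
    intro z hz
    rw [mem_union, mem_sdiff]
    by_cases h : z ∈ R1
    · exact Or.inl h
    · exact Or.inr ⟨hz, h⟩)
  have h2 := key _ disjoint_sdiff h1
  rw [P.small (by rw [card_disjSum]; omega), Submodule.mem_bot] at h2
  have h3 := poly_eval R1 s
  rw [h2, hs.aug_eq] at h3
  exact zero_ne_one h3

theorem mem_of_IsDiff_mul [Infinite Ω] {Y : TwoSidedIdeal (MonoidAlgebra K (FSym Ω))}
    (hY : plus Y ≤ Y) {c : ℕ} {S : Finset Ω} {u : MonoidAlgebra K (FSym Ω)} (hu : IsDiff K c S u)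
    {R : Finset Ω} {s : MonoidAlgebra K (FSym Ω)} (hs : On R s) (hRS : Disjoint R S)
    (h : u * s ∈ Y) : s ∈ Y := by
  induction hu with
  | zero => rwa [one_mul] at h
  | succ c S u a b hab ha hb hu ih =>
    rw [disjoint_insert_right, disjoint_insert_right] at hRS
    apply ih hRS.2.2
    apply hY
    refine plus_of_one (D := S ∪ R) ((hu.on.mono subset_union_left).mul
      (hs.mono subset_union_right)) hab ?_ ?_ (by rwa [mul_assoc] at h)
    · rw [mem_union, not_or]; exact ⟨ha, hRS.1⟩
    · rw [mem_union, not_or]; exact ⟨hb, hRS.2.1⟩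

theorem Id_succ_le (p k c : ℕ) : Id K Ω p k (c + 1) ≤ Id K Ω p k c := by
  apply Id_le (Ann_le_Id p k c)
  intro R S u s hR hRS hu hs
  cases hu with
  | succ _ S u a b hab ha hb hu =>
    rw [disjoint_insert_right, disjoint_insert_right] at hRS
    rw [mul_assoc]
    exact (Id K Ω p k c).mul_mem_left _ _ (mem_Id hR hRS.2.2 hu hs)

theorem Id_anti (p k : ℕ) : Antitone (Id K Ω p k) := antitone_nat_of_succ_le (Id_succ_le p k)

/-- **The order.** -/
theorem Id_le_Id_iff {p : ℕ} (hp : p.Prime) [CharP K p] [Infinite Ω] {k k' c c' : ℕ}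
    (hk : p = 2 → 1 ≤ k) :
    Id K Ω p k c ≤ Id K Ω p k' c' ↔ k' ≤ k ∧ c' ≤ c := by
  constructor
  · intro h
    refine ⟨?_, le_of_Id_le hp h⟩
    by_contra hcon
    push Not at hcon
    obtain ⟨R, hR⟩ := Infinite.exists_subset_card_eq Ω (p ^ k - 1)
    obtain ⟨s, hs⟩ := exists_StEl (K := K) hp k hR
    obtain ⟨S, u, hu, hRS⟩ := exists_IsDiff (K := K) R c
    have h1 : u * s ∈ Id K Ω p k' 0 := Id_anti p k' (Nat.zero_le c') (h (mem_Id hR hRS hu hs))
    refine StEl_notMem hp hcon ?_ hR hs (mem_of_IsDiff_mul (plus_Pid hp k').le hu hs.1 hRS h1)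
    by_cases hp2 : p = 2
    · left
      have h2 := hk hp2
      have h3 : 2 ^ 1 ≤ p ^ k := by
        rw [hp2]; exact Nat.pow_le_pow_right (by norm_num) h2
      omega
    · right
      have h2 : 3 ≤ p := by
        have := hp.two_le
        omega
      have h3 : p ^ 1 ≤ p ^ k' := Nat.pow_le_pow_right hp.pos (by omega)
      rw [pow_one] at h3
      omega
  · rintro ⟨h1, h2⟩
    exact (Pid_anti hp h1 c).trans (Id_anti p k' h2)

/-- the ideals are larger than `Ann 2` -/
theorem Id_ne_Ann {p : ℕ} (hp : p.Prime) [CharP K p] [Infinite Ω] (k c : ℕ) :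
    Id K Ω p k c ≠ Ann K Ω 2 := by
  intro h
  have h1 : Id K Ω p k c ≤ Id K Ω p k (c + 1) := by
    rw [h]; exact Ann_le_Id p k (c + 1)
  have := le_of_Id_le hp h1
  omega

/-- for `p = 2` the ideals with `k = 0` and `k = 1` agree -/
theorem Id_two [CharP K 2] [Infinite Ω] (c : ℕ) : Id K Ω 2 0 c = Id K Ω 2 1 c := by
  apply le_antisymm _ (Pid_anti Nat.prime_two (Nat.zero_le 1) c)
  apply Id_le (Ann_le_Id 2 1 c)
  intro R S u s hR hRS hu hs
  rw [pow_zero, Nat.sub_self, card_eq_zero] at hR
  subst hR
  obtain ⟨r, hr⟩ := Infinite.exists_notMem_finset S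
  have h1 : IsStEl (K := K) {r} (1 : MonoidAlgebra K (FSym Ω)) := by
    refine ⟨On.one _, ?_⟩
    rw [poly_one]
    unfold M E
    rw [prod_singleton]
    funext C
    have h2 : ({r} : Finset Ω).disjSum {r} = {Sum.inl r, Sum.inr r} := by
      ext z
      rcases z with z | z <;> simp
    rw [h2, filter_insert, filter_singleton]
    have h3 : (2 : K) = 0 := CharTwo.two_eq_zero
    have h4 : (-1 : K) = 1 := by
      rw [neg_eq_iff_add_eq_zero, one_add_one_eq_two, h3]
    unfold x
    rw [Pi.sub_apply]
    cases C (Sum.inl r) <;> cases C (Sum.inr r) <;> simp [h4]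
  have h5 : s - 1 ∈ Ann K Ω 2 := by
    have := hs.mul_right (On.one ∅)
    have h6 : IsStEl (K := K) ∅ (1 : MonoidAlgebra K (FSym Ω)) := by
      refine ⟨On.one _, ?_⟩
      rw [poly_one]
      unfold M
      rw [prod_empty, disjSum_empty, map_empty, E_empty]
    exact sub_mem_Ann hs.1 h6.1 (hs.2.trans h6.2.symm)
  have h7 : u * 1 ∈ Id K Ω 2 1 c := mem_Id (by simp) (by simpa using hr) hu h1
  have h8 : u * s = u * (s - 1) + u * 1 := by noncomm_ring
  rw [h8]
  exact (Id K Ω 2 1 c).add_mem ((Id K Ω 2 1 c).mul_mem_left _ _ (Ann_le_Id 2 1 c h5)) h7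

end Rank2
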