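import Pool.Agent.Lib.MP_a8d7f7_al.R2.I5

/-!
# MP_a8d7f7_al: explicit generators (helper24)
-/

set_option autoImplicit false
set_option linter.unusedSectionVars false
set_option linter.unusedVariables false

namespace Rank2

open Finset Equiv FinSym

variable {K : Type*} [Field K] {Ω : Type*} [DecidableEq Ω]


/-- A Steinberg element on the finite set `R` of letters: it moves only letters of `R`, and for all
subsets `A`, `B` of `R` with the same number of elements, the sum of its coefficients at the
permutations which carry `A` onto `B` is `(-1)^#A`. -/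
def IsSteinberg (R : Finset Ω) (s : MonoidAlgebra K (FSym Ω)) : Prop :=
  (∀ σ ∈ s.coeff.support, ∀ z, z ∉ R → (σ : Perm Ω) z = z) ∧
  ∀ A ⊆ R, ∀ B ⊆ R, A.card = B.card →
    ∑ σ ∈ s.coeff.support.filter (fun σ : FSym Ω => A.image (σ : Perm Ω) = B), s.coeff σ = (-1) ^ A.card

theorem poly_apply' (D : Finset Ω) (y : MonoidAlgebra K (FSym Ω)) (C : Ω ⊕ Ω → Bool) :
    poly D y C = ∑ σ ∈ y.coeff.support, y.coeff σ *
      M K D (C ∘ Equiv.sumCongr (σ : Perm Ω) (1 : Perm Ω)) := by
  have h : poly D y = ∑ σ ∈ y.coeff.support, y.coeff σ • poly D ((MonoidAlgebra.of K (FSym Ω)) σ) := by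
    conv_lhs => rw [expand y (subset_refl _)]
    unfold poly
    rw [map_sum, LinearMap.sum_apply]
    apply sum_congr rfl
    intro σ _
    rw [map_smul, LinearMap.smul_apply]
  rw [h, Finset.sum_apply]
  apply sum_congr rfl
  intro σ _
  rw [Pi.smul_apply, smul_eq_mul]
  congr 1
  have h1 : ((MonoidAlgebra.of K (FSym Ω)) σ) = (MonoidAlgebra.of K (FSym Ω)) σ * 1 := (mul_one _).symm
  rw [h1, poly_mul_left, poly_one, act_apply]

theorem M_apply {R : Finset Ω} {σ : Perm Ω} (hσ : ∀ z, z ∉ R → σ z = z) (C : Ω ⊕ Ω → Bool) :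
    M K R (C ∘ Equiv.sumCongr σ (1 : Perm Ω)) =
      if (R.filter (fun i => C (Sum.inr i) = false)).image σ =
        R.filter (fun i => C (Sum.inl i) = true)
      then (-1) ^ (R.card - (R.filter (fun i => C (Sum.inr i) = false)).card) else 0 := by
  have hmap : ∀ z, σ z ∈ R ↔ z ∈ R := by
    intro z
    constructor
    · intro h
      by_contra hz
      rw [hσ z hz] at h
      exact hz h
    · intro h
      by_contra hz
      have := σ.injective (hσ _ hz)
      rw [this] at hz
      exact hz h
  set A := R.filter (fun i => C (Sum.inr i) = false) with hA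
  set B := R.filter (fun i => C (Sum.inl i) = true) with hB
  have hval : M K R (C ∘ Equiv.sumCongr σ (1 : Perm Ω)) =
      ∏ i ∈ R, ((if C (Sum.inl (σ i)) = true then (1 : K) else 0) -
        (if C (Sum.inr i) = true then 1 else 0)) := by
    unfold M
    rw [Finset.prod_apply]
    rfl
  rw [hval]
  split_ifs with h
  · have h1 : ∀ i ∈ R, ((if C (Sum.inl (σ i)) = true then (1 : K) else 0) -
        (if C (Sum.inr i) = true then 1 else 0)) = if i ∈ A then 1 else -1 := by
      intro i hi
      have h2 : C (Sum.inl (σ i)) = true ↔ i ∈ A := by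
        have h3 : σ i ∈ B ↔ i ∈ A := by
          rw [← h, mem_image]
          constructor
          · rintro ⟨j, hj, h4⟩
            rwa [σ.injective h4] at hj
          · exact fun h4 => ⟨i, h4, rfl⟩
        rw [← h3, hB, mem_filter]
        exact ⟨fun h4 => ⟨(hmap i).mpr hi, h4⟩, fun h4 => h4.2⟩
      by_cases h5 : i ∈ A
      · rw [if_pos (h2.mpr h5), if_pos h5]
        have h6 : C (Sum.inr i) = false := (mem_filter.mp h5).2
        simp [h6]
      · rw [if_neg (fun h6 => h5 (h2.mp h6)), if_neg h5]
        have h6 : C (Sum.inr i) = true := by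
          by_contra h7
          apply h5
          rw [hA, mem_filter]
          exact ⟨hi, by simpa using h7⟩
        simp [h6]
    rw [prod_congr rfl h1, prod_ite, prod_const_one, one_mul, prod_const]
    congr 1
    have h7 : R.filter (fun i => i ∉ A) = R \ A := by
      ext i; rw [mem_filter, mem_sdiff]
    rw [h7, card_sdiff_of_subset (filter_subset _ _)]
  · by_contra hne
    apply h
    have h1 : ∀ i ∈ R, (C (Sum.inl (σ i)) = true ↔ C (Sum.inr i) = false) := by
      intro i hi
      have h2 := (prod_ne_zero_iff.mp hne) i hi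
      cases h3 : C (Sum.inl (σ i)) <;> cases h4 : C (Sum.inr i) <;> simp [h3, h4] at h2 ⊢
    ext j
    rw [mem_image, hB, mem_filter]
    constructor
    · rintro ⟨i, hi, rfl⟩
      rw [hA, mem_filter] at hi
      exact ⟨(hmap i).mpr hi.1, (h1 i hi.1).mpr hi.2⟩
    · rintro ⟨hj, hj2⟩
      refine ⟨σ.symm j, ?_, σ.apply_symm_apply j⟩
      have h5 : σ.symm j ∈ R := by
        rw [← hmap, σ.apply_symm_apply]; exact hj
      rw [hA, mem_filter]
      refine ⟨h5, (h1 _ h5).mp ?_⟩
      rw [σ.apply_symm_apply]; exact hj2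

/-- the value of the function of `y` in terms of the coefficients -/
theorem poly_value {R : Finset Ω} {y : MonoidAlgebra K (FSym Ω)} (hy : On R y) (C : Ω ⊕ Ω → Bool) :
    poly R y C = (-1) ^ (R.card - (R.filter (fun i => C (Sum.inr i) = false)).card) *
      ∑ σ ∈ y.coeff.support.filter (fun σ : FSym Ω =>
        (R.filter (fun i => C (Sum.inr i) = false)).image (σ : Perm Ω) =
          R.filter (fun i => C (Sum.inl i) = true)), y.coeff σ := by
  rw [poly_apply', mul_sum, sum_filter]
  apply sum_congr rfl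
  intro σ hσ
  rw [M_apply (hy σ hσ)]
  split_ifs
  · rw [mul_comm]
  · rw [mul_zero]

theorem neg_one_pow_card {p : ℕ} (hp : p.Prime) [CharP K p] (k : ℕ) : (-1 : K) ^ (p ^ k - 1) = 1 := by
  rcases hp.eq_two_or_odd' with rfl | hodd
  · have h3 : (2 : K) = 0 := CharTwo.two_eq_zero
    have h4 : (-1 : K) = 1 := by
      rw [neg_eq_iff_add_eq_zero, one_add_one_eq_two, h3]
    rw [h4, one_pow]
  · have h1 : Odd (p ^ k) := hodd.pow
    obtain ⟨m, hm⟩ := h1
    rw [hm, Nat.add_sub_cancel, pow_mul, neg_one_sq, one_pow]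

theorem neg_one_pow_sub {p : ℕ} (hp : p.Prime) [CharP K p] (k : ℕ) {a : ℕ} (ha : a ≤ p ^ k - 1) :
    (-1 : K) ^ (p ^ k - 1 - a) = (-1) ^ a := by
  have h1 : (-1 : K) ^ (p ^ k - 1 - a) * (-1) ^ a = 1 := by
    rw [← pow_add, Nat.sub_add_cancel ha, neg_one_pow_card hp k]
  have h2 : (-1 : K) ^ a * (-1) ^ a = 1 := by
    rw [← pow_add, ← two_mul, pow_mul, neg_one_sq, one_pow]
  exact mul_right_cancel₀ (right_ne_zero_of_mul_eq_one h2) (h1.trans h2.symm)

theorem card_half (R : Finset Ω) (C : Ω ⊕ Ω → Bool) :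
    2 * ((R.disjSum R).filter (fun i => C i = true)).card = (R.disjSum R).card ↔
      (R.filter (fun i => C (Sum.inr i) = false)).card =
        (R.filter (fun i => C (Sum.inl i) = true)).card := by
  have h1 : (R.disjSum R).filter (fun i => C i = true) =
      (R.filter (fun i => C (Sum.inl i) = true)).disjSum (R.filter (fun i => C (Sum.inr i) = true)) := by
    ext z
    rcases z with z | z <;> simp
  have h2 : (R.filter (fun i => C (Sum.inr i) = true)).card +
      (R.filter (fun i => C (Sum.inr i) = false)).card = R.card := by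
    rw [← card_filter_add_card_filter_not (s := R) (fun i => C (Sum.inr i) = true)]
    congr 2
    apply filter_congr
    intro i _
    simp
  rw [h1, card_disjSum, card_disjSum]
  omega

theorem isSteinberg_iff {p : ℕ} (hp : p.Prime) [CharP K p] {k : ℕ} {R : Finset Ω}
    (hR : R.card = p ^ k - 1) {s : MonoidAlgebra K (FSym Ω)} : IsSteinberg R s ↔ IsStEl R s := by
  constructor
  · rintro ⟨h1, h2⟩
    refine ⟨h1, ?_⟩
    funext C
    rw [poly_value h1]
    unfold E
    by_cases h : (R.filter (fun i => C (Sum.inr i) = false)).card =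
        (R.filter (fun i => C (Sum.inl i) = true)).card
    · rw [if_pos ((card_half R C).mpr h), h2 _ (filter_subset _ _) _ (filter_subset _ _) h, hR,
        neg_one_pow_sub hp k (by rw [← hR]; exact card_le_card (filter_subset _ _)), ← pow_add,
        ← two_mul, pow_mul, neg_one_sq, one_pow]
    · rw [if_neg (fun h' => h ((card_half R C).mp h'))]
      rw [sum_eq_zero, mul_zero]
      intro σ hσ
      exfalso
      apply h
      rw [← (mem_filter.mp hσ).2, card_image_of_injective _ (Equiv.injective _)]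
  · rintro ⟨h1, h2⟩
    refine ⟨h1, ?_⟩
    intro A hA B hB hAB
    set C : Ω ⊕ Ω → Bool := Sum.elim (fun i => decide (i ∈ B)) (fun i => decide (i ∉ A)) with hC
    have hCA : R.filter (fun i => C (Sum.inr i) = false) = A := by
      ext i
      rw [mem_filter, hC]
      simp only [Sum.elim_inr, decide_eq_false_iff_not, not_not]
      exact ⟨fun h => h.2, fun h => ⟨hA h, h⟩⟩
    have hCB : R.filter (fun i => C (Sum.inl i) = true) = B := by
      ext i
      rw [mem_filter, hC]
      simp only [Sum.elim_inl, decide_eq_true_eq]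
      exact ⟨fun h => h.2, fun h => ⟨hB h, h⟩⟩
    have h3 := congrFun h2 C
    rw [poly_value h1, hCA, hCB] at h3
    unfold E at h3
    rw [if_pos ((card_half R C).mpr (by rw [hCA, hCB, hAB])), hR,
      neg_one_pow_sub hp k (by rw [← hR]; exact card_le_card hA)] at h3
    have h4 : (-1 : K) ^ A.card * (-1) ^ A.card = 1 := by
      rw [← pow_add, ← two_mul, pow_mul, neg_one_sq, one_pow]
    exact mul_left_cancel₀ (left_ne_zero_of_mul_eq_one h4) (h3.trans h4.symm)

/-! ## the ideals of the statement -/

/-- The ideal `I(k, c)` of the statement: it is generated by the antisymmetrizers of three letters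
and the products `(1 - t_1) ⋯ (1 - t_c) s`, `t_1, …, t_c` disjoint transpositions, `s` a Steinberg
element on `p ^ k - 1` further letters. -/
noncomputable def ideal (K : Type*) [Field K] (Ω : Type*) [DecidableEq Ω] (p k c : ℕ) :
    TwoSidedIdeal (MonoidAlgebra K (FSym Ω)) :=
  TwoSidedIdeal.span ({y | ∃ Δ : Finset Ω, Δ.card = 3 ∧ y = antisymmetrizer K Δ} ∪
    {y | ∃ (R S : Finset Ω) (u s : MonoidAlgebra K (FSym Ω)),
      R.card = p ^ k - 1 ∧ Disjoint R S ∧ IsDiff K c S u ∧ IsSteinberg R s ∧ y = u * s})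

theorem ideal_eq {p : ℕ} (hp : p.Prime) [CharP K p] [Infinite Ω] (k c : ℕ) :
    ideal K Ω p k c = Id K Ω p k c := by
  apply le_antisymm
  · unfold ideal
    rw [TwoSidedIdeal.span_le]
    rintro y (⟨Δ, hΔ, rfl⟩ | ⟨R, S, u, s, hR, hRS, hu, hs, rfl⟩)
    · exact Ann_le_Id p k c (antisymmetrizer_mem_Ann (by rw [hΔ]; norm_num))
    · exact mem_Id hR hRS hu ((isSteinberg_iff hp hR).mp hs)
  · apply Id_le
    · apply Ann_le _ inferInstance
      intro Δ hΔ
      exact TwoSidedIdeal.subset_span (Or.inl ⟨Δ, hΔ, rfl⟩)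
    · intro R S u s hR hRS hu hs
      exact TwoSidedIdeal.subset_span (Or.inr ⟨R, S, u, s, hR, hRS, hu,
        (isSteinberg_iff hp hR).mpr hs, rfl⟩)

end Rank2
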