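import Pool.Agent.Lib.MP_a8d7f7_al.R2.X2

/-!
# MP_a8d7f7_al: ideals containing the differences of even permutations (helper5)
-/

set_option autoImplicit false
set_option linter.unusedSectionVars false
set_option linter.unusedVariables false

namespace FinSym

open Finset Equiv

variable {K : Type*} [Field K] {Ω : Type*} [DecidableEq Ω]

/-- The map `K[FSym Ω] → K[{±1}]` induced by the sign. -/
noncomputable def par (K : Type*) [Field K] (Ω : Type*) [DecidableEq Ω] :
    MonoidAlgebra K (FSym Ω) →ₐ[K] MonoidAlgebra K ℤˣ :=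
  MonoidAlgebra.lift K _ _ ((MonoidAlgebra.of K ℤˣ).comp (sgnHom Ω))

/-- The kernel of `K[FSym Ω] → K[{±1}]`. -/
noncomputable def KZ (K : Type*) [Field K] (Ω : Type*) [DecidableEq Ω] :
    TwoSidedIdeal (MonoidAlgebra K (FSym Ω)) := TwoSidedIdeal.ker (par K Ω)

theorem mem_KZ {y : MonoidAlgebra K (FSym Ω)} : y ∈ KZ K Ω ↔ par K Ω y = 0 :=
  TwoSidedIdeal.mem_ker _

theorem par_of (σ : FSym Ω) : par K Ω (MonoidAlgebra.of K (FSym Ω) σ) =
    MonoidAlgebra.of K ℤˣ (sgn σ) := by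
  unfold par
  rw [MonoidAlgebra.lift_of]
  rfl

/-- the subgroup of the permutations of `D` congruent to `1` modulo an ideal -/
def congSub {D : Finset Ω} (I : TwoSidedIdeal (MonoidAlgebra K (FSym Ω))) : Subgroup (Perm D) where
  carrier := {σ | MonoidAlgebra.of K (FSym Ω) (ext D σ) - 1 ∈ I}
  mul_mem' := by
    intro σ τ hσ hτ
    change MonoidAlgebra.of K (FSym Ω) (ext D (σ * τ)) - 1 ∈ I
    have h1 : MonoidAlgebra.of K (FSym Ω) (ext D (σ * τ)) - 1 =
        MonoidAlgebra.of K (FSym Ω) (ext D σ) * (MonoidAlgebra.of K (FSym Ω) (ext D τ) - 1) +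
        (MonoidAlgebra.of K (FSym Ω) (ext D σ) - 1) := by
      rw [map_mul, map_mul, mul_sub, mul_one]
      abel
    rw [h1]
    exact I.add_mem (I.mul_mem_left _ _ hτ) hσ
  one_mem' := by
    change MonoidAlgebra.of K (FSym Ω) (ext D 1) - 1 ∈ I
    rw [map_one, map_one, sub_self]
    exact I.zero_mem
  inv_mem' := by
    intro σ hσ
    change MonoidAlgebra.of K (FSym Ω) (ext D σ⁻¹) - 1 ∈ I
    have h1 : MonoidAlgebra.of K (FSym Ω) (ext D σ⁻¹) - 1 =
        -(MonoidAlgebra.of K (FSym Ω) (ext D σ⁻¹) *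
          (MonoidAlgebra.of K (FSym Ω) (ext D σ) - 1)) := by
      rw [mul_sub, ← map_mul, ← map_mul, inv_mul_cancel, map_one, map_one, mul_one]
      abel
    rw [h1]
    exact I.neg_mem (I.mul_mem_left _ _ hσ)

theorem mem_congSub {D : Finset Ω} {I : TwoSidedIdeal (MonoidAlgebra K (FSym Ω))} {σ : Perm D} :
    σ ∈ congSub I ↔ MonoidAlgebra.of K (FSym Ω) (ext D σ) - 1 ∈ I := Iff.rfl

/-- even permutations -/
theorem even_sub_one_mem {I : TwoSidedIdeal (MonoidAlgebra K (FSym Ω))}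
    (h : ∀ Δ : Finset Ω, Δ.card = 3 → ∀ σ : Perm Δ, Perm.sign σ = 1 →
      MonoidAlgebra.of K (FSym Ω) (ext Δ σ) - 1 ∈ I) {σ : FSym Ω} (hσ : sgn σ = 1) :
    MonoidAlgebra.of K (FSym Ω) σ - 1 ∈ I := by
  obtain ⟨D, τ, rfl⟩ := exists_ext' σ
  rw [sgn_ext] at hσ
  have h1 : τ ∈ alternatingGroup D := hσ
  rw [← Perm.closure_three_cycles_eq_alternating] at h1
  have h2 : Subgroup.closure {σ : Perm D | σ.IsThreeCycle} ≤ congSub I := by
    rw [Subgroup.closure_le]
    intro c hc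
    change MonoidAlgebra.of K (FSym Ω) (ext D c) - 1 ∈ I
    -- the letters of the cycle
    set Δ : Finset Ω := c.support.map (Function.Embedding.subtype (· ∈ D)) with hΔ
    have hΔc : Δ.card = 3 := by
      rw [hΔ, card_map]
      exact hc.card_support
    have hfix : ∀ z, z ∉ Δ → ((ext D c : FSym Ω) : Perm Ω) z = z := by
      intro z hz
      by_cases hzD : z ∈ D
      · rw [ext_mem D c hzD]
        have h3 : (⟨z, hzD⟩ : D) ∉ c.support := by
          intro h4
          apply hz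
          rw [hΔ, mem_map]
          exact ⟨_, h4, rfl⟩
        rw [Perm.notMem_support] at h3
        rw [h3]
      · exact ext_notMem D c hzD
    obtain ⟨c', hc'⟩ := exists_ext Δ (ext D c) hfix
    rw [← hc']
    apply h Δ hΔc
    rw [sign_ext_congr hc']
    exact hc.sign
  exact h2 h1

/-- reduction modulo `KZ` -/
theorem exists_reduced (t : FSym Ω) (ht : sgn t = -1)
    {I : TwoSidedIdeal (MonoidAlgebra K (FSym Ω))}
    (h : ∀ σ : FSym Ω, sgn σ = 1 → MonoidAlgebra.of K (FSym Ω) σ - 1 ∈ I)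
    (y : MonoidAlgebra K (FSym Ω)) :
    y - ((par K Ω y).coeff 1 • (1 : MonoidAlgebra K (FSym Ω)) +
      (par K Ω y).coeff (-1) • MonoidAlgebra.of K (FSym Ω) t) ∈ I := by
  set φ : MonoidAlgebra K (FSym Ω) →ₗ[K] MonoidAlgebra K (FSym Ω) :=
    { toFun := fun y => y - ((par K Ω y).coeff 1 • (1 : MonoidAlgebra K (FSym Ω)) +
        (par K Ω y).coeff (-1) • MonoidAlgebra.of K (FSym Ω) t)
      map_add' := by
        intro x y
        rw [map_add, MonoidAlgebra.coeff_add, Finsupp.add_apply, Finsupp.add_apply]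
        module
      map_smul' := by
        intro a x
        rw [map_smul, MonoidAlgebra.coeff_smul, Finsupp.smul_apply, Finsupp.smul_apply,
          RingHom.id_apply]
        module } with hφ
  change φ y ∈ I
  rw [expand y (subset_refl _), map_sum]
  apply TwoSidedIdeal.finsetSum_mem
  intro σ _
  rw [map_smul]
  apply smul_mem_ideal
  change MonoidAlgebra.of K (FSym Ω) σ -
    ((par K Ω (MonoidAlgebra.of K (FSym Ω) σ)).coeff 1 • (1 : MonoidAlgebra K (FSym Ω)) +
      (par K Ω (MonoidAlgebra.of K (FSym Ω) σ)).coeff (-1) • MonoidAlgebra.of K (FSym Ω) t) ∈ I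
  have hof : (MonoidAlgebra.of K ℤˣ) (sgn σ) = MonoidAlgebra.single (sgn σ) 1 := rfl
  rw [par_of, hof, MonoidAlgebra.coeff_single]
  rcases Int.units_eq_one_or (sgn σ) with h1 | h1
  · rw [h1, Finsupp.single_eq_same, Finsupp.single_eq_of_ne (by decide), one_smul, zero_smul,
      add_zero]
    exact h σ h1
  · rw [h1, Finsupp.single_eq_same, Finsupp.single_eq_of_ne (by decide), one_smul, zero_smul,
      zero_add]
    have h2 : sgn (σ * t⁻¹) = 1 := by
      have h3 : sgn t⁻¹ = -1 := by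
        have h4 := (sgnHom Ω).map_inv t
        rw [sgnHom_apply, sgnHom_apply, ht] at h4
        rw [h4]
        rfl
      rw [sgn_mul, h1, h3]
      rfl
    have h5 := I.mul_mem_right _ (MonoidAlgebra.of K (FSym Ω) t) (h _ h2)
    rw [sub_mul, one_mul, ← map_mul, inv_mul_cancel_right] at h5
    exact h5

theorem KZ_le {I : TwoSidedIdeal (MonoidAlgebra K (FSym Ω))} (t : FSym Ω) (ht : sgn t = -1)
    (h : ∀ σ : FSym Ω, sgn σ = 1 → MonoidAlgebra.of K (FSym Ω) σ - 1 ∈ I) : KZ K Ω ≤ I := by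
  intro y hy
  rw [mem_KZ] at hy
  have h1 := exists_reduced t ht h y
  rw [hy, MonoidAlgebra.coeff_zero, Finsupp.coe_zero, Pi.zero_apply, Pi.zero_apply, zero_smul,
    zero_smul, add_zero, sub_zero] at h1
  exact h1

theorem even_mem_KZ (σ : FSym Ω) (hσ : sgn σ = 1) :
    MonoidAlgebra.of K (FSym Ω) σ - 1 ∈ KZ K Ω := by
  rw [mem_KZ, map_sub, par_of, hσ, map_one, map_one, sub_self]

/-- the symmetrizers modulo `KZ` -/
theorem mem_of_KZ_le {I : TwoSidedIdeal (MonoidAlgebra K (FSym Ω))} (hI : KZ K Ω ≤ I) (c : K)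
    (D : Finset Ω) (s : Perm D → K) (hs : ∀ τ, s τ = if Perm.sign τ = 1 then 1 else c)
    (t : FSym Ω) (ht : sgn t = -1) (h : 1 + c • MonoidAlgebra.of K (FSym Ω) t ∈ I)
    (hD : 2 ≤ D.card) :
    ∑ τ : Perm D, s τ • MonoidAlgebra.of K (FSym Ω) (ext D τ) ∈ I := by
  have : Nontrivial D := by
    rw [← Fintype.one_lt_card_iff_nontrivial, Fintype.card_coe]
    omega
  obtain ⟨a, b, hab⟩ := exists_pair_ne D
  set w : Perm D := swap a b with hw
  have hsw : Perm.sign w = -1 := Perm.sign_swap hab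
  -- pair `τ` with `τ w`
  have hkey : ∀ τ : Perm D, Perm.sign τ = 1 →
      MonoidAlgebra.of K (FSym Ω) (ext D τ) + c • MonoidAlgebra.of K (FSym Ω) (ext D (τ * w)) ∈
        I := by
    intro τ hτ
    have hI' : ∀ σ : FSym Ω, sgn σ = 1 → MonoidAlgebra.of K (FSym Ω) σ - 1 ∈ I := fun σ hσ =>
      hI (even_mem_KZ σ hσ)
    have h1 := exists_reduced t ht hI'
      (MonoidAlgebra.of K (FSym Ω) (ext D τ) + c • MonoidAlgebra.of K (FSym Ω) (ext D (τ * w)))
    have h2 : par K Ω (MonoidAlgebra.of K (FSym Ω) (ext D τ) +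
        c • MonoidAlgebra.of K (FSym Ω) (ext D (τ * w))) =
        MonoidAlgebra.single 1 1 + c • MonoidAlgebra.single (-1) 1 := by
      rw [map_add, map_smul, par_of, par_of, sgn_ext, sgn_ext, Perm.sign_mul, hτ, hsw, one_mul]
      rfl
    rw [h2] at h1
    have h3 : (MonoidAlgebra.single (1 : ℤˣ) (1 : K) + c • MonoidAlgebra.single (-1) 1).coeff 1 =
        1 := by
      rw [MonoidAlgebra.coeff_add, MonoidAlgebra.coeff_smul, Finsupp.add_apply, Finsupp.smul_apply,
        MonoidAlgebra.coeff_single, MonoidAlgebra.coeff_single, Finsupp.single_eq_same,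
        Finsupp.single_eq_of_ne (by decide), smul_zero, add_zero]
    have h4 : (MonoidAlgebra.single (1 : ℤˣ) (1 : K) + c • MonoidAlgebra.single (-1) 1).coeff (-1) =
        c := by
      rw [MonoidAlgebra.coeff_add, MonoidAlgebra.coeff_smul, Finsupp.add_apply, Finsupp.smul_apply,
        MonoidAlgebra.coeff_single, MonoidAlgebra.coeff_single, Finsupp.single_eq_same,
        Finsupp.single_eq_of_ne (by decide), zero_add, smul_eq_mul, mul_one]
    rw [h3, h4, one_smul] at h1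
    have h5 := I.add_mem h1 h
    rwa [sub_add_cancel] at h5
  rw [← sum_filter_add_sum_filter_not univ (fun τ : Perm D => Perm.sign τ = 1)]
  have h6 : ∑ τ ∈ univ.filter (fun τ : Perm D => ¬ Perm.sign τ = 1),
      s τ • MonoidAlgebra.of K (FSym Ω) (ext D τ) =
      ∑ τ ∈ univ.filter (fun τ : Perm D => Perm.sign τ = 1),
      s (τ * w) • MonoidAlgebra.of K (FSym Ω) (ext D (τ * w)) := by
    symm
    apply sum_bij (fun τ _ => τ * w)
    · intro τ hτ
      rw [mem_filter] at hτ ⊢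
      refine ⟨mem_univ _, ?_⟩
      rw [Perm.sign_mul, hτ.2, hsw]
      decide
    · intro τ _ τ' _ h7
      exact mul_right_cancel h7
    · intro τ hτ
      rw [mem_filter] at hτ
      refine ⟨τ * w, ?_, ?_⟩
      · rw [mem_filter]
        refine ⟨mem_univ _, ?_⟩
        rcases Int.units_eq_one_or (Perm.sign τ) with h8 | h8
        · exact absurd h8 hτ.2
        · rw [Perm.sign_mul, h8, hsw]
          decide
      · rw [mul_assoc, hw, swap_mul_self, mul_one]
    · intro τ _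
      rfl
  rw [h6, ← sum_add_distrib]
  apply TwoSidedIdeal.finsetSum_mem
  intro τ hτ
  rw [mem_filter] at hτ
  have h7 : s τ = 1 := by rw [hs, if_pos hτ.2]
  have h8 : s (τ * w) = c := by
    rw [hs, if_neg]
    rw [Perm.sign_mul, hτ.2, hsw]
    decide
  rw [h7, h8, one_smul]
  exact hkey τ hτ.2

/-- **The ideals above `KZ`.** -/
theorem KZ_cases {I : TwoSidedIdeal (MonoidAlgebra K (FSym Ω))} (hI : KZ K Ω ≤ I)
    (hne : I ≠ KZ K Ω) (t : FSym Ω) (ht : sgn t = -1) (htt : t * t = 1) :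
    (∀ Δ : Finset Ω, 2 ≤ Δ.card → symmetrizer K Δ ∈ I) ∨
    (∀ Δ : Finset Ω, 2 ≤ Δ.card → antisymmetrizer K Δ ∈ I) := by
  have hI' : ∀ σ : FSym Ω, sgn σ = 1 → MonoidAlgebra.of K (FSym Ω) σ - 1 ∈ I := fun σ hσ =>
    hI (even_mem_KZ σ hσ)
  obtain ⟨y, hy, hyK⟩ : ∃ y, y ∈ I ∧ y ∉ KZ K Ω := by
    by_contra hcon
    push Not at hcon
    exact hne (le_antisymm hcon hI)
  set α := (par K Ω y).coeff 1
  set β := (par K Ω y).coeff (-1)
  have hne' : ¬ (α = 0 ∧ β = 0) := by
    rintro ⟨h1, h2⟩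
    apply hyK
    rw [mem_KZ]
    apply MonoidAlgebra.ext
    apply Finsupp.ext
    intro z
    rcases Int.units_eq_one_or z with rfl | rfl
    · exact h1
    · exact h2
  have h1 : α • (1 : MonoidAlgebra K (FSym Ω)) + β • MonoidAlgebra.of K (FSym Ω) t ∈ I := by
    have h2 := I.sub_mem hy (exists_reduced t ht hI' y)
    rwa [sub_sub_cancel] at h2
  have hTT : MonoidAlgebra.of K (FSym Ω) t * MonoidAlgebra.of K (FSym Ω) t = 1 := by
    rw [← map_mul, htt, map_one]
  by_cases c1 : α + β = 0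
  · have hβ : β = -α := by linear_combination c1
    have hα : α ≠ 0 := by
      intro h2
      apply hne'
      rw [hβ, h2, neg_zero]
      exact ⟨rfl, rfl⟩
    right
    intro Δ hΔ
    have h2 : 1 + (-1 : K) • MonoidAlgebra.of K (FSym Ω) t ∈ I := by
      have h3 := smul_mem_ideal α⁻¹ h1
      rw [hβ, smul_add, smul_smul, smul_smul, inv_mul_cancel₀ hα, one_smul, mul_neg,
        inv_mul_cancel₀ hα] at h3
      exact h3
    unfold antisymmetrizer
    apply mem_of_KZ_le hI (-1) Δ (fun τ => ((Perm.sign τ : ℤ) : K)) _ t ht h2 hΔ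
    intro τ
    rcases Int.units_eq_one_or (Perm.sign τ) with h4 | h4
    · rw [h4]; simp
    · rw [h4]
      rw [if_neg (by decide)]
      simp
  · left
    intro Δ hΔ
    have h2 : 1 + (1 : K) • MonoidAlgebra.of K (FSym Ω) t ∈ I := by
      have h3 := I.mul_mem_left (1 + MonoidAlgebra.of K (FSym Ω) t) _ h1
      have h4 : (1 + MonoidAlgebra.of K (FSym Ω) t) *
          (α • (1 : MonoidAlgebra K (FSym Ω)) + β • MonoidAlgebra.of K (FSym Ω) t) =
          (α + β) • (1 + MonoidAlgebra.of K (FSym Ω) t) := by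
        rw [mul_add, mul_smul_comm, mul_smul_comm, mul_one, add_mul, one_mul, hTT]
        module
      rw [h4] at h3
      have h5 := smul_mem_ideal (α + β)⁻¹ h3
      rw [smul_smul, inv_mul_cancel₀ c1, one_smul] at h5
      rwa [one_smul]
    unfold symmetrizer
    have h3 := mem_of_KZ_le hI 1 Δ (fun τ => (1 : K)) (by intro τ; split_ifs <;> rfl) t ht h2 hΔ
    simpa using h3

/-- an odd involution -/
theorem exists_odd [Infinite Ω] : ∃ t : FSym Ω, sgn t = -1 ∧ t * t = 1 := by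
  obtain ⟨Δ, hΔ⟩ := Infinite.exists_subset_card_eq Ω 2
  have : Nontrivial Δ := by
    rw [← Fintype.one_lt_card_iff_nontrivial, Fintype.card_coe]
    omega
  obtain ⟨a, b, hab⟩ := exists_pair_ne Δ
  refine ⟨ext Δ (swap a b), ?_, ?_⟩
  · rw [sgn_ext, Perm.sign_swap hab]
  · rw [← map_mul, swap_mul_self, map_one]

/-- **The ideals with a nonzero element moving at most three letters.** -/
theorem list [Infinite Ω] {I : TwoSidedIdeal (MonoidAlgebra K (FSym Ω))}
    {f : MonoidAlgebra K (FSym Ω)} (hf : f ∈ I) (hf0 : f ≠ 0) {X : Finset Ω} (hX : X.card ≤ 3)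
    (hfX : ∀ σ ∈ f.coeff.support, ∀ z, z ∉ X → (σ : Perm Ω) z = z) :
    Ann K Ω 2 ≤ I ∨ Ann K Ω 2 ≤ tw I ∨ I = KZ K Ω := by
  have hΩ : Nonempty Ω := inferInstance
  have hanti : (∀ Δ : Finset Ω, Δ.card = 3 → antisymmetrizer K Δ ∈ I) → Ann K Ω 2 ≤ I :=
    fun h => Ann_le h hΩ
  have hsymm : (∀ Δ : Finset Ω, Δ.card = 3 → symmetrizer K Δ ∈ I) → Ann K Ω 2 ≤ tw I := by
    intro h
    apply Ann_le _ hΩ
    intro Δ hΔ
    rw [mem_tw, theta_antisymmetrizer]
    exact h Δ hΔ
  rcases mem_cases hf hf0 hX hfX with h | h | h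
  · exact Or.inr (Or.inl (hsymm h))
  · exact Or.inl (hanti h)
  · obtain ⟨t, ht, htt⟩ := exists_odd (Ω := Ω)
    have h1 : KZ K Ω ≤ I := KZ_le t ht (fun σ hσ => even_sub_one_mem h hσ)
    by_cases hne : I = KZ K Ω
    · exact Or.inr (Or.inr hne)
    · rcases KZ_cases h1 hne t ht htt with h2 | h2
      · exact Or.inr (Or.inl (hsymm (fun Δ hΔ => h2 Δ (by omega))))
      · exact Or.inl (hanti (fun Δ hΔ => h2 Δ (by omega)))

end FinSym
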