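import Pool.Agent.Lib.MP_a8d7f7_al.R2.I6
import Pool.Agent.Lib.MP_a8d7f7_al.R2.X3

/-!
# MP_a8d7f7_al: one generator, intersections, the explicit description of `Id 0 c` (helper24)
-/

set_option autoImplicit false
set_option linter.unusedSectionVars false
set_option linter.unusedVariables false

namespace Rank2

open Finset Equiv FinSym

variable {K : Type*} [Field K] {Ω : Type*} [DecidableEq Ω]


theorem lt_of_StEl {p : ℕ} (hp : p.Prime) [CharP K p] [Infinite Ω] {k k' : ℕ} {R : Finset Ω}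
    {s : MonoidAlgebra K (FSym Ω)} (hR : R.card = p ^ k - 1) (hs : IsStEl R s)
    (h : s ∈ Id K Ω p k' 0) : k' ≤ k ∨ (p = 2 ∧ k = 0 ∧ k' = 1) := by
  by_contra hcon
  push Not at hcon
  refine StEl_notMem hp hcon.1 ?_ hR hs h
  by_contra h1
  push Not at h1
  have hk0 : k = 0 := by
    by_contra hk
    have h3 : p ^ 1 ≤ p ^ k := Nat.pow_le_pow_right hp.pos (by omega)
    have := hp.two_le
    rw [pow_one] at h3
    omega
  have h3 : p ^ 1 ≤ p ^ k' := Nat.pow_le_pow_right hp.pos (by omega)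
  have hp2 : p = 2 := by
    have := hp.two_le
    rw [pow_one] at h3
    omega
  apply hcon.2 hp2 hk0
  by_contra hk'
  have h4 : p ^ 2 ≤ p ^ k' := Nat.pow_le_pow_right hp.pos (by omega)
  rw [hp2] at h4 h1
  omega

/-- one generator is enough -/
theorem one_gen {p : ℕ} (hp : p.Prime) [CharP K p] [Infinite Ω] {k c : ℕ} {Δ R S : Finset Ω}
    {u s : MonoidAlgebra K (FSym Ω)} (hΔ : Δ.card = 3) (hR : R.card = p ^ k - 1)
    (hRS : Disjoint R S) (hu : IsDiff K c S u) (hs : IsStEl R s) :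
    TwoSidedIdeal.span {antisymmetrizer K Δ, u * s} = Id K Ω p k c := by
  apply le_antisymm
  · rw [TwoSidedIdeal.span_le]
    rintro y (rfl | rfl)
    · exact Ann_le_Id p k c (antisymmetrizer_mem_Ann (by rw [hΔ]; norm_num))
    · exact mem_Id hR hRS hu hs
  · set Y := TwoSidedIdeal.span {antisymmetrizer K Δ, u * s} with hY
    have h1 : antisymmetrizer K Δ ∈ Y := TwoSidedIdeal.subset_span (by simp)
    have h2 : u * s ∈ Y := TwoSidedIdeal.subset_span (by simp)
    have hA : Ann K Ω 2 ≤ Y := by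
      apply Ann_le _ inferInstance
      intro Δ' hΔ'
      exact antisymmetrizer_mem_of_card (hΔ.trans hΔ'.symm) h1
    have hne : Y ≠ Ann K Ω 2 := by
      intro h
      rw [h] at h2
      obtain ⟨C, -, h3⟩ := hu.exists_point hs hRS
      rw [poly_of_mem_Ann _ h2] at h3
      exact h3 rfl
    obtain ⟨k', c', h3⟩ := classification hp hA hne
    rw [h3] at h2 ⊢
    have hc : c' ≤ c := hu.le_of_mem hs hRS (Id_le_low p k' c' h2)
    have h4 : s ∈ Id K Ω p k' 0 := mem_of_IsDiff_mul (plus_Pid hp k').le hu hs.1 hRS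
      (Id_anti p k' (Nat.zero_le c') h2)
    rcases lt_of_StEl hp hR hs h4 with h5 | ⟨rfl, rfl, rfl⟩
    · exact (Pid_anti hp h5 c).trans (Id_anti p k' hc)
    · rw [← Id_two]
      exact Id_anti 2 0 hc

/-- the ideal `Id 0 c` -/
theorem lowIdeal_eq {p : ℕ} (hp : p.Prime) [CharP K p] [Infinite Ω] (c : ℕ) :
    lowIdeal K Ω c = Id K Ω p 0 c := by
  have h0 := Id_le_low (K := K) (Ω := Ω) p 0 c
  apply le_antisymm _ h0
  have hA : Ann K Ω 2 ≤ lowIdeal K Ω c := Ann_le_famIdeal
  have hne : lowIdeal K Ω c ≠ Ann K Ω 2 := by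
    intro h
    rw [h] at h0
    exact Id_ne_Ann hp 0 c (le_antisymm h0 (Ann_le_Id p 0 c))
  obtain ⟨k', c', h3⟩ := classification hp hA hne
  rw [h3] at h0 ⊢
  have hc : c ≤ c' := by
    obtain ⟨R, hR⟩ := Infinite.exists_subset_card_eq Ω (p ^ k' - 1)
    obtain ⟨s, hs⟩ := exists_StEl (K := K) hp k' hR
    obtain ⟨S, u, hu, hRS⟩ := exists_IsDiff (K := K) R c'
    apply hu.le_of_mem hs hRS
    rw [h3]
    exact mem_Id hR hRS hu hs
  exact (Pid_anti hp (Nat.zero_le k') c').trans (Id_anti p 0 hc)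

/-- intersections -/
theorem Id_eq_inf {p : ℕ} (hp : p.Prime) [CharP K p] [Infinite Ω] (k c : ℕ) :
    Id K Ω p k c = Id K Ω p k 0 ⊓ Id K Ω p 0 c := by
  have h0 : Id K Ω p k c ≤ Id K Ω p k 0 ⊓ Id K Ω p 0 c :=
    le_inf (Id_anti p k (Nat.zero_le c)) (Pid_anti hp (Nat.zero_le k) c)
  apply le_antisymm h0
  have hne : Id K Ω p k 0 ⊓ Id K Ω p 0 c ≠ Ann K Ω 2 := by
    intro h
    rw [h] at h0
    exact Id_ne_Ann hp k c (le_antisymm h0 (Ann_le_Id p k c))
  obtain ⟨k', c', h3⟩ := classification hp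
    (le_inf (Ann_le_Id p k 0) (Ann_le_Id p 0 c)) hne
  have h4 : Id K Ω p k' c' ≤ Id K Ω p k 0 := by rw [← h3]; exact inf_le_left
  have h5 : Id K Ω p k' c' ≤ Id K Ω p 0 c := by rw [← h3]; exact inf_le_right
  rw [h3]
  have hc := le_of_Id_le hp h5
  by_cases h6 : p = 2 ∧ k' = 0
  · obtain ⟨rfl, rfl⟩ := h6
    rw [Id_two] at h4 ⊢
    have h7 := ((Id_le_Id_iff hp (fun _ => le_refl 1)).mp h4).1
    exact (Pid_anti hp h7 c').trans (Id_anti 2 k hc)
  · have h7 := ((Id_le_Id_iff hp (fun h => by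
      by_contra h8
      exact h6 ⟨h, by omega⟩)).mp h4).1
    exact (Pid_anti hp h7 c').trans (Id_anti p k hc)

/-- the elements of `Id 0 c` are the elements which kill the subsets with less than `c` letters -/
theorem mem_lowIdeal {c : ℕ} {y : MonoidAlgebra K (FSym Ω)} : y ∈ lowIdeal K Ω c ↔
    ∀ A B : Finset Ω, A.card < c →
      ∑ σ ∈ y.coeff.support.filter (fun σ : FSym Ω => A.image (σ : Perm Ω) = B), y.coeff σ = 0 := by
  constructor
  · intro h A B hA
    by_cases hAB : A.card = B.card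
    · obtain ⟨D, hD⟩ := mem_famIdeal.mp h
      obtain ⟨h1, h2⟩ := hD (D ∪ (A ∪ B)) subset_union_left
      set C : Ω ⊕ Ω → Bool := Sum.elim (fun i => decide (i ∈ B)) (fun i => decide (i ∉ A)) with hC
      have hCA : (D ∪ (A ∪ B)).filter (fun i => C (Sum.inr i) = false) = A := by
        ext i
        rw [mem_filter, hC]
        simp only [Sum.elim_inr, decide_eq_false_iff_not, not_not]
        exact ⟨fun h => h.2, fun h => ⟨mem_union_right _ (mem_union_left _ h), h⟩⟩
      have hCB : (D ∪ (A ∪ B)).filter (fun i => C (Sum.inl i) = true) = B := by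
        ext i
        rw [mem_filter, hC]
        simp only [Sum.elim_inl, decide_eq_true_eq]
        exact ⟨fun h => h.2, fun h => ⟨mem_union_right _ (mem_union_right _ h), h⟩⟩
      have h3 := h2 C (by rw [hCB, ← hAB]; exact hA)
      rw [poly_value h1, hCA, hCB, mul_eq_zero] at h3
      rcases h3 with h3 | h3
      · exact absurd h3 (pow_ne_zero _ (neg_ne_zero.mpr one_ne_zero))
      · exact h3
    · apply sum_eq_zero
      intro σ hσ
      exfalso
      apply hAB
      rw [← (mem_filter.mp hσ).2, card_image_of_injective _ (Equiv.injective _)]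
  · intro h
    obtain ⟨D, hD⟩ := exists_On y
    apply famIdeal_of_one hD
    intro C hC
    rw [poly_value hD]
    by_cases hAB : (D.filter (fun i => C (Sum.inr i) = false)).card =
        (D.filter (fun i => C (Sum.inl i) = true)).card
    · rw [h _ _ (by rw [hAB]; exact hC), mul_zero]
    · rw [sum_eq_zero, mul_zero]
      intro σ hσ
      exfalso
      apply hAB
      rw [← (mem_filter.mp hσ).2, card_image_of_injective _ (Equiv.injective _)]

end Rank2
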