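import Pool.Agent.Lib.MP_a8d7f7_al.R2.Defs

/-!
# MP_a8d7f7_al: matchings and contractions (helper7)
-/

set_option autoImplicit false
set_option linter.unusedSectionVars false
set_option linter.unusedVariables false

namespace Rank2

open Finset Equiv

variable {α K : Type*} [Field K] [DecidableEq α]

omit [DecidableEq α] in
theorem x_apply (i : α) (C : α → Bool) : (x i : Fn α K) C = if C i then 1 else 0 := rfl

theorem pd_apply (i j : α) (f : Fn α K) (C : α → Bool) :
    pd i j f C = f (Function.update (Function.update C i true) j false) -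
      f (Function.update (Function.update C i false) j true) := rfl

omit [DecidableEq α] in
theorem Dep.mul {T : Finset α} {f g : Fn α K} (hf : Dep T f) (hg : Dep T g) : Dep T (f * g) := by
  intro C C' h
  rw [Pi.mul_apply, Pi.mul_apply, hf C C' h, hg C C' h]

omit [DecidableEq α] in
theorem Dep.mono {T T' : Finset α} (hT : T ⊆ T') {f : Fn α K} (hf : Dep T f) : Dep T' f :=
  fun C C' h => hf C C' (fun i hi => h i (hT hi))

omit [DecidableEq α] in
theorem Dep.x {T : Finset α} {i : α} (hi : i ∈ T) : Dep T (x i : Fn α K) := by
  intro C C' h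
  rw [x_apply, x_apply, h i hi]

omit [DecidableEq α] in
theorem Dep.sub {T : Finset α} {f g : Fn α K} (hf : Dep T f) (hg : Dep T g) : Dep T (f - g) := by
  intro C C' h
  rw [Pi.sub_apply, Pi.sub_apply, hf C C' h, hg C C' h]

omit [DecidableEq α] in
theorem Dep.add {T : Finset α} {f g : Fn α K} (hf : Dep T f) (hg : Dep T g) : Dep T (f + g) := by
  intro C C' h
  rw [Pi.add_apply, Pi.add_apply, hf C C' h, hg C C' h]

omit [DecidableEq α] in
theorem Dep.one (T : Finset α) : Dep T (1 : Fn α K) := fun _ _ _ => rfl

omit [DecidableEq α] in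
theorem Dep.zero (T : Finset α) : Dep T (0 : Fn α K) := fun _ _ _ => rfl

omit [DecidableEq α] in
theorem Dep.smul {T : Finset α} {f : Fn α K} (a : K) (hf : Dep T f) : Dep T (a • f) := by
  intro C C' h
  rw [Pi.smul_apply, Pi.smul_apply, hf C C' h]

theorem Mat.cons' {T : Finset α} {f : Fn α K} (h : Mat K T f) {i j : α} (hij : i ≠ j) (hi : i ∉ T)
    (hj : j ∉ T) : Mat K (insert i (insert j T)) ((x i - x j) * f) := Mat.cons i j T _ f hij hi hj rfl h

theorem Mat.act_mem {T : Finset α} {f : Fn α K} (h : Mat K T f) (g : Perm α) :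
    Mat K (T.map g.toEmbedding) (act g f) := by
  induction h with
  | nil =>
    rw [map_one, map_empty]
    exact Mat.nil
  | cons i j T T' f hij hi hj hT h ih =>
    subst hT
    rw [map_mul, map_sub, act_x, act_x, map_insert, map_insert]
    refine Mat.cons' ih (fun h => hij (g.injective h)) ?_ ?_
    · rw [mem_map_equiv]
      simpa using hi
    · rw [mem_map_equiv]
      simpa using hj

theorem Mat.dep {T : Finset α} {f : Fn α K} (h : Mat K T f) : Dep T f := by
  induction h with
  | nil => exact Dep.one _
  | cons i j T T' f hij hi hj hT h ih =>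
    subst hT
    exact ((Dep.x (by simp)).sub (Dep.x (by simp))).mul
      (ih.mono ((subset_insert _ _).trans (subset_insert _ _)))

theorem Mat.empty {f : Fn α K} (h : Mat K ∅ f) : f = 1 := by
  generalize hT : (∅ : Finset α) = T at h
  cases h with
  | nil => rfl
  | cons i j T T' f hij hi hj hT' h =>
    rw [← hT] at hT'
    exact absurd hT'.symm (insert_ne_empty _ _)

theorem Mat.even {T : Finset α} {f : Fn α K} (h : Mat K T f) : Even T.card := by
  induction h with
  | nil => simp
  | cons i j T T' f hij hi hj hT h ih =>
    subst hT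
    rw [card_insert_of_notMem (by simp [hij, hi]), card_insert_of_notMem hj]
    obtain ⟨m, hm⟩ := ih
    exact ⟨m + 1, by omega⟩

/-- `f = ± (x i - x j) h` -/
theorem Mat.pick {T : Finset α} {f : Fn α K} (h : Mat K T f) {i : α} (hi : i ∈ T) :
    ∃ j ∈ T, j ≠ i ∧ ∃ h', Mat K ((T.erase i).erase j) h' ∧
      (f = (x i - x j) * h' ∨ f = -((x i - x j) * h')) := by
  induction h with
  | nil => exact absurd hi (notMem_empty _)
  | cons a b T T' f hab ha hb hT h ih =>
    subst hT
    rw [mem_insert, mem_insert] at hi
    by_cases hia : i = a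
    · subst hia
      refine ⟨b, by simp, hab.symm, f, ?_, Or.inl rfl⟩
      rwa [erase_insert (by simp [hab, ha]), erase_insert hb]
    by_cases hib : i = b
    · subst hib
      refine ⟨a, by simp, hab, f, ?_, Or.inr (by ring)⟩
      rwa [erase_insert_of_ne hab, erase_insert hb, erase_insert ha]
    have hiT : i ∈ T := by
      rcases hi with h1 | h1 | h1
      · exact absurd h1 hia
      · exact absurd h1 hib
      · exact h1
    obtain ⟨j, hj, hji, h', hh', hf⟩ := ih hiT
    have hja : j ≠ a := fun he => ha (he ▸ hj)
    have hjb : j ≠ b := fun he => hb (he ▸ hj)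
    refine ⟨j, mem_insert_of_mem (mem_insert_of_mem hj), hji, (x a - x b) * h', ?_, ?_⟩
    · have h1 : ((insert a (insert b T)).erase i).erase j =
          insert a (insert b ((T.erase i).erase j)) := by
        rw [erase_insert_of_ne (Ne.symm hia), erase_insert_of_ne (Ne.symm hib),
          erase_insert_of_ne hja.symm, erase_insert_of_ne hjb.symm]
      rw [h1]
      refine Mat.cons' hh' hab ?_ ?_
      · exact fun h2 => ha (mem_of_mem_erase (mem_of_mem_erase h2))
      · exact fun h2 => hb (mem_of_mem_erase (mem_of_mem_erase h2))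
    · rcases hf with rfl | rfl
      · left; ring
      · right; ring

/-- a small set misses a pair of the matching -/
theorem Mat.avoid {T : Finset α} {f : Fn α K} (h : Mat K T f) {I : Finset α} (hI : I ⊆ T)
    (hc : 2 * I.card < T.card) : ∃ i ∈ T, ∃ j ∈ T, i ≠ j ∧ i ∉ I ∧ j ∉ I ∧
      ∃ h', Mat K ((T.erase i).erase j) h' ∧ (f = (x i - x j) * h' ∨ f = -((x i - x j) * h')) := by
  induction h generalizing I with
  | nil =>
    rw [card_empty] at hc
    omega
  | cons a b T T' f hab ha hb hT h ih =>
    subst hT
    by_cases haI : a ∈ I ∨ b ∈ I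
    · obtain ⟨i, hi, j, hj, hij, hiI, hjI, h', hh', hf⟩ := ih (I := (I.erase a).erase b) (by
        intro z hz
        rw [mem_erase, mem_erase] at hz
        have := hI hz.2.2
        rw [mem_insert, mem_insert] at this
        rcases this with h1 | h1 | h1
        · exact absurd h1 hz.2.1
        · exact absurd h1 hz.1
        · exact h1) (by
        have h1 : ((I.erase a).erase b).card + 1 ≤ I.card := by
          rcases haI with h2 | h2
          · have := card_erase_add_one h2
            have := card_erase_le (s := I.erase a) (a := b)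
            omega
          · have h3 := card_erase_add_one h2
            have h4 : (I.erase a).erase b ⊆ I.erase b := by
              rw [erase_right_comm]
              exact erase_subset _ _
            have := card_le_card h4
            omega
        rw [card_insert_of_notMem (by simp [hab, ha]), card_insert_of_notMem hb] at hc
        omega)
      have hja : j ≠ a := fun he => ha (he ▸ hj)
      have hjb : j ≠ b := fun he => hb (he ▸ hj)
      have hia : i ≠ a := fun he => ha (he ▸ hi)
      have hib : i ≠ b := fun he => hb (he ▸ hi)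
      refine ⟨i, by simp [hi], j, by simp [hj], hij, ?_, ?_, (x a - x b) * h', ?_, ?_⟩
      · intro h1
        exact hiI (mem_erase.mpr ⟨hib, mem_erase.mpr ⟨hia, h1⟩⟩)
      · intro h1
        exact hjI (mem_erase.mpr ⟨hjb, mem_erase.mpr ⟨hja, h1⟩⟩)
      · have h1 : ((insert a (insert b T)).erase i).erase j =
            insert a (insert b ((T.erase i).erase j)) := by
          rw [erase_insert_of_ne (Ne.symm hia), erase_insert_of_ne (Ne.symm hib),
            erase_insert_of_ne hja.symm, erase_insert_of_ne hjb.symm]
        rw [h1]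
        refine Mat.cons' hh' hab ?_ ?_
        · exact fun h2 => ha (mem_of_mem_erase (mem_of_mem_erase h2))
        · exact fun h2 => hb (mem_of_mem_erase (mem_of_mem_erase h2))
      · rcases hf with rfl | rfl
        · left; ring
        · right; ring
    · rw [not_or] at haI
      refine ⟨a, by simp, b, by simp, hab, haI.1, haI.2, f, ?_, Or.inl rfl⟩
      rwa [erase_insert (by simp [hab, ha]), erase_insert hb]

theorem upd_same {C : α → Bool} {i j : α} {s t : Bool} (hi : C i = s) (hj : C j = t) :
    Function.update (Function.update C i s) j t = C := by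
  rw [← hi, Function.update_eq_self, ← hj, Function.update_eq_self]

theorem upd_swap {C : α → Bool} {i j : α} (hij : i ≠ j) {s t : Bool} (hi : C i = s) (hj : C j = t) :
    Function.update (Function.update C i t) j s = C ∘ swap i j := by
  funext z
  simp only [Function.comp]
  by_cases hzj : z = j
  · subst hzj
    rw [Function.update_self, swap_apply_right, hi]
  · rw [Function.update_of_ne hzj]
    by_cases hzi : z = i
    · subst hzi
      rw [Function.update_self, swap_apply_left, hj]
    · rw [Function.update_of_ne hzi, swap_apply_of_ne_of_ne hzi hzj]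

theorem comp_swap_eq {C : α → Bool} {i j : α} (h : C i = C j) : C ∘ swap i j = C := by
  funext z
  simp only [Function.comp]
  rw [swap_apply_def]
  split_ifs with h1 h2
  · rw [h1, h]
  · rw [h2, h]
  · rfl

theorem sub_act (i j : α) (f : Fn α K) : f - act (swap i j) f = (x i - x j) * pd i j f := by
  by_cases hij : i = j
  · subst hij
    have h1 : (swap i i : Perm α) = 1 := swap_self i
    rw [h1, act_one, sub_self, sub_self, zero_mul]
  funext C
  rw [Pi.sub_apply, Pi.mul_apply, Pi.sub_apply, act_apply, pd_apply, x_apply, x_apply]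
  cases hi : C i <;> cases hj : C j
  · rw [comp_swap_eq (hi.trans hj.symm)]; simp
  · rw [upd_same hi hj, upd_swap hij hi hj]
    simp
  · rw [upd_same hi hj, upd_swap hij hi hj]
    simp
  · rw [comp_swap_eq (hi.trans hj.symm)]; simp

theorem pd_comm {i j : α} (hij : i ≠ j) (f : Fn α K) : pd i j f = - pd j i f := by
  funext C
  rw [Pi.neg_apply, pd_apply, pd_apply, Function.update_comm hij, Function.update_comm hij]
  ring

omit [DecidableEq α] in
theorem Dep.update [DecidableEq α] {T : Finset α} {f : Fn α K} (hf : Dep T f) {i : α} (hi : i ∉ T)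
    (C : α → Bool) (s : Bool) : f (Function.update C i s) = f C := by
  apply hf
  intro z hz
  have hzi : z ≠ i := fun h => hi (h ▸ hz)
  exact Function.update_of_ne hzi _ _

/-- `pd i j ((x i - x a) (x j - x b) h) = (x a - x b) h` -/
theorem pd_cross {i j a b : α} {T : Finset α} {h : Fn α K} (hh : Dep T h) (hi : i ∉ T) (hj : j ∉ T)
    (hij : i ≠ j) (hai : a ≠ i) (haj : a ≠ j) (hbi : b ≠ i) (hbj : b ≠ j) :
    pd i j ((x i - x a) * (x j - x b) * h) = (x a - x b) * h := by
  funext C
  simp only [pd_apply, Pi.mul_apply, Pi.sub_apply, x_apply, hh.update hj, hh.update hi,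
    Function.update_self, Function.update_of_ne hij, Function.update_of_ne hai,
    Function.update_of_ne haj, Function.update_of_ne hbi, Function.update_of_ne hbj]
  simp only [if_true, Bool.false_eq_true, if_false]
  ring

theorem pd_pair {i j : α} {T : Finset α} {h : Fn α K} (hh : Dep T h) (hi : i ∉ T) (hj : j ∉ T)
    (hij : i ≠ j) : pd i j ((x i - x j) * h) = 2 * h := by
  funext C
  simp only [pd_apply, Pi.mul_apply, Pi.sub_apply, x_apply, hh.update hj, hh.update hi,
    Function.update_self, Function.update_of_ne hij]
  simp only [if_true, Bool.false_eq_true, if_false]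
  have : (2 : Fn α K) C = 2 := rfl
  rw [this]
  ring

theorem Mat.mem {T : Finset α} {f : Fn α K} (h : Mat K T f) : f ∈ Sp K T :=
  Submodule.subset_span h

theorem Sp.induction {T : Finset α} {q : Fn α K → Prop} (hm : ∀ f, Mat K T f → q f) (h0 : q 0)
    (ha : ∀ f g, q f → q g → q (f + g)) (hs : ∀ (a : K) f, q f → q (a • f)) {f : Fn α K}
    (hf : f ∈ Sp K T) : q f := by
  unfold Sp at hf
  induction hf using Submodule.span_induction with
  | mem f hf => exact hm f hf
  | zero => exact h0
  | add f g _ _ h1 h2 => exact ha f g h1 h2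
  | smul a f _ h1 => exact hs a f h1

theorem Sp.act_mem {T : Finset α} {f : Fn α K} (h : f ∈ Sp K T) (g : Perm α) :
    act g f ∈ Sp K (T.map g.toEmbedding) := by
  refine Sp.induction (q := fun f => act g f ∈ Sp K (T.map g.toEmbedding)) ?_ ?_ ?_ ?_ h
  · exact fun f hf => (hf.act_mem g).mem
  · rw [map_zero]; exact Submodule.zero_mem _
  · intro f g hf hg
    rw [map_add]
    exact Submodule.add_mem _ hf hg
  · intro a f hf
    rw [map_smul]
    exact Submodule.smul_mem _ _ hf

theorem Sp.dep {T : Finset α} {f : Fn α K} (h : f ∈ Sp K T) : Dep T f :=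
  Sp.induction (q := fun f => Dep T f) (fun f hf => hf.dep) (Dep.zero T)
    (fun f g hf hg => hf.add hg) (fun a f hf => hf.smul a) h

theorem map_swap_eq {T : Finset α} {i j : α} (hi : i ∈ T) (hj : j ∈ T) :
    T.map (swap i j).toEmbedding = T := by
  ext z
  rw [mem_map_equiv, symm_swap, swap_apply_def]
  split_ifs with h1 h2
  · subst h1; exact ⟨fun _ => hi, fun _ => hj⟩
  · subst h2; exact ⟨fun _ => hj, fun _ => hi⟩
  · rfl

theorem Sp.stab (T : Finset α) : Stab T (Sp K T) := by
  intro i hi j hj f hf
  have := Sp.act_mem hf (swap i j)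
  rwa [map_swap_eq hi hj] at this

theorem Sp.cons {T : Finset α} {f : Fn α K} (h : f ∈ Sp K T) {i j : α} (hij : i ≠ j) (hi : i ∉ T)
    (hj : j ∉ T) : (x i - x j) * f ∈ Sp K (insert i (insert j T)) := by
  refine Sp.induction (q := fun f => (x i - x j) * f ∈ Sp K (insert i (insert j T))) ?_ ?_ ?_ ?_ h
  · exact fun f hf => (hf.cons' hij hi hj).mem
  · rw [mul_zero]; exact Submodule.zero_mem _
  · intro f g hf hg
    rw [mul_add]
    exact Submodule.add_mem _ hf hg
  · intro a f hf
    rw [mul_smul_comm]
    exact Submodule.smul_mem _ _ hf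

theorem Mat.half {T : Finset α} {f : Fn α K} (h : Mat K T f) {C : α → Bool}
    (hC : 2 * (T.filter (fun i => C i = true)).card ≠ T.card) : f C = 0 := by
  induction h with
  | nil => exact absurd (by simp) hC
  | cons i j T T' f hij hi hj hT h ih =>
    subst hT
    rw [Pi.mul_apply, Pi.sub_apply, x_apply, x_apply]
    have hi' : i ∉ insert j T := by simp [hij, hi]
    have hiF : i ∉ (insert j T).filter (fun i => C i = true) := fun h => hi' (mem_filter.mp h).1
    have hjF : j ∉ T.filter (fun i => C i = true) := fun h => hj (mem_filter.mp h).1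
    rw [card_insert_of_notMem hi', card_insert_of_notMem hj, filter_insert, filter_insert] at hC
    cases h1 : C i <;> cases h2 : C j
    · simp
    · rw [ih, mul_zero]
      intro h3
      apply hC
      rw [h1, h2]
      simp only [Bool.false_eq_true, if_false, if_true]
      rw [card_insert_of_notMem hjF]
      omega
    · rw [ih, mul_zero]
      intro h3
      apply hC
      rw [h1, h2]
      simp only [Bool.false_eq_true, if_false, if_true]
      rw [card_insert_of_notMem (fun h => hi (mem_filter.mp h).1)]
      omega
    · simp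

/-- supported on the points with exactly half of the letters -/
theorem Sp.half {T : Finset α} {f : Fn α K} (h : f ∈ Sp K T) {C : α → Bool}
    (hC : 2 * (T.filter (fun i => C i = true)).card ≠ T.card) : f C = 0 := by
  refine Sp.induction (q := fun f => f C = 0) ?_ ?_ ?_ ?_ h
  · exact fun f hf => hf.half hC
  · rfl
  · intro f g hf hg
    rw [Pi.add_apply, hf, hg, add_zero]
  · intro a f hf
    rw [Pi.smul_apply, hf, smul_zero]

theorem Mat.pd_mem {T : Finset α} {f : Fn α K} (h : Mat K T f) {i j : α} (hi : i ∈ T) (hj : j ∈ T)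
    (hij : i ≠ j) : pd i j f ∈ Sp K ((T.erase i).erase j) := by
  obtain ⟨a, ha, hai, h', hh', hf⟩ := h.pick hi
  suffices hs : pd i j ((x i - x a) * h') ∈ Sp K ((T.erase i).erase j) by
    rcases hf with rfl | rfl
    · exact hs
    · rw [map_neg]; exact Submodule.neg_mem _ hs
  by_cases haj : a = j
  · subst haj
    rw [pd_pair hh'.dep (by simp) (by simp) hij]
    have : (2 : Fn α K) * h' = (2 : K) • h' := by
      funext C
      rfl
    rw [this]
    exact Submodule.smul_mem _ _ hh'.mem
  · obtain ⟨b, hb, hbj, h'', hh'', hf'⟩ := hh'.pick (i := j) (by simp [hj, Ne.symm haj, hij.symm])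
    rw [mem_erase, mem_erase] at hb
    suffices hs : pd i j ((x i - x a) * ((x j - x b) * h'')) ∈ Sp K ((T.erase i).erase j) by
      rcases hf' with rfl | rfl
      · exact hs
      · rw [mul_neg, map_neg]; exact Submodule.neg_mem _ hs
    rw [← mul_assoc, pd_cross hh''.dep (by simp) (by simp) hij hai haj hb.2.1 hbj]
    have h1 : (T.erase i).erase j = insert a (insert b ((((T.erase i).erase a).erase j).erase b)) := by
      ext z
      simp only [mem_erase, mem_insert]
      constructor
      · rintro ⟨h1, h2, h3⟩
        by_cases h4 : z = a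
        · exact Or.inl h4
        · by_cases h5 : z = b
          · exact Or.inr (Or.inl h5)
          · exact Or.inr (Or.inr ⟨h5, h1, h4, h2, h3⟩)
      · rintro (rfl | rfl | ⟨h1, h2, h3, h4, h5⟩)
        · exact ⟨haj, hai, ha⟩
        · exact ⟨hbj, hb.2.1, hb.2.2⟩
        · exact ⟨h2, h4, h5⟩
    rw [h1]
    exact (hh''.cons' (Ne.symm hb.1) (by simp) (by simp)).mem

theorem pd_mem {T : Finset α} {f : Fn α K} (h : f ∈ Sp K T) {i j : α} (hi : i ∈ T) (hj : j ∈ T)
    (hij : i ≠ j) : pd i j f ∈ Sp K ((T.erase i).erase j) := by
  refine Sp.induction (q := fun f => pd i j f ∈ Sp K ((T.erase i).erase j)) ?_ ?_ ?_ ?_ h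
  · exact fun f hf => hf.pd_mem hi hj hij
  · rw [map_zero]; exact Submodule.zero_mem _
  · intro f g hf hg
    rw [map_add]
    exact Submodule.add_mem _ hf hg
  · intro a f hf
    rw [map_smul]
    exact Submodule.smul_mem _ _ hf

end Rank2
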