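import Pool.Agent.Lib.MP_a8d7f7_al.R2.L1

/-!
# MP_a8d7f7_al: the element `E` and the symmetric elements (helper7)
-/

set_option autoImplicit false
set_option linter.unusedSectionVars false
set_option linter.unusedVariables false

namespace Rank2

open Finset Equiv

variable {α K : Type*} [Field K] [DecidableEq α]

theorem mat_prod {B : Finset α} {y : α → α} (hy : Set.InjOn y B) (hB : ∀ i ∈ B, y i ∉ B) :
    Mat K (B ∪ B.image y) (∏ i ∈ B, (x i - x (y i))) := by
  induction B using Finset.induction_on with
  | empty => rw [image_empty, union_empty, prod_empty]; exact Mat.nil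
  | insert a B ha ih =>
    rw [prod_insert ha]
    have h1 : insert a B ∪ (insert a B).image y = insert a (insert (y a) (B ∪ B.image y)) := by
      rw [image_insert, union_insert, insert_union, Finset.insert_comm]
    have hya : y a ∉ insert a B := hB a (mem_insert_self _ _)
    rw [mem_insert, not_or] at hya
    rw [h1]
    refine Mat.cons' (ih (hy.mono (by simp)) (fun i hi => ?_)) (Ne.symm hya.1) ?_ ?_
    · exact fun h => hB i (mem_insert_of_mem hi) (mem_insert_of_mem h)
    · rw [mem_union, not_or]
      refine ⟨ha, fun h => ?_⟩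
      obtain ⟨i, hi, he⟩ := mem_image.mp h
      exact hB i (mem_insert_of_mem hi) (by rw [he]; exact mem_insert_self _ _)
    · rw [mem_union, not_or]
      refine ⟨hya.2, fun h => ?_⟩
      obtain ⟨i, hi, he⟩ := mem_image.mp h
      have := hy (by simp [hi]) (by simp) he
      exact ha (this ▸ hi)

/-- the expansion of a product of differences into indicators -/
theorem prod_expand {B : Finset α} {y : α → α} (hy : Set.InjOn y B) (hB : ∀ i ∈ B, y i ∉ B) :
    (∏ i ∈ B, (x i - x (y i)) : Fn α K) = ∑ T ∈ B.powerset, (-1 : ℤ) ^ T.card •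
      (fun C : α → Bool => if (B ∪ B.image y).filter (fun i => C i = true) = FinSym.swapSet B T y
        then (1 : K) else 0) := by
  funext C
  have h1 : ∀ i ∈ B, (x i - x (y i) : Fn α K) C =
      (-((1 - x i C) * x (y i) C)) + (x i C * (1 - x (y i) C)) := by
    intro i _
    rw [Pi.sub_apply]
    ring
  rw [Finset.prod_apply, prod_congr rfl h1, prod_add, Finset.sum_apply]
  apply sum_congr rfl
  intro T hT
  rw [mem_powerset] at hT
  rw [prod_neg]
  have h2 : (∏ i ∈ T, (1 - x i C) * x (y i) C) * ∏ i ∈ B \ T, x i C * (1 - x (y i) C) =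
      if (B ∪ B.image y).filter (fun i => C i = true) = FinSym.swapSet B T y
        then (1 : K) else 0 := by
    split_ifs with h
    · have hmem : ∀ i ∈ B ∪ B.image y, (C i = true ↔ i ∈ FinSym.swapSet B T y) := by
        intro i hi
        rw [← h, mem_filter]
        exact ⟨fun h => ⟨hi, h⟩, fun h => h.2⟩
      rw [prod_eq_one, prod_eq_one, one_mul]
      · intro i hi
        rw [mem_sdiff] at hi
        have h3 : C i = true := by
          rw [hmem i (mem_union_left _ hi.1)]
          unfold FinSym.swapSet
          exact mem_union_left _ (mem_sdiff.mpr hi)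
        have h4 : C (y i) = false := by
          rw [← Bool.not_eq_true, hmem (y i) (mem_union_right _ (mem_image_of_mem _ hi.1))]
          unfold FinSym.swapSet
          rw [mem_union, not_or]
          refine ⟨fun h5 => hB i hi.1 (mem_sdiff.mp h5).1, fun h5 => ?_⟩
          obtain ⟨j, hj, he⟩ := mem_image.mp h5
          exact hi.2 (hy (hT hj) hi.1 he ▸ hj)
        rw [x_apply, x_apply, h3, h4]
        simp
      · intro i hi
        have h3 : C i = false := by
          rw [← Bool.not_eq_true, hmem i (mem_union_left _ (hT hi))]
          unfold FinSym.swapSet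
          rw [mem_union, not_or]
          refine ⟨fun h5 => (mem_sdiff.mp h5).2 hi, fun h5 => ?_⟩
          obtain ⟨j, hj, he⟩ := mem_image.mp h5
          exact hB j (hT hj) (he ▸ hT hi)
        have h4 : C (y i) = true := by
          rw [hmem (y i) (mem_union_right _ (mem_image_of_mem _ (hT hi)))]
          unfold FinSym.swapSet
          exact mem_union_right _ (mem_image_of_mem _ hi)
        rw [x_apply, x_apply, h3, h4]
        simp
    · by_contra hcon
      apply h
      have h3 : ∀ i ∈ T, C i = false ∧ C (y i) = true := by
        intro i hi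
        by_contra h4
        apply hcon
        rw [prod_eq_zero hi, zero_mul]
        rw [x_apply, x_apply]
        cases h5 : C i <;> cases h6 : C (y i)
        · simp
        · exact absurd ⟨h5, h6⟩ h4
        · simp
        · simp
      have h3' : ∀ i ∈ B \ T, C i = true ∧ C (y i) = false := by
        intro i hi
        by_contra h4
        apply hcon
        rw [prod_eq_zero hi, mul_zero]
        rw [x_apply, x_apply]
        cases h5 : C i <;> cases h6 : C (y i)
        · simp
        · simp
        · exact absurd ⟨h5, h6⟩ h4
        · simp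
      unfold FinSym.swapSet
      ext i
      rw [mem_filter, mem_union, mem_union]
      constructor
      · rintro ⟨hi | hi, hC⟩
        · left
          rw [mem_sdiff]
          refine ⟨hi, fun hiT => ?_⟩
          rw [(h3 i hiT).1] at hC
          exact Bool.false_ne_true hC
        · right
          obtain ⟨j, hj, rfl⟩ := mem_image.mp hi
          apply mem_image_of_mem
          by_contra hjT
          rw [(h3' j (mem_sdiff.mpr ⟨hj, hjT⟩)).2] at hC
          exact Bool.false_ne_true hC
      · rintro (hi | hi)
        · exact ⟨Or.inl (mem_sdiff.mp hi).1, (h3' i hi).1⟩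
        · obtain ⟨j, hj, rfl⟩ := mem_image.mp hi
          exact ⟨Or.inr (mem_image_of_mem _ (hT hj)), (h3 j hj).2⟩
  rw [mul_assoc, h2, Pi.smul_apply, zsmul_eq_mul]
  push_cast
  rfl

theorem E_mem {p : ℕ} (hp : p.Prime) [CharP K p] (k : ℕ) {X : Finset α}
    (hX : X.card = 2 * (p ^ k - 1)) : E K X ∈ Sp K X := by
  rw [← Submodule.Quotient.mk_eq_zero]
  set δ : Finset α → Fn α K := fun U C => if X.filter (fun i => C i = true) = U then 1 else 0 with hδ
  have h1 : E K X = ∑ U ∈ powersetCard (p ^ k - 1) X, δ U := by
    funext C
    rw [Finset.sum_apply]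
    simp only [hδ]
    rw [sum_ite_eq]
    unfold E
    have : (X.filter (fun i => C i = true) ∈ powersetCard (p ^ k - 1) X) ↔
        2 * (X.filter (fun i => C i = true)).card = X.card := by
      rw [mem_powersetCard, hX]
      constructor
      · rintro ⟨-, h⟩; rw [h]
      · intro h; exact ⟨filter_subset _ _, by omega⟩
    rw [if_congr this rfl rfl]
  have h2 : ∑ U ∈ powersetCard (p ^ k - 1) X, (Sp K X).mkQ (δ U) = 0 := by
    refine FinSym.sum_killed hp (N := k) (b := p ^ k - 1) (Q := Fn α K ⧸ Sp K X) ?_ ?_ X ?_
      (fun U => (Sp K X).mkQ (δ U)) ?_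
    · intro q
      rw [← Nat.cast_smul_eq_nsmul K, CharP.cast_eq_zero, zero_smul]
    · have := Nat.pow_pos (n := k) hp.pos
      omega
    · omega
    · intro B hBX hBc y hy hyB
      have hB : ∀ i ∈ B, y i ∉ B := fun i hi => (mem_sdiff.mp (hyB i hi)).2
      have hU : B ∪ B.image y = X := by
        apply eq_of_subset_of_card_le
        · apply union_subset hBX
          intro z hz
          obtain ⟨i, hi, rfl⟩ := mem_image.mp hz
          exact (mem_sdiff.mp (hyB i hi)).1
        · rw [card_union_of_disjoint, card_image_of_injOn hy, hBc, hX]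
          · omega
          · rw [disjoint_left]
            intro z hz hz'
            obtain ⟨i, hi, rfl⟩ := mem_image.mp hz'
            exact hB i hi hz
      have h3 := prod_expand (K := K) hy hB
      rw [hU] at h3
      have h4 := (mat_prod (K := K) hy hB).mem
      rw [hU, h3] at h4
      have h5 := (Submodule.Quotient.mk_eq_zero (Sp K X)).mpr h4
      unfold FinSym.altSum
      rw [← h5]
      change _ = (Sp K X).mkQ _
      rw [map_sum]
      apply sum_congr rfl
      intro T _
      rw [map_zsmul]
  rw [h1]
  change (Sp K X).mkQ _ = 0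
  rw [map_sum]
  exact h2

theorem E_act (X : Finset α) (g : Perm α) : act g (E K X) = E K (X.map g.toEmbedding) := by
  funext C
  rw [act_apply]
  unfold E
  rw [filter_map, card_map, card_map]
  rfl

theorem E_dep (X : Finset α) : Dep X (E K X) := by
  intro C C' h
  unfold E
  have : X.filter (fun i => C i = true) = X.filter (fun i => C' i = true) := by
    apply filter_congr
    intro i hi
    rw [h i hi]
  rw [this]

theorem E_empty : E K (∅ : Finset α) = 1 := by
  funext C
  unfold E
  simp

/-- the indicator of a set -/
def ch (U : Finset α) : α → Bool := fun i => decide (i ∈ U)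

theorem ch_apply (U : Finset α) (i : α) : ch U i = true ↔ i ∈ U := by
  unfold ch; exact decide_eq_true_iff

theorem ch_map (U : Finset α) (i j : α) : ch (U.map (swap i j).toEmbedding) = ch U ∘ swap i j := by
  funext z
  unfold ch
  simp only [Function.comp]
  rw [decide_eq_decide, mem_map_equiv, symm_swap]

/-- the sum over the supersets of a small set vanishes -/
theorem Sp.inv {T : Finset α} {f : Fn α K} (h : f ∈ Sp K T) {n : ℕ} (hT : T.card = 2 * n)
    {W : Finset α} (hW : W ⊆ T) (hWn : W.card < n) :
    ∑ U ∈ (powersetCard n T).filter (fun U => W ⊆ U), f (ch U) = 0 := by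
  refine Sp.induction
    (q := fun f => ∑ U ∈ (powersetCard n T).filter (fun U => W ⊆ U), f (ch U) = 0) ?_ ?_ ?_ ?_ h
  · intro f hf
    obtain ⟨i, hi, j, hj, hij, hiW, hjW, h', hh', hf'⟩ := hf.avoid hW (by omega)
    have hanti : ∀ C : α → Bool, f C + f (C ∘ swap i j) = 0 := by
      intro C
      have h1 : h' (C ∘ swap i j) = h' C := by
        apply hh'.dep
        intro z hz
        rw [mem_erase, mem_erase] at hz
        simp only [Function.comp]
        rw [swap_apply_of_ne_of_ne hz.2.1 hz.1]
      rcases hf' with rfl | rfl
      · simp only [Pi.mul_apply, Pi.sub_apply, h1, x_apply, Function.comp, swap_apply_left,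
          swap_apply_right]
        ring
      · simp only [Pi.neg_apply, Pi.mul_apply, Pi.sub_apply, h1, x_apply, Function.comp,
          swap_apply_left, swap_apply_right]
        ring
    have hzero : ∀ C : α → Bool, C i = C j → f C = 0 := by
      intro C hC
      rcases hf' with rfl | rfl
      · rw [Pi.mul_apply, Pi.sub_apply, x_apply, x_apply, hC, sub_self, zero_mul]
      · rw [Pi.neg_apply, Pi.mul_apply, Pi.sub_apply, x_apply, x_apply, hC, sub_self, zero_mul,
          neg_zero]
    refine sum_involution (fun U _ => U.map (swap i j).toEmbedding) ?_ ?_ ?_ ?_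
    · intro U _
      rw [ch_map]
      exact hanti _
    · intro U _ hne heq
      apply hne
      apply hzero
      have h1 := congrArg ch heq
      rw [ch_map] at h1
      have h2 := congrFun h1 j
      simp only [Function.comp, swap_apply_right] at h2
      exact h2
    · intro U hU
      rw [mem_filter, mem_powersetCard] at hU ⊢
      refine ⟨⟨?_, by rw [card_map]; exact hU.1.2⟩, ?_⟩
      · rw [← map_swap_eq hi hj]
        exact map_subset_map.mpr hU.1.1
      · intro z hz
        rw [mem_map_equiv, symm_swap, swap_apply_of_ne_of_ne]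
        · exact hU.2 hz
        · exact fun h => hiW (h ▸ hz)
        · exact fun h => hjW (h ▸ hz)
    · intro U _
      ext z
      rw [mem_map_equiv, mem_map_equiv, symm_swap, swap_apply_self]
  · simp
  · intro f g hf hg
    simp only [Pi.add_apply]
    rw [sum_add_distrib, hf, hg, add_zero]
  · intro a f hf
    simp only [Pi.smul_apply]
    rw [← smul_sum, hf, smul_zero]

theorem choose_lucas {p : ℕ} (hp : p.Prime) (m : ℕ) : ∀ v : ℕ,
    (p ^ v * (m + 1) - 1).choose (p ^ v) ≡ m [MOD p] := by
  intro v
  have : Fact p.Prime := ⟨hp⟩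
  induction v with
  | zero => simp [Nat.ModEq]
  | succ v ih =>
    have hpos : 0 < p ^ v * (m + 1) := Nat.mul_pos (Nat.pow_pos hp.pos) (Nat.succ_pos m)
    have hN : p ^ (v + 1) * (m + 1) - 1 = (p - 1) + p * (p ^ v * (m + 1) - 1) := by
      have h1 : p ^ (v + 1) * (m + 1) = p * (p ^ v * (m + 1)) := by rw [pow_succ]; ring
      rw [h1, Nat.mul_sub, mul_one]
      have := hp.pos
      have h2 : p ≤ p * (p ^ v * (m + 1)) := Nat.le_mul_of_pos_right _ hpos
      omega
    have hlt : p - 1 < p := Nat.sub_lt hp.pos Nat.one_pos
    have h3 := Choose.choose_modEq_choose_mod_mul_choose_div_nat (p := p)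
      (n := p ^ (v + 1) * (m + 1) - 1) (k := p ^ (v + 1))
    have h4 : (p ^ (v + 1) * (m + 1) - 1) % p = p - 1 := by
      rw [hN, Nat.add_mul_mod_self_left, Nat.mod_eq_of_lt hlt]
    have h5 : (p ^ (v + 1) * (m + 1) - 1) / p = p ^ v * (m + 1) - 1 := by
      rw [hN, Nat.add_mul_div_left _ _ hp.pos, Nat.div_eq_of_lt hlt, zero_add]
    have h6 : p ^ (v + 1) % p = 0 := by rw [pow_succ, Nat.mul_mod_left]
    have h7 : p ^ (v + 1) / p = p ^ v := by rw [pow_succ, Nat.mul_div_cancel _ hp.pos]
    rw [h4, h5, h6, h7, Nat.choose_zero_right, one_mul] at h3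
    exact h3.trans ih

theorem prime_power {p : ℕ} (hp : p.Prime) {n : ℕ}
    (h : ∀ i, 1 ≤ i → i ≤ n → p ∣ (n + i).choose i) : ∃ k, n = p ^ k - 1 := by
  obtain ⟨v, m, hm, he⟩ := Nat.exists_eq_pow_mul_and_not_dvd (n := n + 1) (Nat.succ_ne_zero n) p
    hp.ne_one
  have hm0 : m ≠ 0 := by
    rintro rfl
    exact hm (dvd_zero p)
  have hpos : 0 < p ^ v := Nat.pow_pos hp.pos
  rcases Nat.lt_or_ge m 2 with h1 | h1
  · have : m = 1 := by omega
    subst this
    exact ⟨v, by omega⟩
  · exfalso
    have h2 : p ^ v * 2 ≤ p ^ v * m := Nat.mul_le_mul_left _ h1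
    have h3 := h (p ^ v) hpos (by omega)
    have h4 := choose_lucas hp m v
    have h5 : n + p ^ v = p ^ v * (m + 1) - 1 := by
      rw [Nat.mul_add, mul_one]
      omega
    rw [h5] at h3
    exact hm ((Nat.ModEq.dvd_iff h4 (dvd_refl p)).mp h3)

/-- symmetric functions depend only on the number of letters -/
theorem symm_const {T : Finset α} {f : Fn α K} (hd : Dep T f)
    (hs : ∀ i ∈ T, ∀ j ∈ T, act (swap i j) f = f) : ∀ (d : ℕ) (C C' : α → Bool),
    (T.filter (fun i => C i ≠ C' i)).card = d →
    (T.filter (fun i => C i = true)).card = (T.filter (fun i => C' i = true)).card →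
    f C = f C' := by
  intro d
  induction d using Nat.strong_induction_on with
  | _ d ih =>
    intro C C' hdc hc
    by_cases hd0 : d = 0
    · rw [hd0, card_eq_zero, filter_eq_empty_iff] at hdc
      apply hd
      intro i hi
      have := hdc hi
      push Not at this
      exact this
    · obtain ⟨i, hi, hi1, hi2⟩ : ∃ i ∈ T, C i = true ∧ C' i = false := by
        by_contra hcon
        push Not at hcon
        have hsub : T.filter (fun i => C i = true) ⊆ T.filter (fun i => C' i = true) := by
          intro i hi
          rw [mem_filter] at hi ⊢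
          exact ⟨hi.1, by simpa using hcon i hi.1 hi.2⟩
        have heq := eq_of_subset_of_card_le hsub hc.ge
        apply hd0
        rw [← hdc, card_eq_zero, filter_eq_empty_iff]
        intro i hi
        push Not
        have h1 : i ∈ T.filter (fun i => C i = true) ↔ i ∈ T.filter (fun i => C' i = true) := by
          rw [heq]
        rw [mem_filter, mem_filter] at h1
        cases h2 : C i <;> cases h3 : C' i
        · rfl
        · exact absurd (h1.mpr ⟨hi, h3⟩).2 (by rw [h2]; simp)
        · exact absurd (h1.mp ⟨hi, h2⟩).2 (by rw [h3]; simp)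
        · rfl
      obtain ⟨j, hj, hj1, hj2⟩ : ∃ j ∈ T, C j = false ∧ C' j = true := by
        by_contra hcon
        push Not at hcon
        have hsub : T.filter (fun i => C' i = true) ⊆ T.filter (fun i => C i = true) := by
          intro z hz
          rw [mem_filter] at hz ⊢
          refine ⟨hz.1, ?_⟩
          by_contra h1
          rw [Bool.not_eq_true] at h1
          exact hcon z hz.1 h1 hz.2
        have heq := eq_of_subset_of_card_le hsub hc.le
        have h1 : i ∈ T.filter (fun i => C i = true) := mem_filter.mpr ⟨hi, hi1⟩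
        rw [← heq, mem_filter, hi2] at h1
        exact Bool.false_ne_true h1.2
      have hij : i ≠ j := by
        rintro rfl
        rw [hi1] at hj1
        exact Bool.false_ne_true hj1.symm
      have h1 : f C = f (C ∘ swap i j) := by
        rw [← act_apply (swap i j) f C, hs i hi j hj]
      rw [h1]
      have h2 : T.filter (fun z => (C ∘ swap i j) z ≠ C' z) ⊂ T.filter (fun z => C z ≠ C' z) := by
        rw [Finset.ssubset_iff_of_subset]
        · refine ⟨i, ?_, ?_⟩
          · rw [mem_filter, hi1, hi2]
            exact ⟨hi, by simp⟩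
          · rw [mem_filter]
            simp only [Function.comp, swap_apply_left]
            rw [hj1, hi2]
            simp
        · intro z hz
          rw [mem_filter] at hz ⊢
          refine ⟨hz.1, ?_⟩
          by_cases hzi : z = i
          · subst hzi
            rw [hi1, hi2]; simp
          · by_cases hzj : z = j
            · subst hzj
              rw [hj1, hj2]; simp
            · have := hz.2
              simp only [Function.comp] at this
              rwa [swap_apply_of_ne_of_ne hzi hzj] at this
      refine ih _ ?_ (C ∘ swap i j) C' rfl ?_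
      · rw [← hdc]
        exact card_lt_card h2
      · rw [← hc]
        have h3 : T.filter (fun z => (C ∘ swap i j) z = true) =
            (T.filter (fun z => C z = true)).map (swap i j).toEmbedding := by
          rw [← map_swap_eq hi hj, filter_map, map_swap_eq hi hj]
          congr 1
          apply filter_congr
          intro z _
          simp
        rw [h3, card_map]

/-- symmetric elements -/
theorem Sp.symm {p : ℕ} (hp : p.Prime) [CharP K p] {T : Finset α} {f : Fn α K} (h : f ∈ Sp K T)
    (hf : f ≠ 0) (hs : ∀ i ∈ T, ∀ j ∈ T, act (swap i j) f = f) :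
    ∃ k, T.card = 2 * (p ^ k - 1) ∧ ∃ a : K, a ≠ 0 ∧ f = a • E K T := by
  obtain ⟨C₀, hC₀⟩ : ∃ C₀, f C₀ ≠ 0 := by
    by_contra hcon
    push Not at hcon
    exact hf (funext hcon)
  have hc0 : 2 * (T.filter (fun i => C₀ i = true)).card = T.card := by
    by_contra hcon
    exact hC₀ (Sp.half h hcon)
  set n := (T.filter (fun i => C₀ i = true)).card with hn
  have hval : ∀ C : α → Bool, (T.filter (fun i => C i = true)).card = n → f C = f C₀ := by
    intro C hC
    exact symm_const (Sp.dep h) hs _ C C₀ rfl (by rw [hC])
  have hfE : f = f C₀ • E K T := by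
    funext C
    rw [Pi.smul_apply, smul_eq_mul]
    unfold E
    split_ifs with h1
    · rw [mul_one]
      exact hval C (by omega)
    · rw [mul_zero]
      exact Sp.half h h1
  have hpow : ∃ k, n = p ^ k - 1 := by
    apply prime_power hp
    intro i hi1 hin
    obtain ⟨W, hW, hWc⟩ := exists_subset_card_eq (s := T) (n := n - i) (by omega)
    have h1 := Sp.inv h hc0.symm hW (by omega)
    have h2 : ∀ U ∈ (powersetCard n T).filter (fun U => W ⊆ U), f (ch U) = f C₀ := by
      intro U hU
      rw [mem_filter, mem_powersetCard] at hU
      apply hval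
      have : T.filter (fun i => ch U i = true) = U := by
        ext z
        rw [mem_filter, ch_apply]
        exact ⟨fun h => h.2, fun h => ⟨hU.1.1 h, h⟩⟩
      rw [this, hU.1.2]
    rw [sum_congr rfl h2, sum_const, FinSym.card_supersets T W hW n (by omega), hWc,
      nsmul_eq_mul] at h1
    have h3 := (mul_eq_zero.mp h1).resolve_right hC₀
    rw [CharP.cast_eq_zero_iff K p] at h3
    have h4 : T.card - (n - i) = n + i := by omega
    have h5 : n - (n - i) = i := by omega
    rwa [h4, h5] at h3
  obtain ⟨k, hk⟩ := hpow
  exact ⟨k, by omega, f C₀, hC₀, hfE⟩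

end Rank2
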