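import Pool.Agent.Lib.MP_a8d7f7_al.R2.L3

/-!
# MP_a8d7f7_al: the modules `P n T` (helper7)
-/

set_option autoImplicit false
set_option linter.unusedSectionVars false
set_option linter.unusedVariables false

namespace Rank2

open Finset Equiv

variable {α K : Type*} [Field K] [DecidableEq α]

theorem Mat.mul {X Y : Finset α} {f g : Fn α K} (hf : Mat K X f) (hg : Mat K Y g)
    (h : Disjoint X Y) : Mat K (X ∪ Y) (f * g) := by
  induction hf with
  | nil => rwa [empty_union, one_mul]
  | cons i j T T' f hij hi hj hT hf ih =>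
    subst hT
    rw [disjoint_insert_left, disjoint_insert_left] at h
    rw [insert_union, insert_union, mul_assoc]
    refine Mat.cons' (ih h.2.2) hij ?_ ?_
    · rw [mem_union, not_or]; exact ⟨hi, h.1⟩
    · rw [mem_union, not_or]; exact ⟨hj, h.2.1⟩

theorem Sp.mul_mat {X Y : Finset α} {f g : Fn α K} (hf : f ∈ Sp K X) (hg : Mat K Y g)
    (h : Disjoint X Y) : f * g ∈ Sp K (X ∪ Y) := by
  refine Sp.induction (q := fun f => f * g ∈ Sp K (X ∪ Y)) ?_ ?_ ?_ ?_ hf
  · exact fun f hf => (hf.mul hg h).mem
  · rw [zero_mul]; exact Submodule.zero_mem _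
  · intro a b ha hb
    rw [add_mul]; exact Submodule.add_mem _ ha hb
  · intro a b hb
    rw [smul_mul_assoc]; exact Submodule.smul_mem _ _ hb

theorem P.gen {n : ℕ} {T X : Finset α} (hX : X ⊆ T) (hn : X.card = 2 * n) {h : Fn α K}
    (hh : Mat K (T \ X) h) : E K X * h ∈ P K n T :=
  Submodule.subset_span ⟨X, hX, hn, h, hh, rfl⟩

theorem P.induction {n : ℕ} {T : Finset α} {q : Fn α K → Prop}
    (hm : ∀ X ⊆ T, X.card = 2 * n → ∀ h, Mat K (T \ X) h → q (E K X * h)) (h0 : q 0)
    (ha : ∀ f g, q f → q g → q (f + g)) (hs : ∀ (a : K) f, q f → q (a • f)) {f : Fn α K}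
    (hf : f ∈ P K n T) : q f := by
  unfold P at hf
  induction hf using Submodule.span_induction with
  | mem f hf =>
    obtain ⟨X, hX, hn, h, hh, rfl⟩ := hf
    exact hm X hX hn h hh
  | zero => exact h0
  | add f g _ _ h1 h2 => exact ha f g h1 h2
  | smul a f _ h1 => exact hs a f h1

theorem P.act_mem {n : ℕ} {T : Finset α} {f : Fn α K} (hf : f ∈ P K n T) (g : Perm α) :
    act g f ∈ P K n (T.map g.toEmbedding) := by
  refine P.induction (q := fun f => act g f ∈ P K n (T.map g.toEmbedding)) ?_ ?_ ?_ ?_ hf
  · intro X hX hn h hh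
    rw [map_mul, E_act]
    refine P.gen (map_subset_map.mpr hX) (by rw [card_map, hn]) ?_
    have := hh.act_mem g
    rwa [Finset.map_sdiff] at this
  · rw [map_zero]; exact Submodule.zero_mem _
  · intro f g hf hg
    rw [map_add]; exact Submodule.add_mem _ hf hg
  · intro a f hf
    rw [map_smul]; exact Submodule.smul_mem _ _ hf

theorem P.stab (n : ℕ) (T : Finset α) : Stab T (P K n T) := by
  intro i hi j hj f hf
  have := P.act_mem hf (swap i j)
  rwa [map_swap_eq hi hj] at this

theorem P.small {n : ℕ} {T : Finset α} (h : T.card < 2 * n) : P K n T = ⊥ := by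
  unfold P
  rw [Submodule.span_eq_bot]
  rintro f ⟨X, hX, hn, -⟩
  have := card_le_card hX
  omega

theorem P.le_Sp {p : ℕ} (hp : p.Prime) [CharP K p] (k : ℕ) (T : Finset α) :
    P K (p ^ k - 1) T ≤ Sp K T := by
  intro f hf
  refine P.induction (q := fun f => f ∈ Sp K T) ?_ (Submodule.zero_mem _)
    (fun f g hf hg => Submodule.add_mem _ hf hg) (fun a f hf => Submodule.smul_mem _ _ hf) hf
  intro X hX hn h hh
  have := Sp.mul_mat (E_mem (K := K) hp k hn) hh disjoint_sdiff
  rwa [union_sdiff_of_subset hX] at this

theorem P.dep {n : ℕ} {T : Finset α} {f : Fn α K} (hf : f ∈ P K n T) : Dep T f := by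
  refine P.induction (q := fun f => Dep T f) ?_ (Dep.zero T)
    (fun f g hf hg => hf.add hg) (fun a f hf => hf.smul a) hf
  intro X hX hn h hh
  exact ((E_dep X).mono hX).mul (hh.dep.mono sdiff_subset)

theorem P.cons {n : ℕ} {T : Finset α} {f : Fn α K} (h : f ∈ P K n T) {i j : α} (hij : i ≠ j)
    (hi : i ∉ T) (hj : j ∉ T) : (x i - x j) * f ∈ P K n (insert i (insert j T)) := by
  refine P.induction (q := fun f => (x i - x j) * f ∈ P K n (insert i (insert j T)))
    ?_ ?_ ?_ ?_ h
  · intro X hX hn h hh
    have h1 : (x i - x j) * (E K X * h) = E K X * ((x i - x j) * h) := by ring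
    rw [h1]
    refine P.gen (hX.trans ((subset_insert _ _).trans (subset_insert _ _))) hn ?_
    have h2 : insert i (insert j T) \ X = insert i (insert j (T \ X)) := by
      rw [insert_sdiff_of_notMem _ (fun h => hi (hX h)),
        insert_sdiff_of_notMem _ (fun h => hj (hX h))]
    rw [h2]
    exact hh.cons' hij (fun h => hi (mem_sdiff.mp h).1) (fun h => hj (mem_sdiff.mp h).1)
  · rw [mul_zero]; exact Submodule.zero_mem _
  · intro f g hf hg
    rw [mul_add]; exact Submodule.add_mem _ hf hg
  · intro a f hf
    rw [mul_smul_comm]; exact Submodule.smul_mem _ _ hf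

theorem P.zero_eq (T : Finset α) : P K 0 T = Sp K T := by
  apply le_antisymm
  · intro f hf
    refine P.induction (q := fun f => f ∈ Sp K T) ?_ (Submodule.zero_mem _)
      (fun f g hf hg => Submodule.add_mem _ hf hg) (fun a f hf => Submodule.smul_mem _ _ hf) hf
    intro X hX hn h hh
    rw [mul_zero, card_eq_zero] at hn
    subst hn
    rw [sdiff_empty] at hh
    rw [E_empty, one_mul]
    exact hh.mem
  · unfold Sp
    rw [Submodule.span_le]
    intro f hf
    have := P.gen (n := 0) (empty_subset T) (by simp) (h := f) (by rwa [sdiff_empty])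
    rwa [E_empty, one_mul] at this

/-- move a pair of letters to another pair -/
theorem exists_move_pair {T : Finset α} {i j i' j' : α} (hi : i ∈ T) (hj : j ∈ T) (hij : i ≠ j)
    (hi' : i' ∈ T) (hj' : j' ∈ T) (hij' : i' ≠ j') :
    ∃ u ∈ T, swap u j (swap i' i i') = i ∧ swap u j (swap i' i j') = j := by
  refine ⟨swap i' i j', ?_, ?_, ?_⟩
  · rw [swap_apply_def]
    split_ifs
    · exact hi
    · exact hi'
    · exact hj'
  · rw [swap_apply_left]
    apply swap_apply_of_ne_of_ne _ hij
    intro h
    have := (swap i' i).injective ((swap_apply_left i' i).trans h)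
    exact hij' this
  · rw [swap_apply_left]

/-- one generator gives everything -/
theorem P.le_of_mem_aux {n : ℕ} : ∀ (m : ℕ) (T : Finset α) (U : Submodule K (Fn α K)),
    T.card = m → Stab T U → ∀ X ⊆ T, X.card = 2 * n → ∀ h, Mat K (T \ X) h → E K X * h ∈ U →
    ∀ X' ⊆ T, X'.card = 2 * n → ∀ h', Mat K (T \ X') h' → E K X' * h' ∈ U := by
  intro m
  induction m using Nat.strong_induction_on with
  | _ m ih =>
    intro T U hm hU X hX hn h hh hmem X' hX' hn' h' hh'
    by_cases hXT : X = T
    · subst hXT
      have h1 : X' = X := eq_of_subset_of_card_le hX' (by omega)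
      subst h1
      rw [sdiff_self] at hh hh'
      rw [hh.empty] at hmem
      rw [hh'.empty]
      exact hmem
    · have hpos : X.card < T.card := card_lt_card (Finset.ssubset_iff_subset_ne.mpr ⟨hX, hXT⟩)
      obtain ⟨i, hi⟩ : (T \ X).Nonempty := by
        rw [← card_pos, card_sdiff_of_subset hX]; omega
      obtain ⟨i', hi'⟩ : (T \ X').Nonempty := by
        rw [← card_pos, card_sdiff_of_subset hX']; omega
      obtain ⟨j, hj, hji, h₁, hh₁, hf₁⟩ := hh.pick hi
      obtain ⟨j', hj', hji', h₁', hh₁', hf₁'⟩ := hh'.pick hi'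
      rw [mem_sdiff] at hi hj hi' hj'
      -- the smaller problem
      set T₀ := (T.erase i).erase j with hT₀
      have hT₀c : T₀.card < m := by
        rw [hT₀, card_erase_of_mem (mem_erase.mpr ⟨hji, hj.1⟩), card_erase_of_mem hi.1, hm]
        have : 0 < m := by rw [← hm]; exact card_pos.mpr ⟨i, hi.1⟩
        omega
      have hT₀T : T₀ ⊆ T := (erase_subset _ _).trans (erase_subset _ _)
      have hmem' : (x i - x j) * (E K X * h₁) ∈ U := by
        rcases hf₁ with rfl | rfl
        · have : E K X * ((x i - x j) * h₁) = (x i - x j) * (E K X * h₁) := by ring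
          rwa [this] at hmem
        · have : E K X * -((x i - x j) * h₁) = -((x i - x j) * (E K X * h₁)) := by ring
          rw [this] at hmem
          rwa [Submodule.neg_mem_iff] at hmem
      have key := ih _ hT₀c T₀ (U.comap (mulL (x i - x j))) rfl
        (hU.comap hT₀T (by simp [hT₀]) (by simp [hT₀])) X (by
          intro z hz
          rw [hT₀, mem_erase, mem_erase]
          exact ⟨fun he => hj.2 (he ▸ hz), fun he => hi.2 (he ▸ hz), hX hz⟩) hn h₁ (by
          have : T₀ \ X = ((T \ X).erase i).erase j := by
            ext z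
            simp only [hT₀, mem_sdiff, mem_erase]
            tauto
          rwa [this]) hmem'
      -- move the second generator
      suffices hs : E K X' * ((x i' - x j') * h₁') ∈ U by
        rcases hf₁' with rfl | rfl
        · exact hs
        · rw [mul_neg]; exact Submodule.neg_mem _ hs
      obtain ⟨u, hu, hσi, hσj⟩ := exists_move_pair hi.1 hj.1 (Ne.symm hji) hi'.1 hj'.1
        (Ne.symm hji')
      set σ : Perm α := swap u j * swap i' i with hσ
      have hσT : T.map σ.toEmbedding = T := by
        have : T.map σ.toEmbedding = (T.map (swap i' i).toEmbedding).map (swap u j).toEmbedding := by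
          rw [map_map]
          rfl
        rw [this, map_swap_eq hi'.1 hi.1, map_swap_eq hu hj.1]
      have hσi' : σ i' = i := hσi
      have hσj' : σ j' = j := hσj
      have h2 : act σ (E K X' * ((x i' - x j') * h₁')) ∈ U := by
        rw [map_mul, map_mul, act_x_sub, hσi', hσj', E_act]
        have h3 : E K (X'.map σ.toEmbedding) * ((x i - x j) * act σ h₁') =
            (x i - x j) * (E K (X'.map σ.toEmbedding) * act σ h₁') := by ring
        rw [h3]
        refine key (X'.map σ.toEmbedding) ?_ (by rw [card_map, hn']) (act σ h₁') ?_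
        · intro z hz
          have hzT : z ∈ T := by
            rw [← hσT]; exact map_subset_map.mpr hX' hz
          rw [hT₀, mem_erase, mem_erase]
          obtain ⟨w, hw, rfl⟩ := mem_map.mp hz
          refine ⟨fun he => ?_, fun he => ?_, hzT⟩
          · have : w = j' := σ.injective (he.trans hσj'.symm)
            exact hj'.2 (this ▸ hw)
          · have : w = i' := σ.injective (he.trans hσi'.symm)
            exact hi'.2 (this ▸ hw)
        · have h4 := hh₁'.act_mem σ
          rw [map_erase, map_erase, Finset.map_sdiff, hσT] at h4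
          have h5 : T₀ \ X'.map σ.toEmbedding = ((T \ X'.map σ.toEmbedding).erase i).erase j := by
            ext z
            simp only [hT₀, mem_sdiff, mem_erase]
            tauto
          rw [h5]
          have h6 : σ.toEmbedding i' = i := hσi'
          have h7 : σ.toEmbedding j' = j := hσj'
          rwa [h6, h7] at h4
      have h8 : act (swap i' i) (act (swap u j) (act σ (E K X' * ((x i' - x j') * h₁')))) =
          E K X' * ((x i' - x j') * h₁') := by
        rw [hσ, act_mul, act_swap_swap, act_swap_swap]
      rw [← h8]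
      exact hU _ hi'.1 _ hi.1 _ (hU _ hu _ hj.1 _ h2)

theorem P.le_of_mem {n : ℕ} {T : Finset α} {U : Submodule K (Fn α K)} (hU : Stab T U)
    {X : Finset α} (hX : X ⊆ T) (hn : X.card = 2 * n) {h : Fn α K} (hh : Mat K (T \ X) h)
    (hm : E K X * h ∈ U) : P K n T ≤ U := by
  unfold P
  rw [Submodule.span_le]
  rintro f ⟨X', hX', hn', h', hh', rfl⟩
  exact P.le_of_mem_aux _ T U rfl hU X hX hn h hh hm X' hX' hn' h' hh'

/-- `op` on symmetric functions -/
theorem IsSt.op_symm {R : Finset α} {c : Perm R → K} (hc : IsSt R c) {f : Fn α K}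
    (hf : ∀ g : Perm R, act (Perm.ofSubtype g) f = f) : op R c f = f := by
  unfold op
  rw [LinearMap.sum_apply]
  have : ∀ g ∈ (univ : Finset (Perm R)), (c g • (act (Perm.ofSubtype g)).toLinearMap) f =
      c g • f := by
    intro g _
    rw [LinearMap.smul_apply, AlgHom.toLinearMap_apply, hf g]
  rw [sum_congr rfl this, ← sum_smul, hc.sum, one_smul]

theorem map_ofSubtype_eq {R X : Finset α} (hR : R ⊆ X) (g : Perm R) :
    X.map (Perm.ofSubtype g : Perm α).toEmbedding = X := by
  apply eq_of_subset_of_card_le
  · intro z hz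
    obtain ⟨w, hw, rfl⟩ := mem_map.mp hz
    by_cases h : w ∈ R
    · have : (Perm.ofSubtype g : Perm α).toEmbedding w = g ⟨w, h⟩ :=
        Perm.ofSubtype_apply_of_mem g h
      rw [this]
      exact hR (g ⟨w, h⟩).2
    · have : (Perm.ofSubtype g : Perm α).toEmbedding w = w :=
        Perm.ofSubtype_apply_of_not_mem g h
      rwa [this]
  · rw [card_map]

theorem act_ofSubtype_of_dep {R S : Finset α} (g : Perm R) {h : Fn α K} (hh : Dep S h)
    (hS : Disjoint S R) : act (Perm.ofSubtype g) h = h := by
  funext C
  rw [act_apply]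
  apply hh
  intro i hi
  simp only [Function.comp]
  rw [Perm.ofSubtype_apply_of_not_mem g (disjoint_left.mp hS hi)]

theorem P.anti {p : ℕ} (hp : p.Prime) [CharP K p] {k k' : ℕ} (hk : k ≤ k') (T : Finset α) :
    P K (p ^ k' - 1) T ≤ P K (p ^ k - 1) T := by
  intro f hf
  refine P.induction (q := fun f => f ∈ P K (p ^ k - 1) T) ?_ (Submodule.zero_mem _)
    (fun f g hf hg => Submodule.add_mem _ hf hg) (fun a f hf => Submodule.smul_mem _ _ hf) hf
  intro X hX hn h hh
  have hle : p ^ k ≤ p ^ k' := Nat.pow_le_pow_right hp.pos hk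
  obtain ⟨R, hRX, hR⟩ := exists_subset_card_eq (s := X) (n := p ^ k - 1) (by omega)
  obtain ⟨c, hc⟩ := exists_St (K := K) hp k hR
  have h1 : op R c (E K X * h) = E K X * h := by
    apply hc.op_symm
    intro g
    rw [map_mul, E_act, map_ofSubtype_eq hRX]
    congr 1
    refine act_ofSubtype_of_dep g hh.dep ?_
    rw [disjoint_left]
    intro z hz hz'
    exact (mem_sdiff.mp hz).2 (hRX hz')
  rw [← h1]
  exact hc.op_mem hp hR (hRX.trans hX) (P.le_Sp hp k' T (P.gen hX hn hh))

theorem E_pd_both {X : Finset α} {i j : α} (hi : i ∈ X) (hj : j ∈ X) (hij : i ≠ j) :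
    pd i j (E K X) = 0 := by
  funext C
  rw [pd_apply, Pi.zero_apply, sub_eq_zero]
  set C₁ := Function.update (Function.update C i true) j false with hC₁
  have h1 : Function.update (Function.update C i false) j true = C₁ ∘ swap i j := by
    rw [← upd_swap (C := C₁) hij (s := true) (t := false)
      (by rw [hC₁, Function.update_of_ne hij, Function.update_self])
      (by rw [hC₁, Function.update_self])]
    funext z
    by_cases hzj : z = j
    · subst hzj; rw [Function.update_self, Function.update_self]
    · rw [Function.update_of_ne hzj, Function.update_of_ne hzj]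
      by_cases hzi : z = i
      · subst hzi; rw [Function.update_self, Function.update_self]
      · rw [Function.update_of_ne hzi, Function.update_of_ne hzi, hC₁, Function.update_of_ne hzj,
          Function.update_of_ne hzi]
  rw [h1, ← act_apply (swap i j) (E K X) C₁, E_act, map_swap_eq hi hj]

/-- the snake relation -/
theorem pd_snake {X : Finset α} {f h : Fn α K} (hf : Dep X f) {i j b : α} (hi : i ∈ X)
    (hj : j ∉ X) (hb : b ∉ X) (hbj : b ≠ j) {S : Finset α} (hh : Dep S h) (hiS : i ∉ S)
    (hjS : j ∉ S) : pd i j (f * ((x j - x b) * h)) = -(act (swap i b) f * h) := by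
  have hij : i ≠ j := fun he => hj (he ▸ hi)
  have hbi : b ≠ i := fun he => hb (he ▸ hi)
  funext C
  rw [pd_apply, Pi.neg_apply, Pi.mul_apply, Pi.mul_apply, Pi.mul_apply, Pi.mul_apply,
    Pi.mul_apply, Pi.sub_apply, Pi.sub_apply, hf.update hj, hf.update hj, hh.update hjS,
    hh.update hjS, hh.update hiS, hh.update hiS, x_apply, x_apply, x_apply, x_apply,
    Function.update_self, Function.update_self, Function.update_of_ne hbj,
    Function.update_of_ne hbi, Function.update_of_ne hbj, Function.update_of_ne hbi, act_apply]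
  have h1 : f (C ∘ swap i b) = f (Function.update C i (C b)) := by
    apply hf
    intro z hz
    simp only [Function.comp]
    by_cases hzi : z = i
    · subst hzi
      rw [swap_apply_left, Function.update_self]
    · have hzb : z ≠ b := fun he => hb (he ▸ hz)
      rw [swap_apply_of_ne_of_ne hzi hzb, Function.update_of_ne hzi]
  rw [h1]
  cases C b <;> simp

theorem P.pd_mem {n : ℕ} {T : Finset α} {f : Fn α K} (h : f ∈ P K n T) {i j : α} (hi : i ∈ T)
    (hj : j ∈ T) (hij : i ≠ j) : pd i j f ∈ P K n ((T.erase i).erase j) := by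
  -- one letter in `X`
  have mixed : ∀ X ⊆ T, X.card = 2 * n → ∀ h, Mat K (T \ X) h → ∀ i ∈ X, ∀ j ∈ T, j ∉ X →
      pd i j (E K X * h) ∈ P K n ((T.erase i).erase j) := by
    intro X hX hn h hh i hi j hj hjX
    have hij : i ≠ j := fun he => hjX (he ▸ hi)
    obtain ⟨b, hb, hbj, h', hh', hp⟩ := hh.pick (mem_sdiff.mpr ⟨hj, hjX⟩)
    suffices hs : pd i j (E K X * ((x j - x b) * h')) ∈ P K n ((T.erase i).erase j) by
      rcases hp with rfl | rfl
      · exact hs
      · rw [mul_neg, map_neg]; exact Submodule.neg_mem _ hs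
    rw [mem_sdiff] at hb
    have hbi : b ≠ i := fun he => hb.2 (he ▸ hi)
    rw [pd_snake (E_dep X) hi hjX hb.2 hbj hh'.dep (by simp [hi]) (by simp), E_act]
    apply Submodule.neg_mem
    have h1 : X.map (swap i b).toEmbedding = insert b (X.erase i) := by
      ext z
      rw [mem_map_equiv, symm_swap, mem_insert, mem_erase, swap_apply_def]
      split_ifs with h1 h2
      · subst h1
        exact ⟨fun h => absurd h hb.2, fun h => by
          rcases h with h | h
          · exact absurd h.symm hbi
          · exact absurd rfl h.1⟩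
      · subst h2
        exact ⟨fun _ => Or.inl rfl, fun _ => hi⟩
      · exact ⟨fun h => Or.inr ⟨h1, h⟩, fun h => by
          rcases h with h | h
          · exact absurd h h2
          · exact h.2⟩
    refine P.gen ?_ (by rw [card_map, hn]) ?_
    · rw [h1]
      intro z hz
      rw [mem_insert, mem_erase] at hz
      rw [mem_erase, mem_erase]
      rcases hz with rfl | ⟨h2, h3⟩
      · exact ⟨hbj, hbi, hb.1⟩
      · exact ⟨fun he => hjX (he ▸ h3), h2, hX h3⟩
    · have h2 : ((T.erase i).erase j) \ X.map (swap i b).toEmbedding =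
          ((T \ X).erase j).erase b := by
        rw [h1]
        ext z
        simp only [mem_sdiff, mem_insert, mem_erase]
        constructor
        · rintro ⟨⟨h2, h3, h4⟩, h5⟩
          rw [not_or] at h5
          exact ⟨h5.1, h2, h4, fun h6 => h5.2 ⟨h3, h6⟩⟩
        · rintro ⟨h2, h3, h4, h5⟩
          exact ⟨⟨h3, fun he => h5 (he ▸ hi), h4⟩, fun h6 => by
            rcases h6 with h6 | h6
            · exact h2 h6
            · exact h5 h6.2⟩
      rw [h2]
      exact hh'
  refine P.induction (q := fun f => pd i j f ∈ P K n ((T.erase i).erase j)) ?_ ?_ ?_ ?_ h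
  · intro X hX hn h hh
    by_cases hiX : i ∈ X
    · by_cases hjX : j ∈ X
      · have h1 : pd i j (E K X * h) = 0 := by
          funext C
          have h2 := congrFun (E_pd_both (K := K) hiX hjX hij) C
          rw [pd_apply, Pi.zero_apply] at h2
          have hj' : j ∉ T \ X := fun h => (mem_sdiff.mp h).2 hjX
          have hi' : i ∉ T \ X := fun h => (mem_sdiff.mp h).2 hiX
          rw [pd_apply, Pi.mul_apply, Pi.mul_apply, hh.dep.update hj', hh.dep.update hj',
            hh.dep.update hi', hh.dep.update hi', ← sub_mul, h2, zero_mul]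
          rfl
        rw [h1]; exact Submodule.zero_mem _
      · exact mixed X hX hn h hh i hiX j hj hjX
    · by_cases hjX : j ∈ X
      · rw [pd_comm hij, erase_right_comm]
        exact Submodule.neg_mem _ (mixed X hX hn h hh j hjX i hi hiX)
      · -- both in the matching
        have h1 := _root_.Rank2.pd_mem hh.mem (i := i) (j := j) (mem_sdiff.mpr ⟨hi, hiX⟩)
          (mem_sdiff.mpr ⟨hj, hjX⟩) hij
        have h2 : pd i j (E K X * h) = E K X * pd i j h := by
          funext C
          rw [pd_apply, Pi.mul_apply, Pi.mul_apply, Pi.mul_apply, pd_apply,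
            (E_dep X).update hjX, (E_dep X).update hjX, (E_dep X).update hiX,
            (E_dep X).update hiX, mul_sub]
        rw [h2]
        have h3 : ∀ g ∈ Sp K (((T \ X).erase i).erase j), E K X * g ∈ P K n ((T.erase i).erase j) := by
          intro g hg
          refine Sp.induction (q := fun g => E K X * g ∈ P K n ((T.erase i).erase j))
            ?_ ?_ ?_ ?_ hg
          · intro g hg
            refine P.gen ?_ hn ?_
            · intro z hz
              rw [mem_erase, mem_erase]
              exact ⟨fun he => hjX (he ▸ hz), fun he => hiX (he ▸ hz), hX hz⟩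
            · have h4 : ((T.erase i).erase j) \ X = ((T \ X).erase i).erase j := by
                ext z
                simp only [mem_sdiff, mem_erase]
                tauto
              rwa [h4]
          · rw [mul_zero]; exact Submodule.zero_mem _
          · intro a b ha hb
            rw [mul_add]; exact Submodule.add_mem _ ha hb
          · intro a b hb
            rw [mul_smul_comm]; exact Submodule.smul_mem _ _ hb
        exact h3 _ h1
  · rw [map_zero]; exact Submodule.zero_mem _
  · intro f g hf hg
    rw [map_add]; exact Submodule.add_mem _ hf hg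
  · intro a f hf
    rw [map_smul]; exact Submodule.smul_mem _ _ hf

theorem P.torsion {n : ℕ} {T : Finset α} {f : Fn α K} (hf : Dep T f) (hT : T.Nonempty) {i j : α}
    (hij : i ≠ j) (hi : i ∉ T) (hj : j ∉ T)
    (h : (x i - x j) * f ∈ P K n (insert i (insert j T))) : f ∈ P K n T := by
  obtain ⟨a, ha⟩ := hT
  have haj : a ≠ j := fun he => hj (he ▸ ha)
  have hai : a ≠ i := fun he => hi (he ▸ ha)
  have h1 := P.pd_mem h (i := a) (j := j) (by simp [ha]) (by simp) haj
  have h2 : (x i - x j) * f = -(f * ((x j - x i) * 1)) := by ring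
  rw [h2, map_neg, pd_snake hf ha hj hi hij (Dep.one ∅) (by simp) (by simp), mul_one,
    neg_neg] at h1
  have h3 := P.act_mem h1 (swap a i)
  rw [act_swap_swap] at h3
  have h4 : (((insert i (insert j T)).erase a).erase j).map (swap a i).toEmbedding = T := by
    ext z
    rw [mem_map_equiv, symm_swap, mem_erase, mem_erase, mem_insert, mem_insert, swap_apply_def]
    split_ifs with h1 h2
    · subst h1
      exact ⟨fun _ => ha, fun _ => ⟨hij, Ne.symm hai, Or.inl rfl⟩⟩
    · subst h2
      exact ⟨fun h => absurd rfl h.2.1, fun h => absurd h hi⟩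
    · constructor
      · rintro ⟨h3, h4, h5 | h5 | h5⟩
        · exact absurd h5 h2
        · exact absurd h5 h3
        · exact h5
      · intro h3
        exact ⟨fun he => hj (he ▸ h3), h1, Or.inr (Or.inr h3)⟩
  rwa [h4] at h3

end Rank2
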