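import Pool.Agent.Lib.MP_a8d7f7_al.R2.L4

/-!
# MP_a8d7f7_al: uniseriality (helper7)
-/

set_option autoImplicit false
set_option linter.unusedSectionVars false
set_option linter.unusedVariables false

namespace Rank2

open Finset Equiv

variable {α K : Type*} [Field K] [DecidableEq α]

/-- if `U` is stable and contains all differences `f - (i j) f`, `i j ∈ R`, it contains
`f - g f` for all permutations `g` of `R` -/
theorem sub_act_mem {T R : Finset α} {U : Submodule K (Fn α K)} (hU : Stab T U) (hR : R ⊆ T)
    {f : Fn α K} (hf : ∀ i ∈ R, ∀ j ∈ R, f - act (swap i j) f ∈ U) (g : Perm R) :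
    f - act (Perm.ofSubtype g) f ∈ U := by
  induction g using Perm.swap_induction_on with
  | one => rw [map_one, act_one, sub_self]; exact U.zero_mem
  | swap_mul g a b hab ih =>
    rw [map_mul, act_mul, Equiv.Perm.ofSubtype_swap_eq]
    have h1 : f - act (swap (a : α) b) (act (Perm.ofSubtype g) f) =
        (f - act (swap (a : α) b) f) +
          act (swap (a : α) b) (f - act (Perm.ofSubtype g) f) := by
      rw [map_sub]; ring
    rw [h1]
    exact U.add_mem (hf a a.2 b b.2) (hU a (hR a.2) b (hR b.2) _ ih)

/-- the operator moves `f` only by differences -/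
theorem IsSt.sub_op_mem {R : Finset α} {c : Perm R → K} (hc : IsSt R c) {T : Finset α}
    {U : Submodule K (Fn α K)} (hU : Stab T U) (hR : R ⊆ T)
    {f : Fn α K} (hf : ∀ i ∈ R, ∀ j ∈ R, f - act (swap i j) f ∈ U) : f - op R c f ∈ U := by
  have h1 : f - op R c f = ∑ g : Perm R, c g • (f - act (Perm.ofSubtype g) f) := by
    have h2 : ∀ g ∈ (univ : Finset (Perm R)), c g • (f - act (Perm.ofSubtype g) f) =
        c g • f - c g • act (Perm.ofSubtype g) f := fun g _ => smul_sub _ _ _
    rw [sum_congr rfl h2, sum_sub_distrib, ← sum_smul, hc.sum, one_smul]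
    unfold op
    rw [LinearMap.sum_apply]
    rfl
  rw [h1]
  exact U.sum_mem (fun g _ => U.smul_mem _ (sub_act_mem hU hR hf g))

theorem uniserial_aux {p : ℕ} (hp : p.Prime) [CharP K p] : ∀ (m : ℕ) (T : Finset α) (f : Fn α K),
    T.card = m → f ∈ Sp K T → f ≠ 0 → ∃ k, 2 * (p ^ k - 1) ≤ T.card ∧
      f ∈ P K (p ^ k - 1) T ∧ ∀ U : Submodule K (Fn α K), Stab T U → f ∈ U →
        P K (p ^ k - 1) T ≤ U := by
  intro m
  induction m using Nat.strong_induction_on with
  | _ m ih =>
    intro T f hm hf hf0
    classical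
    -- the smallest `l` with `f ∉ P_l`
    have hex : ∃ l, f ∉ P K (p ^ l - 1) T := by
      refine ⟨T.card + 1, fun h => ?_⟩
      rw [P.small] at h
      · exact hf0 ((Submodule.mem_bot K).mp h)
      · have h1 : T.card + 1 < p ^ (T.card + 1) := Nat.lt_pow_self hp.one_lt
        omega
    set l := Nat.find hex with hl
    have hl1 : f ∉ P K (p ^ l - 1) T := Nat.find_spec hex
    have hl0 : l ≠ 0 := by
      intro h
      rw [h, pow_zero, Nat.sub_self, P.zero_eq] at hl1
      exact hl1 hf
    obtain ⟨k, hk⟩ := Nat.exists_eq_succ_of_ne_zero hl0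
    have hkf : f ∈ P K (p ^ k - 1) T := by
      by_contra hcon
      have := Nat.find_min' hex hcon
      omega
    have hkT : 2 * (p ^ k - 1) ≤ T.card := by
      by_contra hcon
      rw [P.small (by omega)] at hkf
      exact hf0 ((Submodule.mem_bot K).mp hkf)
    refine ⟨k, hkT, hkf, ?_⟩
    intro U hU hfU
    rw [hk] at hl1
    -- some contraction is not in `P_{k+1}`, or `f` is symmetric
    by_cases hcase : ∀ i ∈ T, ∀ j ∈ T, i ≠ j →
        pd i j f ∈ P K (p ^ (k + 1) - 1) ((T.erase i).erase j)
    · have hdiff : ∀ i ∈ T, ∀ j ∈ T, f - act (swap i j) f ∈ P K (p ^ (k + 1) - 1) T := by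
        intro i hi j hj
        by_cases hij : i = j
        · subst hij
          rw [act_swap_self, sub_self]
          exact Submodule.zero_mem _
        · rw [sub_act]
          have h1 := P.cons (hcase i hi j hj hij) hij (by simp) (by simp)
          have h2 : insert i (insert j ((T.erase i).erase j)) = T := by
            rw [insert_erase (mem_erase.mpr ⟨Ne.symm hij, hj⟩), insert_erase hi]
          rwa [h2] at h1
      by_cases hbig : 2 * (p ^ (k + 1) - 1) ≤ T.card
      · exfalso
        obtain ⟨R, hR, hRc⟩ := exists_subset_card_eq (s := T) (n := p ^ (k + 1) - 1) (by omega)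
        obtain ⟨c, hc⟩ := exists_St (K := K) hp (k + 1) hRc
        have h1 := hc.sub_op_mem (P.stab _ T) hR (fun i hi j hj => hdiff i (hR hi) j (hR hj))
        have h2 := hc.op_mem hp hRc hR hf
        have h3 := Submodule.add_mem _ h1 h2
        rw [sub_add_cancel] at h3
        exact hl1 h3
      · -- `f` is symmetric
        have hsym : ∀ i ∈ T, ∀ j ∈ T, act (swap i j) f = f := by
          intro i hi j hj
          have h1 := hdiff i hi j hj
          rw [P.small (by omega), Submodule.mem_bot, sub_eq_zero] at h1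
          exact h1.symm
        obtain ⟨k', hk', a, ha, hfa⟩ := Sp.symm hp hf hf0 hsym
        have hEf : ∀ V : Submodule K (Fn α K), f ∈ V → E K T ∈ V := by
          intro V hV
          have h1 := V.smul_mem a⁻¹ hV
          rw [hfa, smul_smul, inv_mul_cancel₀ ha, one_smul] at h1
          exact h1
        have hkk : p ^ k' - 1 = p ^ k - 1 := by
          have h1 : k' ≤ k := by
            by_contra hcon
            push Not at hcon
            apply hl1
            apply P.anti hp (show k + 1 ≤ k' from hcon)
            rw [hfa]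
            apply Submodule.smul_mem
            have := P.gen (K := K) (n := p ^ k' - 1) (subset_refl T) hk' (h := 1)
              (by rw [sdiff_self]; exact Mat.nil)
            rwa [mul_one] at this
          have h2 : p ^ k' ≤ p ^ k := Nat.pow_le_pow_right hp.pos h1
          have := Nat.pow_pos (n := k') hp.pos
          omega
        refine P.le_of_mem hU (subset_refl T) (by rw [hk', hkk]) (h := 1)
          (by rw [sdiff_self]; exact Mat.nil) ?_
        rw [mul_one]
        exact hEf U hfU
    · push Not at hcase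
      obtain ⟨i, hi, j, hj, hij, hnot⟩ := hcase
      set T₀ := (T.erase i).erase j with hT₀
      have hT₀T : T₀ ⊆ T := (erase_subset _ _).trans (erase_subset _ _)
      have hiT₀ : i ∉ T₀ := by simp [hT₀]
      have hjT₀ : j ∉ T₀ := by simp [hT₀]
      have hT₀i : insert i (insert j T₀) = T := by
        rw [hT₀, insert_erase (mem_erase.mpr ⟨Ne.symm hij, hj⟩), insert_erase hi]
      have hc : T₀.card < m := by
        rw [← hm, ← hT₀i, card_insert_of_notMem (by simp [hij, hiT₀]),
          card_insert_of_notMem hjT₀]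
        omega
      set g := pd i j f with hg
      have hg0 : g ≠ 0 := by
        intro h
        rw [h] at hnot
        exact hnot (Submodule.zero_mem _)
      have hgS : g ∈ Sp K T₀ := pd_mem hf hi hj hij
      have hgP : g ∈ P K (p ^ k - 1) T₀ := P.pd_mem hkf hi hj hij
      obtain ⟨k', hk', hgk', hU'⟩ := ih _ hc T₀ g rfl hgS hg0
      have hk'k : k' ≤ k := by
        by_contra hcon
        push Not at hcon
        exact hnot (P.anti hp (show k + 1 ≤ k' from hcon) T₀ hgk')
      have hUm : g ∈ U.comap (mulL (x i - x j)) := by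
        rw [Submodule.mem_comap, mulL_apply, hg, ← sub_act]
        exact U.sub_mem hfU (hU i hi j hj f hfU)
      have hle : P K (p ^ k - 1) T₀ ≤ U.comap (mulL (x i - x j)) :=
        (P.anti hp hk'k T₀).trans (hU' _ (hU.comap hT₀T hiT₀ hjT₀) hUm)
      -- a generator
      obtain ⟨X, hX, hXc, h, hh⟩ : ∃ X ⊆ T₀, X.card = 2 * (p ^ k - 1) ∧ ∃ h, Mat K (T₀ \ X) h := by
        by_contra hcon
        apply hg0
        have h1 : P K (p ^ k - 1) T₀ = ⊥ := by
          unfold P
          rw [Submodule.span_eq_bot]
          rintro f' ⟨X, hX, hXc, h, hh, rfl⟩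
          exact absurd ⟨X, hX, hXc, h, hh⟩ hcon
        rw [h1] at hgP
        exact (Submodule.mem_bot K).mp hgP
      have h1 := hle (P.gen hX hXc hh)
      rw [Submodule.mem_comap, mulL_apply] at h1
      have h2 : (x i - x j) * (E K X * h) = E K X * ((x i - x j) * h) := by ring
      rw [h2] at h1
      refine P.le_of_mem hU (hX.trans hT₀T) hXc ?_ h1
      have h3 : T \ X = insert i (insert j (T₀ \ X)) := by
        rw [← hT₀i, insert_sdiff_of_notMem _ (fun h => hiT₀ (hX h)),
          insert_sdiff_of_notMem _ (fun h => hjT₀ (hX h))]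
      rw [h3]
      exact hh.cons' hij (fun h => hiT₀ (mem_sdiff.mp h).1) (fun h => hjT₀ (mem_sdiff.mp h).1)

theorem uniserial {p : ℕ} (hp : p.Prime) [CharP K p] {T : Finset α} {f : Fn α K} (hf : f ∈ Sp K T)
    (hf0 : f ≠ 0) : ∃ k, 2 * (p ^ k - 1) ≤ T.card ∧ f ∈ P K (p ^ k - 1) T ∧
      ∀ U : Submodule K (Fn α K), Stab T U → f ∈ U → P K (p ^ k - 1) T ≤ U :=
  uniserial_aux hp _ T f rfl hf hf0

end Rank2
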