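import Pool.Agent.Lib.MP_a8d7f7_al.R2.Defs

/-!
# MP_a8d7f7_al: supports of elements of the group algebra (helper62)
-/

set_option autoImplicit false
set_option linter.unusedSectionVars false
set_option linter.unusedVariables false

namespace Rank2

open Finset Equiv FinSym

variable {K : Type*} [Field K] {Ω : Type*} [DecidableEq Ω]

/-- the group algebra acts on the functions by permuting the left letters -/
noncomputable def actz (K : Type*) [Field K] (Ω : Type*) :
    MonoidAlgebra K (FSym Ω) →ₐ[K] Module.End K (Fn (Ω ⊕ Ω) K) :=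
  MonoidAlgebra.lift K _ _
    { toFun := fun g => (act (Equiv.sumCongr (g : Perm Ω) (1 : Perm Ω))).toLinearMap
      map_one' := by
        apply LinearMap.ext
        intro f
        funext C
        simp only [AlgHom.toLinearMap_apply, act_apply, Module.End.one_apply]
        congr 1
        funext z
        rcases z with z | z <;> rfl
      map_mul' := by
        intro g h
        apply LinearMap.ext
        intro f
        funext C
        simp only [AlgHom.toLinearMap_apply, act_apply, Module.End.mul_apply]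
        congr 1
        funext z
        rcases z with z | z <;> rfl }

theorem actz_of (g : FSym Ω) (f : Fn (Ω ⊕ Ω) K) :
    actz K Ω (MonoidAlgebra.of K (FSym Ω) g) f = act (Equiv.sumCongr (g : Perm Ω) (1 : Perm Ω)) f := by
  unfold actz
  rw [MonoidAlgebra.lift_of]
  rfl

/-- the matching of the letters with their copies -/
def M (K : Type*) [Field K] {Ω : Type*} (D : Finset Ω) : Fn (Ω ⊕ Ω) K :=
  ∏ i ∈ D, (x (Sum.inl i) - x (Sum.inr i))

/-- the function of an element of the group algebra, with respect to the letters `D` -/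
noncomputable def poly (D : Finset Ω) (y : MonoidAlgebra K (FSym Ω)) : Fn (Ω ⊕ Ω) K :=
  actz K Ω y (M K D)

/-- `y` moves only letters of `D` -/
def On (D : Finset Ω) (y : MonoidAlgebra K (FSym Ω)) : Prop :=
  ∀ σ ∈ y.coeff.support, ∀ z, z ∉ D → (σ : Perm Ω) z = z

/-- the transposition -/
def sw (a b : Ω) : FSym Ω := ⟨swap a b, by
  rw [mem_FSym]
  apply Set.Finite.subset (Set.toFinite {a, b})
  intro z hz
  by_contra h
  simp only [Set.mem_insert_iff, Set.mem_singleton_iff, not_or] at h
  exact hz (swap_apply_of_ne_of_ne h.1 h.2)⟩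

/-- the difference -/
noncomputable def e (K : Type*) [Field K] {Ω : Type*} [DecidableEq Ω] (a b : Ω) :
    MonoidAlgebra K (FSym Ω) := 1 - MonoidAlgebra.of K (FSym Ω) (sw a b)

/-! ## Q1: supports -/

theorem expand_on (y : MonoidAlgebra K (FSym Ω)) :
    y = ∑ σ ∈ y.coeff.support, y.coeff σ • MonoidAlgebra.of K (FSym Ω) σ := by
  conv_lhs => rw [← MonoidAlgebra.sum_coeff_single y]
  rw [Finsupp.sum]
  apply sum_congr rfl
  intro σ _
  rw [MonoidAlgebra.of_apply, MonoidAlgebra.smul_single, smul_eq_mul, mul_one]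

omit [DecidableEq Ω] in
theorem On.zero (D : Finset Ω) : On D (0 : MonoidAlgebra K (FSym Ω)) := by
  intro σ hσ
  rw [MonoidAlgebra.coeff_zero, Finsupp.support_zero] at hσ
  exact absurd hσ (notMem_empty _)

omit [DecidableEq Ω] in
theorem On.of {D : Finset Ω} {g : FSym Ω} (h : ∀ z, z ∉ D → (g : Perm Ω) z = z) :
    On D (MonoidAlgebra.of K (FSym Ω) g) := by
  intro σ hσ
  rw [MonoidAlgebra.of_apply, MonoidAlgebra.coeff_single] at hσ
  have h1 := Finsupp.support_single_subset hσ
  rw [mem_singleton] at h1
  rw [h1]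
  exact h

omit [DecidableEq Ω] in
theorem On.one (D : Finset Ω) : On D (1 : MonoidAlgebra K (FSym Ω)) := by
  rw [← map_one (MonoidAlgebra.of K (FSym Ω))]
  exact On.of (fun z _ => rfl)

omit [DecidableEq Ω] in
theorem On.add {D : Finset Ω} {y z : MonoidAlgebra K (FSym Ω)} (hy : On D y) (hz : On D z) :
    On D (y + z) := by
  classical
  intro σ hσ
  rw [MonoidAlgebra.coeff_add] at hσ
  rcases mem_union.mp (Finsupp.support_add hσ) with h | h
  · exact hy σ h
  · exact hz σ h

omit [DecidableEq Ω] in
theorem On.smul {D : Finset Ω} {y : MonoidAlgebra K (FSym Ω)} (a : K) (hy : On D y) :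
    On D (a • y) := by
  intro σ hσ
  rw [MonoidAlgebra.coeff_smul] at hσ
  exact hy σ (Finsupp.support_smul hσ)

omit [DecidableEq Ω] in
theorem On.sub {D : Finset Ω} {y z : MonoidAlgebra K (FSym Ω)} (hy : On D y) (hz : On D z) :
    On D (y - z) := by
  have h := hy.add (hz.smul (-1))
  rwa [neg_smul, one_smul, ← sub_eq_add_neg] at h

omit [DecidableEq Ω] in
theorem On.mul {D : Finset Ω} {y z : MonoidAlgebra K (FSym Ω)} (hy : On D y) (hz : On D z) :
    On D (y * z) := by
  classical
  intro σ hσ w hw
  obtain ⟨σ₁, h1, σ₂, h2, h3⟩ := mem_mul.mp (MonoidAlgebra.support_coeff_mul_subset y z hσ)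
  rw [← h3]
  change (σ₁ : Perm Ω) ((σ₂ : Perm Ω) w) = w
  rw [hz σ₂ h2 w hw, hy σ₁ h1 w hw]

omit [DecidableEq Ω] in
theorem On.sum {ι : Type*} {s : Finset ι} {D : Finset Ω} {y : ι → MonoidAlgebra K (FSym Ω)}
    (hy : ∀ i ∈ s, On D (y i)) : On D (∑ i ∈ s, y i) := by
  classical
  induction s using Finset.induction_on with
  | empty =>
    rw [sum_empty]
    exact On.zero D
  | insert a s ha ih =>
    rw [sum_insert ha]
    exact (hy a (mem_insert_self _ _)).add (ih (fun i hi => hy i (mem_insert_of_mem hi)))

omit [DecidableEq Ω] in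
theorem On.mono {D D' : Finset Ω} (h : D ⊆ D') {y : MonoidAlgebra K (FSym Ω)} (hy : On D y) :
    On D' y := fun σ hσ z hz => hy σ hσ z (fun h' => hz (h h'))

omit [DecidableEq Ω] in
theorem exists_On (y : MonoidAlgebra K (FSym Ω)) : ∃ D, On D y := exists_support y

theorem On.induction {D : Finset Ω} {q : MonoidAlgebra K (FSym Ω) → Prop}
    (h0 : q 0) (hadd : ∀ y z, q y → q z → q (y + z)) (hsmul : ∀ (a : K) y, q y → q (a • y))
    (hof : ∀ g : FSym Ω, (∀ z, z ∉ D → (g : Perm Ω) z = z) → q (MonoidAlgebra.of K (FSym Ω) g))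
    {y : MonoidAlgebra K (FSym Ω)} (hy : On D y) : q y := by
  classical
  rw [expand_on y]
  have h : ∀ s : Finset (FSym Ω), s ⊆ y.coeff.support →
      q (∑ σ ∈ s, y.coeff σ • MonoidAlgebra.of K (FSym Ω) σ) := by
    intro s
    induction s using Finset.induction_on with
    | empty =>
      intro _
      rw [sum_empty]
      exact h0
    | insert a s ha ih =>
      intro hs
      rw [sum_insert ha]
      exact hadd _ _ (hsmul _ _ (hof a (hy a (hs (mem_insert_self _ _)))))
        (ih (fun i hi => hs (mem_insert_of_mem hi)))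
  exact h _ (subset_refl _)

theorem On.conj {D : Finset Ω} {y : MonoidAlgebra K (FSym Ω)} (hy : On D y) (g : FSym Ω) :
    On (D.map (g : Perm Ω).toEmbedding)
      (MonoidAlgebra.of K (FSym Ω) g * y * MonoidAlgebra.of K (FSym Ω) g⁻¹) := by
  refine On.induction (D := D) (q := fun y => On (D.map (g : Perm Ω).toEmbedding)
      (MonoidAlgebra.of K (FSym Ω) g * y * MonoidAlgebra.of K (FSym Ω) g⁻¹)) ?_ ?_ ?_ ?_ hy
  · rw [mul_zero, zero_mul]
    exact On.zero _
  · intro y z hy hz
    rw [mul_add, add_mul]
    exact hy.add hz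
  · intro a y hy
    rw [mul_smul_comm, smul_mul_assoc]
    exact hy.smul a
  · intro h hh
    rw [← map_mul, ← map_mul]
    apply On.of
    intro z hz
    rw [mem_map_equiv] at hz
    change (g : Perm Ω) ((h : Perm Ω) ((g : Perm Ω).symm z)) = z
    rw [hh _ hz, apply_symm_apply]

/-- elements with disjoint supports commute -/
theorem On.commute {D D' : Finset Ω} (h : Disjoint D D') {y z : MonoidAlgebra K (FSym Ω)}
    (hy : On D y) (hz : On D' z) : y * z = z * y := by
  refine On.induction (D := D) (q := fun y => y * z = z * y) ?_ ?_ ?_ ?_ hy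
  · rw [zero_mul, mul_zero]
  · intro y y' h1 h2
    rw [add_mul, mul_add, h1, h2]
  · intro a y h1
    rw [smul_mul_assoc, mul_smul_comm, h1]
  · intro g hg
    refine On.induction (D := D') (q := fun z => MonoidAlgebra.of K (FSym Ω) g * z =
      z * MonoidAlgebra.of K (FSym Ω) g) ?_ ?_ ?_ ?_ hz
    · rw [zero_mul, mul_zero]
    · intro y y' h1 h2
      rw [add_mul, mul_add, h1, h2]
    · intro a y h1
      rw [smul_mul_assoc, mul_smul_comm, h1]
    · intro g' hg'
      rw [← map_mul, ← map_mul]
      congr 1
      apply Subtype.ext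
      apply Equiv.ext
      intro w
      change (g : Perm Ω) ((g' : Perm Ω) w) = (g' : Perm Ω) ((g : Perm Ω) w)
      by_cases hw : w ∈ D
      · have hw' : w ∉ D' := disjoint_left.mp h hw
        have hgw : (g : Perm Ω) w ∈ D := by
          by_contra hcon
          have h1 := hg _ hcon
          have h2 := (g : Perm Ω).injective h1
          rw [h2] at hcon
          exact hcon hw
        rw [hg' w hw', hg' _ (disjoint_left.mp h hgw)]
      · by_cases hw' : w ∈ D'
        · have hgw : (g' : Perm Ω) w ∈ D' := by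
            by_contra hcon
            have h1 := hg' _ hcon
            have h2 := (g' : Perm Ω).injective h1
            rw [h2] at hcon
            exact hcon hw'
          rw [hg w hw, hg _ (disjoint_right.mp h hgw)]
        · rw [hg w hw, hg' w hw', hg w hw]

end Rank2
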