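import Pool.Agent.Lib.MP_a8d7f7_al.R2.X1

/-!
# MP_a8d7f7_al: ideals with a nonzero element moving at most three letters (helper5)
-/

set_option autoImplicit false
set_option linter.unusedSectionVars false
set_option linter.unusedVariables false

namespace FinSym

open Finset Equiv

variable {K : Type*} [Field K]

namespace S3

/-- a cycle of length 3 -/
def r : Perm (Fin 3) := swap 0 1 * swap 1 2

/-- a transposition -/
def t : Perm (Fin 3) := swap 0 1

theorem univ_eq : (univ : Finset (Perm (Fin 3))) = {1, r, r * r, t, r * t, r * r * t} := by decide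

theorem rrr : r * r * r = 1 := by decide

theorem tt : t * t = 1 := by decide

theorem trt : t * r * t = r * r := by decide

theorem trrt : t * (r * r) * t = r := by decide

theorem tr : t * r = r * r * t := by decide

theorem even_eq : ∀ σ : Perm (Fin 3), Perm.sign σ = 1 → σ = 1 ∨ σ = r ∨ σ = r * r := by decide

theorem sign_r : Perm.sign r = 1 := by decide

theorem sign_t : Perm.sign t = -1 := by decide

/-- group elements -/
noncomputable abbrev G (K : Type*) [Field K] (σ : Perm (Fin 3)) :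
    MonoidAlgebra K (Perm (Fin 3)) := MonoidAlgebra.of K (Perm (Fin 3)) σ

theorem G_mul (σ τ : Perm (Fin 3)) : G K σ * G K τ = G K (σ * τ) :=
  ((MonoidAlgebra.of K (Perm (Fin 3))).map_mul σ τ).symm

theorem G_one : G K 1 = 1 := (MonoidAlgebra.of K (Perm (Fin 3))).map_one

theorem sum_eq (f : Perm (Fin 3) → MonoidAlgebra K (Perm (Fin 3))) :
    ∑ σ, f σ = f 1 + f r + f (r * r) + f t + f (r * t) + f (r * r * t) := by
  rw [univ_eq, sum_insert (by decide), sum_insert (by decide), sum_insert (by decide),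
    sum_insert (by decide), sum_insert (by decide), sum_singleton]
  abel

/-- the symmetrizer -/
noncomputable def s (K : Type*) [Field K] : MonoidAlgebra K (Perm (Fin 3)) := ∑ σ, G K σ

/-- the antisymmetrizer -/
noncomputable def a (K : Type*) [Field K] : MonoidAlgebra K (Perm (Fin 3)) :=
  ∑ σ, ((Perm.sign σ : ℤ) : K) • G K σ

theorem s_eq : s K = (1 + G K r + G K (r * r)) * (1 + G K t) := by
  unfold s
  rw [sum_eq, mul_add, mul_one, add_mul, add_mul, one_mul, G_mul, G_mul, G_one]
  abel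

theorem a_eq : a K = (1 + G K r + G K (r * r)) * (1 - G K t) := by
  unfold a
  rw [sum_eq, mul_sub, mul_one, add_mul, add_mul, one_mul, G_mul, G_mul, G_one]
  simp only [Perm.sign_mul, sign_r, sign_t, Perm.sign_one]
  push_cast
  simp only [one_smul, neg_smul]
  abel

variable {J : TwoSidedIdeal (MonoidAlgebra K (Perm (Fin 3)))}

theorem sm {J : TwoSidedIdeal (MonoidAlgebra K (Perm (Fin 3)))} {c : K} (hc : c ≠ 0)
    {x : MonoidAlgebra K (Perm (Fin 3))} (h : c • x ∈ J) : x ∈ J := by
  have h1 := smul_mem_ideal c⁻¹ h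
  rwa [smul_smul, inv_mul_cancel₀ hc, one_smul] at h1

/-- reduction to `3 - (1 + r + r^2)` -/
theorem L1' {α β γ : K} (hz : α • 1 + β • G K r + γ • G K (r * r) ∈ J) (hs : α + β + γ = 0)
    (h0 : α ≠ 0) : (3 : K) • 1 - (1 + G K r + G K (r * r)) ∈ J := by
  have h1 : G K t * (α • 1 + β • G K r + γ • G K (r * r)) * G K t ∈ J :=
    J.mul_mem_right _ _ (J.mul_mem_left _ _ hz)
  have h2 : G K t * (α • 1 + β • G K r + γ • G K (r * r)) * G K t =
      α • 1 + β • G K (r * r) + γ • G K r := by
    simp only [mul_add, add_mul, mul_smul_comm, smul_mul_assoc, mul_one, G_mul, trt, trrt, tt,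
      G_one]
  rw [h2] at h1
  have h3 := J.add_mem hz h1
  apply sm h0
  have h4 : α • ((3 : K) • (1 : MonoidAlgebra K (Perm (Fin 3))) - (1 + G K r + G K (r * r))) =
      α • 1 + β • G K r + γ • G K (r * r) + (α • 1 + β • G K (r * r) + γ • G K r) := by
    have h5 : β + γ = -α := by linear_combination hs
    have h6 : α • (1 : MonoidAlgebra K (Perm (Fin 3))) + β • G K r + γ • G K (r * r) +
        (α • 1 + β • G K (r * r) + γ • G K r) =
        (α + α) • 1 + (β + γ) • G K r + (β + γ) • G K (r * r) := by module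
    rw [h6, h5]
    module
  rw [h4]
  exact h3

theorem L1 {α β γ : K} (hz : α • 1 + β • G K r + γ • G K (r * r) ∈ J) (hs : α + β + γ = 0)
    (h0 : ¬ (α = 0 ∧ β = 0 ∧ γ = 0)) : (3 : K) • 1 - (1 + G K r + G K (r * r)) ∈ J := by
  by_cases hα : α = 0
  · by_cases hβ : β = 0
    · have hγ : γ ≠ 0 := fun h => h0 ⟨hα, hβ, h⟩
      have h1 : G K r * (α • 1 + β • G K r + γ • G K (r * r)) ∈ J := J.mul_mem_left _ _ hz
      have h2 : G K r * (α • 1 + β • G K r + γ • G K (r * r)) =
          γ • 1 + α • G K r + β • G K (r * r) := by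
        simp only [mul_add, mul_smul_comm, mul_one, G_mul]
        rw [← mul_assoc, rrr, G_one]
        abel
      rw [h2] at h1
      exact L1' h1 (by rw [← hs]; ring) hγ
    · have h1 : G K (r * r) * (α • 1 + β • G K r + γ • G K (r * r)) ∈ J := J.mul_mem_left _ _ hz
      have h2 : G K (r * r) * (α • 1 + β • G K r + γ • G K (r * r)) =
          β • 1 + γ • G K r + α • G K (r * r) := by
        simp only [mul_add, mul_smul_comm, mul_one, G_mul]
        have h3 : r * r * (r * r) = r := by rw [← mul_assoc, rrr, one_mul]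
        rw [rrr, h3, G_one]
        abel
      rw [h2] at h1
      exact L1' h1 (by rw [← hs]; ring) hβ
  · exact L1' hz hs hα

theorem L2 (h : (3 : K) • 1 - (1 + G K r + G K (r * r)) ∈ J) :
    s K ∈ J ∨ ∀ σ : Perm (Fin 3), Perm.sign σ = 1 → G K σ - 1 ∈ J := by
  by_cases h3 : (3 : K) = 0
  · left
    have h1 := J.neg_mem h
    rw [h3, zero_smul, zero_sub, neg_neg] at h1
    rw [s_eq]
    exact J.mul_mem_right _ _ h1
  · right
    have h1 : ((3 : K) • 1 - (1 + G K r + G K (r * r))) * (G K r - 1) ∈ J := J.mul_mem_right _ _ h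
    have h2 : ((3 : K) • 1 - (1 + G K r + G K (r * r))) * (G K r - 1) = (3 : K) • (G K r - 1) := by
      rw [sub_mul, smul_mul_assoc, one_mul, mul_sub, mul_one, add_mul, add_mul, one_mul, G_mul,
        G_mul, rrr, G_one]
      abel
    rw [h2] at h1
    have h4 : G K r - 1 ∈ J := sm h3 h1
    have h5 : G K (r * r) - 1 ∈ J := by
      have h6 : G K (r * r) - 1 = G K r * (G K r - 1) + (G K r - 1) := by
        rw [mul_sub, mul_one, G_mul]
        abel
      rw [h6]
      exact J.add_mem (J.mul_mem_left _ _ h4) h4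
    intro σ hσ
    rcases even_eq σ hσ with rfl | rfl | rfl
    · rw [G_one, sub_self]
      exact J.zero_mem
    · exact h4
    · exact h5

/-- the first half: the part after the transposition -/
theorem L3 {α β γ α' β' γ' : K}
    (h : α • 1 + β • G K r + γ • G K (r * r) + α' • G K t + β' • G K (r * t) +
      γ' • G K (r * r * t) ∈ J) :
    (γ' - β') • 1 + (α' - γ') • G K r + (β' - α') • G K (r * r) ∈ J := by
  have h1 := J.sub_mem (J.mul_mem_left (G K r) _ h) (J.mul_mem_right _ (G K r) h)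
  have h2 := J.mul_mem_right _ (G K t) h1
  have e1 : r * t * r = t := by decide
  have e2 : r * r * t * r = r * t := by decide
  have e3 : r * (r * r) = 1 := by decide
  have e4 : r * (r * t) = r * r * t := by decide
  have e5 : r * (r * r * t) = t := by decide
  have e6 : r * r * t * t = r * r := by decide
  have e7 : r * t * t = r := by decide
  have h3 : (G K r * (α • 1 + β • G K r + γ • G K (r * r) + α' • G K t + β' • G K (r * t) +
      γ' • G K (r * r * t)) - (α • 1 + β • G K r + γ • G K (r * r) + α' • G K t +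
      β' • G K (r * t) + γ' • G K (r * r * t)) * G K r) * G K t =
      (γ' - β') • 1 + (α' - γ') • G K r + (β' - α') • G K (r * r) := by
    simp only [mul_add, add_mul, sub_mul, mul_smul_comm, smul_mul_assoc, mul_one, one_mul, G_mul,
      rrr, tr, e1, e2, e3, e4, e5, e6, e7, tt, G_one]
    module
  rw [h3] at h2
  exact h2

/-- **Every nonzero ideal of `K[S₃]` contains the symmetrizer, the antisymmetrizer, or all
differences `σ - 1`, `σ` even.** -/
theorem main {f : MonoidAlgebra K (Perm (Fin 3))} (hf : f ∈ J) (hf0 : f ≠ 0) :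
    s K ∈ J ∨ a K ∈ J ∨ ∀ σ : Perm (Fin 3), Perm.sign σ = 1 → G K σ - 1 ∈ J := by
  set α := f.coeff 1
  set β := f.coeff r
  set γ := f.coeff (r * r)
  set α' := f.coeff t
  set β' := f.coeff (r * t)
  set γ' := f.coeff (r * r * t)
  have hfe : f = α • 1 + β • G K r + γ • G K (r * r) + α' • G K t + β' • G K (r * t) +
      γ' • G K (r * r * t) := by
    conv_lhs => rw [expand f (subset_univ _)]
    rw [sum_eq, (MonoidAlgebra.of K (Perm (Fin 3))).map_one]
  rw [hfe] at hf
  have h1 := L3 hf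
  by_cases c1 : γ' - β' = 0 ∧ α' - γ' = 0 ∧ β' - α' = 0
  · -- multiply by the transposition
    have h2 := J.mul_mem_right _ (G K t) hf
    have e6 : r * r * t * t = r * r := by decide
    have e7 : r * t * t = r := by decide
    have h3 : (α • 1 + β • G K r + γ • G K (r * r) + α' • G K t + β' • G K (r * t) +
        γ' • G K (r * r * t)) * G K t = α' • 1 + β' • G K r + γ' • G K (r * r) + α • G K t +
        β • G K (r * t) + γ • G K (r * r * t) := by
      simp only [add_mul, smul_mul_assoc, one_mul, G_mul, e6, e7, tt, G_one]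
      abel
    rw [h3] at h2
    have h4 := L3 h2
    by_cases c2 : γ - β = 0 ∧ α - γ = 0 ∧ β - α = 0
    · have hβ' : β' = α' := sub_eq_zero.mp c1.2.2
      have hγ' : γ' = α' := (sub_eq_zero.mp c1.2.1).symm
      have hβ : β = α := sub_eq_zero.mp c2.2.2
      have hγ : γ = α := (sub_eq_zero.mp c2.2.1).symm
      have hne : ¬ (α = 0 ∧ α' = 0) := by
        rintro ⟨h5, h6⟩
        apply hf0
        rw [hfe, hβ, hγ, hβ', hγ', h5, h6]
        simp
      have hs : (α + α') • s K ∈ J := by
        have h5 := J.add_mem hf h2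
        have h6 : (α + α') • s K = α • 1 + β • G K r + γ • G K (r * r) + α' • G K t +
            β' • G K (r * t) + γ' • G K (r * r * t) + (α' • 1 + β' • G K r + γ' • G K (r * r) +
            α • G K t + β • G K (r * t) + γ • G K (r * r * t)) := by
          unfold s
          rw [sum_eq, G_one, hβ, hγ, hβ', hγ']
          module
        rw [h6]
        exact h5
      by_cases c3 : α + α' = 0
      · right
        left
        have h5 : α' = -α := by linear_combination c3
        have h6 : α ≠ 0 := by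
          intro h7
          apply hne
          rw [h5, h7, neg_zero]
          exact ⟨rfl, rfl⟩
        apply sm h6
        have h7 : α • a K = α • 1 + β • G K r + γ • G K (r * r) + α' • G K t +
            β' • G K (r * t) + γ' • G K (r * r * t) := by
          unfold a
          rw [sum_eq, G_one, hβ, hγ, hβ', hγ', h5]
          simp only [Perm.sign_mul, sign_r, sign_t, Perm.sign_one]
          push_cast
          module
        rw [h7]
        exact hf
      · left
        exact sm c3 hs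
    · have h5 := L1 h4 (by ring) c2
      rcases L2 h5 with h6 | h6
      · exact Or.inl h6
      · exact Or.inr (Or.inr h6)
  · have h5 := L1 h1 (by ring) c1
    rcases L2 h5 with h6 | h6
    · exact Or.inl h6
    · exact Or.inr (Or.inr h6)

end S3

/-! ### arbitrary sets of three letters -/

variable {Ω : Type*} [DecidableEq Ω]

/-- the algebra of the permutations of `Δ`, for a numbering of `Δ` -/
noncomputable def num (K : Type*) [Field K] {Ω : Type*} [DecidableEq Ω] {Δ : Finset Ω}
    (e : Fin 3 ≃ Δ) : MonoidAlgebra K (Perm (Fin 3)) →ₐ[K] MonoidAlgebra K (FSym Ω) :=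
  MonoidAlgebra.lift K _ _ ((MonoidAlgebra.of K (FSym Ω)).comp
    ((ext Δ).comp (e.permCongrHom : Perm (Fin 3) ≃* Perm Δ).toMonoidHom))

theorem num_G {Δ : Finset Ω} (e : Fin 3 ≃ Δ) (σ : Perm (Fin 3)) :
    num K e (S3.G K σ) = MonoidAlgebra.of K (FSym Ω) (ext Δ (e.permCongr σ)) := by
  unfold num
  rw [MonoidAlgebra.lift_of]
  rfl

theorem num_s {Δ : Finset Ω} (e : Fin 3 ≃ Δ) : num K e (S3.s K) = symmetrizer K Δ := by
  unfold S3.s symmetrizer
  rw [map_sum]
  simp only [num_G]
  exact Equiv.sum_comp e.permCongr (fun τ => MonoidAlgebra.of K (FSym Ω) (ext Δ τ))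

theorem num_a {Δ : Finset Ω} (e : Fin 3 ≃ Δ) : num K e (S3.a K) = antisymmetrizer K Δ := by
  unfold S3.a antisymmetrizer
  rw [map_sum, ← Equiv.sum_comp e.permCongr]
  apply sum_congr rfl
  intro σ _
  rw [map_smul, num_G, Perm.sign_permCongr]

/-- conjugation between two sets with the same number of letters -/
theorem exists_conj (Δ Δ' : Finset Ω) (h : Δ.card = Δ'.card) : ∃ (g : FSym Ω) (e : Δ ≃ Δ'),
    ∀ τ : Perm Δ, g * ext Δ τ * g⁻¹ = ext Δ' (e.permCongr τ) := by
  obtain ⟨g, hg⟩ := exists_move Δ Δ' h.le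
  let e₀ : Δ → Δ' := fun x => ⟨(g : Perm Ω) x, hg x x.2⟩
  have hinj : Function.Injective e₀ := by
    intro x y hxy
    apply Subtype.ext
    exact (g : Perm Ω).injective (Subtype.mk_eq_mk.mp hxy)
  have hbij : Function.Bijective e₀ := by
    rw [Fintype.bijective_iff_injective_and_card]
    exact ⟨hinj, by rw [Fintype.card_coe, Fintype.card_coe, h]⟩
  let e : Δ ≃ Δ' := Equiv.ofBijective e₀ hbij
  have he : ∀ x : Δ, ((e x : Δ') : Ω) = (g : Perm Ω) x := fun x => rfl
  refine ⟨g, e, fun τ => ?_⟩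
  apply Subtype.ext
  apply Equiv.ext
  intro z
  change (g : Perm Ω) (((ext Δ τ : FSym Ω) : Perm Ω) ((g : Perm Ω)⁻¹ z)) = _
  by_cases hz : z ∈ Δ'
  · obtain ⟨x, hx⟩ := e.surjective ⟨z, hz⟩
    have hx' : (g : Perm Ω) x = z := by
      rw [← he x, hx]
    have h1 : (g : Perm Ω)⁻¹ z = x := by
      rw [← hx']
      exact (g : Perm Ω).symm_apply_apply _
    rw [h1, ext_mem Δ τ x.2, ext_mem Δ' _ hz, ← he]
    rw [Equiv.permCongr_apply, ← hx, Equiv.symm_apply_apply]
  · have h1 : (g : Perm Ω)⁻¹ z ∉ Δ := by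
      intro h2
      apply hz
      have h3 := hg _ h2
      have h4 : (g : Perm Ω) ((g : Perm Ω)⁻¹ z) = z := (g : Perm Ω).apply_symm_apply z
      rwa [h4] at h3
    rw [ext_notMem Δ _ h1, ext_notMem Δ' _ hz]
    exact (g : Perm Ω).apply_symm_apply z

theorem conj_mem {I : TwoSidedIdeal (MonoidAlgebra K (FSym Ω))} {y : MonoidAlgebra K (FSym Ω)}
    (hy : y ∈ I) (g : FSym Ω) :
    MonoidAlgebra.of K (FSym Ω) g * y * MonoidAlgebra.of K (FSym Ω) g⁻¹ ∈ I :=
  I.mul_mem_right _ _ (I.mul_mem_left _ _ hy)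

theorem symmetrizer_mem_of_card {I : TwoSidedIdeal (MonoidAlgebra K (FSym Ω))} {Δ Δ' : Finset Ω}
    (h : Δ.card = Δ'.card) (hm : symmetrizer K Δ ∈ I) : symmetrizer K Δ' ∈ I := by
  obtain ⟨g, e, hg⟩ := exists_conj Δ Δ' h
  have h1 := conj_mem hm g
  have h2 : MonoidAlgebra.of K (FSym Ω) g * symmetrizer K Δ * MonoidAlgebra.of K (FSym Ω) g⁻¹ =
      symmetrizer K Δ' := by
    unfold symmetrizer
    rw [mul_sum, sum_mul, ← Equiv.sum_comp e.permCongr]
    apply sum_congr rfl
    intro τ _
    rw [← map_mul, ← map_mul, hg]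
  rwa [h2] at h1

theorem antisymmetrizer_mem_of_card {I : TwoSidedIdeal (MonoidAlgebra K (FSym Ω))}
    {Δ Δ' : Finset Ω} (h : Δ.card = Δ'.card) (hm : antisymmetrizer K Δ ∈ I) :
    antisymmetrizer K Δ' ∈ I := by
  obtain ⟨g, e, hg⟩ := exists_conj Δ Δ' h
  have h1 := conj_mem hm g
  have h2 : MonoidAlgebra.of K (FSym Ω) g * antisymmetrizer K Δ *
      MonoidAlgebra.of K (FSym Ω) g⁻¹ = antisymmetrizer K Δ' := by
    unfold antisymmetrizer
    rw [mul_sum, sum_mul, ← Equiv.sum_comp e.permCongr]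
    apply sum_congr rfl
    intro τ _
    rw [mul_smul_comm, smul_mul_assoc, ← map_mul, ← map_mul, hg, Perm.sign_permCongr]
  rwa [h2] at h1

theorem even_mem_of_card {I : TwoSidedIdeal (MonoidAlgebra K (FSym Ω))}
    {Δ Δ' : Finset Ω} (h : Δ.card = Δ'.card)
    (hm : ∀ σ : Perm Δ, Perm.sign σ = 1 → MonoidAlgebra.of K (FSym Ω) (ext Δ σ) - 1 ∈ I)
    (σ : Perm Δ') (hσ : Perm.sign σ = 1) : MonoidAlgebra.of K (FSym Ω) (ext Δ' σ) - 1 ∈ I := by
  obtain ⟨g, e, hg⟩ := exists_conj Δ Δ' h
  have h0 : Perm.sign (e.permCongr.symm σ) = 1 := by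
    rw [← Perm.sign_permCongr e, Equiv.apply_symm_apply, hσ]
  have h1 := conj_mem (hm _ h0) g
  have h2 : MonoidAlgebra.of K (FSym Ω) g *
      (MonoidAlgebra.of K (FSym Ω) (ext Δ (e.permCongr.symm σ)) - 1) *
      MonoidAlgebra.of K (FSym Ω) g⁻¹ = MonoidAlgebra.of K (FSym Ω) (ext Δ' σ) - 1 := by
    rw [mul_sub, sub_mul, ← map_mul, ← map_mul, hg, Equiv.apply_symm_apply, mul_one, ← map_mul,
      mul_inv_cancel, map_one]
  rwa [h2] at h1

/-- **The three cases.** -/
theorem mem_cases [Infinite Ω] {I : TwoSidedIdeal (MonoidAlgebra K (FSym Ω))}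
    {f : MonoidAlgebra K (FSym Ω)} (hf : f ∈ I) (hf0 : f ≠ 0) {X : Finset Ω} (hX : X.card ≤ 3)
    (hfX : ∀ σ ∈ f.coeff.support, ∀ z, z ∉ X → (σ : Perm Ω) z = z) :
    (∀ Δ : Finset Ω, Δ.card = 3 → symmetrizer K Δ ∈ I) ∨
    (∀ Δ : Finset Ω, Δ.card = 3 → antisymmetrizer K Δ ∈ I) ∨
    (∀ Δ : Finset Ω, Δ.card = 3 → ∀ σ : Perm Δ, Perm.sign σ = 1 →
      MonoidAlgebra.of K (FSym Ω) (ext Δ σ) - 1 ∈ I) := by
  obtain ⟨Δ, hΔ⟩ := Infinite.exists_subset_card_eq Ω 3
  have hle : X.card ≤ Δ.card := by rw [hΔ]; exact hX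
  obtain ⟨X₀, s, c, σ₀, hc, hs, hσ₀, hcσ, hm⟩ := transfer hf hf0 hfX hle
  have hcard : Fintype.card (Fin 3) = Fintype.card Δ := by rw [Fintype.card_coe, hΔ, Fintype.card_fin]
  let e : Fin 3 ≃ Δ := Fintype.equivOfCardEq hcard
  -- the element over `Fin 3`
  set y : MonoidAlgebra K (Perm (Fin 3)) := ∑ σ ∈ s, c σ • S3.G K (e.permCongr.symm σ) with hy
  have hyJ : y ∈ I.comap (num K e) := by
    rw [TwoSidedIdeal.mem_comap, hy, map_sum]
    rw [TwoSidedIdeal.mem_comap, map_sum] at hm
    have h1 : ∑ σ ∈ s, num K e (c σ • S3.G K (e.permCongr.symm σ)) =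
        ∑ σ ∈ s, phi K Δ (c σ • o K σ) := by
      apply sum_congr rfl
      intro σ _
      rw [map_smul, num_G, Equiv.apply_symm_apply, map_smul, phi_o]
    rw [h1]
    exact hm
  have hy0 : y ≠ 0 := by
    intro h
    apply hcσ
    have h1 := congrArg (fun z => z.coeff (e.permCongr.symm σ₀)) h
    simp only [hy, MonoidAlgebra.coeff_sum, MonoidAlgebra.coeff_zero, Finsupp.coe_zero,
      Pi.zero_apply] at h1
    rw [Finsupp.finsetSum_apply, sum_eq_single_of_mem σ₀ hσ₀] at h1
    · rw [MonoidAlgebra.coeff_smul, Finsupp.smul_apply] at h1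
      unfold S3.G at h1
      rw [MonoidAlgebra.of_apply,
        MonoidAlgebra.coeff_single, Finsupp.single_eq_same, smul_eq_mul, mul_one] at h1
      exact h1
    · intro σ _ hσ
      rw [MonoidAlgebra.coeff_smul, Finsupp.smul_apply]
      unfold S3.G
      rw [MonoidAlgebra.of_apply,
        MonoidAlgebra.coeff_single, Finsupp.single_eq_of_ne, smul_zero]
      intro h2
      exact hσ (e.permCongr.symm.injective h2).symm
  rcases S3.main hyJ hy0 with h | h | h
  · left
    rw [TwoSidedIdeal.mem_comap, num_s] at h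
    intro Δ' hΔ'
    exact symmetrizer_mem_of_card (hΔ.trans hΔ'.symm) h
  · right
    left
    rw [TwoSidedIdeal.mem_comap, num_a] at h
    intro Δ' hΔ'
    exact antisymmetrizer_mem_of_card (hΔ.trans hΔ'.symm) h
  · right
    right
    intro Δ' hΔ'
    apply even_mem_of_card (hΔ.trans hΔ'.symm)
    intro σ hσ
    have h1 : Perm.sign (e.permCongr.symm σ) = 1 := by
      rw [← Perm.sign_permCongr e, Equiv.apply_symm_apply, hσ]
    have h2 := h _ h1
    rw [TwoSidedIdeal.mem_comap, map_sub, map_one, num_G, Equiv.apply_symm_apply] at h2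
    exact h2

end FinSym
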