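import Pool.Agent.Lib.MP_a8d7f7_al.R2.XB

/-!
# MP_a8d7f7_al, two rows: the membership test (helper5)

`ee i` is the `i`-th divided power of the lowering operator on the finite subsets.  An element `y`
of the group algebra passes the test for `m` if, for all large finite sets `D`, it maps every
vector on the subsets of `D` killed by `ee 1, …, ee m` to an element of `ee m (W D)`.
-/

set_option autoImplicit false
set_option linter.unusedSectionVars false
set_option linter.unusedVariables false

namespace FinSym.TR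

open Finset Equiv

variable {K : Type*} [Field K] {Ω : Type*} [DecidableEq Ω]

/-- The lowering operator: a set is sent to the sum of its subsets with `i` elements less. -/
noncomputable def ee (K : Type*) [Field K] (Ω : Type*) [DecidableEq Ω] (i : ℕ) :
    W K Ω →ₗ[K] W K Ω :=
  Finsupp.linearCombination K
    (fun S : Finset Ω => ∑ T ∈ S.powerset.filter (fun T => T.card + i = S.card), bs K T)

theorem ee_bs (i : ℕ) (S : Finset Ω) :
    ee K Ω i (bs K S) = ∑ T ∈ S.powerset.filter (fun T => T.card + i = S.card), bs K T := by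
  unfold ee
  rw [Finsupp.linearCombination_single, one_smul]

/-- the vectors on the subsets of `D` -/
def Wd (K : Type*) [Field K] {Ω : Type*} (D : Finset Ω) : Submodule K (W K Ω) :=
  Finsupp.supported K K {T : Finset Ω | T ⊆ D}

theorem bs_mem_Wd {D S : Finset Ω} (h : S ⊆ D) : bs K S ∈ Wd K D :=
  Finsupp.single_mem_supported K 1 h

theorem Wd_eq_span (D : Finset Ω) :
    Wd K D = Submodule.span K ((fun S => bs K S) '' {T : Finset Ω | T ⊆ D}) :=
  Finsupp.supported_eq_span_single K _

/-- induction over `Wd` -/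
theorem Wd_induction {D : Finset Ω} {p : W K Ω → Prop} (hb : ∀ S, S ⊆ D → p (bs K S)) (h0 : p 0)
    (hadd : ∀ x y, p x → p y → p (x + y)) (hsmul : ∀ (r : K) x, p x → p (r • x)) {w : W K Ω}
    (hw : w ∈ Wd K D) : p w := by
  rw [Wd_eq_span] at hw
  induction hw using Submodule.span_induction with
  | mem x hx =>
    obtain ⟨S, hS, rfl⟩ := hx
    exact hb S hS
  | zero => exact h0
  | add x y _ _ hx hy => exact hadd x y hx hy
  | smul r x _ hx => exact hsmul r x hx

theorem Wd_mono {D D' : Finset Ω} (h : D ⊆ D') : Wd K D ≤ Wd K D' :=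
  Finsupp.supported_mono (fun _ hT => Finset.Subset.trans hT h)

theorem linearMap_ext_bs {V : Type*} [AddCommGroup V] [Module K V] {f f' : W K Ω →ₗ[K] V}
    (h : ∀ S, f (bs K S) = f' (bs K S)) : f = f' := by
  apply Finsupp.lhom_ext
  intro S a
  have h1 : (Finsupp.single S a : W K Ω) = a • bs K S := by
    rw [Finsupp.smul_single, smul_eq_mul, mul_one]
  rw [h1, map_smul, map_smul, h S]

theorem mv_sdiff {σ : FSym Ω} (S B : Finset Ω) : mv σ (S \ B) = mv σ S \ mv σ B := by
  ext x
  rw [mem_mv, mem_sdiff, mem_sdiff, mem_mv, mem_mv]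

/-- the lowering operators commute with the group algebra -/
theorem ee_act (i : ℕ) (y : MonoidAlgebra K (FSym Ω)) (w : W K Ω) :
    ee K Ω i (act K Ω y w) = act K Ω y (ee K Ω i w) := by
  have hg : ∀ σ : FSym Ω, ∀ w : W K Ω, ee K Ω i (act K Ω (g K σ) w) =
      act K Ω (g K σ) (ee K Ω i w) := by
    intro σ w
    have h1 : (ee K Ω i) ∘ₗ (act K Ω (g K σ)) = (act K Ω (g K σ)) ∘ₗ (ee K Ω i) := by
      apply linearMap_ext_bs
      intro S
      rw [LinearMap.comp_apply, LinearMap.comp_apply, act_g, ee_bs, ee_bs, map_sum]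
      simp only [act_g]
      symm
      apply sum_bij (fun T _ => mv σ T)
      · intro T hT
        rw [mem_filter, mem_powerset] at hT ⊢
        rw [card_mv, card_mv]
        exact ⟨mv_subset.mpr hT.1, hT.2⟩
      · intro T _ T' _ h
        exact mv_inj h
      · intro T hT
        rw [mem_filter, mem_powerset, card_mv] at hT
        have h2 : mv σ (mv σ⁻¹ T) = T := by
          rw [← mv_mul, mul_inv_cancel, mv_one]
        refine ⟨mv σ⁻¹ T, ?_, h2⟩
        rw [mem_filter, mem_powerset, card_mv]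
        refine ⟨?_, hT.2⟩
        rw [← mv_subset (σ := σ), h2]
        exact hT.1
      · intro T _
        rfl
    exact LinearMap.congr_fun h1 w
  rw [act_expand, map_sum, act_expand (w := ee K Ω i w)]
  apply sum_congr rfl
  intro σ _
  rw [map_smul, hg]

theorem act_mem_Wd {D : Finset Ω} {y : MonoidAlgebra K (FSym Ω)} (hy : y ∈ AD K D) {w : W K Ω}
    (hw : w ∈ Wd K D) : act K Ω y w ∈ Wd K D := by
  refine AD_induction (p := fun y => act K Ω y w ∈ Wd K D) ?_ ?_ ?_ ?_ hy
  · intro σ hσ
    refine Wd_induction (p := fun w => act K Ω (g K σ) w ∈ Wd K D) ?_ ?_ ?_ ?_ hw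
    · intro S hS
      rw [act_g]
      apply bs_mem_Wd
      intro z hz
      rw [mem_mv] at hz
      have h1 : ((σ⁻¹ : FSym Ω) : Perm Ω) z ∈ D := hS hz
      have h2 := FD_maps hσ h1
      have h3 : (σ : Perm Ω) (((σ⁻¹ : FSym Ω) : Perm Ω) z) = z := self_inv _ _
      rwa [h3] at h2
    · rw [map_zero]; exact Submodule.zero_mem _
    · intro x y hx hy
      rw [map_add]; exact Submodule.add_mem _ hx hy
    · intro r x hx
      rw [map_smul]; exact Submodule.smul_mem _ _ hx
  · rw [map_zero]; exact Submodule.zero_mem _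
  · intro x y hx hy
    rw [map_add]; exact Submodule.add_mem _ hx hy
  · intro r x hx
    rw [map_smul]; exact Submodule.smul_mem _ _ hx

/-- `w` is killed by `ee 1, …, ee m` -/
def Kil (m : ℕ) (w : W K Ω) : Prop := ∀ i, 1 ≤ i → i ≤ m → ee K Ω i w = 0

theorem Kil.act {m : ℕ} {w : W K Ω} (h : Kil m w) (y : MonoidAlgebra K (FSym Ω)) :
    Kil m (act K Ω y w) := by
  intro i h1 h2
  rw [ee_act, h i h1 h2, map_zero]

/-- the element `y` passes the test on `D` -/
def Test (m : ℕ) (D : Finset Ω) (y : MonoidAlgebra K (FSym Ω)) : Prop :=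
  ∀ w ∈ Wd K D, Kil m w → ∃ v ∈ Wd K D, act K Ω y w = ee K Ω m v

/-- **The test ideal.** -/
noncomputable def TI (K : Type*) [Field K] (Ω : Type*) [DecidableEq Ω] (m : ℕ) :
    TwoSidedIdeal (MonoidAlgebra K (FSym Ω)) :=
  TwoSidedIdeal.mk' {y | ∃ D₀ : Finset Ω, ∀ D, D₀ ⊆ D → Test m D y}
    (by
      refine ⟨∅, fun D _ w _ _ => ⟨0, Submodule.zero_mem _, ?_⟩⟩
      rw [map_zero, map_zero, LinearMap.zero_apply])
    (by
      rintro x y ⟨D₁, h₁⟩ ⟨D₂, h₂⟩
      refine ⟨D₁ ∪ D₂, fun D hD w hw hk => ?_⟩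
      obtain ⟨v₁, hv₁, e₁⟩ := h₁ D (Finset.Subset.trans subset_union_left hD) w hw hk
      obtain ⟨v₂, hv₂, e₂⟩ := h₂ D (Finset.Subset.trans subset_union_right hD) w hw hk
      refine ⟨v₁ + v₂, Submodule.add_mem _ hv₁ hv₂, ?_⟩
      rw [map_add, LinearMap.add_apply, e₁, e₂, map_add])
    (by
      rintro x ⟨D₁, h₁⟩
      refine ⟨D₁, fun D hD w hw hk => ?_⟩
      obtain ⟨v₁, hv₁, e₁⟩ := h₁ D hD w hw hk
      refine ⟨-v₁, Submodule.neg_mem _ hv₁, ?_⟩
      rw [map_neg, LinearMap.neg_apply, e₁, map_neg])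
    (by
      rintro x y ⟨D₁, h₁⟩
      obtain ⟨D₂, h₂⟩ := exists_AD x
      refine ⟨D₁ ∪ D₂, fun D hD w hw hk => ?_⟩
      obtain ⟨v₁, hv₁, e₁⟩ := h₁ D (Finset.Subset.trans subset_union_left hD) w hw hk
      have hx : x ∈ AD K D := AD_mono (Finset.Subset.trans subset_union_right hD) h₂
      refine ⟨act K Ω x v₁, act_mem_Wd hx hv₁, ?_⟩
      rw [map_mul, Module.End.mul_apply, e₁, ee_act])
    (by
      rintro x y ⟨D₁, h₁⟩
      obtain ⟨D₂, h₂⟩ := exists_AD y
      refine ⟨D₁ ∪ D₂, fun D hD w hw hk => ?_⟩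
      have hy : y ∈ AD K D := AD_mono (Finset.Subset.trans subset_union_right hD) h₂
      obtain ⟨v₁, hv₁, e₁⟩ := h₁ D (Finset.Subset.trans subset_union_left hD) (act K Ω y w)
        (act_mem_Wd hy hw) (hk.act y)
      refine ⟨v₁, hv₁, ?_⟩
      rw [map_mul, Module.End.mul_apply, e₁])

theorem mem_TI {m : ℕ} {y : MonoidAlgebra K (FSym Ω)} :
    y ∈ TI K Ω m ↔ ∃ D₀ : Finset Ω, ∀ D, D₀ ⊆ D → Test m D y := by
  unfold TI
  rw [TwoSidedIdeal.mem_mk']
  rfl

/-! ### the Steinberg element passes the test -/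

/-- the operator of the Steinberg element on the letters `Q` -/
noncomputable def hop (K : Type*) [Field K] {Ω : Type*} [DecidableEq Ω] (Q : Finset Ω) :
    W K Ω →ₗ[K] W K Ω :=
  Finsupp.linearCombination K
    (fun S : Finset Ω => ∑ T ∈ (S ∪ Q).powerset.filter (fun T => T \ Q = S \ Q ∧ T.card = S.card),
      (-1 : K) ^ (S ∩ Q).card • bs K T)

theorem hop_bs (Q S : Finset Ω) : hop K Q (bs K S) =
    ∑ T ∈ (S ∪ Q).powerset.filter (fun T => T \ Q = S \ Q ∧ T.card = S.card),
      (-1 : K) ^ (S ∩ Q).card • bs K T := by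
  unfold hop
  rw [Finsupp.linearCombination_single, one_smul]

/-- sets disjoint from `Q` are joined with `Q`, the others are killed -/
noncomputable def gop (K : Type*) [Field K] {Ω : Type*} [DecidableEq Ω] (Q : Finset Ω) :
    W K Ω →ₗ[K] W K Ω :=
  Finsupp.linearCombination K (fun S : Finset Ω => if Disjoint S Q then bs K (S ∪ Q) else 0)

theorem gop_bs (Q S : Finset Ω) :
    gop K Q (bs K S) = if Disjoint S Q then bs K (S ∪ Q) else 0 := by
  unfold gop
  rw [Finsupp.linearCombination_single, one_smul]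

theorem term_bs (Q S : Finset Ω) {i : ℕ} (hi : i ≤ Q.card) :
    ee K Ω (Q.card - i) (gop K Q (ee K Ω i (bs K S))) =
      ∑ B ∈ (S \ Q).powerset.filter (fun B => B.card + i = S.card),
        ∑ T ∈ (S ∪ Q).powerset.filter (fun T => T ⊆ B ∪ Q ∧ T.card = S.card), bs K T := by
  rw [ee_bs, map_sum, map_sum]
  have h1 : ∀ B ∈ S.powerset.filter (fun B => B.card + i = S.card),
      ee K Ω (Q.card - i) (gop K Q (bs K B)) = if Disjoint B Q then
        ∑ T ∈ (S ∪ Q).powerset.filter (fun T => T ⊆ B ∪ Q ∧ T.card = S.card), bs K T else 0 := by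
    intro B hB
    rw [mem_filter, mem_powerset] at hB
    rw [gop_bs]
    split_ifs with hd
    · rw [ee_bs, card_union_of_disjoint hd]
      apply sum_congr _ (fun _ _ => rfl)
      ext T
      rw [mem_filter, mem_filter, mem_powerset, mem_powerset]
      constructor
      · rintro ⟨h2, h3⟩
        exact ⟨Finset.Subset.trans h2 (union_subset_union hB.1 (Finset.Subset.refl _)), h2, by omega⟩
      · rintro ⟨_, h2, h3⟩
        exact ⟨h2, by omega⟩
    · rw [map_zero]
  rw [sum_congr rfl h1, ← sum_filter]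
  apply sum_congr _ (fun _ _ => rfl)
  ext B
  rw [mem_filter, mem_filter, mem_filter, mem_powerset, mem_powerset]
  constructor
  · rintro ⟨⟨h2, h3⟩, h4⟩
    refine ⟨?_, h3⟩
    intro z hz
    rw [mem_sdiff]
    exact ⟨h2 hz, disjoint_left.mp h4 hz⟩
  · rintro ⟨h2, h3⟩
    refine ⟨⟨Finset.Subset.trans h2 sdiff_subset, h3⟩, ?_⟩
    rw [disjoint_left]
    intro z hz
    exact (mem_sdiff.mp (h2 hz)).2

/-- **The operator identity.** -/
theorem hop_eq (Q : Finset Ω) (w : W K Ω) :
    hop K Q w = ∑ i ∈ range (Q.card + 1),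
      (-1 : K) ^ i • ee K Ω (Q.card - i) (gop K Q (ee K Ω i w)) := by
  have h0 : hop K Q = ∑ i ∈ range (Q.card + 1),
      (-1 : K) ^ i • ((ee K Ω (Q.card - i)) ∘ₗ (gop K Q) ∘ₗ (ee K Ω i)) := by
    apply linearMap_ext_bs
    intro S
    rw [hop_bs, LinearMap.sum_apply]
    simp only [LinearMap.smul_apply, LinearMap.comp_apply]
    have h1 : ∀ i ∈ range (Q.card + 1),
        (-1 : K) ^ i • ee K Ω (Q.card - i) (gop K Q (ee K Ω i (bs K S))) =
        ∑ B ∈ (S \ Q).powerset, if B.card + i = S.card then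
          (-1 : K) ^ i • ∑ T ∈ (S ∪ Q).powerset.filter (fun T => T ⊆ B ∪ Q ∧ T.card = S.card),
            bs K T else 0 := by
      intro i hi
      rw [mem_range] at hi
      rw [term_bs Q S (by omega), smul_sum, sum_filter]
    rw [sum_congr rfl h1, sum_comm]
    -- for fixed `B` only `i = #S - #B`
    have h2 : ∀ B ∈ (S \ Q).powerset, (∑ i ∈ range (Q.card + 1), if B.card + i = S.card then
          (-1 : K) ^ i • ∑ T ∈ (S ∪ Q).powerset.filter (fun T => T ⊆ B ∪ Q ∧ T.card = S.card),
            bs K T else 0) =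
        (-1 : K) ^ (S.card - B.card) •
          ∑ T ∈ (S ∪ Q).powerset.filter (fun T => T ⊆ B ∪ Q ∧ T.card = S.card), bs K T := by
      intro B hB
      rw [mem_powerset] at hB
      have hBS : B.card ≤ S.card := card_le_card (Finset.Subset.trans hB sdiff_subset)
      by_cases h3 : S.card - B.card ∈ range (Q.card + 1)
      · rw [sum_eq_single_of_mem _ h3]
        · rw [if_pos (by omega)]
        · intro i _ hi
          rw [if_neg]
          omega
      · rw [mem_range] at h3
        rw [sum_eq_zero]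
        · have h4 : (S ∪ Q).powerset.filter (fun T => T ⊆ B ∪ Q ∧ T.card = S.card) = ∅ := by
            rw [filter_eq_empty_iff]
            rintro T _ ⟨h5, h6⟩
            have h7 := card_le_card h5
            have h8 := card_union_le B Q
            omega
          rw [h4, sum_empty, smul_zero]
        · intro i hi
          rw [mem_range] at hi
          rw [if_neg]
          omega
    rw [sum_congr rfl h2]
    -- exchange the sums
    have h3 : ∀ B ∈ (S \ Q).powerset, (-1 : K) ^ (S.card - B.card) •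
          ∑ T ∈ (S ∪ Q).powerset.filter (fun T => T ⊆ B ∪ Q ∧ T.card = S.card), bs K T =
        ∑ T ∈ (S ∪ Q).powerset.filter (fun T => T.card = S.card),
          (if T ⊆ B ∪ Q then (-1 : K) ^ (S.card - B.card) else 0) • bs K T := by
      intro B _
      rw [smul_sum, sum_filter, sum_filter]
      apply sum_congr rfl
      intro T _
      by_cases h4 : T ⊆ B ∪ Q <;> by_cases h5 : T.card = S.card <;> simp [h4, h5]
    rw [sum_congr rfl h3, sum_comm]
    have h4 : ∀ T ∈ (S ∪ Q).powerset.filter (fun T => T.card = S.card),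
        (∑ B ∈ (S \ Q).powerset, (if T ⊆ B ∪ Q then (-1 : K) ^ (S.card - B.card) else 0) •
          bs K T) = if T \ Q = S \ Q then (-1 : K) ^ (S ∩ Q).card • bs K T else 0 := by
      intro T hT
      rw [mem_filter, mem_powerset] at hT
      rw [← sum_smul, ← sum_filter]
      have hTQ : T \ Q ⊆ S \ Q := by
        intro z hz
        rw [mem_sdiff] at hz ⊢
        refine ⟨?_, hz.2⟩
        rcases mem_union.mp (hT.1 hz.1) with h5 | h5
        · exact h5
        · exact absurd h5 hz.2
      have hcard : S.card = (S ∩ Q).card + (S \ Q).card := (card_inter_add_card_sdiff S Q).symm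
      have h5 : ∑ B ∈ (S \ Q).powerset.filter (fun B => T ⊆ B ∪ Q), (-1 : K) ^ (S.card - B.card) =
          ∑ B' ∈ ((S \ Q) \ (T \ Q)).powerset, (-1 : K) ^ ((S ∩ Q).card + B'.card) := by
        apply sum_bij' (fun B _ => (S \ Q) \ B) (fun B' _ => (S \ Q) \ B')
        · intro B hB
          rw [mem_filter, mem_powerset] at hB
          rw [mem_powerset]
          intro z hz
          rw [mem_sdiff] at hz ⊢
          refine ⟨hz.1, fun h6 => ?_⟩
          rw [mem_sdiff] at h6
          rcases mem_union.mp (hB.2 h6.1) with h7 | h7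
          · exact hz.2 h7
          · exact h6.2 h7
        · intro B' hB'
          rw [mem_powerset] at hB'
          rw [mem_filter, mem_powerset]
          refine ⟨sdiff_subset, ?_⟩
          intro z hz
          rw [mem_union]
          by_cases h6 : z ∈ Q
          · exact Or.inr h6
          · left
            have h7 : z ∈ T \ Q := mem_sdiff.mpr ⟨hz, h6⟩
            rw [mem_sdiff]
            refine ⟨hTQ h7, fun h8 => ?_⟩
            exact (mem_sdiff.mp (hB' h8)).2 h7
        · intro B hB
          rw [mem_filter, mem_powerset] at hB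
          exact Finset.sdiff_sdiff_eq_self hB.1
        · intro B' hB'
          rw [mem_powerset] at hB'
          exact Finset.sdiff_sdiff_eq_self (Finset.Subset.trans hB' sdiff_subset)
        · intro B hB
          rw [mem_filter, mem_powerset] at hB
          congr 1
          rw [card_sdiff_of_subset hB.1]
          have := card_le_card hB.1
          omega
      rw [h5]
      have h6 : ∑ B' ∈ ((S \ Q) \ (T \ Q)).powerset, (-1 : K) ^ ((S ∩ Q).card + B'.card) =
          (-1 : K) ^ (S ∩ Q).card * ∑ B' ∈ ((S \ Q) \ (T \ Q)).powerset, (-1 : K) ^ B'.card := by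
        rw [mul_sum]
        apply sum_congr rfl
        intro B' _
        rw [pow_add]
      have h7 : ∑ B' ∈ ((S \ Q) \ (T \ Q)).powerset, (-1 : K) ^ B'.card =
          if (S \ Q) \ (T \ Q) = ∅ then 1 else 0 := by
        have h8 := sum_powerset_neg_one_pow_card (x := (S \ Q) \ (T \ Q))
        have h9 := congrArg (Int.cast : ℤ → K) h8
        push_cast at h9
        exact h9
      rw [h6, h7]
      by_cases h8 : T \ Q = S \ Q
      · rw [if_pos h8, if_pos (by rw [h8, sdiff_self]; rfl), mul_one]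
      · rw [if_neg h8, if_neg, mul_zero, zero_smul]
        intro h9
        rw [sdiff_eq_empty_iff_subset] at h9
        exact h8 (Finset.Subset.antisymm hTQ h9)
    rw [sum_congr rfl h4, ← sum_filter, filter_filter]
    apply sum_congr _ (fun _ _ => rfl)
    ext T
    rw [mem_filter, mem_filter]
    tauto
  rw [h0, LinearMap.sum_apply]
  rfl

theorem ee_zero (w : W K Ω) : ee K Ω 0 w = w := by
  have h : ee K Ω 0 = LinearMap.id := by
    apply linearMap_ext_bs
    intro S
    rw [ee_bs, LinearMap.id_apply]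
    have h1 : S.powerset.filter (fun T => T.card + 0 = S.card) = {S} := by
      ext T
      rw [mem_filter, mem_powerset, mem_singleton, add_zero]
      constructor
      · rintro ⟨h2, h3⟩
        exact eq_of_subset_of_card_le h2 h3.ge
      · rintro rfl
        exact ⟨Finset.Subset.refl _, rfl⟩
    rw [h1, sum_singleton]
  rw [h]
  rfl

/-- on killed vectors only one term remains -/
theorem hop_of_Kil {Q : Finset Ω} {w : W K Ω} (h : Kil Q.card w) :
    hop K Q w = ee K Ω Q.card (gop K Q w) := by
  rw [hop_eq, sum_eq_single_of_mem 0 (mem_range.mpr (Nat.succ_pos _))]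
  · rw [pow_zero, one_smul, Nat.sub_zero, ee_zero]
  · intro i hi hi0
    rw [mem_range] at hi
    rw [h i (Nat.pos_of_ne_zero hi0) (by omega), map_zero, map_zero, smul_zero]

theorem gop_mem_Wd {Q D : Finset Ω} (hQ : Q ⊆ D) {w : W K Ω} (hw : w ∈ Wd K D) :
    gop K Q w ∈ Wd K D := by
  refine Wd_induction (p := fun w => gop K Q w ∈ Wd K D) ?_ ?_ ?_ ?_ hw
  · intro S hS
    rw [gop_bs]
    split_ifs
    · exact bs_mem_Wd (union_subset hS hQ)
    · exact Submodule.zero_mem _
  · rw [map_zero]; exact Submodule.zero_mem _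
  · intro x y hx hy
    rw [map_add]; exact Submodule.add_mem _ hx hy
  · intro r x hx
    rw [map_smul]; exact Submodule.smul_mem _ _ hx

/-- **The Steinberg element passes the test.** -/
theorem mem_TI_of_hop {Q : Finset Ω} {y : MonoidAlgebra K (FSym Ω)}
    (hy : ∀ S, act K Ω y (bs K S) = hop K Q (bs K S)) : y ∈ TI K Ω Q.card := by
  have h1 : act K Ω y = hop K Q := linearMap_ext_bs hy
  rw [mem_TI]
  refine ⟨Q, fun D hD w hw hk => ⟨gop K Q w, gop_mem_Wd hD hw, ?_⟩⟩
  rw [h1, hop_of_Kil hk]

theorem ker_le_TI {m : ℕ} {y : MonoidAlgebra K (FSym Ω)} (hy : act K Ω y = 0) : y ∈ TI K Ω m := by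
  rw [mem_TI]
  refine ⟨∅, fun D hD w hw hk => ⟨0, Submodule.zero_mem _, ?_⟩⟩
  rw [hy, map_zero, LinearMap.zero_apply]

/-! ### adding a letter -/

/-- adding a letter to the sets -/
theorem ee_adj_bs {i : ℕ} {a : Ω} {S : Finset Ω} (ha : a ∉ S) :
    ee K Ω (i + 1) (adj K {a} (bs K S)) =
      adj K {a} (ee K Ω (i + 1) (bs K S)) + ee K Ω i (bs K S) := by
  rw [adj_bs, ee_bs, ee_bs, ee_bs, map_sum]
  simp only [adj_bs]
  rw [← sum_filter_add_sum_filter_not _ (fun T : Finset Ω => a ∈ T)]
  congr 1
  · symm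
    apply sum_bij (fun T _ => T ∪ {a})
    · intro T hT
      rw [mem_filter, mem_powerset] at hT
      have haT : a ∉ T := fun h => ha (hT.1 h)
      rw [mem_filter, mem_filter, mem_powerset]
      refine ⟨⟨union_subset_union hT.1 (Finset.Subset.refl _), ?_⟩, by simp⟩
      rw [card_union_of_disjoint (by simpa using haT), card_union_of_disjoint (by simpa using ha),
        card_singleton]
      omega
    · intro T hT T' hT' h
      rw [mem_filter, mem_powerset] at hT hT'
      have haT : a ∉ T := fun h => ha (hT.1 h)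
      have haT' : a ∉ T' := fun h => ha (hT'.1 h)
      have h1 : (T ∪ {a}).erase a = (T' ∪ {a}).erase a := by rw [h]
      have h2 : ∀ U : Finset Ω, a ∉ U → (U ∪ {a}).erase a = U := by
        intro U hU
        ext z
        rw [mem_erase, mem_union, mem_singleton]
        constructor
        · rintro ⟨h3, h4 | h4⟩
          · exact h4
          · exact absurd h4 h3
        · intro h3
          exact ⟨fun h4 => hU (h4 ▸ h3), Or.inl h3⟩
      rwa [h2 T haT, h2 T' haT'] at h1
    · intro T hT
      rw [mem_filter, mem_filter, mem_powerset] at hT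
      have h1 : T.erase a ∪ {a} = T := by
        ext z
        rw [mem_union, mem_erase, mem_singleton]
        constructor
        · rintro (h3 | h3)
          · exact h3.2
          · rw [h3]; exact hT.2
        · intro h3
          by_cases h4 : z = a
          · exact Or.inr h4
          · exact Or.inl ⟨h4, h3⟩
      refine ⟨T.erase a, ?_, h1⟩
      rw [mem_filter, mem_powerset]
      have h2 : (T.erase a).card + 1 = T.card := card_erase_add_one hT.2
      have h3 : (S ∪ {a}).card = S.card + 1 := by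
        rw [card_union_of_disjoint (by simpa using ha), card_singleton]
      refine ⟨?_, by omega⟩
      intro z hz
      rw [mem_erase] at hz
      have h4 := hT.1.1 hz.2
      rw [mem_union, mem_singleton] at h4
      rcases h4 with h4 | h4
      · exact h4
      · exact absurd h4 hz.1
    · intro T _
      rfl
  · apply sum_congr _ (fun _ _ => rfl)
    ext T
    rw [mem_filter, mem_filter, mem_filter, mem_powerset, mem_powerset]
    have h3 : (S ∪ {a}).card = S.card + 1 := by
      rw [card_union_of_disjoint (by simpa using ha), card_singleton]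
    constructor
    · rintro ⟨⟨h1, h2⟩, h4⟩
      refine ⟨?_, by omega⟩
      intro z hz
      have h5 := h1 hz
      rw [mem_union, mem_singleton] at h5
      rcases h5 with h5 | h5
      · exact h5
      · exact absurd hz (h5 ▸ h4)
    · rintro ⟨h1, h2⟩
      exact ⟨⟨Finset.Subset.trans h1 subset_union_left, by omega⟩, fun h4 => ha (h1 h4)⟩

theorem ee_adj {i : ℕ} {a : Ω} {D : Finset Ω} (ha : a ∉ D) {w : W K Ω} (hw : w ∈ Wd K D) :
    ee K Ω (i + 1) (adj K {a} w) = adj K {a} (ee K Ω (i + 1) w) + ee K Ω i w := by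
  refine Wd_induction (p := fun w => ee K Ω (i + 1) (adj K {a} w) =
    adj K {a} (ee K Ω (i + 1) w) + ee K Ω i w) ?_ ?_ ?_ ?_ hw
  · intro S hS
    exact ee_adj_bs (fun h => ha (hS h))
  · simp
  · intro x y hx hy
    rw [map_add, map_add, hx, hy, map_add, map_add, map_add]
    abel
  · intro r x hx
    rw [map_smul, map_smul, hx, map_smul, map_smul, map_smul, smul_add]

theorem ee_mem_Wd (i : ℕ) {D : Finset Ω} {w : W K Ω} (hw : w ∈ Wd K D) : ee K Ω i w ∈ Wd K D := by
  refine Wd_induction (p := fun w => ee K Ω i w ∈ Wd K D) ?_ ?_ ?_ ?_ hw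
  · intro S hS
    rw [ee_bs]
    apply Submodule.sum_mem
    intro T hT
    rw [mem_filter, mem_powerset] at hT
    exact bs_mem_Wd (Finset.Subset.trans hT.1 hS)
  · rw [map_zero]; exact Submodule.zero_mem _
  · intro x y hx hy
    rw [map_add]; exact Submodule.add_mem _ hx hy
  · intro r x hx
    rw [map_smul]; exact Submodule.smul_mem _ _ hx

theorem adj_mem_Wd {D D' : Finset Ω} {a : Ω} (h : insert a D ⊆ D') {w : W K Ω}
    (hw : w ∈ Wd K D) : adj K {a} w ∈ Wd K D' := by
  refine Wd_induction (p := fun w => adj K {a} w ∈ Wd K D') ?_ ?_ ?_ ?_ hw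
  · intro S hS
    rw [adj_bs]
    apply bs_mem_Wd
    intro z hz
    rw [mem_union, mem_singleton] at hz
    apply h
    rw [mem_insert]
    rcases hz with hz | hz
    · exact Or.inr (hS hz)
    · exact Or.inl hz
  · rw [map_zero]; exact Submodule.zero_mem _
  · intro x y hx hy
    rw [map_add]; exact Submodule.add_mem _ hx hy
  · intro r x hx
    rw [map_smul]; exact Submodule.smul_mem _ _ hx

/-- every vector on the subsets of `insert a D` -/
theorem Wd_insert {D : Finset Ω} {a : Ω} (ha : a ∉ D) {w : W K Ω} (hw : w ∈ Wd K (insert a D)) :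
    ∃ w₀ ∈ Wd K D, ∃ w₁ ∈ Wd K D, w = w₀ + adj K {a} w₁ := by
  refine Wd_induction (p := fun w => ∃ w₀ ∈ Wd K D, ∃ w₁ ∈ Wd K D, w = w₀ + adj K {a} w₁)
    ?_ ?_ ?_ ?_ hw
  · intro S hS
    by_cases h : a ∈ S
    · refine ⟨0, Submodule.zero_mem _, bs K (S.erase a), bs_mem_Wd ?_, ?_⟩
      · intro z hz
        rw [mem_erase] at hz
        exact mem_of_mem_insert_of_ne (hS hz.2) hz.1
      · rw [adj_bs, zero_add]
        congr 1
        ext z
        rw [mem_union, mem_erase, mem_singleton]
        constructor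
        · intro h3
          by_cases h4 : z = a
          · exact Or.inr h4
          · exact Or.inl ⟨h4, h3⟩
        · rintro (h3 | h3)
          · exact h3.2
          · rw [h3]; exact h
    · refine ⟨bs K S, bs_mem_Wd ?_, 0, Submodule.zero_mem _, by rw [map_zero, add_zero]⟩
      intro z hz
      exact mem_of_mem_insert_of_ne (hS hz) (fun h4 => h (h4 ▸ hz))
  · exact ⟨0, Submodule.zero_mem _, 0, Submodule.zero_mem _, by simp⟩
  · rintro x y ⟨x₀, hx₀, x₁, hx₁, rfl⟩ ⟨y₀, hy₀, y₁, hy₁, rfl⟩
    refine ⟨x₀ + y₀, Submodule.add_mem _ hx₀ hy₀, x₁ + y₁, Submodule.add_mem _ hx₁ hy₁, ?_⟩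
    rw [map_add]
    abel
  · rintro r x ⟨x₀, hx₀, x₁, hx₁, rfl⟩
    refine ⟨r • x₀, Submodule.smul_mem _ _ hx₀, r • x₁, Submodule.smul_mem _ _ hx₁, ?_⟩
    rw [map_smul, smul_add]

/-! ### the contraction -/

/-- the contraction of the letters `a` and `b` -/
noncomputable def cap (K : Type*) [Field K] {Ω : Type*} [DecidableEq Ω] (a b : Ω) :
    W K Ω →ₗ[K] W K Ω :=
  Finsupp.linearCombination K
    (fun S : Finset Ω => if a ∈ S then (if b ∈ S then 0 else bs K (S.erase a)) else
      (if b ∈ S then -bs K (S.erase b) else 0))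

theorem cap_bs (a b : Ω) (S : Finset Ω) : cap K a b (bs K S) =
    if a ∈ S then (if b ∈ S then 0 else bs K (S.erase a)) else
      (if b ∈ S then -bs K (S.erase b) else 0) := by
  unfold cap
  rw [Finsupp.linearCombination_single, one_smul]

theorem cap_of_notMem {a b : Ω} {D : Finset Ω} (ha : a ∉ D) (hb : b ∉ D) {w : W K Ω}
    (hw : w ∈ Wd K D) : cap K a b w = 0 := by
  refine Wd_induction (p := fun w => cap K a b w = 0) ?_ ?_ ?_ ?_ hw
  · intro S hS
    rw [cap_bs, if_neg (fun h => ha (hS h)), if_neg (fun h => hb (hS h))]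
  · rw [map_zero]
  · intro x y hx hy
    rw [map_add, hx, hy, add_zero]
  · intro r x hx
    rw [map_smul, hx, smul_zero]

theorem cap_adj_left {a b : Ω} {D : Finset Ω} (hab : a ≠ b) (ha : a ∉ D) (hb : b ∉ D) {w : W K Ω}
    (hw : w ∈ Wd K D) : cap K a b (adj K {a} w) = w := by
  refine Wd_induction (p := fun w => cap K a b (adj K {a} w) = w) ?_ ?_ ?_ ?_ hw
  · intro S hS
    have haS : a ∉ S := fun h => ha (hS h)
    have hbS : b ∉ S := fun h => hb (hS h)
    rw [adj_bs, cap_bs, if_pos (by simp), if_neg]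
    · congr 1
      ext z
      rw [mem_erase, mem_union, mem_singleton]
      constructor
      · rintro ⟨h3, h4 | h4⟩
        · exact h4
        · exact absurd h4 h3
      · intro h3
        exact ⟨fun h4 => haS (h4 ▸ h3), Or.inl h3⟩
    · rw [mem_union, mem_singleton, not_or]
      exact ⟨hbS, hab.symm⟩
  · rw [map_zero, map_zero]
  · intro x y hx hy
    rw [map_add, map_add, hx, hy]
  · intro r x hx
    rw [map_smul, map_smul, hx]

theorem cap_adj_right {a b : Ω} {D : Finset Ω} (hab : a ≠ b) (ha : a ∉ D) (hb : b ∉ D)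
    {w : W K Ω} (hw : w ∈ Wd K D) : cap K a b (adj K {b} w) = -w := by
  refine Wd_induction (p := fun w => cap K a b (adj K {b} w) = -w) ?_ ?_ ?_ ?_ hw
  · intro S hS
    have haS : a ∉ S := fun h => ha (hS h)
    have hbS : b ∉ S := fun h => hb (hS h)
    rw [adj_bs, cap_bs, if_neg, if_pos (by simp)]
    · congr 2
      ext z
      rw [mem_erase, mem_union, mem_singleton]
      constructor
      · rintro ⟨h3, h4 | h4⟩
        · exact h4
        · exact absurd h4 h3
      · intro h3
        exact ⟨fun h4 => hbS (h4 ▸ h3), Or.inl h3⟩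
    · rw [mem_union, mem_singleton, not_or]
      exact ⟨haS, hab⟩
  · rw [map_zero, map_zero, neg_zero]
  · intro x y hx hy
    rw [map_add, map_add, hx, hy]
    abel
  · intro r x hx
    rw [map_smul, map_smul, hx, smul_neg]

theorem cap_adj_both {a b : Ω} {D : Finset Ω} {w : W K Ω}
    (hw : w ∈ Wd K D) : cap K a b (adj K {a} (adj K {b} w)) = 0 := by
  refine Wd_induction (p := fun w => cap K a b (adj K {a} (adj K {b} w)) = 0) ?_ ?_ ?_ ?_ hw
  · intro S hS
    rw [adj_bs, adj_bs, cap_bs, if_pos (by simp), if_pos (by simp)]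
  · rw [map_zero, map_zero, map_zero]
  · intro x y hx hy
    rw [map_add, map_add, map_add, hx, hy, add_zero]
  · intro r x hx
    rw [map_smul, map_smul, map_smul, hx, smul_zero]

/-- **The contraction commutes with the lowering operators, and removes both letters.** -/
theorem cap_ee {a b : Ω} {D : Finset Ω} (hab : a ≠ b) (ha : a ∉ D) (hb : b ∉ D) {w : W K Ω}
    (hw : w ∈ Wd K (insert a (insert b D))) :
    cap K a b w ∈ Wd K D ∧ ∀ i, cap K a b (ee K Ω i w) = ee K Ω i (cap K a b w) := by
  have hab' : a ∉ insert b D := by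
    rw [mem_insert, not_or]; exact ⟨hab, ha⟩
  obtain ⟨u, hu, v, hv, rfl⟩ := Wd_insert hab' hw
  obtain ⟨u₀, hu₀, u₁, hu₁, rfl⟩ := Wd_insert hb hu
  obtain ⟨v₀, hv₀, v₁, hv₁, rfl⟩ := Wd_insert hb hv
  have h1 : cap K a b (u₀ + adj K {b} u₁ + adj K {a} (v₀ + adj K {b} v₁)) = v₀ - u₁ := by
    rw [map_add, map_add, map_add, map_add, cap_of_notMem ha hb hu₀, cap_adj_right hab ha hb hu₁,
      cap_adj_left hab ha hb hv₀, cap_adj_both hv₁]
    abel
  rw [h1]
  refine ⟨Submodule.sub_mem _ hv₀ hu₁, ?_⟩
  intro i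
  rcases i with _ | i
  · rw [ee_zero, ee_zero, h1]
  · have h2 : ee K Ω (i + 1) (adj K {a} (v₀ + adj K {b} v₁)) =
        adj K {a} (ee K Ω (i + 1) v₀) + adj K {a} (adj K {b} (ee K Ω (i + 1) v₁)) +
        adj K {a} (ee K Ω i v₁) + ee K Ω i v₀ + ee K Ω i (adj K {b} v₁) := by
      rw [ee_adj hab' (Submodule.add_mem _ (Wd_mono (subset_insert _ _) hv₀)
        (adj_mem_Wd (Finset.Subset.refl _) hv₁)), map_add, ee_adj hb hv₁, map_add, map_add, map_add]
      abel
    have h3 : cap K a b (ee K Ω i (adj K {b} v₁)) = -ee K Ω i v₁ := by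
      rcases i with _ | i
      · rw [ee_zero, ee_zero, cap_adj_right hab ha hb hv₁]
      · rw [ee_adj hb hv₁, map_add, cap_adj_right hab ha hb (ee_mem_Wd _ hv₁),
          cap_of_notMem ha hb (ee_mem_Wd _ hv₁), add_zero]
    rw [map_add, map_add, h2, (ee K Ω (i + 1)).map_add, ee_adj hb hu₁]
    simp only [map_add]
    rw [cap_of_notMem ha hb (ee_mem_Wd _ hu₀), cap_adj_right hab ha hb (ee_mem_Wd _ hu₁),
      cap_of_notMem ha hb (ee_mem_Wd _ hu₁), cap_adj_left hab ha hb (ee_mem_Wd _ hv₀),
      cap_adj_both (ee_mem_Wd _ hv₁), cap_adj_left hab ha hb (ee_mem_Wd _ hv₁),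
      cap_of_notMem ha hb (ee_mem_Wd _ hv₀), h3, map_sub]
    abel

/-! ### products of differences -/

/-- the products of the differences `b - c` over disjoint pairs -/
inductive Prd (K : Type*) [Field K] {Ω : Type*} [DecidableEq Ω] : Finset Ω → W K Ω → Prop
  | zero : Prd K ∅ (bs K ∅)
  | succ (S : Finset Ω) (u : W K Ω) (b c : Ω) (hbc : b ≠ c) (hb : b ∉ S) (hc : c ∉ S)
      (h : Prd K S u) : Prd K (insert b (insert c S)) (adj K {b} u - adj K {c} u)

theorem Prd.mem {S : Finset Ω} {u : W K Ω} (h : Prd K S u) : u ∈ Wd K S := by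
  induction h with
  | zero => exact bs_mem_Wd (Finset.Subset.refl _)
  | succ S u b c hbc hb hc h ih =>
    refine Submodule.sub_mem _ (adj_mem_Wd ?_ ih) (adj_mem_Wd ?_ ih)
    · exact insert_subset_insert _ (subset_insert _ _)
    · exact subset_insert _ _

theorem Prd.kil {S : Finset Ω} {u : W K Ω} (h : Prd K S u) (m : ℕ) : Kil m u := by
  induction h with
  | zero =>
    intro i h1 _
    rw [ee_bs, sum_eq_zero]
    intro T hT
    rw [mem_filter, mem_powerset, card_empty] at hT
    omega
  | succ S u b c hbc hb hc h ih =>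
    intro i h1 h2
    obtain ⟨j, rfl⟩ : ∃ j, i = j + 1 := ⟨i - 1, by omega⟩
    rw [map_sub, ee_adj hb h.mem, ee_adj hc h.mem, ih _ h1 h2, map_zero, map_zero, zero_add,
      sub_self]

/-- **A product of differences is not in the image of `ee m`.** -/
theorem Prd.not_image {S : Finset Ω} {u : W K Ω} (h : Prd K S u) {m : ℕ} :
    ∀ {Q : Finset Ω}, Disjoint Q S → Q.Nonempty → Q.card < m →
      ¬ ∃ v ∈ Wd K (Q ∪ S), u = ee K Ω m v := by
  induction h with
  | zero =>
    rintro Q - hQ hm ⟨v, hv, h⟩
    rw [union_empty] at hv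
    have h0 : ee K Ω m v = 0 := by
      refine Wd_induction (p := fun v => ee K Ω m v = 0) ?_ ?_ ?_ ?_ hv
      · intro T hT
        rw [ee_bs, sum_eq_zero]
        intro U hU
        rw [mem_filter] at hU
        have := card_le_card hT
        omega
      · rw [map_zero]
      · intro x y hx hy
        rw [map_add, hx, hy, add_zero]
      · intro r x hx
        rw [map_smul, hx, smul_zero]
    rw [h0] at h
    have h1 := DFunLike.congr_fun h (∅ : Finset Ω)
    rw [Finsupp.single_eq_same] at h1
    exact one_ne_zero h1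
  | succ S u b c hbc hb hc h ih =>
    rintro Q hQS ⟨a, haQ⟩ hm ⟨v, hv, hev⟩
    rw [disjoint_insert_right, disjoint_insert_right] at hQS
    obtain ⟨hbQ, hcQ, hQS⟩ := hQS
    have hab : a ≠ b := fun h => hbQ (h ▸ haQ)
    have hac : a ≠ c := fun h => hcQ (h ▸ haQ)
    have haS : a ∉ S := disjoint_left.mp hQS haQ
    -- contract `a` and `b`
    set Q' : Finset Ω := insert c (Q.erase a) with hQ'
    have hcard : Q'.card = Q.card := by
      rw [hQ', card_insert_of_notMem (fun h => hcQ (mem_of_mem_erase h)), card_erase_add_one haQ]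
    have hset : Q ∪ insert b (insert c S) = insert a (insert b (Q' ∪ S)) := by
      ext z
      simp only [hQ', mem_union, mem_insert, mem_erase]
      by_cases h1 : z = a
      · simp [h1, haQ]
      · simp [h1]; tauto
    have ha' : a ∉ Q' ∪ S := by
      rw [mem_union, not_or, hQ', mem_insert, not_or]
      exact ⟨⟨hac, notMem_erase _ _⟩, haS⟩
    have hb' : b ∉ Q' ∪ S := by
      rw [mem_union, not_or, hQ', mem_insert, not_or]
      exact ⟨⟨hbc, fun h => hbQ (mem_of_mem_erase h)⟩, hb⟩
    rw [hset] at hv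
    obtain ⟨h1, h2⟩ := cap_ee hab ha' hb' hv
    have huS : u ∈ Wd K (insert c S) := Wd_mono (subset_insert _ _) h.mem
    have haS' : a ∉ insert c S := by
      rw [mem_insert, not_or]; exact ⟨hac, haS⟩
    have hbS' : b ∉ insert c S := by
      rw [mem_insert, not_or]; exact ⟨hbc, hb⟩
    have h3 : cap K a b (adj K {b} u - adj K {c} u) = -u := by
      rw [map_sub, cap_adj_right hab haS' hbS' huS,
        cap_of_notMem haS' hbS' (adj_mem_Wd (Finset.Subset.refl _) h.mem), sub_zero]
    have h4 : -u = ee K Ω m (cap K a b v) := by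
      rw [← h2 m, ← hev, h3]
    have hdis : Disjoint Q' S := by
      rw [hQ', disjoint_insert_left]
      exact ⟨hc, disjoint_of_subset_left (erase_subset _ _) hQS⟩
    have hne : Q'.Nonempty := ⟨c, mem_insert_self _ _⟩
    refine ih hdis hne (by rw [hcard]; exact hm) ⟨-cap K a b v, Submodule.neg_mem _ h1, ?_⟩
    rw [map_neg, ← h4, neg_neg]

theorem act_fix {Q S : Finset Ω} (h : Disjoint S Q) {y : MonoidAlgebra K (FSym Ω)}
    (hy : y ∈ AD K Q) {u : W K Ω} (hu : u ∈ Wd K S) : act K Ω y u = aug K Ω y • u := by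
  refine Wd_induction (p := fun u => act K Ω y u = aug K Ω y • u) ?_ ?_ ?_ ?_ hu
  · intro T hT
    refine AD_induction (p := fun y => act K Ω y (bs K T) = aug K Ω y • bs K T) ?_ ?_ ?_ ?_ hy
    · intro σ hσ
      rw [act_g, aug_g, one_smul, mv_of_FD hσ (disjoint_of_subset_left hT h)]
    · rw [map_zero, LinearMap.zero_apply, map_zero, zero_smul]
    · intro x y hx hy
      rw [map_add, LinearMap.add_apply, map_add, add_smul, hx, hy]
    · intro r x hx
      rw [map_smul, LinearMap.smul_apply, map_smul, hx, smul_assoc]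
  · rw [map_zero, smul_zero]
  · intro x y hx hy
    rw [map_add, hx, hy, smul_add]
  · intro r x hx
    rw [map_smul, hx, smul_comm]

/-- there are products of differences with letters outside `Q` covering a given finite set, up to
one letter -/
theorem exists_Prd [Infinite Ω] (Q : Finset Ω) (D₀ : Finset Ω) :
    ∃ S : Finset Ω, ∃ u : W K Ω, Prd K S u ∧ Disjoint Q S ∧ D₀ ⊆ Q ∪ S := by
  induction D₀ using Finset.induction_on with
  | empty => exact ⟨∅, bs K ∅, Prd.zero, disjoint_empty_right _, empty_subset _⟩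
  | insert z D hz ih =>
    obtain ⟨S, u, hu, hd, hD⟩ := ih
    by_cases hz' : z ∈ Q ∪ S
    · exact ⟨S, u, hu, hd, insert_subset hz' hD⟩
    · rw [mem_union, not_or] at hz'
      obtain ⟨c, hc⟩ := Infinite.exists_notMem_finset (insert z (Q ∪ S))
      rw [mem_insert, mem_union, not_or, not_or] at hc
      refine ⟨insert z (insert c S), _, Prd.succ S u z c (fun h => hc.1 h.symm) hz'.2 hc.2.2 hu,
        ?_, ?_⟩
      · rw [disjoint_insert_right, disjoint_insert_right]
        exact ⟨hz'.1, hc.2.1, hd⟩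
      · apply insert_subset
        · simp
        · intro w hw
          have := hD hw
          rw [mem_union] at this ⊢
          rcases this with h | h
          · exact Or.inl h
          · exact Or.inr (mem_insert_of_mem (mem_insert_of_mem h))

/-- **Elements of nonzero augmentation moving fewer than `m` letters fail the test.** -/
theorem notMem_TI [Infinite Ω] {Q : Finset Ω} (hQ : Q.Nonempty) {m : ℕ} (hm : Q.card < m)
    {y : MonoidAlgebra K (FSym Ω)} (hy : y ∈ AD K Q) (hay : aug K Ω y ≠ 0) : y ∉ TI K Ω m := by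
  intro h
  rw [mem_TI] at h
  obtain ⟨D₀, hD₀⟩ := h
  obtain ⟨S, u, hu, hd, hD⟩ := exists_Prd (K := K) Q D₀
  obtain ⟨v, hv, hev⟩ := hD₀ (Q ∪ S) hD u (Wd_mono subset_union_right hu.mem) (hu.kil m)
  rw [act_fix hd.symm hy hu.mem] at hev
  apply hu.not_image hd hQ hm
  refine ⟨(aug K Ω y)⁻¹ • v, Submodule.smul_mem _ _ hv, ?_⟩
  rw [map_smul, ← hev, smul_smul, inv_mul_cancel₀ hay, one_smul]

end FinSym.TR
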