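import Pool.Agent.Lib.MP_a8d7f7_al.R2.X4
import Pool.Agent.Lib.MP_a8d7f7_al.R2.I6

/-!
# MP_a8d7f7_al: the membership test describes the ideals `I(k, 0)` (helper5)
-/

set_option autoImplicit false
set_option linter.unusedSectionVars false
set_option linter.unusedVariables false

namespace Rank2

open Finset Equiv FinSym

variable {K : Type*} [Field K] {Ω : Type*} [DecidableEq Ω]

/-- `Ann 2` acts as zero on the finite subsets -/
theorem act_of_mem_Ann {y : MonoidAlgebra K (FSym Ω)} (hy : y ∈ Ann K Ω 2) :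
    TR.act K Ω y = 0 := by
  apply TR.linearMap_ext_bs
  intro S
  rw [LinearMap.zero_apply]
  let j : Finset Ω → (Ω → Fin 2) := fun S z => if z ∈ S then 1 else 0
  have hj : Function.Injective j := by
    intro S T h
    ext z
    have h1 := congrFun h z
    simp only [j] at h1
    by_cases h2 : z ∈ S <;> by_cases h3 : z ∈ T <;> simp [h2, h3] at h1 ⊢
  have h1 : ∀ z : MonoidAlgebra K (FSym Ω), col K Ω 2 z (Finsupp.single (j S) 1) =
      Finsupp.mapDomain j (TR.act K Ω z (TR.bs K S)) := by
    intro z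
    rw [TR.act_expand, expand z (subset_refl _), map_sum, LinearMap.sum_apply,
      Finsupp.mapDomain_finsetSum]
    have h3 : z.coeff.support = (∑ σ ∈ z.coeff.support, z.coeff σ •
        MonoidAlgebra.of K (FSym Ω) σ).coeff.support := by
      rw [← expand z (subset_refl _)]
    rw [← h3]
    apply sum_congr rfl
    intro σ _
    have h4 : (∑ σ ∈ z.coeff.support, z.coeff σ • MonoidAlgebra.of K (FSym Ω) σ).coeff σ =
        z.coeff σ := by
      rw [← expand z (subset_refl _)]
    rw [h4, map_smul, LinearMap.smul_apply, col_of, TR.act_g, Finsupp.mapDomain_smul,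
      Finsupp.mapDomain_single]
    congr 2
    funext a
    simp only [j, Function.comp, TR.mem_mv]
  have h2 := h1 y
  rw [mem_Ann.mp hy, LinearMap.zero_apply] at h2
  have h3 : Finsupp.mapDomain j (TR.act K Ω y (TR.bs K S)) = Finsupp.mapDomain j 0 := by
    rw [← h2, Finsupp.mapDomain_zero]
  exact Finsupp.mapDomain_injective hj h3

theorem Ann_le_TI (m : ℕ) : Ann K Ω 2 ≤ TR.TI K Ω m := fun _ hy =>
  TR.ker_le_TI (act_of_mem_Ann hy)

theorem mem_AD_of_On {D : Finset Ω} {y : MonoidAlgebra K (FSym Ω)} (hy : On D y) :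
    y ∈ TR.AD K D := by
  rw [expand y (subset_refl _)]
  exact Subalgebra.sum_mem _ (fun σ hσ => Subalgebra.smul_mem _ (TR.g_mem_AD (hy σ hσ)) _)

/-- the operator of a Steinberg element -/
theorem act_Steinberg {R : Finset Ω} {s : MonoidAlgebra K (FSym Ω)} (hs : IsSteinberg R s)
    (S : Finset Ω) : TR.act K Ω s (TR.bs K S) = TR.hop K R (TR.bs K S) := by
  rw [TR.act_expand, TR.hop_bs]
  apply Finsupp.ext
  intro T
  rw [Finsupp.finsetSum_apply, Finsupp.finsetSum_apply]
  have hmv : ∀ σ ∈ s.coeff.support, (TR.mv σ S = T ↔ T \ R = S \ R ∧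
      (S ∩ R).image (σ : Perm Ω) = T ∩ R) := by
    intro σ hσ
    have hfix := hs.1 σ hσ
    have hmem : ∀ z, z ∉ R → (z ∈ TR.mv σ S ↔ z ∈ S) := by
      intro z hz
      have h1 := TR.apply_mem_mv (σ := σ) (S := S) (x := z)
      rwa [hfix z hz] at h1
    have hR : ∀ z, (σ : Perm Ω) z ∈ R ↔ z ∈ R := by
      intro z
      constructor
      · intro h
        by_contra hz
        rw [hfix z hz] at h
        exact hz h
      · intro h
        by_contra hz
        have := (σ : Perm Ω).injective (hfix _ hz)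
        rw [this] at hz
        exact hz h
    constructor
    · rintro rfl
      constructor
      · ext z
        rw [mem_sdiff, mem_sdiff]
        constructor
        · rintro ⟨h1, h2⟩
          exact ⟨(hmem z h2).mp h1, h2⟩
        · rintro ⟨h1, h2⟩
          exact ⟨(hmem z h2).mpr h1, h2⟩
      · ext z
        rw [mem_image, mem_inter]
        constructor
        · rintro ⟨y, hy, rfl⟩
          rw [mem_inter] at hy
          exact ⟨TR.apply_mem_mv.mpr hy.1, (hR y).mpr hy.2⟩
        · rintro ⟨h1, h2⟩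
          rw [TR.mem_mv] at h1
          have h3 : (σ : Perm Ω) (((σ⁻¹ : FSym Ω) : Perm Ω) z) = z := TR.self_inv _ _
          refine ⟨_, mem_inter.mpr ⟨h1, ?_⟩, h3⟩
          rw [← hR, h3]
          exact h2
    · rintro ⟨h1, h2⟩
      ext z
      by_cases hz : z ∈ R
      · have h3 : z ∈ T ↔ z ∈ T ∩ R := by rw [mem_inter]; tauto
        rw [h3, ← h2, mem_image, TR.mem_mv]
        have h4 : (σ : Perm Ω) (((σ⁻¹ : FSym Ω) : Perm Ω) z) = z := TR.self_inv _ _
        constructor
        · intro h5
          refine ⟨_, mem_inter.mpr ⟨h5, ?_⟩, h4⟩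
          rw [← hR, h4]
          exact hz
        · rintro ⟨y, hy, rfl⟩
          have h5 : ((σ⁻¹ : FSym Ω) : Perm Ω) ((σ : Perm Ω) y) = y := TR.inv_self _ _
          rw [h5]
          exact (mem_inter.mp hy).1
      · rw [hmem z hz]
        have h3 : z ∈ T ↔ z ∈ T \ R := by rw [mem_sdiff]; tauto
        have h4 : z ∈ S ↔ z ∈ S \ R := by rw [mem_sdiff]; tauto
        rw [h3, h4, h1]
  have hL : ∀ σ ∈ s.coeff.support, (s.coeff σ • TR.act K Ω (TR.g K σ) (TR.bs K S)) T =
      if TR.mv σ S = T then s.coeff σ else 0 := by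
    intro σ _
    rw [TR.act_g, Finsupp.smul_apply, smul_eq_mul, Finsupp.single_apply]
    split_ifs <;> simp
  rw [sum_congr rfl hL]
  have hR' : ∀ T' ∈ (S ∪ R).powerset.filter (fun T' => T' \ R = S \ R ∧ T'.card = S.card),
      ((-1 : K) ^ (S ∩ R).card • TR.bs K T') T = if T' = T then (-1 : K) ^ (S ∩ R).card else 0 := by
    intro T' _
    rw [Finsupp.smul_apply, smul_eq_mul, Finsupp.single_apply]
    split_ifs <;> simp
  rw [sum_congr rfl hR', sum_ite_eq']
  by_cases hT : T \ R = S \ R ∧ T.card = S.card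
  · have hTm : T ∈ (S ∪ R).powerset.filter (fun T' => T' \ R = S \ R ∧ T'.card = S.card) := by
      rw [mem_filter, mem_powerset]
      refine ⟨?_, hT⟩
      intro z hz
      rw [mem_union]
      by_cases h : z ∈ R
      · exact Or.inr h
      · left
        have h1 : z ∈ T \ R := mem_sdiff.mpr ⟨hz, h⟩
        rw [hT.1] at h1
        exact (mem_sdiff.mp h1).1
    rw [if_pos hTm]
    have hcard : (S ∩ R).card = (T ∩ R).card := by
      have h1 := card_inter_add_card_sdiff S R
      have h2 := card_inter_add_card_sdiff T R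
      rw [hT.1] at h2
      omega
    have h1 := hs.2 (S ∩ R) inter_subset_right (T ∩ R) inter_subset_right hcard
    rw [← h1, ← sum_filter]
    apply sum_congr _ (fun _ _ => rfl)
    ext σ
    rw [mem_filter, mem_filter]
    constructor
    · rintro ⟨h2, h3⟩
      exact ⟨h2, ((hmv σ h2).mp h3).2⟩
    · rintro ⟨h2, h3⟩
      exact ⟨h2, (hmv σ h2).mpr ⟨hT.1, h3⟩⟩
  · rw [if_neg]
    · apply sum_eq_zero
      intro σ hσ
      rw [if_neg]
      intro h
      apply hT
      refine ⟨((hmv σ hσ).mp h).1, ?_⟩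
      rw [← h, TR.card_mv]
    · intro h
      rw [mem_filter] at h
      exact hT h.2

theorem Pid_le_TI {p : ℕ} (hp : p.Prime) [CharP K p] (k : ℕ) :
    Id K Ω p k 0 ≤ TR.TI K Ω (p ^ k - 1) := by
  apply Pid_le (Ann_le_TI _)
  intro R s hR hs
  rw [← hR]
  exact TR.mem_TI_of_hop (act_Steinberg ((isSteinberg_iff hp hR).mpr hs))

theorem aug_eq (y : MonoidAlgebra K (FSym Ω)) : TR.aug K Ω y = aug K Ω y := rfl

theorem one_mem_zero {p : ℕ} (hp : p.Prime) [CharP K p] :
    (1 : MonoidAlgebra K (FSym Ω)) ∈ Id K Ω p 0 0 := by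
  apply mem_Pid (R := ∅) (by simp)
  rw [← isSteinberg_iff hp (k := 0) (by simp)]
  refine ⟨On.one _, ?_⟩
  intro A hA B hB _
  rw [subset_empty] at hA hB
  subst hA
  subst hB
  have h1 : (1 : MonoidAlgebra K (FSym Ω)).coeff.support = {1} := by
    rw [MonoidAlgebra.one_def, MonoidAlgebra.coeff_single]
    exact Finsupp.support_single _ one_ne_zero
  rw [h1, filter_singleton, if_pos (by simp), sum_singleton, MonoidAlgebra.one_def,
    MonoidAlgebra.coeff_single, Finsupp.single_eq_same, card_empty, pow_zero]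

/-- **The membership test.** -/
theorem TI_eq {p : ℕ} (hp : p.Prime) [CharP K p] [Infinite Ω] (k : ℕ) :
    TR.TI K Ω (p ^ k - 1) = Id K Ω p k 0 := by
  apply le_antisymm _ (Pid_le_TI hp k)
  rcases Nat.eq_zero_or_pos k with rfl | hk
  · intro y _
    have := (Id K Ω p 0 0).mul_mem_left y 1 (one_mem_zero hp)
    rwa [mul_one] at this
  have hne : TR.TI K Ω (p ^ k - 1) ≠ Ann K Ω 2 := by
    intro h
    have h1 := Pid_le_TI (K := K) (Ω := Ω) hp k
    rw [h] at h1
    exact Id_ne_Ann hp k 0 (le_antisymm h1 (Ann_le_Id p k 0))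
  obtain ⟨k', c', h'⟩ := classification hp (Ann_le_TI (p ^ k - 1)) hne
  have h1 := Pid_le_TI (K := K) (Ω := Ω) hp k
  rw [h'] at h1
  have h2 := (Id_le_Id_iff hp (fun _ => hk)).mp h1
  have hc : c' = 0 := by omega
  subst hc
  rcases Nat.lt_or_ge k' k with hlt | hge
  · by_cases hk' : k' = 0
    · subst hk'
      by_cases h3 : p ^ k = 2
      · -- `p = 2`, `k = 1`
        have hp2 : p = 2 := by
          have h4 : p ∣ 2 := by
            rw [← h3]
            exact dvd_pow_self p hk.ne'
          exact (Nat.prime_dvd_prime_iff_eq hp Nat.prime_two).mp h4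
        subst hp2
        have hk1 : k = 1 := by
          have h4 : 2 ^ k = 2 ^ 1 := by rw [h3, pow_one]
          exact Nat.pow_right_injective le_rfl h4
        subst hk1
        rw [h', Id_two]
      · exfalso
        obtain ⟨a, -⟩ := exists_two (∅ : Finset Ω)
        have h4 : (1 : MonoidAlgebra K (FSym Ω)) ∈ TR.TI K Ω (p ^ k - 1) := by
          rw [h']
          exact one_mem_zero hp
        have h5 : 1 < p ^ k := Nat.one_lt_pow (by omega) hp.one_lt
        refine TR.notMem_TI (Q := {a}) (singleton_nonempty a) ?_ (Subalgebra.one_mem _) ?_ h4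
        · rw [card_singleton]; omega
        · rw [map_one]; exact one_ne_zero
    · exfalso
      obtain ⟨R, hR⟩ := Infinite.exists_subset_card_eq Ω (p ^ k' - 1)
      obtain ⟨s, hs⟩ := exists_StEl (K := K) hp k' hR
      have h4 : s ∈ TR.TI K Ω (p ^ k - 1) := by
        rw [h']
        exact mem_Pid hR hs
      have h5 : p ^ k' < p ^ k := Nat.pow_lt_pow_right hp.one_lt hlt
      have h6 : 1 < p ^ k' := Nat.one_lt_pow hk' hp.one_lt
      refine TR.notMem_TI (Q := R) ?_ ?_ (mem_AD_of_On hs.1) ?_ h4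
      · rw [← card_pos]; omega
      · rw [hR]; omega
      · rw [aug_eq, hs.aug_eq]; exact one_ne_zero
  · rw [h']
    exact Pid_anti hp hge 0

end Rank2
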