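import Pool.Agent.Lib.MP_a8d7f7_al.R2.I7
import Pool.Agent.Lib.MP_a8d7f7_al.R2.X4b

/-!
# MP_a8d7f7_al: coincidences between the ideals `Id k c`, their sign twists and `KZ` (helper5)
-/

set_option autoImplicit false
set_option linter.unusedSectionVars false
set_option linter.unusedVariables false

namespace Rank2

open Finset Equiv FinSym

variable {K : Type*} [Field K] {Ω : Type*} [DecidableEq Ω]

theorem symmetrizer_mem_of_le {Y : TwoSidedIdeal (MonoidAlgebra K (FSym Ω))}
    (h : tw (Ann K Ω 2) ≤ Y) {Δ : Finset Ω} (hΔ : Δ.card = 3) : symmetrizer K Δ ∈ Y := by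
  apply h
  rw [mem_tw, theta_symmetrizer]
  exact antisymmetrizer_mem_Ann (by rw [hΔ]; norm_num)

theorem tw_Ann_le [Infinite Ω] {Y : TwoSidedIdeal (MonoidAlgebra K (FSym Ω))}
    {Δ : Finset Ω} (hΔ : Δ.card = 3) (h : symmetrizer K Δ ∈ Y) : tw (Ann K Ω 2) ≤ Y := by
  rw [← tw_le_tw, tw_tw]
  apply Ann_le _ inferInstance
  intro Δ' hΔ'
  apply antisymmetrizer_mem_of_card (hΔ.trans hΔ'.symm)
  rw [mem_tw, theta_antisymmetrizer]
  exact h

theorem aug_symmetrizer {Δ : Finset Ω} (hΔ : Δ.card = 3) :
    aug K Ω (symmetrizer K Δ) = 6 := by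
  unfold symmetrizer
  rw [map_sum]
  simp only [aug_of]
  rw [sum_const, card_univ, Fintype.card_perm, Fintype.card_coe, hΔ, nsmul_eq_mul, mul_one]
  norm_num [Nat.factorial]

theorem symmetrizer_mem_AD (Δ : Finset Ω) : symmetrizer K Δ ∈ TR.AD K Δ := by
  unfold symmetrizer
  apply Subalgebra.sum_mem
  intro τ _
  exact TR.g_mem_AD (fun z hz => ext_notMem Δ τ hz)

/-- elements of `lowIdeal 1` have augmentation zero -/
theorem aug_of_mem_low {c : ℕ} (hc : 1 ≤ c) {y : MonoidAlgebra K (FSym Ω)}
    (hy : y ∈ lowIdeal K Ω c) : aug K Ω y = 0 := by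
  have h1 := mem_lowIdeal.mp hy ∅ ∅ (by rw [card_empty]; omega)
  have h2 : aug K Ω y = ∑ σ ∈ y.coeff.support, y.coeff σ := by
    conv_lhs => rw [expand y (subset_refl _)]
    rw [map_sum]
    apply sum_congr rfl
    intro σ _
    rw [map_smul, aug_of, smul_eq_mul, mul_one]
  rw [h2]
  rw [filter_true_of_mem] at h1
  · exact h1
  · intro σ _
    exact image_empty _

/-- **`p ≥ 5`: only the whole algebra contains both.** -/
theorem tw_Ann_le_Id {p : ℕ} (hp : p.Prime) [CharP K p] [Infinite Ω] (h5 : 5 ≤ p) {k c : ℕ}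
    (h : tw (Ann K Ω 2) ≤ Id K Ω p k c) : k = 0 ∧ c = 0 := by
  obtain ⟨Δ, hΔ⟩ := Infinite.exists_subset_card_eq Ω 3
  have h1 := symmetrizer_mem_of_le h hΔ
  have h6 : (6 : K) ≠ 0 := by
    intro h6
    have h7 : ((6 : ℕ) : K) = 0 := by exact_mod_cast h6
    rw [CharP.cast_eq_zero_iff K p] at h7
    have h8 : p ∣ 2 * 3 := h7
    rcases (Nat.Prime.dvd_mul hp).mp h8 with h9 | h9
    · have := Nat.le_of_dvd (by norm_num) h9
      omega
    · have := Nat.le_of_dvd (by norm_num) h9
      omega
  constructor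
  · by_contra hk
    have h2 := Pid_le_TI (K := K) (Ω := Ω) hp k (Id_anti p k (Nat.zero_le c) h1)
    have h3 : p ^ 1 ≤ p ^ k := Nat.pow_le_pow_right hp.pos (by omega)
    rw [pow_one] at h3
    refine TR.notMem_TI (Q := Δ) ?_ ?_ (symmetrizer_mem_AD Δ) ?_ h2
    · rw [← card_pos, hΔ]; norm_num
    · rw [hΔ]; omega
    · rw [aug_eq, aug_symmetrizer hΔ]; exact h6
  · by_contra hc
    have h2 := aug_of_mem_low (by omega) (Id_le_low p k c h1)
    rw [aug_symmetrizer hΔ] at h2
    exact h6 h2

/-- in characteristic two the sign twist does nothing -/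
theorem theta_two [CharP K 2] (y : MonoidAlgebra K (FSym Ω)) : theta K Ω y = y := by
  conv_rhs => rw [expand y (subset_refl _)]
  conv_lhs => rw [expand y (subset_refl _)]
  rw [map_sum]
  apply sum_congr rfl
  intro σ _
  rw [map_smul, theta_of]
  congr 1
  have h1 : sgK K σ = 1 := by
    unfold sgK
    rcases Int.units_eq_one_or (sgn σ) with h | h
    · rw [h]; simp
    · rw [h]
      simp only [Units.val_neg, Units.val_one, Int.cast_neg, Int.cast_one]
      have h3 : (2 : K) = 0 := CharTwo.two_eq_zero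
      rw [neg_eq_iff_add_eq_zero, one_add_one_eq_two, h3]
  rw [h1, one_smul]

theorem tw_two [CharP K 2] (Y : TwoSidedIdeal (MonoidAlgebra K (FSym Ω))) : tw Y = Y := by
  ext y
  rw [mem_tw, theta_two]

/-! ### coefficient sums -/

/-- the coefficient sums are the matrix coefficients on the finite subsets -/
theorem coeff_sum (y : MonoidAlgebra K (FSym Ω)) (A B : Finset Ω) :
    ∑ σ ∈ y.coeff.support.filter (fun σ : FSym Ω => A.image (σ : Perm Ω) = B), y.coeff σ =
      TR.act K Ω y (TR.bs K A) B := by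
  rw [TR.act_expand, Finsupp.finsetSum_apply, sum_filter]
  apply sum_congr rfl
  intro σ _
  have h1 : TR.mv σ A = A.image (σ : Perm Ω) := by
    unfold TR.mv
    ext z
    rw [mem_map, mem_image]
    rfl
  rw [TR.act_g, Finsupp.smul_apply, smul_eq_mul, Finsupp.single_apply, h1]
  split_ifs <;> simp

theorem mem_low_one {y : MonoidAlgebra K (FSym Ω)} : y ∈ lowIdeal K Ω 1 ↔ aug K Ω y = 0 := by
  constructor
  · exact aug_of_mem_low le_rfl
  · intro h
    rw [mem_lowIdeal]
    intro A B hA
    have hA0 : A = ∅ := by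
      rw [← card_eq_zero]; omega
    subst hA0
    have h2 : aug K Ω y = ∑ σ ∈ y.coeff.support, y.coeff σ := by
      conv_lhs => rw [expand y (subset_refl _)]
      rw [map_sum]
      apply sum_congr rfl
      intro σ _
      rw [map_smul, aug_of, smul_eq_mul, mul_one]
    by_cases hB : B = ∅
    · subst hB
      rw [filter_true_of_mem, ← h2, h]
      intro σ _
      exact image_empty _
    · rw [filter_false_of_mem, sum_empty]
      intro σ _ h3
      apply hB
      rw [← h3]
      exact image_empty _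

theorem symmetrizer_notMem_low [Infinite Ω] (h2 : (2 : K) ≠ 0) {Δ : Finset Ω} (hΔ : Δ.card = 3)
    {c : ℕ} (hc : 2 ≤ c) : symmetrizer K Δ ∉ lowIdeal K Ω c := by
  intro h
  have hcard : Fintype.card (Fin 3) = Fintype.card Δ := by
    rw [Fintype.card_coe, hΔ, Fintype.card_fin]
  let e : Fin 3 ≃ Δ := Fintype.equivOfCardEq hcard
  have h1 := mem_lowIdeal.mp h {(e 0 : Ω)} {(e 0 : Ω)} (by rw [card_singleton]; omega)
  rw [coeff_sum, ← num_s e] at h1
  have h3 : num K e (S3.s K) = ∑ σ : Perm (Fin 3), MonoidAlgebra.of K (FSym Ω)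
      (ext Δ (e.permCongr σ)) := by
    unfold S3.s
    rw [map_sum]
    simp only [num_G]
  rw [h3, map_sum, LinearMap.sum_apply, Finsupp.finsetSum_apply] at h1
  have h4 : ∀ σ : Perm (Fin 3), (TR.act K Ω (MonoidAlgebra.of K (FSym Ω)
      (ext Δ (e.permCongr σ)))) (TR.bs K {(e 0 : Ω)}) {(e 0 : Ω)} = if σ 0 = 0 then 1 else 0 := by
    intro σ
    have h5 : TR.mv (ext Δ (e.permCongr σ)) {(e 0 : Ω)} = {(e (σ 0) : Ω)} := by
      unfold TR.mv
      rw [map_singleton]
      congr 1
      change ((ext Δ (e.permCongr σ) : FSym Ω) : Perm Ω) (e 0 : Ω) = _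
      rw [ext_mem Δ _ (e 0).2, Equiv.permCongr_apply]
      congr 2
      rw [Subtype.coe_eta, Equiv.symm_apply_apply]
    have h6 : TR.act K Ω (MonoidAlgebra.of K (FSym Ω) (ext Δ (e.permCongr σ)))
        (TR.bs K {(e 0 : Ω)}) = TR.bs K {(e (σ 0) : Ω)} := by
      rw [← h5]
      exact TR.act_g _ _
    rw [h6, Finsupp.single_apply]
    congr 1
    rw [singleton_inj]
    apply propext
    constructor
    · intro h7
      exact e.injective (Subtype.ext h7)
    · intro h7
      rw [h7]
  simp only [h4] at h1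
  rw [sum_boole] at h1
  have h5 : (univ.filter (fun σ : Perm (Fin 3) => σ 0 = 0)).card = 2 := by decide
  rw [h5] at h1
  exact h2 (by exact_mod_cast h1)

/-! ### small elements -/

/-- small elements of `Id k 0` are in `Ann 2` -/
theorem small_mem_Ann {p : ℕ} (hp : p.Prime) [CharP K p] [Infinite Ω] {k : ℕ}
    {R1 : Finset Ω} (hne : R1.Nonempty) (hcard : R1.card < p ^ k - 1)
    {s : MonoidAlgebra K (FSym Ω)} (hon : On R1 s) (hmem : s ∈ Id K Ω p k 0) : s ∈ Ann K Ω 2 := by
  obtain ⟨D, hD⟩ := mem_famIdeal.mp (Pid_le_PIdeal p k hmem)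
  have key : ∀ D0 : Finset Ω, Disjoint R1 D0 →
      poly (R1 ∪ D0) s ∈ P K (p ^ k - 1) ((R1 ∪ D0).disjSum (R1 ∪ D0)) →
      poly R1 s ∈ P K (p ^ k - 1) (R1.disjSum R1) := by
    intro D0
    induction D0 using Finset.induction_on with
    | empty => intro _ h; rwa [union_empty] at h
    | insert a D0 ha ih =>
      intro hdis h
      rw [disjoint_insert_right] at hdis
      have ha' : a ∉ R1 ∪ D0 := by
        rw [mem_union, not_or]; exact ⟨hdis.1, ha⟩
      have hon' : On (R1 ∪ D0) s := hon.mono subset_union_left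
      apply ih hdis.2
      rw [union_insert, poly_insert ha' hon', ds_insert] at h
      refine P.torsion (poly_dep hon') ?_ (by simp) (by simp [ha']) (by simp [ha']) h
      obtain ⟨r, hr⟩ := hne
      exact ⟨Sum.inl r, inl_mem_disjSum.mpr (mem_union_left _ hr)⟩
  obtain ⟨-, h1⟩ := hD (R1 ∪ (D \ R1)) (by
    intro z hz
    rw [mem_union, mem_sdiff]
    by_cases h : z ∈ R1
    · exact Or.inl h
    · exact Or.inr ⟨hz, h⟩)
  have h2 := key _ disjoint_sdiff h1
  rw [P.small (by rw [card_disjSum]; omega), Submodule.mem_bot] at h2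
  exact mem_Ann_of_poly hon h2

theorem On_symmetrizer (Δ : Finset Ω) : On Δ (symmetrizer K Δ) := by
  intro σ hσ
  apply support_antisymmetrizer (K := K) Δ σ
  have h4 := support_theta (antisymmetrizer K Δ)
  rw [theta_antisymmetrizer] at h4
  exact h4 hσ

/-! ### characteristic three -/

/-- the Steinberg elements on two letters in characteristic three -/
theorem steinberg_three [CharP K 3] {a b : Ω} (hab : a ≠ b) :
    IsSteinberg {a, b} (-1 - MonoidAlgebra.of K (FSym Ω) (sw a b)) := by
  have hon : On {a, b} (-1 - MonoidAlgebra.of K (FSym Ω) (sw a b)) := by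
    have h1 : On {a, b} (e K a b) := e_On' a b
    have h2 : (-1 - MonoidAlgebra.of K (FSym Ω) (sw a b)) =
        e K a b - ((1 : MonoidAlgebra K (FSym Ω)) + 1) := by
      unfold e
      abel
    rw [h2]
    exact h1.sub ((On.one _).add (On.one _))
  refine ⟨hon, ?_⟩
  intro A hA B hB hAB
  have h3 : (3 : K) = 0 := by
    have := CharP.cast_eq_zero K 3
    exact_mod_cast this
  rw [coeff_sum, map_sub, map_neg, map_one, LinearMap.sub_apply, LinearMap.neg_apply,
    Module.End.one_apply]
  have hact : TR.act K Ω (MonoidAlgebra.of K (FSym Ω) (sw a b)) (TR.bs K A) =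
      TR.bs K (TR.mv (sw a b) A) := TR.act_g _ _
  rw [hact, Finsupp.sub_apply, Finsupp.neg_apply, Finsupp.single_apply, Finsupp.single_apply]
  have hcases : ∀ A : Finset Ω, A ⊆ {a, b} → A = ∅ ∨ A = {a} ∨ A = {b} ∨ A = {a, b} := by
    intro A hA
    by_cases h1 : a ∈ A <;> by_cases h2 : b ∈ A
    · right; right; right
      apply Finset.Subset.antisymm hA
      intro z hz
      rw [mem_insert, mem_singleton] at hz
      rcases hz with rfl | rfl <;> assumption
    · right; left
      ext z
      rw [mem_singleton]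
      constructor
      · intro hz
        have h4 := hA hz
        rw [mem_insert, mem_singleton] at h4
        rcases h4 with h4 | h4
        · exact h4
        · exact absurd (h4 ▸ hz) h2
      · rintro rfl; exact h1
    · right; right; left
      ext z
      rw [mem_singleton]
      constructor
      · intro hz
        have h4 := hA hz
        rw [mem_insert, mem_singleton] at h4
        rcases h4 with h4 | h4
        · exact absurd (h4 ▸ hz) h1
        · exact h4
      · rintro rfl; exact h2
    · left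
      rw [eq_empty_iff_forall_notMem]
      intro z hz
      have h4 := hA hz
      rw [mem_insert, mem_singleton] at h4
      rcases h4 with rfl | rfl
      · exact h1 hz
      · exact h2 hz
  have hba : b ≠ a := hab.symm
  have m0 : TR.mv (sw a b) ∅ = ∅ := by
    unfold TR.mv; exact map_empty _
  have ma : TR.mv (sw a b) {a} = {b} := by
    unfold TR.mv
    rw [map_singleton]
    congr 1
    exact swap_apply_left a b
  have mb : TR.mv (sw a b) {b} = {a} := by
    unfold TR.mv
    rw [map_singleton]
    congr 1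
    exact swap_apply_right a b
  have mab : TR.mv (sw a b) {a, b} = {a, b} := by
    apply eq_of_subset_of_card_le
    · intro z hz
      unfold TR.mv at hz
      rw [mem_map] at hz
      obtain ⟨w, hw, rfl⟩ := hz
      rw [mem_insert, mem_singleton] at hw
      rcases hw with rfl | rfl
      · change swap w b w ∈ _
        rw [swap_apply_left]; simp
      · change swap a w w ∈ _
        rw [swap_apply_right]; simp
    · rw [TR.card_mv]
  rcases hcases A hA with rfl | rfl | rfl | rfl
  · have hB0 : B = ∅ := by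
      rw [card_empty] at hAB
      exact card_eq_zero.mp hAB.symm
    subst hB0
    rw [m0, if_pos rfl, card_empty, pow_zero]
    linear_combination -h3
  · rw [ma, card_singleton, pow_one]
    rcases hcases B hB with rfl | rfl | rfl | rfl
    · simp at hAB
    · rw [if_pos rfl, if_neg (by simpa using hba)]; ring
    · rw [if_pos rfl, if_neg (by simpa using hab)]; ring
    · rw [card_singleton, card_pair hab] at hAB; omega
  · rw [mb, card_singleton, pow_one]
    rcases hcases B hB with rfl | rfl | rfl | rfl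
    · simp at hAB
    · rw [if_pos rfl, if_neg (by simpa using hba)]; ring
    · rw [if_pos rfl, if_neg (by simpa using hab)]; ring
    · rw [card_singleton, card_pair hab] at hAB; omega
  · have hB2 : B = {a, b} := eq_of_subset_of_card_le hB (by rw [← hAB])
    subst hB2
    rw [mab, if_pos rfl, card_pair hab]
    linear_combination -h3

theorem one_add_sw_mem [CharP K 3] [Infinite Ω] {a b : Ω} (hab : a ≠ b) :
    1 + MonoidAlgebra.of K (FSym Ω) (sw a b) ∈ Id K Ω 3 1 0 := by
  have h1 : (-1 - MonoidAlgebra.of K (FSym Ω) (sw a b)) ∈ Id K Ω 3 1 0 := by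
    have hR : ({a, b} : Finset Ω).card = 3 ^ 1 - 1 := card_pair hab
    exact mem_Pid hR ((isSteinberg_iff Nat.prime_three hR).mp (steinberg_three hab))
  have h2 := (Id K Ω 3 1 0).neg_mem h1
  have h3 : -(-1 - MonoidAlgebra.of K (FSym Ω) (sw a b)) =
      1 + MonoidAlgebra.of K (FSym Ω) (sw a b) := by abel
  rwa [h3] at h2

theorem ext_swap {Δ : Finset Ω} (x y : Δ) : ext Δ (swap x y) = sw (x : Ω) y := by
  apply Subtype.ext
  apply Equiv.ext
  intro z
  change ((ext Δ (swap x y) : FSym Ω) : Perm Ω) z = swap (x : Ω) y z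
  by_cases hz : z ∈ Δ
  · rw [ext_mem Δ _ hz]
    by_cases h1 : z = x
    · subst h1
      rw [swap_apply_left, swap_apply_left]
    · by_cases h2 : z = y
      · subst h2
        rw [swap_apply_right, swap_apply_right]
      · rw [swap_apply_of_ne_of_ne h1 h2, swap_apply_of_ne_of_ne]
        · intro h3; exact h1 (congrArg Subtype.val h3)
        · intro h3; exact h2 (congrArg Subtype.val h3)
  · rw [ext_notMem Δ _ hz, swap_apply_of_ne_of_ne]
    · rintro rfl; exact hz x.2
    · rintro rfl; exact hz y.2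

/-- **`p = 3`.** -/
theorem tw_Ann_le_three [CharP K 3] [Infinite Ω] {k c : ℕ} :
    tw (Ann K Ω 2) ≤ Id K Ω 3 k c ↔ k ≤ 1 ∧ c ≤ 1 := by
  have h3 : (3 : K) = 0 := by
    have := CharP.cast_eq_zero K 3
    exact_mod_cast this
  have h2 : (2 : K) ≠ 0 := by
    intro h
    have h4 : (1 : K) = 0 := by linear_combination h3 - h
    exact one_ne_zero h4
  obtain ⟨Δ, hΔ⟩ := Infinite.exists_subset_card_eq Ω 3
  constructor
  · intro h
    have h1 := symmetrizer_mem_of_le h hΔ
    have hlow : ∀ c, 2 ≤ c → symmetrizer K Δ ∉ lowIdeal K Ω c := fun c hc =>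
      symmetrizer_notMem_low h2 hΔ hc
    constructor
    · by_contra hk
      push Not at hk
      have h4 : 3 ^ 2 ≤ 3 ^ k := Nat.pow_le_pow_right (by norm_num) hk
      have h5 := small_mem_Ann Nat.prime_three (k := k) (R1 := Δ) (by rw [← card_pos, hΔ]; norm_num)
        (by rw [hΔ]; omega) (On_symmetrizer Δ) (Id_anti 3 k (Nat.zero_le c) h1)
      exact hlow 2 le_rfl (Id_le_low 3 0 2 (Ann_le_Id 3 0 2 h5))
    · by_contra hc
      push Not at hc
      exact hlow c hc (Id_le_low 3 k c h1)
  · rintro ⟨hk, hc⟩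
    apply tw_Ann_le hΔ
    have h11 : symmetrizer K Δ ∈ Id K Ω 3 1 1 := by
      rw [Id_eq_inf Nat.prime_three, TwoSidedIdeal.mem_inf]
      constructor
      · have hcard : Fintype.card (Fin 3) = Fintype.card Δ := by
          rw [Fintype.card_coe, hΔ, Fintype.card_fin]
        let e : Fin 3 ≃ Δ := Fintype.equivOfCardEq hcard
        rw [← num_s e, S3.s_eq, map_mul]
        apply TwoSidedIdeal.mul_mem_left
        rw [map_add, map_one, num_G]
        have h4 : e.permCongr S3.t = swap (e 0) (e 1) := by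
          apply Equiv.ext
          intro z
          rw [Equiv.permCongr_apply]
          unfold S3.t
          by_cases h5 : z = e 0
          · subst h5
            rw [Equiv.symm_apply_apply, swap_apply_left, swap_apply_left]
          · by_cases h6 : z = e 1
            · subst h6
              rw [Equiv.symm_apply_apply, swap_apply_right, swap_apply_right]
            · rw [swap_apply_of_ne_of_ne h5 h6, swap_apply_of_ne_of_ne, Equiv.apply_symm_apply]
              · intro h7; exact h5 (by rw [← h7, Equiv.apply_symm_apply])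
              · intro h7; exact h6 (by rw [← h7, Equiv.apply_symm_apply])
        rw [h4, ext_swap]
        apply one_add_sw_mem
        intro h5
        have h6 := e.injective (Subtype.ext h5)
        exact absurd h6 (by decide)
      · rw [← lowIdeal_eq Nat.prime_three, mem_low_one, aug_symmetrizer hΔ]
        linear_combination 2 * h3
    exact (Pid_anti Nat.prime_three hk c) (Id_anti 3 1 hc h11)

theorem tw_inf (I J : TwoSidedIdeal (MonoidAlgebra K (FSym Ω))) : tw (I ⊓ J) = tw I ⊓ tw J := by
  ext y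
  rw [mem_tw, TwoSidedIdeal.mem_inf, TwoSidedIdeal.mem_inf, mem_tw, mem_tw]

theorem mem_Id_one {p : ℕ} (hp : p.Prime) [CharP K p] [Infinite Ω]
    {y : MonoidAlgebra K (FSym Ω)} : y ∈ Id K Ω p 0 1 ↔ aug K Ω y = 0 := by
  rw [← lowIdeal_eq hp, mem_low_one]

theorem theta_sw {a b : Ω} (hab : a ≠ b) : theta K Ω (MonoidAlgebra.of K (FSym Ω) (sw a b)) =
    -MonoidAlgebra.of K (FSym Ω) (sw a b) := by
  rw [theta_of]
  have h1 : sgn (sw a b : FSym Ω) = -1 := by
    have h2 := ext_swap (⟨a, by simp⟩ : ({a, b} : Finset Ω)) (⟨b, by simp⟩ : ({a, b} : Finset Ω))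
    rw [← h2, sgn_ext, Perm.sign_swap]
    intro h3
    exact hab (congrArg Subtype.val h3)
  unfold sgK
  rw [h1]
  simp

/-- `p = 3`: the sign twist exchanges the two maximal ideals of the list -/
theorem tw_three [CharP K 3] [Infinite Ω] : tw (Id K Ω 3 0 1) = Id K Ω 3 1 0 := by
  have h3 : (3 : K) = 0 := by
    have := CharP.cast_eq_zero K 3
    exact_mod_cast this
  have h2 : (2 : K) ≠ 0 := by
    intro h
    have h4 : (1 : K) = 0 := by linear_combination h3 - h
    exact one_ne_zero h4
  have hA : Ann K Ω 2 ≤ tw (Id K Ω 3 0 1) := by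
    rw [← tw_le_tw, tw_tw]
    exact tw_Ann_le_three.mpr ⟨by norm_num, le_rfl⟩
  obtain ⟨a, b, hab, -, -⟩ := exists_two (∅ : Finset Ω)
  have hmem : 1 + MonoidAlgebra.of K (FSym Ω) (sw a b) ∈ tw (Id K Ω 3 0 1) := by
    rw [mem_tw, mem_Id_one Nat.prime_three, map_add, map_add, map_one, map_one, theta_sw hab,
      map_neg, aug_of]
    ring
  have haug : aug K Ω (1 + MonoidAlgebra.of K (FSym Ω) (sw a b)) ≠ 0 := by
    rw [map_add, map_one, aug_of, one_add_one_eq_two]
    exact h2
  have hne : tw (Id K Ω 3 0 1) ≠ Ann K Ω 2 := by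
    intro h
    rw [h] at hmem
    exact haug (aug_of_mem_low le_rfl (Id_le_low 3 0 1 (Ann_le_Id 3 0 1 hmem)))
  obtain ⟨k', c', h4⟩ := classification Nat.prime_three hA hne
  rw [h4] at hmem ⊢
  have hc : c' = 0 := by
    by_contra hc
    exact haug (aug_of_mem_low (by omega) (Id_le_low 3 k' c' hmem))
  subst hc
  have hR : ({a, b} : Finset Ω).card = 3 ^ 1 - 1 := card_pair hab
  have hs := (isSteinberg_iff Nat.prime_three hR).mp (steinberg_three (K := K) hab)
  have h5 : (-1 - MonoidAlgebra.of K (FSym Ω) (sw a b)) ∈ Id K Ω 3 k' 0 := by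
    have h6 := (Id K Ω 3 k' 0).neg_mem hmem
    have h7 : -(1 + MonoidAlgebra.of K (FSym Ω) (sw a b)) =
      -1 - MonoidAlgebra.of K (FSym Ω) (sw a b) := by abel
    rwa [h7] at h6
  rcases lt_of_StEl Nat.prime_three hR hs h5 with h6 | ⟨h6, -, -⟩
  · have h7 : k' ≠ 0 := by
      rintro rfl
      have h8 : (1 : MonoidAlgebra K (FSym Ω)) ∈ tw (Id K Ω 3 0 1) := by
        rw [h4]
        exact one_mem_zero Nat.prime_three
      rw [mem_tw, map_one, mem_Id_one Nat.prime_three, map_one] at h8
      exact one_ne_zero h8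
    have h8 : k' = 1 := by omega
    rw [h8]
  · exact absurd h6 (by norm_num)

/-- the coefficients of the parity map -/
theorem mem_KZ_iff (h2 : (2 : K) ≠ 0) {y : MonoidAlgebra K (FSym Ω)} :
    y ∈ KZ K Ω ↔ aug K Ω y = 0 ∧ aug K Ω (theta K Ω y) = 0 := by
  rw [mem_KZ]
  have h1 : aug K Ω y = (par K Ω y).coeff 1 + (par K Ω y).coeff (-1) := by
    rw [expand y (subset_refl _), map_sum, map_sum, MonoidAlgebra.coeff_sum,
      Finsupp.finsetSum_apply, Finsupp.finsetSum_apply, ← sum_add_distrib]
    apply sum_congr rfl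
    intro σ _
    rw [map_smul, map_smul, aug_of, par_of, MonoidAlgebra.coeff_smul, Finsupp.smul_apply,
      Finsupp.smul_apply]
    have hof : (MonoidAlgebra.of K ℤˣ) (sgn σ) = MonoidAlgebra.single (sgn σ) 1 := rfl
    rw [hof, MonoidAlgebra.coeff_single]
    rcases Int.units_eq_one_or (sgn σ) with h | h
    · rw [h, Finsupp.single_eq_same, Finsupp.single_eq_of_ne (by decide)]
      simp
    · rw [h, Finsupp.single_eq_same, Finsupp.single_eq_of_ne (by decide)]
      simp
  have h3 : aug K Ω (theta K Ω y) = (par K Ω y).coeff 1 - (par K Ω y).coeff (-1) := by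
    rw [expand y (subset_refl _), map_sum, map_sum, map_sum, MonoidAlgebra.coeff_sum,
      Finsupp.finsetSum_apply, Finsupp.finsetSum_apply, ← sum_sub_distrib]
    apply sum_congr rfl
    intro σ _
    rw [map_smul, map_smul, map_smul, theta_of, map_smul, aug_of, par_of, MonoidAlgebra.coeff_smul,
      Finsupp.smul_apply, Finsupp.smul_apply]
    have hof : (MonoidAlgebra.of K ℤˣ) (sgn σ) = MonoidAlgebra.single (sgn σ) 1 := rfl
    rw [hof, MonoidAlgebra.coeff_single]
    unfold sgK
    rcases Int.units_eq_one_or (sgn σ) with h | h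
    · rw [h, Finsupp.single_eq_same, Finsupp.single_eq_of_ne (by decide)]
      simp
    · rw [h, Finsupp.single_eq_same, Finsupp.single_eq_of_ne (by decide)]
      simp
  constructor
  · intro h
    rw [h1, h3, h]
    simp
  · rintro ⟨h4, h5⟩
    rw [h1] at h4
    rw [h3] at h5
    have h6 : (par K Ω y).coeff 1 = 0 := by
      have h7 : 2 * (par K Ω y).coeff 1 = 0 := by linear_combination h4 + h5
      exact (mul_eq_zero.mp h7).resolve_left h2
    have h7 : (par K Ω y).coeff (-1) = 0 := by linear_combination h4 - h6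
    apply MonoidAlgebra.ext
    apply Finsupp.ext
    intro z
    rcases Int.units_eq_one_or z with rfl | rfl
    · exact h6
    · exact h7

/-- `p = 3`: `KZ` is in the list -/
theorem KZ_three [CharP K 3] [Infinite Ω] : KZ K Ω = Id K Ω 3 1 1 := by
  have h3 : (3 : K) = 0 := by
    have := CharP.cast_eq_zero K 3
    exact_mod_cast this
  have h2 : (2 : K) ≠ 0 := by
    intro h
    have h4 : (1 : K) = 0 := by linear_combination h3 - h
    exact one_ne_zero h4
  ext y
  rw [mem_KZ_iff h2, Id_eq_inf Nat.prime_three, TwoSidedIdeal.mem_inf, ← tw_three, mem_tw,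
    mem_Id_one Nat.prime_three, mem_Id_one Nat.prime_three]
  exact and_comm

/-- `KZ` contains the antisymmetrizers only for `p = 3` -/
theorem Ann_le_KZ_iff {p : ℕ} (hp : p.Prime) [CharP K p] [Infinite Ω] :
    Ann K Ω 2 ≤ KZ K Ω ↔ p = 3 := by
  constructor
  · intro h
    obtain ⟨Δ, hΔ⟩ := Infinite.exists_subset_card_eq Ω 3
    have h1 : antisymmetrizer K Δ ∈ KZ K Ω := h (antisymmetrizer_mem_Ann (by rw [hΔ]; norm_num))
    rw [mem_KZ] at h1
    unfold antisymmetrizer at h1
    rw [map_sum] at h1
    have h2 := congrArg (fun z => z.coeff (1 : ℤˣ)) h1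
    simp only [MonoidAlgebra.coeff_sum, MonoidAlgebra.coeff_zero, Finsupp.coe_zero,
      Pi.zero_apply] at h2
    rw [Finsupp.finsetSum_apply] at h2
    have h4 : ∀ τ : Perm Δ, (par K Ω (((Perm.sign τ : ℤ) : K) • MonoidAlgebra.of K (FSym Ω)
        (ext Δ τ))).coeff (1 : ℤˣ) = if Perm.sign τ = 1 then 1 else 0 := by
      intro τ
      rw [map_smul, par_of, MonoidAlgebra.coeff_smul, Finsupp.smul_apply, sgn_ext]
      have hof : (MonoidAlgebra.of K ℤˣ) (Perm.sign τ) = MonoidAlgebra.single (Perm.sign τ) 1 :=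
        rfl
      rw [hof, MonoidAlgebra.coeff_single]
      rcases Int.units_eq_one_or (Perm.sign τ) with h | h
      · rw [h, Finsupp.single_eq_same]; simp
      · rw [h, Finsupp.single_eq_of_ne (by decide), if_neg (by decide), smul_zero]
    simp only [h4] at h2
    rw [sum_boole] at h2
    have : Nontrivial Δ := by
      rw [← Fintype.one_lt_card_iff_nontrivial, Fintype.card_coe]
      omega
    have h5 : (univ.filter (fun τ : Perm Δ => Perm.sign τ = 1)).card = 3 := by
      have h6 := two_mul_card_alternatingGroup (α := Δ)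
      rw [Fintype.card_perm, Fintype.card_coe, hΔ] at h6
      have h7 : Fintype.card (alternatingGroup Δ) =
          (univ.filter (fun τ : Perm Δ => Perm.sign τ = 1)).card := by
        rw [← Fintype.card_subtype]
        exact Fintype.card_congr (Equiv.refl _)
      rw [h7] at h6
      have h8 : Nat.factorial 3 = 6 := rfl
      omega
    rw [h5] at h2
    have h6 : ((3 : ℕ) : K) = 0 := h2
    rw [CharP.cast_eq_zero_iff K p] at h6
    exact (Nat.prime_dvd_prime_iff_eq hp Nat.prime_three).mp h6
  · rintro rfl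
    rw [KZ_three]
    exact Ann_le_Id 3 1 1

end Rank2
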