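import Pool.Agent.Lib.MP_a8d7f7_al.Chain

/-!
# MP_a8d7f7_al, two rows: the action on finite subsets (helper5)

`K[FSym Ω]` acts on the vector space `W` with basis the finite subsets of `Ω`; the kernel is
`Ann K Ω 2`.
-/

set_option autoImplicit false
set_option linter.unusedSectionVars false
set_option linter.unusedVariables false

namespace FinSym.TR

open Finset Equiv

variable {K : Type*} [Field K] {Ω : Type*}

theorem inv_self (σ : Perm Ω) (x : Ω) : σ⁻¹ (σ x) = x := σ.symm_apply_apply x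

theorem self_inv (σ : Perm Ω) (x : Ω) : σ (σ⁻¹ x) = x := σ.apply_symm_apply x

/-- the image of a finite set under a permutation -/
def mv (σ : FSym Ω) (S : Finset Ω) : Finset Ω := S.map (σ : Perm Ω).toEmbedding

theorem mem_mv {σ : FSym Ω} {S : Finset Ω} {x : Ω} :
    x ∈ mv σ S ↔ ((σ⁻¹ : FSym Ω) : Perm Ω) x ∈ S := by
  unfold mv
  rw [mem_map]
  constructor
  · rintro ⟨y, hy, rfl⟩
    change (σ : Perm Ω)⁻¹ ((σ : Perm Ω) y) ∈ S
    rwa [inv_self]
  · intro h
    refine ⟨_, h, ?_⟩
    change (σ : Perm Ω) ((σ : Perm Ω)⁻¹ x) = x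
    exact self_inv _ _

theorem apply_mem_mv {σ : FSym Ω} {S : Finset Ω} {x : Ω} :
    (σ : Perm Ω) x ∈ mv σ S ↔ x ∈ S := by
  rw [mem_mv]
  change (σ : Perm Ω)⁻¹ ((σ : Perm Ω) x) ∈ S ↔ _
  rw [inv_self]

theorem mv_one (S : Finset Ω) : mv 1 S = S := by
  ext x
  rw [mem_mv]
  simp

theorem mv_mul (σ τ : FSym Ω) (S : Finset Ω) : mv (σ * τ) S = mv σ (mv τ S) := by
  ext x
  rw [mem_mv, mem_mv, mem_mv, mul_inv_rev]
  rfl

@[simp] theorem card_mv (σ : FSym Ω) (S : Finset Ω) : (mv σ S).card = S.card := card_map _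

theorem mv_subset {σ : FSym Ω} {S T : Finset Ω} : mv σ S ⊆ mv σ T ↔ S ⊆ T := by
  unfold mv
  exact map_subset_map

theorem mv_inj {σ : FSym Ω} {S T : Finset Ω} (h : mv σ S = mv σ T) : S = T :=
  map_injective _ h

/-- the vector space with basis the finite subsets -/
abbrev W (K : Type*) [Field K] (Ω : Type*) := Finset Ω →₀ K

/-- a basis vector -/
noncomputable abbrev bs (K : Type*) [Field K] {Ω : Type*} (S : Finset Ω) : W K Ω :=
  Finsupp.single S 1

/-- The action of `FSym Ω` on the finite subsets. -/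
noncomputable def actHom (K : Type*) [Field K] (Ω : Type*) :
    FSym Ω →* Module.End K (W K Ω) where
  toFun σ := Finsupp.lmapDomain K K (mv σ)
  map_one' := by
    apply LinearMap.ext
    intro x
    rw [Finsupp.lmapDomain_apply]
    have : mv (1 : FSym Ω) = id := funext mv_one
    rw [this]
    exact Finsupp.mapDomain_id
  map_mul' σ τ := by
    apply LinearMap.ext
    intro x
    rw [Module.End.mul_apply, Finsupp.lmapDomain_apply, Finsupp.lmapDomain_apply,
      Finsupp.lmapDomain_apply, ← Finsupp.mapDomain_comp]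
    congr 1
    funext S
    exact mv_mul σ τ S

/-- The algebra `K[FSym Ω]` acts on the vector space with basis the finite subsets. -/
noncomputable def act (K : Type*) [Field K] (Ω : Type*) :
    MonoidAlgebra K (FSym Ω) →ₐ[K] Module.End K (W K Ω) :=
  MonoidAlgebra.lift K _ _ (actHom K Ω)

/-- the group elements -/
noncomputable abbrev g (K : Type*) [Field K] {Ω : Type*} (σ : FSym Ω) :
    MonoidAlgebra K (FSym Ω) := MonoidAlgebra.of K (FSym Ω) σ

theorem g_mul (σ τ : FSym Ω) : g K (σ * τ) = g K σ * g K τ :=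
  (MonoidAlgebra.of K (FSym Ω)).map_mul σ τ

theorem g_one : g K (1 : FSym Ω) = 1 := (MonoidAlgebra.of K (FSym Ω)).map_one

theorem act_g_apply (σ : FSym Ω) (w : W K Ω) :
    act K Ω (g K σ) w = Finsupp.mapDomain (mv σ) w := by
  have h1 : act K Ω (g K σ) = actHom K Ω σ := MonoidAlgebra.lift_of _ _
  rw [h1]
  rfl

theorem act_g_single (σ : FSym Ω) (S : Finset Ω) (a : K) :
    act K Ω (g K σ) (Finsupp.single S a) = Finsupp.single (mv σ S) a := by
  rw [act_g_apply, Finsupp.mapDomain_single]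

theorem act_g (σ : FSym Ω) (S : Finset Ω) :
    act K Ω (g K σ) (bs K S) = bs K (mv σ S) := act_g_single σ S 1

/-- two vectors of `End W` agree if they agree on the basis -/
theorem act_ext {x y : MonoidAlgebra K (FSym Ω)}
    (h : ∀ S : Finset Ω, act K Ω x (bs K S) = act K Ω y (bs K S)) : act K Ω x = act K Ω y := by
  apply Finsupp.lhom_ext
  intro S a
  have h1 : (Finsupp.single S a : W K Ω) = a • bs K S := by
    rw [Finsupp.smul_single, smul_eq_mul, mul_one]
  rw [h1, map_smul, map_smul, h S]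

/-- expansion over the group -/
theorem act_expand (x : MonoidAlgebra K (FSym Ω)) (w : W K Ω) :
    act K Ω x w = ∑ σ ∈ x.coeff.support, x.coeff σ • act K Ω (g K σ) w := by
  conv_lhs => rw [expand x (subset_refl _)]
  rw [map_sum, LinearMap.sum_apply]
  apply sum_congr rfl
  intro σ _
  rw [map_smul, LinearMap.smul_apply]

/-- the sum of the coefficients -/
noncomputable def aug (K : Type*) [Field K] (Ω : Type*) : MonoidAlgebra K (FSym Ω) →ₐ[K] K :=
  MonoidAlgebra.lift K _ _ (1 : FSym Ω →* K)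

theorem aug_g (σ : FSym Ω) : aug K Ω (g K σ) = 1 := by
  have h1 : aug K Ω (g K σ) = (1 : FSym Ω →* K) σ := MonoidAlgebra.lift_of _ _
  rw [h1]
  rfl

/-! ### permutations moving only letters of `D` -/

/-- the permutations moving only letters of `D` -/
def FD (D : Finset Ω) : Subgroup (FSym Ω) where
  carrier := {σ | ∀ z, z ∉ D → (σ : Perm Ω) z = z}
  mul_mem' := by
    intro a b ha hb z hz
    change (a : Perm Ω) ((b : Perm Ω) z) = z
    rw [hb z hz, ha z hz]
  one_mem' := by
    intro z hz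
    rfl
  inv_mem' := by
    intro a ha z hz
    change (a : Perm Ω)⁻¹ z = z
    rw [Perm.inv_eq_iff_eq, ha z hz]

theorem mem_FD {D : Finset Ω} {σ : FSym Ω} : σ ∈ FD D ↔ ∀ z, z ∉ D → (σ : Perm Ω) z = z :=
  Iff.rfl

theorem FD_mono {D D' : Finset Ω} (h : D ⊆ D') : FD D ≤ FD D' :=
  fun _ hσ z hz => hσ z (fun hz' => hz (h hz'))

theorem FD_maps {D : Finset Ω} {σ : FSym Ω} (hσ : σ ∈ FD D) {x : Ω} (hx : x ∈ D) :
    (σ : Perm Ω) x ∈ D := by
  by_contra h
  have h1 := hσ _ h
  have h2 := (σ : Perm Ω).injective h1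
  rw [h2] at h
  exact h hx

theorem FD_commute {D D' : Finset Ω} (h : Disjoint D D') {σ τ : FSym Ω} (hσ : σ ∈ FD D)
    (hτ : τ ∈ FD D') : σ * τ = τ * σ := by
  apply Subtype.ext
  apply Equiv.ext
  intro x
  change (σ : Perm Ω) ((τ : Perm Ω) x) = (τ : Perm Ω) ((σ : Perm Ω) x)
  by_cases hx : x ∈ D
  · rw [hτ x (disjoint_left.mp h hx), hτ _ (disjoint_left.mp h (FD_maps hσ hx))]
  · rw [hσ x hx]
    by_cases hx' : x ∈ D'
    · rw [hσ _ (disjoint_right.mp h (FD_maps hτ hx'))]
    · rw [hτ x hx', hσ x hx]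

theorem exists_FD (σ : FSym Ω) : ∃ D : Finset Ω, σ ∈ FD D := by
  classical
  refine ⟨(mem_FSym.mp σ.2).toFinset, fun z hz => ?_⟩
  rw [Set.Finite.mem_toFinset] at hz
  by_contra hcon
  exact hz hcon

/-- the elements of the group algebra moving only letters of `D` -/
noncomputable def AD (K : Type*) [Field K] {Ω : Type*} (D : Finset Ω) :
    Subalgebra K (MonoidAlgebra K (FSym Ω)) where
  carrier := {x | x ∈ Submodule.span K ((g K) '' (FD D : Set (FSym Ω)))}
  mul_mem' := by
    intro a b ha hb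
    change a ∈ Submodule.span K ((g K) '' (FD D : Set (FSym Ω))) at ha
    change b ∈ Submodule.span K ((g K) '' (FD D : Set (FSym Ω))) at hb
    change a * b ∈ Submodule.span K ((g K) '' (FD D : Set (FSym Ω)))
    induction ha using Submodule.span_induction with
    | mem x hx =>
      obtain ⟨σ, hσ, rfl⟩ := hx
      induction hb using Submodule.span_induction with
      | mem y hy =>
        obtain ⟨τ, hτ, rfl⟩ := hy
        exact Submodule.subset_span ⟨σ * τ, (FD D).mul_mem hσ hτ, g_mul σ τ⟩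
      | zero => rw [mul_zero]; exact Submodule.zero_mem _
      | add x y _ _ hx hy => rw [mul_add]; exact Submodule.add_mem _ hx hy
      | smul r x _ hx => rw [mul_smul_comm]; exact Submodule.smul_mem _ _ hx
    | zero => rw [zero_mul]; exact Submodule.zero_mem _
    | add x y _ _ hx hy => rw [add_mul]; exact Submodule.add_mem _ hx hy
    | smul r x _ hx => rw [smul_mul_assoc]; exact Submodule.smul_mem _ _ hx
  add_mem' := by
    intro a b ha hb
    exact (Submodule.span K ((g K) '' (FD D : Set (FSym Ω)))).add_mem ha hb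
  algebraMap_mem' := by
    intro r
    have h1 : (algebraMap K (MonoidAlgebra K (FSym Ω))) r = r • g K (1 : FSym Ω) := by
      rw [g_one, Algebra.algebraMap_eq_smul_one]
    change _ ∈ Submodule.span K ((g K) '' (FD D : Set (FSym Ω)))
    rw [h1]
    exact Submodule.smul_mem _ _ (Submodule.subset_span ⟨1, (FD D).one_mem, rfl⟩)

theorem mem_AD {D : Finset Ω} {x : MonoidAlgebra K (FSym Ω)} :
    x ∈ AD K D ↔ x ∈ Submodule.span K ((g K) '' (FD D : Set (FSym Ω))) := Iff.rfl

theorem g_mem_AD {D : Finset Ω} {σ : FSym Ω} (h : σ ∈ FD D) : g K σ ∈ AD K D :=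
  Submodule.subset_span ⟨σ, h, rfl⟩

/-- induction over `AD` -/
theorem AD_induction {D : Finset Ω} {p : MonoidAlgebra K (FSym Ω) → Prop}
    (hg : ∀ σ ∈ FD D, p (g K σ)) (h0 : p 0) (hadd : ∀ x y, p x → p y → p (x + y))
    (hsmul : ∀ (r : K) x, p x → p (r • x)) {x : MonoidAlgebra K (FSym Ω)} (hx : x ∈ AD K D) :
    p x := by
  rw [mem_AD] at hx
  induction hx using Submodule.span_induction with
  | mem x hx =>
    obtain ⟨σ, hσ, rfl⟩ := hx
    exact hg σ hσ
  | zero => exact h0
  | add x y _ _ hx hy => exact hadd x y hx hy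
  | smul r x _ hx => exact hsmul r x hx

theorem AD_mono {D D' : Finset Ω} (h : D ⊆ D') : AD K D ≤ AD K D' := by
  intro x hx
  exact Submodule.span_mono (Set.image_mono (FD_mono h)) hx

theorem exists_AD (x : MonoidAlgebra K (FSym Ω)) : ∃ D : Finset Ω, x ∈ AD K D := by
  classical
  obtain ⟨D, hD⟩ := exists_support x
  refine ⟨D, ?_⟩
  rw [expand x (subset_refl _)]
  exact Subalgebra.sum_mem _ (fun σ hσ => Subalgebra.smul_mem _ (g_mem_AD (hD σ hσ)) _)

theorem AD_commute {D D' : Finset Ω} (h : Disjoint D D') {x y : MonoidAlgebra K (FSym Ω)}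
    (hx : x ∈ AD K D) (hy : y ∈ AD K D') : x * y = y * x := by
  refine AD_induction (p := fun x => x * y = y * x) ?_ ?_ ?_ ?_ hx
  · intro σ hσ
    refine AD_induction (p := fun y => g K σ * y = y * g K σ) ?_ ?_ ?_ ?_ hy
    · intro τ hτ
      rw [← g_mul, FD_commute h hσ hτ, g_mul]
    · rw [mul_zero, zero_mul]
    · intro x y hx hy
      rw [mul_add, add_mul, hx, hy]
    · intro r x hx
      rw [mul_smul_comm, smul_mul_assoc, hx]
  · rw [mul_zero, zero_mul]
  · intro x y hx hy
    rw [mul_add, add_mul, hx, hy]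
  · intro r x hx
    rw [mul_smul_comm, smul_mul_assoc, hx]

/-- in characteristic free form: an element of augmentation zero is in the span of the
`σ (1 - τ)` -/
theorem g_conj_mem {D : Finset Ω} (ρ : FSym Ω) {σ : FSym Ω} (hσ : σ ∈ FD D) :
    ρ * σ * ρ⁻¹ ∈ FD (mv ρ D) := by
  intro z hz
  rw [mem_mv] at hz
  have h1 := hσ _ hz
  change (ρ : Perm Ω) ((σ : Perm Ω) (((ρ⁻¹ : FSym Ω) : Perm Ω) z)) = z
  rw [h1]
  change (ρ : Perm Ω) ((ρ : Perm Ω)⁻¹ z) = z
  exact self_inv _ _

theorem AD_conj {D : Finset Ω} (ρ : FSym Ω) {x : MonoidAlgebra K (FSym Ω)} (hx : x ∈ AD K D) :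
    g K ρ * x * g K ρ⁻¹ ∈ AD K (mv ρ D) := by
  refine AD_induction (p := fun x => g K ρ * x * g K ρ⁻¹ ∈ AD K (mv ρ D)) ?_ ?_ ?_ ?_ hx
  · intro σ hσ
    rw [← g_mul, ← g_mul]
    exact g_mem_AD (g_conj_mem ρ hσ)
  · rw [mul_zero, zero_mul]
    exact Subalgebra.zero_mem _
  · intro x y hx hy
    rw [mul_add, add_mul]
    exact Subalgebra.add_mem _ hx hy
  · intro r x hx
    rw [mul_smul_comm, smul_mul_assoc]
    exact Subalgebra.smul_mem _ hx r

theorem aug_conj (ρ : FSym Ω) (x : MonoidAlgebra K (FSym Ω)) :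
    aug K Ω (g K ρ * x * g K ρ⁻¹) = aug K Ω x := by
  rw [map_mul, map_mul, aug_g, aug_g, one_mul, mul_one]

/-- conjugation by a permutation fixing `D` does nothing on `AD D` -/
theorem conj_of_FD {D : Finset Ω} {ρ : FSym Ω} (hρ : ∀ z ∈ D, (ρ : Perm Ω) z = z)
    {x : MonoidAlgebra K (FSym Ω)} (hx : x ∈ AD K D) : g K ρ * x * g K ρ⁻¹ = x := by
  refine AD_induction (p := fun x => g K ρ * x * g K ρ⁻¹ = x) ?_ ?_ ?_ ?_ hx
  · intro σ hσ
    rw [← g_mul, ← g_mul]
    congr 1
    apply Subtype.ext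
    apply Equiv.ext
    intro z
    change (ρ : Perm Ω) ((σ : Perm Ω) ((ρ : Perm Ω)⁻¹ z)) = (σ : Perm Ω) z
    by_cases hz : z ∈ D
    · have h1 : (ρ : Perm Ω)⁻¹ z = z := by
        rw [Perm.inv_eq_iff_eq, hρ z hz]
      rw [h1, hρ _ (FD_maps hσ hz)]
    · have h1 : (ρ : Perm Ω)⁻¹ z ∉ D := by
        intro h2
        have h3 := hρ _ h2
        rw [self_inv] at h3
        rw [h3] at hz
        exact hz h2
      rw [hσ _ h1, self_inv, hσ _ hz]
  · rw [mul_zero, zero_mul]
  · intro x y hx hy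
    rw [mul_add, add_mul, hx, hy]
  · intro r x hx
    rw [mul_smul_comm, smul_mul_assoc, hx]

/-! ### adding letters to subsets -/

variable [DecidableEq Ω]

theorem mv_union {σ : FSym Ω} (S B : Finset Ω) : mv σ (S ∪ B) = mv σ S ∪ mv σ B := by
  unfold mv
  exact map_union _ _

theorem mv_of_fix {σ : FSym Ω} {B : Finset Ω} (h : ∀ z ∈ B, (σ : Perm Ω) z = z) :
    mv σ B = B := by
  apply eq_of_subset_of_card_le
  · intro z hz
    unfold mv at hz
    rw [mem_map] at hz
    obtain ⟨y, hy, rfl⟩ := hz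
    change (σ : Perm Ω) y ∈ B
    rw [h y hy]
    exact hy
  · rw [card_mv]

theorem mv_of_FD {D : Finset Ω} {σ : FSym Ω} (h : σ ∈ FD D) {B : Finset Ω} (hB : Disjoint B D) :
    mv σ B = B := mv_of_fix (fun z hz => h z (disjoint_left.mp hB hz))

/-- adjoin the letters of `B` to all subsets -/
noncomputable def adj (K : Type*) [Field K] {Ω : Type*} [DecidableEq Ω] (B : Finset Ω) :
    W K Ω →ₗ[K] W K Ω := Finsupp.lmapDomain K K (fun S => S ∪ B)

theorem adj_single (B S : Finset Ω) (a : K) :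
    adj K B (Finsupp.single S a) = Finsupp.single (S ∪ B) a := by
  unfold adj
  rw [Finsupp.lmapDomain_apply, Finsupp.mapDomain_single]

theorem adj_bs (B S : Finset Ω) : adj K B (bs K S) = bs K (S ∪ B) := adj_single B S 1

theorem act_adj {D B : Finset Ω} (h : Disjoint B D) {x : MonoidAlgebra K (FSym Ω)}
    (hx : x ∈ AD K D) (w : W K Ω) : act K Ω x (adj K B w) = adj K B (act K Ω x w) := by
  refine AD_induction (p := fun x => act K Ω x (adj K B w) = adj K B (act K Ω x w))
    ?_ ?_ ?_ ?_ hx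
  · intro σ hσ
    induction w using Finsupp.induction_linear with
    | zero => simp
    | add v w hv hw => rw [map_add, map_add, hv, hw, map_add, map_add]
    | single S a =>
      rw [adj_single, act_g_single, act_g_single, adj_single, mv_union, mv_of_FD hσ h]
  · rw [map_zero, LinearMap.zero_apply, LinearMap.zero_apply, map_zero]
  · intro x y hx hy
    rw [map_add, LinearMap.add_apply, LinearMap.add_apply, map_add, hx, hy]
  · intro r x hx
    rw [map_smul, LinearMap.smul_apply, LinearMap.smul_apply, map_smul, hx]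

/-- the vectors supported by the sets `T` with `T \ D = R` -/
def Wsub (K : Type*) [Field K] {Ω : Type*} [DecidableEq Ω] (D : Finset Ω) (R : Finset Ω) (n : ℕ) :
    Submodule K (W K Ω) := Finsupp.supported K K {T : Finset Ω | T \ D = R ∧ T.card = n}

theorem mem_Wsub {D R : Finset Ω} {n : ℕ} {w : W K Ω} :
    w ∈ Wsub K D R n ↔ ∀ T, w T ≠ 0 → T \ D = R ∧ T.card = n := by
  unfold Wsub
  rw [Finsupp.mem_supported]
  constructor
  · intro h T hT
    exact h (Finsupp.mem_support_iff.mpr hT)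
  · intro h T hT
    exact h T (Finsupp.mem_support_iff.mp hT)

theorem act_mem_Wsub {D R : Finset Ω} {n : ℕ} {x : MonoidAlgebra K (FSym Ω)} (hx : x ∈ AD K D)
    {w : W K Ω} (hw : w ∈ Wsub K D R n) : act K Ω x w ∈ Wsub K D R n := by
  refine AD_induction (p := fun x => act K Ω x w ∈ Wsub K D R n) ?_ ?_ ?_ ?_ hx
  · intro σ hσ
    rw [act_g_apply, mem_Wsub]
    intro T hT
    have h1 : T ∈ (Finsupp.mapDomain (mv σ) w).support := Finsupp.mem_support_iff.mpr hT
    have h2 := Finsupp.mapDomain_support h1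
    rw [mem_image] at h2
    obtain ⟨S, hS, rfl⟩ := h2
    have h3 := mem_Wsub.mp hw S (Finsupp.mem_support_iff.mp hS)
    refine ⟨?_, by rw [card_mv]; exact h3.2⟩
    rw [← h3.1]
    ext z
    rw [mem_sdiff, mem_sdiff]
    constructor
    · rintro ⟨hz, hzD⟩
      refine ⟨?_, hzD⟩
      have h4 := hσ z hzD
      rw [← h4] at hz
      exact apply_mem_mv.mp hz
    · rintro ⟨hz, hzD⟩
      refine ⟨?_, hzD⟩
      have h4 := hσ z hzD
      rw [← h4]
      exact apply_mem_mv.mpr hz
  · rw [map_zero, LinearMap.zero_apply]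
    exact Submodule.zero_mem _
  · intro x y hx hy
    rw [map_add, LinearMap.add_apply]
    exact Submodule.add_mem _ hx hy
  · intro r x hx
    rw [map_smul, LinearMap.smul_apply]
    exact Submodule.smul_mem _ _ hx

theorem bs_mem_Wsub (D S : Finset Ω) : bs K S ∈ Wsub K D (S \ D) S.card := by
  rw [mem_Wsub]
  intro T hT
  have h1 : T = S := by
    by_contra h
    apply hT
    exact Finsupp.single_eq_of_ne h
  rw [h1]
  exact ⟨rfl, rfl⟩

/-- an element of `AD D` changes only the part in `D`, and preserves the size -/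
theorem act_bs_ne_zero {D S T : Finset Ω} {x : MonoidAlgebra K (FSym Ω)} (hx : x ∈ AD K D)
    (h : act K Ω x (bs K S) T ≠ 0) : T \ D = S \ D ∧ T.card = S.card :=
  mem_Wsub.mp (act_mem_Wsub hx (bs_mem_Wsub D S)) T h

end FinSym.TR
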